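import Pool.Agent.LibSchQ.Y2
import Pool.Agent.LibSchP.A4b

/-! **G1.**  The path `Θ(h) = (Kᴴ α(h)^(2/q) K)^(1/2)`, `α(h) = α₀ + h α₁`, `q > 2`. -/

open Matrix
open scoped ComplexOrder

namespace Pool.Agent.LibSchQ

open Pool.Agent.LibSchP

variable {n : Type} [Fintype n] [DecidableEq n]

omit [DecidableEq n] in
theorem g1_min (x : n → ℝ) (hx : ∀ k, 0 < x k) : ∃ m₀ : ℝ, 0 < m₀ ∧ ∀ k, m₀ ≤ x k := by
  rcases isEmpty_or_nonempty n with he | hne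
  · exact ⟨1, one_pos, fun k => he.elim k⟩
  · obtain ⟨k, hk⟩ := Finite.exists_min x
    exact ⟨x k, hx k, hk⟩

omit [Fintype n] [DecidableEq n] in
theorem g1_smul_isHermitian (h : ℝ) (α₁ : Matrix n n ℂ) (h1 : α₁.IsHermitian) :
    ((h : ℂ) • α₁).IsHermitian := by
  unfold Matrix.IsHermitian at *
  rw [conjTranspose_smul, h1]
  simp

/-- a Hermitian matrix near a positive definite one has eigenvalues bounded below -/
theorem g1_near (α₀ : Matrix n n ℂ) (h0 : α₀.PosDef) : ∃ m₀ : ℝ, 0 < m₀ ∧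
    ∃ U ∈ unitaryGroup n ℂ, ∃ x : n → ℝ, (∀ k, m₀ ≤ x k) ∧ α₀ = ud U x ∧
    ∀ H : Matrix n n ℂ, H.IsHermitian → nf (H - α₀) ≤ m₀ / 2 →
      ∃ V ∈ unitaryGroup n ℂ, ∃ y : n → ℝ, (∀ k, m₀ / 2 ≤ y k) ∧ H = ud V y := by
  obtain ⟨U, hU, x, hx, hα⟩ := ud_exists_pos α₀ h0
  obtain ⟨m₀, hm, hmx⟩ := g1_min x hx
  refine ⟨m₀, hm, U, hU, x, hmx, hα, fun H hH hn => ?_⟩
  have hsp := ud_exists H hH
  set V : Matrix n n ℂ := (hH.eigenvectorUnitary : Matrix n n ℂ) with hV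
  have hVm : V ∈ unitaryGroup n ℂ := (hH.eigenvectorUnitary).2
  refine ⟨V, hVm, hH.eigenvalues, fun k => ?_, hsp⟩
  have hUc : Uᴴ ∈ unitaryGroup n ℂ := a4a_conj_mem U hU
  have hW : Uᴴ * V ∈ unitaryGroup n ℂ := mul_mem hUc hVm
  have e1 : ud (Uᴴ * V) hH.eigenvalues - dg x = Uᴴ * (H - α₀) * U := by
    rw [Matrix.mul_sub, Matrix.sub_mul, hα, a2_back U hU]
    congr 1
    conv_rhs => rw [hsp]
    unfold ud
    rw [conjTranspose_mul, conjTranspose_conjTranspose]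
    simp only [Matrix.mul_assoc]
  have e2 : nf (ud (Uᴴ * V) hH.eigenvalues - dg x) ≤ m₀ / 2 := by
    rw [e1, nf_mul_unitary U hU, nf_unitary_mul Uᴴ hUc]
    exact hn
  have := ud_ge (Uᴴ * V) hW hH.eigenvalues x m₀ (m₀ / 2) hmx e2 k
  linarith

/-- positive definiteness is open -/
theorem posDef_near (α₀ α₁ : Matrix n n ℂ) (h0 : α₀.PosDef) (h1 : α₁.IsHermitian) :
    ∃ η : ℝ, 0 < η ∧ ∀ h : ℝ, |h| ≤ η → (α₀ + (h : ℂ) • α₁).PosDef := by
  obtain ⟨m₀, hm, U, hU, x, hx, hα, H⟩ := g1_near α₀ h0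
  have hn := nf_nonneg α₁
  refine ⟨m₀ / 2 / (nf α₁ + 1), by positivity, fun h hh => ?_⟩
  have hHerm : (α₀ + (h : ℂ) • α₁).IsHermitian := h0.isHermitian.add (g1_smul_isHermitian h α₁ h1)
  have hle : nf (α₀ + (h : ℂ) • α₁ - α₀) ≤ m₀ / 2 := by
    rw [add_sub_cancel_left, nf_smul, Complex.norm_real, Real.norm_eq_abs]
    calc |h| * nf α₁ ≤ m₀ / 2 / (nf α₁ + 1) * (nf α₁ + 1) := by
          refine mul_le_mul hh (by linarith) hn (by positivity)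
      _ = m₀ / 2 := by field_simp
  obtain ⟨V, hV, y, hy, hHe⟩ := H _ hHerm hle
  rw [hHe]
  exact ud_posDef V hV y fun k => lt_of_lt_of_le (by positivity) (hy k)

theorem g1_rpow_lip (r a R : ℝ) (ha : 0 < a) (haR : a ≤ R) (s t : ℝ) (hs : a ≤ s) (hsR : s ≤ R)
    (ht : a ≤ t) (htR : t ≤ R) :
    |s ^ r - t ^ r| ≤ |r| * (a ^ (r - 1) + R ^ (r - 1)) * |s - t| := by
  have h := Convex.norm_image_sub_le_of_norm_hasDerivWithin_le (𝕜 := ℝ)
    (f := fun x : ℝ => x ^ r) (f' := fun x : ℝ => r * x ^ (r - 1))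
    (C := |r| * (a ^ (r - 1) + R ^ (r - 1)))
    (s := Set.Icc a R) (x := t) (y := s)
    (fun x hx => (Real.hasDerivAt_rpow_const (Or.inl (ha.trans_le hx.1).ne')).hasDerivWithinAt)
    (fun x hx => by
      rw [Real.norm_eq_abs, abs_mul, abs_of_nonneg (Real.rpow_nonneg (ha.trans_le hx.1).le _)]
      refine mul_le_mul_of_nonneg_left ?_ (abs_nonneg r)
      rcases le_total 0 (r - 1) with h1 | h1
      · have := Real.rpow_le_rpow (ha.trans_le hx.1).le hx.2 h1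
        have h2 := Real.rpow_nonneg ha.le (r - 1)
        linarith
      · have := Real.rpow_le_rpow_of_nonpos ha hx.1 h1
        have h2 := Real.rpow_nonneg (ha.le.trans haR) (r - 1)
        linarith)
    (convex_Icc a R) ⟨ht, htR⟩ ⟨hs, hsR⟩
  simpa [Real.norm_eq_abs] using h

/-- powers are Lipschitz near a positive definite point: eigenvalues `≥ m₀/2` near `α₀`
(`ud_ge` after conjugation with the eigenvectors of `α₀`), `ud_lip`. -/
theorem rp_lip_near (r : ℝ) (α₀ : Matrix n n ℂ) (h0 : α₀.PosDef) : ∃ L η : ℝ, 0 ≤ L ∧ 0 < η ∧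
    ∀ X : Matrix n n ℂ, X.PosDef → nf (X - α₀) ≤ η → nf (rp r X - rp r α₀) ≤ L * nf (X - α₀) := by
  obtain ⟨m₀, hm, U, hU, x, hx, hα, H⟩ := g1_near α₀ h0
  have hn := nf_nonneg α₀
  set R : ℝ := nf α₀ + m₀ with hR
  have hL : 0 ≤ |r| * ((m₀ / 2) ^ (r - 1) + R ^ (r - 1)) := by positivity
  refine ⟨|r| * ((m₀ / 2) ^ (r - 1) + R ^ (r - 1)), m₀ / 2, hL, by positivity,
    fun X hX hXn => ?_⟩
  obtain ⟨V, hV, y, hy, hXe⟩ := H X hX.isHermitian hXn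
  have hXR : nf X ≤ R := by
    have h1 : X = α₀ + (X - α₀) := by abel
    have h2 := nf_add_le α₀ (X - α₀)
    rw [← h1] at h2
    linarith
  rw [hXe, hα, rp_ud r V hV, rp_ud r U hU]
  refine ud_lip V U hV hU y x (fun t => t ^ r) _ hL fun j k => ?_
  have hyR : y j ≤ R := by
    have h1 := (le_abs_self _).trans (ud_le_nf V hV y j)
    rw [← hXe] at h1
    linarith
  have hxR : x k ≤ R := by
    have h1 := (le_abs_self _).trans (ud_le_nf U hU x k)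
    rw [← hα] at h1
    linarith
  exact g1_rpow_lip r (m₀ / 2) R (by positivity) (by linarith [hx k]) (y j) (x k) (hy j) hyR
    (by linarith [hx k]) hxR

/-- `Θ = rp (1/2) X`, `X = Kᴴ (a a) K`, `a = rp (1/q) α(h)`; `rp_lip_near` for `r = 1/q`,
`nf X` Lipschitz, `LibSchP.sqrt_lip` with `m₀ = min θ`; `pw q Θ = pw q (a K)` by `pw_congr`. -/
theorem theta_path (q : ℝ) (hq : 2 < q) (K α₀ α₁ : Matrix n n ℂ) (θ : n → ℝ)
    (hα₀ : α₀.PosDef) (hα₁ : α₁.IsHermitian) (hθ : ∀ k, 0 < θ k)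
    (hK : Kᴴ * (rp (1 / q) α₀ * rp (1 / q) α₀) * K = dg fun k => θ k ^ 2) :
    ∃ C η : ℝ, 0 ≤ C ∧ 0 < η ∧ ∀ h : ℝ, |h| ≤ η → (α₀ + (h : ℂ) • α₁).PosDef ∧
      ∃ Θ : Matrix n n ℂ, Θ.PosSemidef ∧
        Θ * Θ = Kᴴ * (rp (1 / q) (α₀ + (h : ℂ) • α₁) * rp (1 / q) (α₀ + (h : ℂ) • α₁)) * K ∧
        nf (Θ - dg θ) ≤ C * |h| ∧
        LibSch.pw q Θ = LibSch.pw q (rp (1 / q) (α₀ + (h : ℂ) • α₁) * K) := by
  obtain ⟨m₀, hm, hmθ⟩ := g1_min θ hθ
  obtain ⟨η₁, hη₁, hP⟩ := posDef_near α₀ α₁ hα₀ hα₁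
  obtain ⟨L, η₂, hL, hη₂, hLip⟩ := rp_lip_near (1 / q) α₀ hα₀
  set a₀ : Matrix n n ℂ := rp (1 / q) α₀ with ha₀
  have hn1 := nf_nonneg α₁
  have hn0 := nf_nonneg a₀
  have hnK := nf_nonneg K
  set D : ℝ := L * nf α₁ with hD
  have hD0 : 0 ≤ D := by positivity
  set η : ℝ := min (min η₁ 1) (η₂ / (nf α₁ + 1)) with hη
  have hηp : 0 < η := lt_min (lt_min hη₁ one_pos) (by positivity)
  refine ⟨m₀⁻¹ * (nf K * (D * (2 * nf a₀ + D)) * nf K), η, by positivity, hηp, fun h hh => ?_⟩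
  have hh1 : |h| ≤ η₁ := hh.trans ((min_le_left _ _).trans (min_le_left _ _))
  have hh2 : |h| ≤ 1 := hh.trans ((min_le_left _ _).trans (min_le_right _ _))
  have hh3 : |h| ≤ η₂ / (nf α₁ + 1) := hh.trans (min_le_right _ _)
  have hpd := hP h hh1
  set α : Matrix n n ℂ := α₀ + (h : ℂ) • α₁ with hα
  set a : Matrix n n ℂ := rp (1 / q) α with ha
  have haH : aᴴ = a := rp_isHermitian _ _
  have hdiff : nf (α - α₀) = |h| * nf α₁ := by
    rw [hα, add_sub_cancel_left, nf_smul, Complex.norm_real, Real.norm_eq_abs]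
  have hle2 : nf (α - α₀) ≤ η₂ := by
    rw [hdiff]
    calc |h| * nf α₁ ≤ η₂ / (nf α₁ + 1) * (nf α₁ + 1) :=
          mul_le_mul hh3 (by linarith) hn1 (by positivity)
      _ = η₂ := by field_simp
  have hlip := hLip α hpd hle2
  rw [hdiff] at hlip
  have hlip' : nf (a - a₀) ≤ D * |h| := by
    calc nf (a - a₀) ≤ L * (|h| * nf α₁) := hlip
      _ = D * |h| := by rw [hD]; ring
  refine ⟨hpd, ?_⟩
  have hsq : (Kᴴ * (a * a) * K) = (a * K)ᴴ * (a * K) := by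
    rw [conjTranspose_mul, haH]
    simp only [Matrix.mul_assoc]
  have hps : (Kᴴ * (a * a) * K).PosSemidef := by
    rw [hsq]
    exact posSemidef_conjTranspose_mul_self _
  refine ⟨rp (1 / 2) (Kᴴ * (a * a) * K), rp_posSemidef _ _ hps, rp_half_mul _ hps, ?_, ?_⟩
  · have h1 := sqrt_lip m₀ hm (rp (1 / 2) (Kᴴ * (a * a) * K)) (rp_posSemidef _ _ hps) θ hmθ
    refine h1.trans ?_
    rw [rp_half_mul _ hps, ← hK, mul_assoc m₀⁻¹]
    refine mul_le_mul_of_nonneg_left ?_ (inv_nonneg.2 hm.le)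
    have e1 : Kᴴ * (a * a) * K - Kᴴ * (a₀ * a₀) * K
        = Kᴴ * ((a - a₀) * a + a₀ * (a - a₀)) * K := by
      have : (a - a₀) * a + a₀ * (a - a₀) = a * a - a₀ * a₀ := by
        rw [Matrix.sub_mul, Matrix.mul_sub]
        abel
      rw [this, Matrix.mul_sub, Matrix.sub_mul]
    rw [e1]
    have hna : nf a ≤ nf a₀ + D := by
      have h2 : a = a₀ + (a - a₀) := by abel
      have h3 := nf_add_le a₀ (a - a₀)
      rw [← h2] at h3
      have h4 : D * |h| ≤ D * 1 := mul_le_mul_of_nonneg_left hh2 hD0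
      linarith
    have hmid : nf ((a - a₀) * a + a₀ * (a - a₀)) ≤ D * |h| * (2 * nf a₀ + D) := by
      have h5 := nf_add_le ((a - a₀) * a) (a₀ * (a - a₀))
      have h6 := nf_mul_le (a - a₀) a
      have h7 := nf_mul_le a₀ (a - a₀)
      have h8 : nf (a - a₀) * nf a ≤ D * |h| * (nf a₀ + D) :=
        mul_le_mul hlip' hna (nf_nonneg _) (by positivity)
      have h9 : nf a₀ * nf (a - a₀) ≤ nf a₀ * (D * |h|) := mul_le_mul_of_nonneg_left hlip' hn0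
      nlinarith
    calc nf (Kᴴ * ((a - a₀) * a + a₀ * (a - a₀)) * K)
        ≤ nf (Kᴴ * ((a - a₀) * a + a₀ * (a - a₀))) * nf K := nf_mul_le _ _
      _ ≤ nf Kᴴ * nf ((a - a₀) * a + a₀ * (a - a₀)) * nf K :=
          mul_le_mul_of_nonneg_right (nf_mul_le _ _) hnK
      _ ≤ nf K * (D * |h| * (2 * nf a₀ + D)) * nf K := by
          rw [nf_conjTranspose]
          exact mul_le_mul_of_nonneg_right (mul_le_mul_of_nonneg_left hmid hnK) hnK
      _ = nf K * (D * (2 * nf a₀ + D)) * nf K * |h| := by ring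
  · refine pw_congr q _ _ ?_
    have hHm : (rp (1 / 2) (Kᴴ * (a * a) * K))ᴴ = rp (1 / 2) (Kᴴ * (a * a) * K) :=
      rp_isHermitian _ _
    rw [hHm, rp_half_mul _ hps, hsq]

end Pool.Agent.LibSchQ
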