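import Pool.Agent.LibSchQ.K2
import Pool.Agent.LibSch.Main

/-! **F6.**  From square blocks of equal size to arbitrary blocks. -/

open Matrix
open scoped ComplexOrder

namespace Pool.Agent.LibSchQ

open Pool.Agent.LibSchP

theorem f6_pw_pad {m n m' n' : Type} [Fintype m] [Fintype n] [DecidableEq n] [Fintype m']
    [Fintype n'] [DecidableEq n'] (p : ℝ) (hp : 0 < p) (M : Matrix m n ℂ) :
    LibSch.pw p (fromBlocks M (0 : Matrix m n' ℂ) (0 : Matrix m' n ℂ) 0) = LibSch.pw p M := by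
  rw [LibSch.PwBasic_pw, LibSch.PwBasic_pw]
  have h : (fromBlocks M (0 : Matrix m n' ℂ) (0 : Matrix m' n ℂ) 0)ᴴ *
      fromBlocks M (0 : Matrix m n' ℂ) (0 : Matrix m' n ℂ) 0 =
      fromBlocks (Mᴴ * M) 0 0 (0 : Matrix n' n' ℂ) := by
    rw [fromBlocks_conjTranspose, fromBlocks_multiply]
    simp
  unfold LibSch.PwBasic_S
  rw [h, charpoly_fromBlocks_zero₁₂, charpoly_zero, Polynomial.roots_mul
    (mul_ne_zero (charpoly_monic _).ne_zero (pow_ne_zero _ Polynomial.X_ne_zero)),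
    Polynomial.roots_X_pow, Multiset.map_add, Multiset.sum_add, Multiset.map_nsmul,
    Multiset.sum_nsmul, Multiset.map_singleton, Multiset.sum_singleton, Complex.zero_re,
    Real.zero_rpow (by positivity), smul_zero, add_zero]

section pad

variable {R m₁ m₂ n₁ n₂ a₁ a₂ b₁ b₂ : Type} [Fintype R] [DecidableEq R]
  [Fintype m₁] [Fintype m₂] [Fintype n₁] [DecidableEq n₁] [Fintype n₂] [DecidableEq n₂]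
  [Fintype a₁] [Fintype a₂] [Fintype b₁] [DecidableEq b₁] [Fintype b₂] [DecidableEq b₂]

/-- zero padding of a block -/
def f6pd (e₁ : R ≃ m₁ ⊕ a₁) (e₂ : R ≃ n₁ ⊕ b₁) (A : Matrix m₁ n₁ ℂ) : Matrix R R ℂ :=
  (fromBlocks A (0 : Matrix m₁ b₁ ℂ) (0 : Matrix a₁ n₁ ℂ) 0).submatrix e₁ e₂

theorem f6_pw_pd (p : ℝ) (hp : 0 < p) (e₁ : R ≃ m₁ ⊕ a₁) (e₂ : R ≃ n₁ ⊕ b₁)
    (A : Matrix m₁ n₁ ℂ) : LibSch.pw p (f6pd e₁ e₂ A) = LibSch.pw p A := by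
  unfold f6pd
  rw [LibSch.pw_submatrix, f6_pw_pad p hp]

theorem f6_sn_pd (p : ℝ) (hp : 0 < p) (e₁ : R ≃ m₁ ⊕ a₁) (e₂ : R ≃ n₁ ⊕ b₁)
    (A : Matrix m₁ n₁ ℂ) : LibSch.sn p (f6pd e₁ e₂ A) = LibSch.sn p A := by
  unfold LibSch.sn
  rw [f6_pw_pd p hp]

omit [Fintype R] [DecidableEq R] [Fintype m₁] [Fintype m₂] [Fintype n₁] [DecidableEq n₁]
  [Fintype n₂] [DecidableEq n₂] [Fintype a₁] [Fintype a₂] [Fintype b₁] [DecidableEq b₁]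
  [Fintype b₂] [DecidableEq b₂] in
theorem f6_blocks (e₁ : R ≃ m₁ ⊕ a₁) (f₁ : R ≃ m₂ ⊕ a₂) (e₂ : R ≃ n₁ ⊕ b₁)
    (f₂ : R ≃ n₂ ⊕ b₂) (A : Matrix m₁ n₁ ℂ) (B : Matrix m₁ n₂ ℂ) (C : Matrix m₂ n₁ ℂ)
    (D : Matrix m₂ n₂ ℂ) :
    fromBlocks (f6pd e₁ e₂ A) (f6pd e₁ f₂ B) (f6pd f₁ e₂ C) (f6pd f₁ f₂ D) =
      (fromBlocks (fromBlocks A B C D) (0 : Matrix (m₁ ⊕ m₂) (b₁ ⊕ b₂) ℂ)
        (0 : Matrix (a₁ ⊕ a₂) (n₁ ⊕ n₂) ℂ) 0).submatrix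
        ((Equiv.sumCongr e₁ f₁).trans (Equiv.sumSumSumComm m₁ a₁ m₂ a₂))
        ((Equiv.sumCongr e₂ f₂).trans (Equiv.sumSumSumComm n₁ b₁ n₂ b₂)) := by
  ext i j
  rcases i with i | i <;> rcases j with j | j
  · rcases h1 : e₁ i with u | u <;> rcases h2 : e₂ j with v | v <;> simp [f6pd, h1, h2]
  · rcases h1 : e₁ i with u | u <;> rcases h2 : f₂ j with v | v <;> simp [f6pd, h1, h2]
  · rcases h1 : f₁ i with u | u <;> rcases h2 : e₂ j with v | v <;> simp [f6pd, h1, h2]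
  · rcases h1 : f₁ i with u | u <;> rcases h2 : f₂ j with v | v <;> simp [f6pd, h1, h2]

theorem f6_pw_blocks (p : ℝ) (hp : 0 < p) (e₁ : R ≃ m₁ ⊕ a₁) (f₁ : R ≃ m₂ ⊕ a₂)
    (e₂ : R ≃ n₁ ⊕ b₁) (f₂ : R ≃ n₂ ⊕ b₂) (A : Matrix m₁ n₁ ℂ) (B : Matrix m₁ n₂ ℂ)
    (C : Matrix m₂ n₁ ℂ) (D : Matrix m₂ n₂ ℂ) :
    LibSch.pw p (fromBlocks (f6pd e₁ e₂ A) (f6pd e₁ f₂ B) (f6pd f₁ e₂ C) (f6pd f₁ f₂ D)) =
      LibSch.pw p (fromBlocks A B C D) := by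
  rw [f6_blocks, LibSch.pw_submatrix, f6_pw_pad p hp]

end pad

/-- `P` holds for all `2 × 2` block matrices `fromBlocks A B C D` if it holds for all matrices with
square blocks of equal nonempty size; here `P` is a statement about the numbers `sn p A`, `sn p B`,
`sn p C`, `sn p D` and `pw p (fromBlocks A B C D)`.  Take `R = (m₁ ⊕ m₂) ⊕ ((n₁ ⊕ n₂) ⊕ Unit)` and
equivalences `R ≃ m₁ ⊕ _`, `R ≃ m₂ ⊕ _`, `R ≃ n₁ ⊕ _`, `R ≃ n₂ ⊕ _`;  pad the blocks by zeros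
(`LibSchTri.pw_pad`, `LibSch.pw_submatrix`). -/
theorem pad_square (p : ℝ) (hp : 0 < p) (P : ℝ → ℝ → ℝ → ℝ → ℝ → Prop)
    (h : ∀ (n : Type) [Fintype n] [DecidableEq n] [Nonempty n] (A B C D : Matrix n n ℂ),
      P (LibSch.sn p A) (LibSch.sn p B) (LibSch.sn p C) (LibSch.sn p D)
        (LibSch.pw p (fromBlocks A B C D)))
    {m₁ m₂ n₁ n₂ : Type} [Fintype m₁] [DecidableEq m₁] [Fintype m₂] [DecidableEq m₂]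
    [Fintype n₁] [DecidableEq n₁] [Fintype n₂] [DecidableEq n₂] (A : Matrix m₁ n₁ ℂ)
    (B : Matrix m₁ n₂ ℂ) (C : Matrix m₂ n₁ ℂ) (D : Matrix m₂ n₂ ℂ) :
    P (LibSch.sn p A) (LibSch.sn p B) (LibSch.sn p C) (LibSch.sn p D)
      (LibSch.pw p (fromBlocks A B C D)) := by
  let e₁ : (m₁ ⊕ m₂) ⊕ ((n₁ ⊕ n₂) ⊕ Unit) ≃ m₁ ⊕ (m₂ ⊕ ((n₁ ⊕ n₂) ⊕ Unit)) :=
    Equiv.sumAssoc m₁ m₂ _
  let f₁ : (m₁ ⊕ m₂) ⊕ ((n₁ ⊕ n₂) ⊕ Unit) ≃ m₂ ⊕ (m₁ ⊕ ((n₁ ⊕ n₂) ⊕ Unit)) :=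
    (Equiv.sumCongr (Equiv.sumComm m₁ m₂) (Equiv.refl _)).trans (Equiv.sumAssoc m₂ m₁ _)
  let e₂ : (m₁ ⊕ m₂) ⊕ ((n₁ ⊕ n₂) ⊕ Unit) ≃ n₁ ⊕ (n₂ ⊕ (Unit ⊕ (m₁ ⊕ m₂))) :=
    ((Equiv.sumComm (m₁ ⊕ m₂) ((n₁ ⊕ n₂) ⊕ Unit)).trans
      (Equiv.sumAssoc (n₁ ⊕ n₂) Unit (m₁ ⊕ m₂))).trans (Equiv.sumAssoc n₁ n₂ _)
  let f₂ : (m₁ ⊕ m₂) ⊕ ((n₁ ⊕ n₂) ⊕ Unit) ≃ n₂ ⊕ (n₁ ⊕ (Unit ⊕ (m₁ ⊕ m₂))) :=
    (((Equiv.sumComm (m₁ ⊕ m₂) ((n₁ ⊕ n₂) ⊕ Unit)).trans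
      (Equiv.sumAssoc (n₁ ⊕ n₂) Unit (m₁ ⊕ m₂))).trans
        (Equiv.sumCongr (Equiv.sumComm n₁ n₂) (Equiv.refl _))).trans (Equiv.sumAssoc n₂ n₁ _)
  have : Nonempty ((m₁ ⊕ m₂) ⊕ ((n₁ ⊕ n₂) ⊕ Unit)) := ⟨Sum.inr (Sum.inr ())⟩
  have key := h ((m₁ ⊕ m₂) ⊕ ((n₁ ⊕ n₂) ⊕ Unit)) (f6pd e₁ e₂ A) (f6pd e₁ f₂ B)
    (f6pd f₁ e₂ C) (f6pd f₁ f₂ D)
  rw [f6_sn_pd p hp, f6_sn_pd p hp, f6_sn_pd p hp, f6_sn_pd p hp,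
    f6_pw_blocks p hp e₁ f₁ e₂ f₂] at key
  exact key

section two

variable {m₁ m₂ : Type} {n : Fin 2 → Type} [Fintype m₁] [DecidableEq m₁] [Fintype m₂]
  [DecidableEq m₂] [∀ k, Fintype (n k)] [∀ k, DecidableEq (n k)]

/-- two summands as a sigma type -/
def f6sig (n : Fin 2 → Type) : n 0 ⊕ n 1 ≃ Σ k : Fin 2, n k where
  toFun := Sum.elim (Sigma.mk 0) (Sigma.mk 1)
  invFun := fun x => match x with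
    | ⟨0, a⟩ => Sum.inl a
    | ⟨1, a⟩ => Sum.inr a
  left_inv := by rintro (a | a) <;> rfl
  right_inv := by
    rintro ⟨k, a⟩
    fin_cases k <;> rfl

theorem pw_blk_two (p : ℝ) (A : ∀ k, Matrix m₁ (n k) ℂ) (B : ∀ k, Matrix m₂ (n k) ℂ) :
    LibSch.pw p (LibSch.blk A B) = LibSch.pw p (fromBlocks (A 0) (A 1) (B 0) (B 1)) := by
  rw [← LibSch.pw_submatrix p (LibSch.blk A B) (Equiv.refl _) (f6sig n)]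
  congr 1
  ext i j
  rcases i with i | i <;> rcases j with j | j <;> rfl

theorem comp_two (p : ℝ) (A : ∀ k, Matrix m₁ (n k) ℂ) (B : ∀ k, Matrix m₂ (n k) ℂ) :
    LibSch.comp p A B =
      m2 (LibSch.sn p (A 0)) (LibSch.sn p (A 1)) (LibSch.sn p (B 0)) (LibSch.sn p (B 1)) := by
  ext i k
  fin_cases i <;> fin_cases k <;> simp [LibSch.comp, m2]

end two

end Pool.Agent.LibSchQ
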