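import Pool.Agent.LibSchQ.F5
import Pool.Agent.LibSchQ.F6

/-! **F7.**  Final assembly, `N = 2`. -/

open Matrix
open scoped ComplexOrder

namespace Pool.Agent.LibSchQ

open Pool.Agent.LibSchP

/-- `N = 2`, `1 < p < 2`, given the inequality for the conjugate exponent `q`:
`square_claim`, `pad_square`, `pw_blk_two`, `comp_two` -/
theorem final_two (p q : ℝ) (hpq : p.HolderConjugate q) (hq : 2 < q) (hF : FourQ q)
    {m₁ m₂ : Type} {n : Fin 2 → Type} [Fintype m₁] [DecidableEq m₁] [Fintype m₂]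
    [DecidableEq m₂] [∀ k, Fintype (n k)] [∀ k, DecidableEq (n k)]
    (A : ∀ k, Matrix m₁ (n k) ℂ) (B : ∀ k, Matrix m₂ (n k) ℂ) :
    LibSch.sn p (LibSch.comp p A B) ≤ LibSch.sn p (LibSch.blk A B) := by
  have hp : 0 < p := hpq.pos
  have key := pad_square p hp (fun a b c d s => LibSch.pw p (m2 a b c d) ≤ s)
    (fun n _ _ _ A B C D => square_claim p q hpq hq hF A B C D) (A 0) (A 1) (B 0) (B 1)
  have key' : LibSch.pw p (LibSch.comp p A B) ≤ LibSch.pw p (LibSch.blk A B) := by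
    rw [comp_two, pw_blk_two]
    exact key
  exact Real.rpow_le_rpow (LibSch.pw_nonneg p _) key' (by positivity)

/-- `N = 2`, all `1 < p < 2`, negative sector -/
theorem final_neg (p q : ℝ) (hpq : p.HolderConjugate q) (hq : 2 < q)
    {m₁ m₂ : Type} {n : Fin 2 → Type} [Fintype m₁] [DecidableEq m₁] [Fintype m₂]
    [DecidableEq m₂] [∀ k, Fintype (n k)] [∀ k, DecidableEq (n k)]
    (A : ∀ k, Matrix m₁ (n k) ℂ) (B : ∀ k, Matrix m₂ (n k) ℂ) (y₁₁ y₁₂ y₂₁ y₂₂ : ℝ)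
    (D : Sd p q y₁₁ y₁₂ y₂₁ y₂₂ (LibSch.sn p (A 0)) (LibSch.sn p (A 1)) (LibSch.sn p (B 0))
      (LibSch.sn p (B 1)) (LibSch.pw p (LibSch.comp p A B)))
    (h : (0 < y₁₁ ∧ 0 < y₁₂ ∧ 0 < y₂₁ ∧ y₂₂ < 0) ∨ (0 < y₁₁ ∧ 0 < y₁₂ ∧ y₂₁ < 0 ∧ 0 < y₂₂) ∨
        (0 < y₁₁ ∧ y₁₂ < 0 ∧ 0 < y₂₁ ∧ 0 < y₂₂) ∨ (y₁₁ < 0 ∧ 0 < y₁₂ ∧ 0 < y₂₁ ∧ 0 < y₂₂)) :
    LibSch.sn p (LibSch.comp p A B) ≤ LibSch.sn p (LibSch.blk A B) := by
  have hp : 0 < p := hpq.pos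
  have key := pad_square p hp (fun a b c d t =>
      Sd p q y₁₁ y₁₂ y₂₁ y₂₂ a b c d (LibSch.pw p (LibSch.comp p A B)) →
        LibSch.pw p (LibSch.comp p A B) ≤ t)
    (fun n _ _ _ A' B' C' D' D => neg_any D h A' B' C' D' rfl rfl rfl rfl)
    (A 0) (A 1) (B 0) (B 1) D
  have key' : LibSch.pw p (LibSch.comp p A B) ≤ LibSch.pw p (LibSch.blk A B) := by
    rw [pw_blk_two]
    exact key
  exact Real.rpow_le_rpow (LibSch.pw_nonneg p _) key' (by positivity)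

end Pool.Agent.LibSchQ
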