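import Pool.Agent.LibSchQ.K2
import Pool.Agent.LibSch.Two
import Pool.Agent.LibSch.PwBasic

/-! **F4.**  The scalar data. -/

open Matrix
open scoped ComplexOrder

namespace Pool.Agent.LibSchQ

/-- `pw r (m2 a b c d) = s₁^r + s₂^r` for `s₁² + s₂² = a²+b²+c²+d²`, `s₁ s₂ = |ad - bc|`
(`LibSch.pw_two`, `LibSch.two_aux`). -/
theorem pw_m2 (r : ℝ) (hr : 0 < r) (a b c d s₁ s₂ : ℝ) (h₁ : 0 ≤ s₁) (h₂ : 0 ≤ s₂)
    (h : s₁ ^ 2 + s₂ ^ 2 = a ^ 2 + b ^ 2 + c ^ 2 + d ^ 2) (h' : s₁ * s₂ = |a * d - b * c|) :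
    LibSch.pw r (m2 a b c d) = s₁ ^ r + s₂ ^ r := by
  have e1 : m2 a b c d
      = Matrix.of fun (i : Fin 2) (k : Fin 2) => ((![![a, b] k, ![c, d] k] i : ℝ) : ℂ) := by
    ext i k
    fin_cases i <;> fin_cases k <;> simp [m2]
  have h2 := LibSch.pw_two r hr ![a, b] ![c, d]
  rw [e1, h2]
  simp only [Fin.sum_univ_two, Matrix.cons_val_zero, Matrix.cons_val_one]
  rw [← LibSch.two_aux (r / 2) (a ^ 2 + b ^ 2) (c ^ 2 + d ^ 2) (a * c + b * d) (s₁ ^ 2) (s₂ ^ 2)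
    (by rw [h]; ring) (by
      have h3 : s₁ ^ 2 * s₂ ^ 2 = (s₁ * s₂) ^ 2 := by ring
      rw [h3, h', sq_abs]
      ring)]
  have e2 : ∀ s : ℝ, 0 ≤ s → (s ^ 2) ^ (r / 2) = s ^ r := by
    intro s hs
    rw [← Real.rpow_natCast, ← Real.rpow_mul hs]
    congr 1
    push_cast
    ring
  rw [e2 s₁ h₁, e2 s₂ h₂]

/-- permutations of the entries -/
theorem pw_m2_swap_col (r : ℝ) (a b c d : ℝ) :
    LibSch.pw r (m2 b a d c) = LibSch.pw r (m2 a b c d) := by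
  have h : m2 b a d c = (m2 a b c d).submatrix (Equiv.refl _) (Equiv.swap 0 1) := by
    ext i k
    fin_cases i <;> fin_cases k <;> simp [m2]
  rw [h, LibSch.pw_submatrix]

theorem pw_m2_swap_row (r : ℝ) (a b c d : ℝ) :
    LibSch.pw r (m2 c d a b) = LibSch.pw r (m2 a b c d) := by
  have h : m2 c d a b = (m2 a b c d).submatrix (Equiv.swap 0 1) (Equiv.refl _) := by
    ext i k
    fin_cases i <;> fin_cases k <;> simp [m2]
  rw [h, LibSch.pw_submatrix]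

theorem f4_fg (p s₁ s₂ : ℝ) (hp1 : 1 < p) (hp2 : p < 2) (h2 : 0 ≤ s₂) (h12 : s₂ ≤ s₁) :
    ∃ f g : ℝ, 0 ≤ g ∧ g ≤ f ∧ f * s₁ + g * s₂ = s₁ ^ (p - 1) ∧
      f * s₂ + g * s₁ = s₂ ^ (p - 1) ∧ (0 < g → g < f ∧ 0 < s₂) := by
  have h1 : 0 ≤ s₁ := h2.trans h12
  rcases h12.eq_or_lt with he | hlt
  · subst he
    rcases h2.eq_or_lt with h0 | hpos
    · refine ⟨0, 0, le_refl _, le_refl _, ?_, ?_, fun h => absurd h (lt_irrefl _)⟩ <;>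
      · rw [← h0, Real.zero_rpow (by linarith)]
        ring
    · refine ⟨s₂ ^ (p - 2), 0, le_refl _, Real.rpow_nonneg h2 _, ?_, ?_,
        fun h => absurd h (lt_irrefl _)⟩ <;>
      · have : s₂ ^ (p - 1) = s₂ ^ (p - 2) * s₂ := by
          rw [← Real.rpow_add_one hpos.ne']
          congr 1
          ring
        rw [this]
        ring
  · have hs1 : 0 < s₁ := lt_of_le_of_lt h2 hlt
    have hD : 0 < s₁ ^ 2 - s₂ ^ 2 := by nlinarith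
    have ht : s₂ ^ (p - 1) < s₁ ^ (p - 1) := Real.rpow_lt_rpow h2 hlt (by linarith)
    have ht2 : 0 ≤ s₂ ^ (p - 1) := Real.rpow_nonneg h2 _
    have hg : 0 ≤ s₁ * s₂ ^ (p - 1) - s₂ * s₁ ^ (p - 1) := by
      rcases h2.eq_or_lt with h0 | hpos
      · rw [← h0, Real.zero_rpow (by linarith)]
        simp
      · have e1 : s₂ ^ (p - 1) = s₂ ^ (p - 2) * s₂ := by
          rw [← Real.rpow_add_one hpos.ne']
          congr 1
          ring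
        have e2 : s₁ ^ (p - 1) = s₁ ^ (p - 2) * s₁ := by
          rw [← Real.rpow_add_one hs1.ne']
          congr 1
          ring
        have e3 : s₁ ^ (p - 2) ≤ s₂ ^ (p - 2) :=
          Real.rpow_le_rpow_of_nonpos hpos hlt.le (by linarith)
        rw [e1, e2]
        have e4 : s₁ * (s₂ ^ (p - 2) * s₂) - s₂ * (s₁ ^ (p - 2) * s₁)
            = (s₁ * s₂) * (s₂ ^ (p - 2) - s₁ ^ (p - 2)) := by ring
        rw [e4]
        exact mul_nonneg (mul_nonneg h1 h2) (by linarith)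
    have hfg : (s₁ * s₂ ^ (p - 1) - s₂ * s₁ ^ (p - 1))
        < (s₁ * s₁ ^ (p - 1) - s₂ * s₂ ^ (p - 1)) := by
      have : 0 < (s₁ + s₂) * (s₁ ^ (p - 1) - s₂ ^ (p - 1)) :=
        mul_pos (by linarith) (by linarith)
      nlinarith
    refine ⟨(s₁ * s₁ ^ (p - 1) - s₂ * s₂ ^ (p - 1)) / (s₁ ^ 2 - s₂ ^ 2),
      (s₁ * s₂ ^ (p - 1) - s₂ * s₁ ^ (p - 1)) / (s₁ ^ 2 - s₂ ^ 2), div_nonneg hg hD.le,
      (div_lt_div_of_pos_right hfg hD).le, ?_, ?_, ?_⟩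
    · field_simp
      ring
    · field_simp
      ring
    · intro hgpos
      refine ⟨div_lt_div_of_pos_right hfg hD, ?_⟩
      rcases h2.eq_or_lt with h0 | hpos
      · rw [← h0, Real.zero_rpow (by linarith)] at hgpos
        simp at hgpos
      · exact hpos

theorem f4_sv (a b c d : ℝ) :
    ∃ s₁ s₂ : ℝ, 0 ≤ s₂ ∧ s₂ ≤ s₁ ∧ s₁ ^ 2 + s₂ ^ 2 = a ^ 2 + b ^ 2 + c ^ 2 + d ^ 2 ∧
      s₁ * s₂ = |a * d - b * c| := by
  set T0 : ℝ := a ^ 2 + b ^ 2 + c ^ 2 + d ^ 2 with hS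
  set D : ℝ := |a * d - b * c| with hD
  have hD0 : 0 ≤ D := abs_nonneg _
  have h2 : 2 * D ≤ T0 := by
    rw [hD]
    rcases abs_cases (a * d - b * c) with ⟨h, _⟩ | ⟨h, _⟩ <;> rw [h, hS] <;>
      nlinarith [sq_nonneg (a - d), sq_nonneg (b + c), sq_nonneg (a + d), sq_nonneg (b - c)]
  set P : ℝ := √(T0 + 2 * D) with hP
  set Q : ℝ := √(T0 - 2 * D) with hQ
  have hP2 : P ^ 2 = T0 + 2 * D := Real.sq_sqrt (by linarith)
  have hQ2 : Q ^ 2 = T0 - 2 * D := Real.sq_sqrt (by linarith)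
  have hQ0 : 0 ≤ Q := Real.sqrt_nonneg _
  have hQP : Q ≤ P := Real.sqrt_le_sqrt (by linarith)
  refine ⟨(P + Q) / 2, (P - Q) / 2, by linarith, by linarith, ?_, ?_⟩
  · nlinarith
  · nlinarith

/-- the case `det Z ≥ 0` -/
theorem f4_core (p q : ℝ) (hpq : p.HolderConjugate q) (hq : 2 < q) (a b c d : ℝ)
    (ha : 0 ≤ a) (hb : 0 ≤ b) (hc : 0 ≤ c) (hd : 0 ≤ d) (hdet : b * c ≤ a * d) :
    ∃ y₁₁ y₁₂ y₂₁ y₂₂ : ℝ,
      Sd p q y₁₁ y₁₂ y₂₁ y₂₂ a b c d (LibSch.pw p (m2 a b c d)) ∧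
      ((0 ≤ y₁₁ ∧ 0 ≤ y₁₂ ∧ 0 ≤ y₂₁ ∧ 0 ≤ y₂₂) ∨
        (0 < y₁₁ ∧ 0 < y₁₂ ∧ y₂₁ < 0 ∧ 0 < y₂₂) ∨
        (0 < y₁₁ ∧ y₁₂ < 0 ∧ 0 < y₂₁ ∧ 0 < y₂₂)) := by
  have hp1 : 1 < p := hpq.lt
  have hp2 : p < 2 := by
    have h1 := hpq.inv_add_inv_eq_one
    have h2 : q⁻¹ < 2⁻¹ := by
      rw [inv_lt_inv₀ (by linarith) (by norm_num)]
      exact hq
    have h3 : 2⁻¹ < p⁻¹ := by
      have : p⁻¹ = 1 - q⁻¹ := by linarith
      rw [this]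
      norm_num at h2 ⊢
      linarith
    rwa [inv_lt_inv₀ (by norm_num) (by linarith)] at h3
  have hq0 : 0 < q := by linarith
  have hmul : (p - 1) * q = p := hpq.sub_one_mul_conj
  obtain ⟨s₁, s₂, h2, h12, hsum, hprod⟩ := f4_sv a b c d
  have h1 : 0 ≤ s₁ := h2.trans h12
  have hdet' : |a * d - b * c| = a * d - b * c := abs_of_nonneg (by linarith)
  rw [hdet'] at hprod
  obtain ⟨f, g, hg, hgf, e1, e2, hs⟩ := f4_fg p s₁ s₂ hp1 hp2 h2 h12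
  have hf : 0 ≤ f := hg.trans hgf
  have ht1 : 0 ≤ s₁ ^ (p - 1) := Real.rpow_nonneg h1 _
  have ht2 : 0 ≤ s₂ ^ (p - 1) := Real.rpow_nonneg h2 _
  have hZ : LibSch.pw p (m2 a b c d) = s₁ ^ p + s₂ ^ p :=
    pw_m2 p (by linarith) a b c d s₁ s₂ h1 h2 hsum (by rw [hdet', hprod])
  have hpow : ∀ s : ℝ, 0 ≤ s → (s ^ (p - 1)) ^ q = s ^ p := by
    intro s hs
    rw [← Real.rpow_mul hs, hmul]
  have hpow2 : ∀ s : ℝ, 0 ≤ s → s * s ^ (p - 1) = s ^ p := by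
    intro s hs
    rcases hs.eq_or_lt with h0 | hpos
    · rw [← h0, zero_mul, Real.zero_rpow (by linarith)]
    · rw [mul_comm, ← Real.rpow_add_one hpos.ne']
      congr 1
      ring
  have hY : LibSch.pw q (m2 (f * a + g * d) (f * b - g * c) (f * c - g * b) (f * d + g * a))
      = s₁ ^ p + s₂ ^ p := by
    rw [pw_m2 q hq0 _ _ _ _ (s₁ ^ (p - 1)) (s₂ ^ (p - 1)) ht1 ht2, hpow s₁ h1, hpow s₂ h2]
    · rw [← e1, ← e2]
      have : (f * s₁ + g * s₂) ^ 2 + (f * s₂ + g * s₁) ^ 2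
          = (f ^ 2 + g ^ 2) * (s₁ ^ 2 + s₂ ^ 2) + 4 * f * g * (s₁ * s₂) := by ring
      rw [this, hsum, hprod]
      ring
    · have h3 : (f * a + g * d) * (f * d + g * a) - (f * b - g * c) * (f * c - g * b)
          = (f * s₁ + g * s₂) * (f * s₂ + g * s₁) := by
        have : (f * s₁ + g * s₂) * (f * s₂ + g * s₁)
            = (f ^ 2 + g ^ 2) * (s₁ * s₂) + f * g * (s₁ ^ 2 + s₂ ^ 2) := by ring
        rw [this, hsum, hprod]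
        ring
      rw [h3, e1, e2, abs_of_nonneg (mul_nonneg ht1 ht2)]
  refine ⟨f * a + g * d, f * b - g * c, f * c - g * b, f * d + g * a,
    ⟨hpq, hq, by rw [hY, hZ], rfl, ?_, ha, hb, hc, hd⟩, ?_⟩
  · rw [hZ, ← hpow2 s₁ h1, ← hpow2 s₂ h2, ← e1, ← e2]
    have : s₁ * (f * s₁ + g * s₂) + s₂ * (f * s₂ + g * s₁)
        = f * (s₁ ^ 2 + s₂ ^ 2) + 2 * g * (s₁ * s₂) := by ring
    rw [this, hsum, hprod]
    ring
  · rcases hg.eq_or_lt with h0 | hgpos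
    · left
      rw [← h0]
      refine ⟨?_, ?_, ?_, ?_⟩ <;> simp <;> positivity
    · obtain ⟨hlt, hs2⟩ := hs hgpos
      have hfpos : 0 < f := hgpos.trans hlt
      have hs1 : 0 < s₁ := lt_of_lt_of_le hs2 h12
      have had : 0 < a * d := by
        have h3 : 0 < s₁ * s₂ := mul_pos hs1 hs2
        rw [hprod] at h3
        have := mul_nonneg hb hc
        linarith
      have ha' : 0 < a := lt_of_le_of_ne ha (fun h => by rw [← h, zero_mul] at had; exact lt_irrefl _ had)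
      have hd' : 0 < d := lt_of_le_of_ne hd (fun h => by rw [← h, mul_zero] at had; exact lt_irrefl _ had)
      have hy11 : 0 < f * a + g * d := by positivity
      have hy22 : 0 < f * d + g * a := by positivity
      rcases lt_or_ge (f * c - g * b) 0 with hn | hn
      · right; left
        refine ⟨hy11, ?_, hn, hy22⟩
        -- `f c < g b`
        have h3 : g * (f * c) ≤ g * (g * b) := mul_le_mul_of_nonneg_left (by linarith) hg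
        have hb' : 0 < b := by
          rcases hb.eq_or_lt with hb0 | hb0
          · rw [← hb0, mul_zero, sub_zero] at hn
            exact absurd (mul_nonneg hf hc) (not_le.mpr hn)
          · exact hb0
        have h4 : g * g * b < f * f * b := by
          apply mul_lt_mul_of_pos_right _ hb'
          nlinarith
        have h5 : 0 < f * (f * b - g * c) := by nlinarith
        exact (mul_pos_iff_of_pos_left hfpos).mp h5
      · rcases lt_or_ge (f * b - g * c) 0 with hm | hm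
        · right; right
          refine ⟨hy11, hm, ?_, hy22⟩
          have h3 : g * (f * b) ≤ g * (g * c) := mul_le_mul_of_nonneg_left (by linarith) hg
          have hc' : 0 < c := by
            rcases hc.eq_or_lt with hc0 | hc0
            · rw [← hc0, mul_zero, sub_zero] at hm
              exact absurd (mul_nonneg hf hb) (not_le.mpr hm)
            · exact hc0
          have h4 : g * g * c < f * f * c := by
            apply mul_lt_mul_of_pos_right _ hc'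
            nlinarith
          have h5 : 0 < f * (f * c - g * b) := by nlinarith
          exact (mul_pos_iff_of_pos_left hfpos).mp h5
        · left
          exact ⟨hy11.le, hm, hn, hy22.le⟩

/-- **scalar data**: `Y = Z |Z|^(p-2)`.  Singular values `s₁ ≥ s₂ ≥ 0` of `Z`.
`s₁ = s₂`: `Y = s₁^(p-2) Z` (`Y = 0` for `Z = 0`).  `s₁ > s₂`:
`f = (s₁^p - s₂^p)/(s₁² - s₂²)`, `g = s₁ s₂ (s₂^(p-2) - s₁^(p-2))/(s₁² - s₂²)` (`g = 0` for `s₂ = 0`),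
`0 ≤ g ≤ f`, `Y = f Z + g cof Z` for `det Z ≥ 0`, `Y = f Z - g cof Z` for `det Z < 0`. -/
theorem scalar_data (p q : ℝ) (hpq : p.HolderConjugate q) (hq : 2 < q) (z₁₁ z₁₂ z₂₁ z₂₂ : ℝ)
    (h₁₁ : 0 ≤ z₁₁) (h₁₂ : 0 ≤ z₁₂) (h₂₁ : 0 ≤ z₂₁) (h₂₂ : 0 ≤ z₂₂) :
    ∃ y₁₁ y₁₂ y₂₁ y₂₂ : ℝ,
      Sd p q y₁₁ y₁₂ y₂₁ y₂₂ z₁₁ z₁₂ z₂₁ z₂₂ (LibSch.pw p (m2 z₁₁ z₁₂ z₂₁ z₂₂)) ∧
      ((0 ≤ y₁₁ ∧ 0 ≤ y₁₂ ∧ 0 ≤ y₂₁ ∧ 0 ≤ y₂₂) ∨
        (0 < y₁₁ ∧ 0 < y₁₂ ∧ 0 < y₂₁ ∧ y₂₂ < 0) ∨ (0 < y₁₁ ∧ 0 < y₁₂ ∧ y₂₁ < 0 ∧ 0 < y₂₂) ∨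
        (0 < y₁₁ ∧ y₁₂ < 0 ∧ 0 < y₂₁ ∧ 0 < y₂₂) ∨ (y₁₁ < 0 ∧ 0 < y₁₂ ∧ 0 < y₂₁ ∧ 0 < y₂₂)) := by
  rcases le_total (z₁₂ * z₂₁) (z₁₁ * z₂₂) with h | h
  · obtain ⟨y₁, y₂, y₃, y₄, hS, hsgn⟩ := f4_core p q hpq hq z₁₁ z₁₂ z₂₁ z₂₂ h₁₁ h₁₂ h₂₁ h₂₂ h
    refine ⟨y₁, y₂, y₃, y₄, hS, ?_⟩
    rcases hsgn with h1 | h1 | h1
    · exact Or.inl h1
    · exact Or.inr (Or.inr (Or.inl h1))
    · exact Or.inr (Or.inr (Or.inr (Or.inl h1)))
  · obtain ⟨y₁, y₂, y₃, y₄, hS, hsgn⟩ := f4_core p q hpq hq z₁₂ z₁₁ z₂₂ z₂₁ h₁₂ h₁₁ h₂₂ h₂₁ h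
    rw [pw_m2_swap_col] at hS
    refine ⟨y₂, y₁, y₄, y₃, ⟨hpq, hq, ?_, rfl, ?_, h₁₁, h₁₂, h₂₁, h₂₂⟩, ?_⟩
    · rw [pw_m2_swap_col]
      exact hS.hY
    · have := hS.hYZ
      linarith
    · rcases hsgn with ⟨h1, h2, h3, h4⟩ | ⟨h1, h2, h3, h4⟩ | ⟨h1, h2, h3, h4⟩
      · exact Or.inl ⟨h2, h1, h4, h3⟩
      · exact Or.inr (Or.inl ⟨h2, h1, h4, h3⟩)
      · exact Or.inr (Or.inr (Or.inr (Or.inr ⟨h2, h1, h4, h3⟩)))

end Pool.Agent.LibSchQ
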