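import Pool.Agent.LibSchQ.F7
import Pool.Agent.LibSchF.F9

/-! **G8.**  `N = 2`, `1 ≤ p ≤ 4/3`. -/

open Matrix
open scoped ComplexOrder

namespace Pool.Agent.LibSchQ

open Pool.Agent.LibSchP

theorem fourQ_of_four_le (q : ℝ) (hq : 4 ≤ q) : FourQ q :=
  fun _ _ _ A B C D a b c d ha hb hc hd hA hB hC hD =>
    LibSchF.four q hq A B C D a b c d ha hb hc hd hA hB hC hD

/-- `N = 2`, `1 < p ≤ 4/3` -/
theorem two_low (p : ℝ) (h1 : 1 < p) (h2 : p ≤ 4 / 3)
    {m₁ m₂ : Type} {n : Fin 2 → Type} [Fintype m₁] [DecidableEq m₁] [Fintype m₂]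
    [DecidableEq m₂] [∀ k, Fintype (n k)] [∀ k, DecidableEq (n k)]
    (A : ∀ k, Matrix m₁ (n k) ℂ) (B : ∀ k, Matrix m₂ (n k) ℂ) :
    LibSch.sn p (LibSch.comp p A B) ≤ LibSch.sn p (LibSch.blk A B) := by
  have hq : 4 ≤ p / (p - 1) := by
    rw [le_div_iff₀ (by linarith)]
    linarith
  exact final_two p (p / (p - 1)) (Real.HolderConjugate.conjExponent h1) (by linarith)
    (fourQ_of_four_le _ hq) A B

/-- the larger singular value of a real `2 × 2` matrix -/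
noncomputable def g8_s (a b c d : ℝ) : ℝ :=
  (√((a + d) ^ 2 + (b - c) ^ 2) + √((a - d) ^ 2 + (b + c) ^ 2)) / 2

/-- the smaller singular value of a real `2 × 2` matrix -/
noncomputable def g8_t (a b c d : ℝ) : ℝ :=
  |√((a + d) ^ 2 + (b - c) ^ 2) - √((a - d) ^ 2 + (b + c) ^ 2)| / 2

theorem g8_pw (r : ℝ) (hr : 0 < r) (a b c d : ℝ) :
    LibSch.pw r (m2 a b c d) = g8_s a b c d ^ r + g8_t a b c d ^ r := by
  have h1 : 0 ≤ (a + d) ^ 2 + (b - c) ^ 2 := by positivity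
  have h2 : 0 ≤ (a - d) ^ 2 + (b + c) ^ 2 := by positivity
  have e1 := Real.sq_sqrt h1
  have e2 := Real.sq_sqrt h2
  refine pw_m2 r hr a b c d _ _ ?_ ?_ ?_ ?_
  · unfold g8_s; positivity
  · unfold g8_t; positivity
  · unfold g8_s g8_t
    rw [div_pow, div_pow, sq_abs]
    nlinarith
  · unfold g8_s g8_t
    set x := √((a + d) ^ 2 + (b - c) ^ 2)
    set y := √((a - d) ^ 2 + (b + c) ^ 2)
    have hx : 0 ≤ x := Real.sqrt_nonneg _
    have hy : 0 ≤ y := Real.sqrt_nonneg _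
    have h3 : (x + y) / 2 * (|x - y| / 2) = |(x + y) * (x - y)| / 4 := by
      rw [abs_mul, abs_of_nonneg (add_nonneg hx hy)]
      ring
    have h4 : (x + y) * (x - y) = 4 * (a * d - b * c) := by
      nlinarith
    rw [h3, h4, abs_mul]
    norm_num

theorem g8_pw_cont {m k : Type} [Fintype m] [Fintype k] [DecidableEq k] (M : Matrix m k ℂ)
    (r : ℝ) (hr : 0 < r) : ContinuousAt (fun p : ℝ => LibSch.pw p M) r := by
  obtain ⟨U, hU, x, hx, h⟩ := ud_exists_nonneg (Mᴴ * M) (posSemidef_conjTranspose_mul_self M)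
  have e : (fun p : ℝ => LibSch.pw p M) = fun p => ∑ j, x j ^ (p / 2) := by
    funext p
    exact pw_ud p M U hU x h
  rw [e]
  refine tendsto_finsetSum _ fun j _ => ?_
  exact (continuousAt_const.rpow (continuousAt_id.div_const 2)
    (Or.inr (by simpa using (by positivity : (0 : ℝ) < r / 2))))

theorem g8_sn_cont {m k : Type} [Fintype m] [Fintype k] [DecidableEq k] (M : Matrix m k ℂ)
    (r : ℝ) (hr : 0 < r) : ContinuousAt (fun p : ℝ => LibSch.sn p M) r := by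
  unfold LibSch.sn
  exact (g8_pw_cont M r hr).rpow (continuousAt_const.div continuousAt_id hr.ne')
    (Or.inr (by positivity))

theorem g8_comp_cont {m₁ m₂ : Type} {n : Fin 2 → Type} [Fintype m₁] [DecidableEq m₁]
    [Fintype m₂] [DecidableEq m₂] [∀ k, Fintype (n k)] [∀ k, DecidableEq (n k)]
    (A : ∀ k, Matrix m₁ (n k) ℂ) (B : ∀ k, Matrix m₂ (n k) ℂ) (r : ℝ) (hr : 0 < r) :
    ContinuousAt (fun p : ℝ => LibSch.sn p (LibSch.comp p A B)) r := by
  have c1 := g8_sn_cont (A 0) r hr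
  have c2 := g8_sn_cont (A 1) r hr
  have c3 := g8_sn_cont (B 0) r hr
  have c4 := g8_sn_cont (B 1) r hr
  have cs : ContinuousAt (fun p : ℝ => g8_s (LibSch.sn p (A 0)) (LibSch.sn p (A 1))
      (LibSch.sn p (B 0)) (LibSch.sn p (B 1))) r := by
    unfold g8_s
    exact (((((c1.add c4).pow 2).add ((c2.sub c3).pow 2)).sqrt).add
      ((((c1.sub c4).pow 2).add ((c2.add c3).pow 2)).sqrt)).div_const 2
  have ct : ContinuousAt (fun p : ℝ => g8_t (LibSch.sn p (A 0)) (LibSch.sn p (A 1))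
      (LibSch.sn p (B 0)) (LibSch.sn p (B 1))) r := by
    unfold g8_t
    exact (((((c1.add c4).pow 2).add ((c2.sub c3).pow 2)).sqrt).sub
      ((((c1.sub c4).pow 2).add ((c2.add c3).pow 2)).sqrt)).abs.div_const 2
  have e : (fun p : ℝ => LibSch.pw p (LibSch.comp p A B)) =ᶠ[nhds r] fun p =>
      g8_s (LibSch.sn p (A 0)) (LibSch.sn p (A 1)) (LibSch.sn p (B 0)) (LibSch.sn p (B 1)) ^ p +
      g8_t (LibSch.sn p (A 0)) (LibSch.sn p (A 1)) (LibSch.sn p (B 0)) (LibSch.sn p (B 1)) ^ p := by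
    filter_upwards [lt_mem_nhds hr] with p hp
    rw [comp_two, g8_pw p hp]
  have c5 : ContinuousAt (fun p : ℝ => LibSch.pw p (LibSch.comp p A B)) r := by
    refine ContinuousAt.congr ?_ e.symm
    exact (cs.rpow continuousAt_id (Or.inr hr)).add (ct.rpow continuousAt_id (Or.inr hr))
  unfold LibSch.sn
  exact c5.rpow (continuousAt_const.div continuousAt_id hr.ne') (Or.inr (by positivity))

/-- **`N = 2`, `1 ≤ p ≤ 4/3`.** -/
theorem two_final (p : ℝ) (h1 : 1 ≤ p) (h2 : p ≤ 4 / 3)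
    {m₁ m₂ : Type} {n : Fin 2 → Type} [Fintype m₁] [DecidableEq m₁] [Fintype m₂]
    [DecidableEq m₂] [∀ k, Fintype (n k)] [∀ k, DecidableEq (n k)]
    (A : ∀ k, Matrix m₁ (n k) ℂ) (B : ∀ k, Matrix m₂ (n k) ℂ) :
    LibSch.sn p (LibSch.comp p A B) ≤ LibSch.sn p (LibSch.blk A B) := by
  rcases h1.eq_or_lt with h | h
  · rw [← h]
    have ca := (g8_comp_cont A B 1 one_pos).tendsto.mono_left
      (nhdsWithin_le_nhds (s := Set.Ioi (1 : ℝ)))
    have cb := (g8_sn_cont (LibSch.blk A B) 1 one_pos).tendsto.mono_left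
      (nhdsWithin_le_nhds (s := Set.Ioi (1 : ℝ)))
    refine le_of_tendsto_of_tendsto ca cb ?_
    filter_upwards [Ioo_mem_nhdsGT (by norm_num : (1 : ℝ) < 4 / 3)] with r hr
    exact two_low r hr.1 hr.2.le A B
  · exact two_low p h h2 A B

end Pool.Agent.LibSchQ
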