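import Pool.Agent.LibSchP.T5
import Pool.Agent.LibSchTri.Final

/-! **H1.**  The exponent `2`, and the triangular case with both exponent ranges. -/

open Matrix
open scoped ComplexOrder

namespace Pool.Agent.LibSchQ

open Pool.Agent.LibSchP

theorem h1_pw_two {m k : Type} [Fintype m] [Fintype k] [DecidableEq k] (M : Matrix m k ℂ) :
    LibSch.pw 2 M = fr M := by
  have hH := isHermitian_conjTranspose_mul_self M
  rw [fr_eq_trace, hH.trace_eq_sum_eigenvalues, Complex.re_sum]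
  unfold LibSch.pw
  refine Finset.sum_congr rfl fun j _ => ?_
  rw [div_self (two_ne_zero), Real.rpow_one]
  simp

section two

variable {N : ℕ} {m₁ m₂ : Type} {n : Fin N → Type} [Fintype m₁] [DecidableEq m₁]
    [Fintype m₂] [DecidableEq m₂] [∀ k, Fintype (n k)] [∀ k, DecidableEq (n k)]

theorem h1_blk (A : ∀ k, Matrix m₁ (n k) ℂ) (B : ∀ k, Matrix m₂ (n k) ℂ) :
    LibSch.pw 2 (LibSch.comp 2 A B) = LibSch.pw 2 (LibSch.blk A B) := by
  have hs : ∀ {m k : Type} [Fintype m] [Fintype k] [DecidableEq k] (M : Matrix m k ℂ),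
      ‖((LibSch.sn 2 M : ℝ) : ℂ)‖ ^ 2 = fr M := by
    intro m k _ _ _ M
    rw [Complex.norm_real, Real.norm_eq_abs, sq_abs, ← h1_pw_two]
    unfold LibSch.sn
    rw [← Real.rpow_natCast, ← Real.rpow_mul (LibSch.pw_nonneg 2 M)]
    norm_num
  rw [h1_pw_two, h1_pw_two]
  unfold fr
  rw [Fin.sum_univ_two, Fintype.sum_sum_type]
  simp only [LibSch.comp, LibSch.blk, of_apply, cons_val_zero, cons_val_one, Sum.elim_inl,
    Sum.elim_inr, hs]
  unfold fr
  congr 1
  · rw [Finset.sum_comm]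
    refine Finset.sum_congr rfl fun i _ => ?_
    rw [Fintype.sum_sigma]
  · rw [Finset.sum_comm]
    refine Finset.sum_congr rfl fun i _ => ?_
    rw [Fintype.sum_sigma]

theorem h1_holds_two (A : ∀ k, Matrix m₁ (n k) ℂ) (B : ∀ k, Matrix m₂ (n k) ℂ) :
    LibSch.Holds 2 A B := by
  have h : LibSch.sn 2 (LibSch.comp 2 A B) = LibSch.sn 2 (LibSch.blk A B) := by
    unfold LibSch.sn
    rw [h1_blk]
  exact ⟨fun _ _ => h.le, fun _ => h.ge⟩

theorem triangular_both (p : ℝ) (h1 : 1 < p) (h4 : p < 4) (A : ∀ k, Matrix m₁ (n k) ℂ)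
    (B : ∀ k, Matrix m₂ (n k) ℂ) (k₀ : Fin N)
    (h : (∀ k, k ≠ k₀ → B k = 0) ∨ (∀ k, k ≠ k₀ → A k = 0)) : LibSch.Holds p A B := by
  rcases lt_trichotomy p 2 with h2 | h2 | h2
  · exact ⟨fun _ _ => LibSchP.final p h1 h2 A B k₀ h, fun h3 => absurd h3 (not_le.2 h2)⟩
  · subst h2
    exact h1_holds_two A B
  · exact ⟨fun _ h3 => absurd h3 (not_le.2 h2), fun _ => LibSchTri.final p h2 h4 A B k₀ h⟩

end two

end Pool.Agent.LibSchQ
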