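import Pool.Agent.LibSchQ.Defs
import Pool.Agent.LibSchP.A3

/-! **F1a.**  Polar decomposition. -/

open Matrix
open scoped ComplexOrder

namespace Pool.Agent.LibSchQ

open Pool.Agent.LibSchP

variable {n : Type} [Fintype n] [DecidableEq n]

theorem f1a_posDef (S : Matrix n n ℂ) (h : IsUnit S.det) : (Sᴴ * S).PosDef := by
  have h1 := (PosDef.one (n := n) (R := ℂ)).conjTranspose_mul_mul_same
    (B := S) (Matrix.mulVec_injective_iff_isUnit.2 ((Matrix.isUnit_iff_isUnit_det _).2 h))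
  rwa [Matrix.mul_one] at h1

/-- `S = W M`, `M = (SᴴS)^(1/2)`, `W = S M⁻¹` -/
theorem polar_right (S : Matrix n n ℂ) (h : IsUnit S.det) :
    ∃ W M : Matrix n n ℂ, M.PosDef ∧ W ∈ unitaryGroup n ℂ ∧ S = W * M := by
  obtain ⟨U, hU, x, hx, hUx⟩ := ud_exists_pos (Sᴴ * S) (f1a_posDef S h)
  set M := ud U (fun k => x k ^ (1 / 2 : ℝ)) with hM
  set N := ud U (fun k => x k ^ (-(1 / 2) : ℝ)) with hN
  have hUU : U * Uᴴ = 1 := a2_uu' U hU
  have hud1 : ud U (fun _ => (1 : ℝ)) = 1 := by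
    rw [ud, a2_dg_one, Matrix.mul_one, hUU]
  have hNM : N * M = 1 := by
    rw [hM, hN, ud_mul U hU, ← hud1]
    congr 1
    funext k
    rw [← Real.rpow_add (hx k), neg_add_cancel, Real.rpow_zero]
  have hNH : Nᴴ = N := (ud_isHermitian U _).eq
  have hNN : N * ud U x * N = 1 := by
    rw [hN, ud_mul U hU, ud_mul U hU, ← hud1]
    congr 1
    funext k
    have e : x k = x k ^ (1 : ℝ) := (Real.rpow_one _).symm
    calc x k ^ (-(1 / 2) : ℝ) * x k * x k ^ (-(1 / 2) : ℝ)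
        = x k ^ (-(1 / 2) : ℝ) * x k ^ (1 : ℝ) * x k ^ (-(1 / 2) : ℝ) := by rw [Real.rpow_one]
      _ = 1 := by
        rw [← Real.rpow_add (hx k), ← Real.rpow_add (hx k)]
        norm_num
  refine ⟨S * N, M, ud_posDef U hU _ fun k => Real.rpow_pos_of_pos (hx k) _, ?_, ?_⟩
  · rw [mem_unitaryGroup_iff', star_eq_conjTranspose, conjTranspose_mul, hNH]
    calc N * Sᴴ * (S * N) = N * (Sᴴ * S) * N := by simp only [Matrix.mul_assoc]
      _ = 1 := by rw [hUx, hNN]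
  · rw [Matrix.mul_assoc, hNM, Matrix.mul_one]

/-- `M = (SSᴴ)^(1/2)` -/
theorem polar_left (S : Matrix n n ℂ) (h : IsUnit S.det) :
    ∃ M W : Matrix n n ℂ, M.PosDef ∧ W ∈ unitaryGroup n ℂ ∧ S = M * W := by
  have h' : IsUnit (Sᴴ).det := by
    rw [det_conjTranspose]
    exact h.star
  obtain ⟨W, M, hM, hW, e⟩ := polar_right Sᴴ h'
  refine ⟨M, Wᴴ, hM, ?_, ?_⟩
  · rw [mem_unitaryGroup_iff, star_eq_conjTranspose, conjTranspose_conjTranspose]
    exact a2_uu W hW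
  · have e2 := congrArg conjTranspose e
    rw [conjTranspose_conjTranspose, conjTranspose_mul, hM.1.eq] at e2
    exact e2

end Pool.Agent.LibSchQ
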