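import Pool.Agent.LibSchQ.K3c
import Pool.Agent.LibSchQ.F1a

/-! **F1b.**  The corner of the norming matrix. -/

open Matrix
open scoped ComplexOrder

namespace Pool.Agent.LibSchQ

open Pool.Agent.LibSchP

variable {n : Type} [Fintype n] [DecidableEq n]

theorem f1b_pw_trace (q : ℝ) (M : Matrix n n ℂ) (hM : M.PosDef) :
    LibSch.pw q M = (trace (rp q M)).re := by
  obtain ⟨U, hU, x, hx, rfl⟩ := ud_exists_pos M hM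
  rw [k2_pw_ud q U hU x fun k => (hx k).le, rp_ud q U hU]
  unfold ud
  rw [trace_mul_comm, ← Matrix.mul_assoc, a2_uu U hU, Matrix.one_mul]
  unfold dg
  rw [trace_diagonal, Complex.re_sum]
  simp

theorem f1b_left (q : ℝ) (S M W : Matrix n n ℂ) (hW : W ∈ unitaryGroup n ℂ) (e : S = M * W) :
    LibSch.pw q S = LibSch.pw q M := by
  have h := LibSch.pw_unitary q M (1 : unitaryGroup n ℂ) ⟨W, hW⟩
  simp only [OneMemClass.coe_one, Matrix.one_mul] at h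
  rw [e]
  exact h

theorem f1b_right (q : ℝ) (S M W : Matrix n n ℂ) (hW : W ∈ unitaryGroup n ℂ) (e : S = W * M) :
    LibSch.pw q S = LibSch.pw q M := by
  have h := LibSch.pw_unitary q M ⟨W, hW⟩ (1 : unitaryGroup n ℂ)
  simp only [OneMemClass.coe_one, Matrix.mul_one] at h
  rw [e]
  exact h

theorem f1b_block_unitary (U V : Matrix n n ℂ) (hU : U ∈ unitaryGroup n ℂ)
    (hV : V ∈ unitaryGroup n ℂ) : fromBlocks U 0 0 V ∈ unitaryGroup (n ⊕ n) ℂ := by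
  rw [mem_unitaryGroup_iff, star_eq_conjTranspose, fromBlocks_conjTranspose, fromBlocks_multiply]
  rw [mem_unitaryGroup_iff, star_eq_conjTranspose] at hU hV
  simp [hU, hV, fromBlocks_one]

/-- `S₁₁ = M W`, `S₁₂ = a₂ W₂`, `S₂₁ Wᴴ = W₁ a₁`:
`diag(1, W₁ᴴ) [S₁₁, S₁₂; S₂₁, X] diag(Wᴴ, W₂ᴴ) = [M, a₂; a₁, W₁ᴴ X W₂ᴴ]`; `JV_bound_pd` with
`P = y₁₁⁻¹ M`, `A_i = rp q a_i`; `JV_attained`. -/
theorem exists_corner {p q y₁₁ y₁₂ y₂₁ y₂₂ z₁₁ z₁₂ z₂₁ z₂₂ s : ℝ}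
    (D : Sd p q y₁₁ y₁₂ y₂₁ y₂₂ z₁₁ z₁₂ z₂₁ z₂₂ s) (h₁₁ : 0 < y₁₁) (h₁₂ : 0 < y₁₂)
    (h₂₁ : 0 < y₂₁) (h₂₂ : y₂₂ < 0) (S₁₁ S₁₂ S₂₁ : Matrix n n ℂ) (u₁₁ : IsUnit S₁₁.det)
    (u₁₂ : IsUnit S₁₂.det) (u₂₁ : IsUnit S₂₁.det) (e₁₁ : LibSch.pw q S₁₁ = y₁₁ ^ q)
    (e₁₂ : LibSch.pw q S₁₂ = y₁₂ ^ q) (e₂₁ : LibSch.pw q S₂₁ = y₂₁ ^ q) :
    ∃ X : Matrix n n ℂ, LibSch.pw q (fromBlocks S₁₁ S₁₂ S₂₁ X) +
      z₂₂ / |y₂₂| ^ (q - 1) * LibSch.pw q X ≤ s + z₂₂ / |y₂₂| ^ (q - 1) * |y₂₂| ^ q := by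
  have hq := D.hq
  have hq0 : 0 < q := by linarith
  set lam : ℝ := z₂₂ / |y₂₂| ^ (q - 1) with hlamdef
  have hlam : 0 ≤ lam := div_nonneg D.hz₂₂ (Real.rpow_nonneg (abs_nonneg _) _)
  obtain ⟨M, W, hM, hW, eM⟩ := polar_left S₁₁ u₁₁
  obtain ⟨a₂, W₂, ha₂, hW₂, ea₂⟩ := polar_left S₁₂ u₁₂
  have hWW : W * Wᴴ = 1 := a2_uu' W hW
  have hWW' : Wᴴ * W = 1 := a2_uu W hW
  have hWH : Wᴴ ∈ unitaryGroup n ℂ := by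
    rw [mem_unitaryGroup_iff, star_eq_conjTranspose, conjTranspose_conjTranspose]
    exact hWW'
  have hdW : IsUnit (S₂₁ * Wᴴ).det := by
    rw [det_mul]
    refine u₂₁.mul ?_
    have : IsUnit (Wᴴ * W).det := by
      rw [hWW', det_one]
      exact isUnit_one
    rw [det_mul] at this
    exact isUnit_of_mul_isUnit_left this
  obtain ⟨W₁, a₁, ha₁, hW₁, ea₁⟩ := polar_right (S₂₁ * Wᴴ) hdW
  have e21 : S₂₁ = W₁ * a₁ * W := by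
    rw [← ea₁, Matrix.mul_assoc, hWW', Matrix.mul_one]
  have hpM : LibSch.pw q M = y₁₁ ^ q := by
    rw [← f1b_left q S₁₁ M W hW eM, e₁₁]
  have hpa₂ : LibSch.pw q a₂ = y₁₂ ^ q := by
    rw [← f1b_left q S₁₂ a₂ W₂ hW₂ ea₂, e₁₂]
  have hpa₁ : LibSch.pw q a₁ = y₂₁ ^ q := by
    rw [← f1b_right q _ a₁ W₁ hW₁ ea₁, ← e₂₁]
    exact f1b_left q (S₂₁ * Wᴴ) S₂₁ Wᴴ hWH rfl
  set P : Matrix n n ℂ := ((y₁₁⁻¹ : ℝ) : ℂ) • M with hPdef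
  have hP : P.PosDef := k3c_smul_posDef hM (inv_pos.2 h₁₁)
  have hP1 : LibSch.pw q P = 1 := by
    rw [hPdef, pw_smul q hq0, hpM, abs_of_pos (inv_pos.2 h₁₁), ← Real.mul_rpow
      (inv_nonneg.2 h₁₁.le) h₁₁.le, inv_mul_cancel₀ h₁₁.ne', Real.one_rpow]
  have hyP : ((y₁₁ : ℝ) : ℂ) • P = M := by
    rw [hPdef, smul_smul, ← Complex.ofReal_mul, mul_inv_cancel₀ h₁₁.ne', Complex.ofReal_one,
      one_smul]
  have hb := JV_bound_pd D h₁₁ h₁₂ h₂₁ h₂₂ P hP hP1 (rp q a₁) (rp q a₂) (rp_posDef q a₁ ha₁)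
    (rp_posDef q a₂ ha₂) (by rw [← f1b_pw_trace q a₁ ha₁, hpa₁])
    (by rw [← f1b_pw_trace q a₂ ha₂, hpa₂])
  obtain ⟨X₀, hX₀, -⟩ := JV_attained q lam hq hlam (((y₁₁ : ℝ) : ℂ) • P) (rp q a₁) (rp q a₂)
  rw [← hlamdef, hX₀, hyP] at hb
  unfold FJ at hb
  rw [rp_inv_rp q hq0 a₁ ha₁, rp_inv_rp q hq0 a₂ ha₂] at hb
  refine ⟨W₁ * X₀ * W₂, ?_⟩
  have hX : LibSch.pw q (W₁ * X₀ * W₂) = LibSch.pw q X₀ :=
    LibSch.pw_unitary q X₀ ⟨W₁, hW₁⟩ ⟨W₂, hW₂⟩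
  have hS : LibSch.pw q (fromBlocks S₁₁ S₁₂ S₂₁ (W₁ * X₀ * W₂)) =
      LibSch.pw q (fromBlocks M a₂ a₁ X₀) := by
    have h := LibSch.pw_unitary q (fromBlocks M a₂ a₁ X₀)
      ⟨fromBlocks 1 0 0 W₁, f1b_block_unitary 1 W₁ (one_mem _) hW₁⟩
      ⟨fromBlocks W 0 0 W₂, f1b_block_unitary W W₂ hW hW₂⟩
    rw [← h]
    congr 1
    simp only [fromBlocks_multiply, Matrix.mul_zero, Matrix.zero_mul, add_zero, zero_add,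
      Matrix.one_mul]
    rw [eM, ea₂, e21]
  rw [hX, hS]
  exact hb

end Pool.Agent.LibSchQ
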