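import Pool.Agent.LibSchQ.Defs
import Pool.Agent.LibSchTri.S13
import Pool.Agent.LibSchTri.S17
import Pool.Agent.LibSchP.A3

/-! **K1b.**  Norming matrices. -/

open Matrix
open scoped ComplexOrder

namespace Pool.Agent.LibSchQ

open Pool.Agent.LibSchP

variable {n : Type} [Fintype n] [DecidableEq n]

/-- `pw` of `U M V` for unitaries given as matrices. -/
theorem k1b_pw (p : ℝ) (U V : unitaryGroup n ℂ) (τ : n → ℝ) (hp : 0 < p) (hτ : ∀ k, 0 ≤ τ k)
    (T : Matrix n n ℂ) (hT : (U : Matrix n n ℂ) * T * (V : Matrix n n ℂ) =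
      diagonal fun k => (τ k : ℂ)) : LibSch.pw p T = ∑ k, τ k ^ p := by
  rw [← LibSch.pw_unitary p T U V, hT, LibSchTri.pw_diagonal p hp τ hτ]

/-- `T = U τ Vᴴ`, `τ' = τ + δ`, `S = U (y τ'^(p-1)/t) Vᴴ`, `t = (∑ τ'^p)^(1/q)`:
`pw q S = y^q`, `Re tr SᴴT = y (∑ τ'^p - δ ∑ τ'^(p-1))/t ≥ y (sn p T - δ card n)`. -/
theorem norming [Nonempty n] (p q : ℝ) (hpq : p.HolderConjugate q) (T : Matrix n n ℂ) (y ε : ℝ)
    (hy : 0 < y) (hε : 0 < ε) : ∃ S : Matrix n n ℂ, IsUnit S.det ∧ LibSch.pw q S = y ^ q ∧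
      y * LibSch.sn p T - ε ≤ (trace (Sᴴ * T)).re := by
  obtain ⟨U, V, τ, hτ, hUTV⟩ := LibSchTri.svd_sq T
  have hp : 0 < p := hpq.pos
  have hq : 0 < q := hpq.symm.pos
  have hU : (U : Matrix n n ℂ)ᴴ * (U : Matrix n n ℂ) = 1 := by
    have := U.2
    rw [mem_unitaryGroup_iff'] at this
    exact this
  have hU' : (U : Matrix n n ℂ) * (U : Matrix n n ℂ)ᴴ = 1 := by
    have := U.2
    rw [mem_unitaryGroup_iff] at this
    exact this
  have hV : (V : Matrix n n ℂ) * (V : Matrix n n ℂ)ᴴ = 1 := by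
    have := V.2
    rw [mem_unitaryGroup_iff] at this
    exact this
  have hV' : (V : Matrix n n ℂ)ᴴ * (V : Matrix n n ℂ) = 1 := by
    have := V.2
    rw [mem_unitaryGroup_iff'] at this
    exact this
  have hT : T = (U : Matrix n n ℂ)ᴴ * dg τ * (V : Matrix n n ℂ)ᴴ := by
    have h1 : dg τ = (U : Matrix n n ℂ) * T * (V : Matrix n n ℂ) := by
      rw [hUTV]; rfl
    rw [h1]
    calc T = ((U : Matrix n n ℂ)ᴴ * (U : Matrix n n ℂ)) * T *
          ((V : Matrix n n ℂ) * (V : Matrix n n ℂ)ᴴ) := by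
            rw [hU, hV, Matrix.one_mul, Matrix.mul_one]
      _ = _ := by simp only [Matrix.mul_assoc]
  set N : ℝ := (Fintype.card n : ℝ) with hN
  have hNpos : 0 < N := by rw [hN]; exact_mod_cast Fintype.card_pos
  set δ : ℝ := ε / (y * N) with hδ
  have hδpos : 0 < δ := by rw [hδ]; positivity
  set τ' : n → ℝ := fun k => τ k + δ with hτ'
  have hτ'pos : ∀ k, 0 < τ' k := fun k => by
    simp only [hτ']; linarith [hτ k]
  set s : ℝ := ∑ k, τ' k ^ p with hs
  have hspos : 0 < s := Finset.sum_pos (fun k _ => Real.rpow_pos_of_pos (hτ'pos k) _)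
    Finset.univ_nonempty
  set t : ℝ := s ^ (1 / q) with ht
  have htpos : 0 < t := Real.rpow_pos_of_pos hspos _
  set w : n → ℝ := fun k => y * τ' k ^ (p - 1) / t with hw
  have hwpos : ∀ k, 0 < w k := fun k => by
    simp only [hw]
    have := Real.rpow_pos_of_pos (hτ'pos k) (p - 1)
    positivity
  have htq : t ^ q = s := by
    rw [ht, ← Real.rpow_mul hspos.le, one_div, inv_mul_cancel₀ hq.ne', Real.rpow_one]
  refine ⟨(U : Matrix n n ℂ)ᴴ * dg w * (V : Matrix n n ℂ)ᴴ, ?_, ?_, ?_⟩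
  · rw [det_mul, det_mul]
    have h1 : IsUnit (det (U : Matrix n n ℂ)ᴴ) := by
      have : det ((U : Matrix n n ℂ)ᴴ) * det (U : Matrix n n ℂ) = 1 := by
        rw [← det_mul, hU, det_one]
      exact IsUnit.of_mul_eq_one _ this
    have h2 : IsUnit (det (V : Matrix n n ℂ)ᴴ) := by
      have : det ((V : Matrix n n ℂ)ᴴ) * det (V : Matrix n n ℂ) = 1 := by
        rw [← det_mul, hV', det_one]
      exact IsUnit.of_mul_eq_one _ this
    have h3 : IsUnit (det (dg w)) := by
      unfold dg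
      rw [det_diagonal, isUnit_iff_ne_zero, Finset.prod_ne_zero_iff]
      intro k _
      exact_mod_cast (hwpos k).ne'
    exact (h1.mul h3).mul h2
  · have h1 : (U : Matrix n n ℂ) * ((U : Matrix n n ℂ)ᴴ * dg w * (V : Matrix n n ℂ)ᴴ) *
        (V : Matrix n n ℂ) = diagonal fun k => (w k : ℂ) := by
      calc _ = ((U : Matrix n n ℂ) * (U : Matrix n n ℂ)ᴴ) * dg w *
            ((V : Matrix n n ℂ)ᴴ * (V : Matrix n n ℂ)) := by simp only [Matrix.mul_assoc]
        _ = _ := by rw [hU', hV', Matrix.one_mul, Matrix.mul_one]; rfl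
    rw [k1b_pw q U V w hq (fun k => (hwpos k).le) _ h1]
    have h2 : ∀ k, w k ^ q = y ^ q * τ' k ^ p / s := by
      intro k
      simp only [hw]
      rw [Real.div_rpow (by have := Real.rpow_pos_of_pos (hτ'pos k) (p - 1); positivity) htpos.le,
        Real.mul_rpow hy.le (Real.rpow_nonneg (hτ'pos k).le _), ← Real.rpow_mul (hτ'pos k).le,
        hpq.sub_one_mul_conj, htq]
    simp only [h2]
    rw [← Finset.sum_div, ← Finset.mul_sum, ← hs]
    field_simp
  · have h1 : ((U : Matrix n n ℂ)ᴴ * dg w * (V : Matrix n n ℂ)ᴴ)ᴴ * T =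
        (V : Matrix n n ℂ) * (dg (fun k => w k * τ k)) * (V : Matrix n n ℂ)ᴴ := by
      rw [hT, conjTranspose_mul, conjTranspose_mul, conjTranspose_conjTranspose,
        conjTranspose_conjTranspose, dg_conjTranspose, ← dg_mul]
      calc _ = (V : Matrix n n ℂ) * (dg w * ((U : Matrix n n ℂ) * (U : Matrix n n ℂ)ᴴ) * dg τ) *
            (V : Matrix n n ℂ)ᴴ := by simp only [Matrix.mul_assoc]
        _ = _ := by rw [hU', Matrix.mul_one]
    rw [h1, trace_mul_comm, ← Matrix.mul_assoc, hV', Matrix.one_mul]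
    have h2 : (trace (dg fun k => w k * τ k)).re = ∑ k, w k * τ k := by
      unfold dg
      rw [trace_diagonal, Complex.re_sum]
      refine Finset.sum_congr rfl fun k _ => ?_
      rw [Complex.ofReal_re]
    rw [h2]
    have h3 : LibSch.sn p T ≤ s ^ (1 / p) := by
      unfold LibSch.sn
      rw [k1b_pw p U V τ hp hτ T hUTV]
      refine Real.rpow_le_rpow (Finset.sum_nonneg fun k _ => Real.rpow_nonneg (hτ k) _) ?_
        (by positivity)
      refine Finset.sum_le_sum fun k _ => Real.rpow_le_rpow (hτ k) ?_ hp.le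
      simp only [hτ']; linarith
    have h4 : ∀ k, τ' k ^ (p - 1) ≤ t := by
      intro k
      have h5 : τ' k ^ p ≤ s :=
        Finset.single_le_sum (f := fun k => τ' k ^ p)
          (fun k _ => Real.rpow_nonneg (hτ'pos k).le _) (Finset.mem_univ k)
      have h6 : τ' k ^ (p - 1) = (τ' k ^ p) ^ (1 / q) := by
        rw [← Real.rpow_mul (hτ'pos k).le, ← hpq.div_conj_eq_sub_one, mul_one_div]
      rw [h6, ht]
      exact Real.rpow_le_rpow (Real.rpow_nonneg (hτ'pos k).le _) h5 (by positivity)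
    have h7 : ∀ k, w k * τ k = y / t * τ' k ^ p - y * δ / t * τ' k ^ (p - 1) := by
      intro k
      have h8 : τ' k ^ p = τ' k ^ (p - 1) * τ' k := by
        rw [← Real.rpow_add_one (hτ'pos k).ne', sub_add_cancel]
      have h9 : τ k = τ' k - δ := by simp only [hτ']; ring
      rw [h8]
      simp only [hw]
      rw [h9]
      ring
    simp only [h7]
    rw [Finset.sum_sub_distrib, ← Finset.mul_sum, ← Finset.mul_sum, ← hs]
    have h10 : ∑ k, τ' k ^ (p - 1) ≤ N * t := by
      calc ∑ k, τ' k ^ (p - 1) ≤ ∑ _k : n, t := Finset.sum_le_sum fun k _ => h4 k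
        _ = N * t := by rw [Finset.sum_const, Finset.card_univ, nsmul_eq_mul]
    have h11 : y * δ / t * ∑ k, τ' k ^ (p - 1) ≤ ε := by
      calc y * δ / t * ∑ k, τ' k ^ (p - 1) ≤ y * δ / t * (N * t) := by gcongr
        _ = ε := by rw [hδ]; field_simp
    have h12 : y / t * s = y * s ^ (1 / p) := by
      have : s = s ^ (1 / p) * t := by
        rw [ht, ← Real.rpow_add hspos]
        have : 1 / p + 1 / q = 1 := by
          rw [one_div, one_div]; exact hpq.inv_add_inv_eq_one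
        rw [this, Real.rpow_one]
      rw [div_mul_eq_mul_div, div_eq_iff htpos.ne', mul_assoc, ← this]
    rw [h12]
    have := mul_le_mul_of_nonneg_left h3 hy.le
    linarith

end Pool.Agent.LibSchQ
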