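import Pool.Agent.LibSchQ.K2
import Pool.Agent.LibSchQ.K1b

/-! **F3.**  The positive sector, by duality from the inequality for the exponent `q`. -/

open Matrix
open scoped ComplexOrder

namespace Pool.Agent.LibSchQ

open Pool.Agent.LibSchP

/-- the inequality for the exponent `q` and `2 × 2` block matrices with square blocks -/
def FourQ (q : ℝ) : Prop :=
  ∀ (n : Type) [Fintype n] [DecidableEq n] (A B C D : Matrix n n ℂ) (a b c d : ℝ),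
    0 ≤ a → 0 ≤ b → 0 ≤ c → 0 ≤ d → LibSch.pw q A ≤ a ^ q → LibSch.pw q B ≤ b ^ q →
    LibSch.pw q C ≤ c ^ q → LibSch.pw q D ≤ d ^ q →
    LibSch.pw q (fromBlocks A B C D) ≤ LibSch.pw q (m2 a b c d)

variable {n : Type} [Fintype n] [DecidableEq n]

/-- conjugate symmetry of the real trace pairing -/
theorem f3_symm (X T : Matrix n n ℂ) : (trace (Tᴴ * X)).re = (trace (Xᴴ * T)).re := by
  have h : Tᴴ * X = (Xᴴ * T)ᴴ := by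
    rw [conjTranspose_mul, conjTranspose_conjTranspose]
  rw [h, trace_conjTranspose]
  simp

theorem f3_norming [Nonempty n] (p q : ℝ) (hpq : p.HolderConjugate q) (T : Matrix n n ℂ)
    (y ε : ℝ) (hy : 0 ≤ y) (hε : 0 < ε) : ∃ S : Matrix n n ℂ, LibSch.pw q S ≤ y ^ q ∧
      y * LibSch.sn p T - ε ≤ (trace (Sᴴ * T)).re := by
  rcases hy.eq_or_lt with h | h
  · refine ⟨0, ?_, ?_⟩
    · have hq0 : 0 < q := hpq.symm.pos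
      have h1 := pw_smul q hq0 0 (0 : Matrix n n ℂ)
      rw [abs_zero, Real.zero_rpow hq0.ne', zero_mul, smul_zero] at h1
      rw [h1]
      exact Real.rpow_nonneg hy _
    · rw [← h]
      simp
      exact hε.le
  · obtain ⟨S, -, h2, h3⟩ := norming p q hpq T y ε h hε
    exact ⟨S, h2.le, h3⟩

/-- for `ε > 0` take `S_ij` from `norming` (`S_ij = 0` if `y_ij = 0`); `trace_young`, `trace_blocks`,
`FourQ`. -/
theorem pos_sector [Nonempty n] {p q y₁₁ y₁₂ y₂₁ y₂₂ z₁₁ z₁₂ z₂₁ z₂₂ s : ℝ} (hF : FourQ q)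
    (D : Sd p q y₁₁ y₁₂ y₂₁ y₂₂ z₁₁ z₁₂ z₂₁ z₂₂ s) (h₁₁ : 0 ≤ y₁₁) (h₁₂ : 0 ≤ y₁₂)
    (h₂₁ : 0 ≤ y₂₁) (h₂₂ : 0 ≤ y₂₂) (T₁₁ T₁₂ T₂₁ T₂₂ : Matrix n n ℂ)
    (e₁₁ : LibSch.sn p T₁₁ = z₁₁) (e₁₂ : LibSch.sn p T₁₂ = z₁₂) (e₂₁ : LibSch.sn p T₂₁ = z₂₁)
    (e₂₂ : LibSch.sn p T₂₂ = z₂₂) : s ≤ LibSch.pw p (fromBlocks T₁₁ T₁₂ T₂₁ T₂₂) := by
  have hpq := D.hpq
  have hp0 : 0 < p := hpq.pos
  have hq0 : 0 < q := hpq.symm.pos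
  have hsum : p⁻¹ + q⁻¹ = 1 := hpq.inv_add_inv_eq_one
  refine le_of_forall_pos_le_add fun e he => ?_
  have hε : 0 < e / (4 * p) := by positivity
  obtain ⟨S₁₁, w₁₁, t₁₁⟩ := f3_norming p q hpq T₁₁ y₁₁ (e / (4 * p)) h₁₁ hε
  obtain ⟨S₁₂, w₁₂, t₁₂⟩ := f3_norming p q hpq T₁₂ y₁₂ (e / (4 * p)) h₁₂ hε
  obtain ⟨S₂₁, w₂₁, t₂₁⟩ := f3_norming p q hpq T₂₁ y₂₁ (e / (4 * p)) h₂₁ hε
  obtain ⟨S₂₂, w₂₂, t₂₂⟩ := f3_norming p q hpq T₂₂ y₂₂ (e / (4 * p)) h₂₂ hε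
  have hY := trace_young p q hpq (fromBlocks T₁₁ T₁₂ T₂₁ T₂₂) (fromBlocks S₁₁ S₁₂ S₂₁ S₂₂)
  rw [trace_blocks, f3_symm S₁₁ T₁₁, f3_symm S₁₂ T₁₂, f3_symm S₂₁ T₂₁, f3_symm S₂₂ T₂₂] at hY
  have hQ := hF n S₁₁ S₁₂ S₂₁ S₂₂ y₁₁ y₁₂ y₂₁ y₂₂ h₁₁ h₁₂ h₂₁ h₂₂ w₁₁ w₁₂ w₂₁ w₂₂
  rw [D.hY] at hQ
  have hs := D.hYZ
  rw [e₁₁] at t₁₁
  rw [e₁₂] at t₁₂
  rw [e₂₁] at t₂₁
  rw [e₂₂] at t₂₂
  set P := LibSch.pw p (fromBlocks T₁₁ T₁₂ T₂₁ T₂₂) with hP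
  set Q := LibSch.pw q (fromBlocks S₁₁ S₁₂ S₂₁ S₂₂) with hQ
  have hQ' : Q / q ≤ s / q := div_le_div_of_nonneg_right (by assumption) hq0.le
  have hep : e / (4 * p) * 4 = e / p := by
    field_simp
  have hs1 : s = s / p + s / q := by
    have : s * (p⁻¹ + q⁻¹) = s := by rw [hsum, mul_one]
    rw [mul_add] at this
    rw [div_eq_mul_inv, div_eq_mul_inv]
    exact this.symm
  have key : s / p ≤ P / p + e / p := by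
    linarith
  have : s / p ≤ (P + e) / p := by
    rw [add_div]
    exact key
  exact (div_le_div_iff_of_pos_right hp0).1 this

end Pool.Agent.LibSchQ
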