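import Pool.Agent.LibSchQ.F2
import Pool.Agent.LibSchQ.F3
import Pool.Agent.LibSchQ.F4

/-! **F5.**  All signs. -/

open Matrix
open scoped ComplexOrder

namespace Pool.Agent.LibSchQ

open Pool.Agent.LibSchP

variable {n : Type} [Fintype n] [DecidableEq n]

theorem pw_swap_col (p : ℝ) (A B C D : Matrix n n ℂ) :
    LibSch.pw p (fromBlocks B A D C) = LibSch.pw p (fromBlocks A B C D) := by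
  have h : fromBlocks B A D C =
      (fromBlocks A B C D).submatrix (Equiv.refl _) (Equiv.sumComm n n) := by
    ext i k
    rcases i with i | i <;> rcases k with k | k <;> rfl
  rw [h, LibSch.pw_submatrix]

theorem pw_swap_row (p : ℝ) (A B C D : Matrix n n ℂ) :
    LibSch.pw p (fromBlocks C D A B) = LibSch.pw p (fromBlocks A B C D) := by
  have h : fromBlocks C D A B =
      (fromBlocks A B C D).submatrix (Equiv.sumComm n n) (Equiv.refl _) := by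
    ext i k
    rcases i with i | i <;> rcases k with k | k <;> rfl
  rw [h, LibSch.pw_submatrix]

/-- `Sd` for permuted entries (`pw_m2_swap_col`, `pw_m2_swap_row`) -/
theorem Sd_swap_col {p q y₁₁ y₁₂ y₂₁ y₂₂ z₁₁ z₁₂ z₂₁ z₂₂ s : ℝ}
    (D : Sd p q y₁₁ y₁₂ y₂₁ y₂₂ z₁₁ z₁₂ z₂₁ z₂₂ s) :
    Sd p q y₁₂ y₁₁ y₂₂ y₂₁ z₁₂ z₁₁ z₂₂ z₂₁ s where
  hpq := D.hpq
  hq := D.hq
  hY := by rw [pw_m2_swap_col]; exact D.hY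
  hZ := by rw [pw_m2_swap_col]; exact D.hZ
  hYZ := by linarith [D.hYZ]
  hz₁₁ := D.hz₁₂
  hz₁₂ := D.hz₁₁
  hz₂₁ := D.hz₂₂
  hz₂₂ := D.hz₂₁

theorem Sd_swap_row {p q y₁₁ y₁₂ y₂₁ y₂₂ z₁₁ z₁₂ z₂₁ z₂₂ s : ℝ}
    (D : Sd p q y₁₁ y₁₂ y₂₁ y₂₂ z₁₁ z₁₂ z₂₁ z₂₂ s) :
    Sd p q y₂₁ y₂₂ y₁₁ y₁₂ z₂₁ z₂₂ z₁₁ z₁₂ s where
  hpq := D.hpq
  hq := D.hq
  hY := by rw [pw_m2_swap_row]; exact D.hY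
  hZ := by rw [pw_m2_swap_row]; exact D.hZ
  hYZ := by linarith [D.hYZ]
  hz₁₁ := D.hz₂₁
  hz₁₂ := D.hz₂₂
  hz₂₁ := D.hz₁₁
  hz₂₂ := D.hz₁₂

/-- one negative entry anywhere: `neg_sector` after a permutation -/
theorem neg_any [Nonempty n] {p q y₁₁ y₁₂ y₂₁ y₂₂ z₁₁ z₁₂ z₂₁ z₂₂ s : ℝ}
    (D : Sd p q y₁₁ y₁₂ y₂₁ y₂₂ z₁₁ z₁₂ z₂₁ z₂₂ s)
    (h : (0 < y₁₁ ∧ 0 < y₁₂ ∧ 0 < y₂₁ ∧ y₂₂ < 0) ∨ (0 < y₁₁ ∧ 0 < y₁₂ ∧ y₂₁ < 0 ∧ 0 < y₂₂) ∨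
        (0 < y₁₁ ∧ y₁₂ < 0 ∧ 0 < y₂₁ ∧ 0 < y₂₂) ∨ (y₁₁ < 0 ∧ 0 < y₁₂ ∧ 0 < y₂₁ ∧ 0 < y₂₂))
    (T₁₁ T₁₂ T₂₁ T₂₂ : Matrix n n ℂ) (e₁₁ : LibSch.sn p T₁₁ = z₁₁)
    (e₁₂ : LibSch.sn p T₁₂ = z₁₂) (e₂₁ : LibSch.sn p T₂₁ = z₂₁) (e₂₂ : LibSch.sn p T₂₂ = z₂₂) :
    s ≤ LibSch.pw p (fromBlocks T₁₁ T₁₂ T₂₁ T₂₂) := by
  rcases h with h | h | h | h
  · exact neg_sector D h.1 h.2.1 h.2.2.1 h.2.2.2 T₁₁ T₁₂ T₂₁ T₂₂ e₁₁ e₁₂ e₂₁ e₂₂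
  · have h1 := neg_sector (Sd_swap_col D) h.2.1 h.1 h.2.2.2 h.2.2.1 T₁₂ T₁₁ T₂₂ T₂₁ e₁₂ e₁₁
      e₂₂ e₂₁
    rwa [pw_swap_col] at h1
  · have h1 := neg_sector (Sd_swap_row D) h.2.2.1 h.2.2.2 h.1 h.2.1 T₂₁ T₂₂ T₁₁ T₁₂ e₂₁ e₂₂
      e₁₁ e₁₂
    rwa [pw_swap_row] at h1
  · have h1 := neg_sector (Sd_swap_row (Sd_swap_col D)) h.2.2.2 h.2.2.1 h.2.1 h.1 T₂₂ T₂₁ T₁₂
      T₁₁ e₂₂ e₂₁ e₁₂ e₁₁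
    rwa [pw_swap_row, pw_swap_col] at h1

/-- `scalar_data`, `neg_any`, `pos_sector` -/
theorem square_claim [Nonempty n] (p q : ℝ) (hpq : p.HolderConjugate q) (hq : 2 < q)
    (hF : FourQ q) (T₁₁ T₁₂ T₂₁ T₂₂ : Matrix n n ℂ) :
    LibSch.pw p (m2 (LibSch.sn p T₁₁) (LibSch.sn p T₁₂) (LibSch.sn p T₂₁) (LibSch.sn p T₂₂)) ≤
      LibSch.pw p (fromBlocks T₁₁ T₁₂ T₂₁ T₂₂) := by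
  have hsn : ∀ T : Matrix n n ℂ, 0 ≤ LibSch.sn p T := fun T =>
    Real.rpow_nonneg (LibSch.pw_nonneg p T) _
  obtain ⟨y₁₁, y₁₂, y₂₁, y₂₂, D, h⟩ := scalar_data p q hpq hq _ _ _ _ (hsn T₁₁) (hsn T₁₂)
    (hsn T₂₁) (hsn T₂₂)
  rcases h with h | h
  · exact pos_sector hF D h.1 h.2.1 h.2.2.1 h.2.2.2 T₁₁ T₁₂ T₂₁ T₂₂ rfl rfl rfl rfl
  · exact neg_any D h T₁₁ T₁₂ T₂₁ T₂₂ rfl rfl rfl rfl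

end Pool.Agent.LibSchQ
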