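import Pool.Agent.LibSchQ.F1b
import Pool.Agent.LibSchQ.K1b

/-! **F2.**  The negative sector. -/

open Matrix
open scoped ComplexOrder

namespace Pool.Agent.LibSchQ

open Pool.Agent.LibSchP

variable {n : Type} [Fintype n] [DecidableEq n]

/-- conjugate symmetry of the real trace pairing -/
theorem f2_symm (X T : Matrix n n ℂ) : (trace (Tᴴ * X)).re = (trace (Xᴴ * T)).re := by
  have h : Tᴴ * X = (Xᴴ * T)ᴴ := by
    rw [conjTranspose_mul, conjTranspose_conjTranspose]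
  rw [h, trace_conjTranspose]
  simp

theorem f2_pw (p : ℝ) (hp : 0 < p) (z : ℝ) (T : Matrix n n ℂ) (hT : LibSch.sn p T = z) :
    LibSch.pw p T = z ^ p := by
  rw [← hT]
  unfold LibSch.sn
  rw [← Real.rpow_mul (LibSch.pw_nonneg p T), one_div, inv_mul_cancel₀ hp.ne', Real.rpow_one]

theorem f2_scaled (p q : ℝ) (hpq : p.HolderConjugate q) (T X : Matrix n n ℂ) (t : ℝ)
    (ht : 0 < t) : -(t * (trace (Xᴴ * T)).re) ≤
      t ^ p * LibSch.pw p T / p + LibSch.pw q X / q := by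
  have h := trace_young p q hpq (((-t : ℝ) : ℂ) • T) X
  rw [pw_smul p hpq.pos, abs_neg, abs_of_pos ht, conjTranspose_smul, smul_mul_assoc, trace_smul]
    at h
  have h2 : (star (((-t : ℝ) : ℂ)) • trace (Tᴴ * X)).re = -(t * (trace (Xᴴ * T)).re) := by
    rw [← f2_symm X T]
    simp
  rw [h2] at h
  exact h

/-- `Re tr XᴴT ≥ - lam (pw q X / q + |y|^q / p)` if `sn p T = lam |y|^(q-1)`: `lam = 0`: `T = 0`;
`lam > 0`: `trace_young` for `-T/lam` and `X`. -/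
theorem corner_young (p q : ℝ) (hpq : p.HolderConjugate q) (hq : 2 < q) (y z : ℝ) (hy : y < 0)
    (hz : 0 ≤ z) (T X : Matrix n n ℂ) (hT : LibSch.sn p T = z) :
    -(z / |y| ^ (q - 1) * (LibSch.pw q X / q + |y| ^ q / p)) ≤ (trace (Xᴴ * T)).re := by
  have hp0 : 0 < p := hpq.pos
  have hq0 : 0 < q := hpq.symm.pos
  have hya : 0 < |y| := abs_pos.2 hy.ne
  have hy1 : 0 < |y| ^ (q - 1) := Real.rpow_pos_of_pos hya _
  have hpw := f2_pw p hp0 z T hT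
  have hX0 := LibSch.pw_nonneg q X
  rcases hz.eq_or_lt with hz0 | hz0
  · rw [← hz0, zero_div, zero_mul, neg_zero]
    by_contra hneg
    push Not at hneg
    have hc : 0 < -(trace (Xᴴ * T)).re := by linarith
    have hA : 0 < LibSch.pw q X / q + 1 := by positivity
    have h := f2_scaled p q hpq T X ((LibSch.pw q X / q + 1) / -(trace (Xᴴ * T)).re)
      (div_pos hA hc)
    rw [hpw, ← hz0, Real.zero_rpow hp0.ne', mul_zero, zero_div, zero_add] at h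
    have h2 : -((LibSch.pw q X / q + 1) / -(trace (Xᴴ * T)).re * (trace (Xᴴ * T)).re) =
        LibSch.pw q X / q + 1 := by
      rw [div_neg, neg_mul, neg_neg, div_mul_cancel₀ _ hneg.ne]
    rw [h2] at h
    linarith
  · have hlam : 0 < z / |y| ^ (q - 1) := div_pos hz0 hy1
    have h := f2_scaled p q hpq T X (z / |y| ^ (q - 1))⁻¹ (inv_pos.2 hlam)
    have hmul : (q - 1) * p = q := by
      have := hpq.symm.sub_one_mul_conj
      linarith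
    have h3 : (z / |y| ^ (q - 1))⁻¹ ^ p * LibSch.pw p T = |y| ^ q := by
      rw [hpw, ← Real.mul_rpow (inv_nonneg.2 hlam.le) hz, inv_div, div_mul_cancel₀ _ hz0.ne',
        ← Real.rpow_mul hya.le, hmul]
    rw [h3] at h
    have h4 := mul_le_mul_of_nonneg_left h hlam.le
    have h5 : z / |y| ^ (q - 1) * -((z / |y| ^ (q - 1))⁻¹ * (trace (Xᴴ * T)).re) =
        -(trace (Xᴴ * T)).re := by
      rw [mul_neg, ← mul_assoc, mul_inv_cancel₀ hlam.ne', one_mul]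
    rw [h5] at h4
    linarith

/-- **negative sector**: for `ε > 0` `norming` gives `S₁₁, S₁₂, S₂₁`, `exists_corner` gives `X`;
`trace_young` for `T` and `S = fromBlocks S₁₁ S₁₂ S₂₁ X`, `trace_blocks`, `corner_young`. -/
theorem neg_sector [Nonempty n] {p q y₁₁ y₁₂ y₂₁ y₂₂ z₁₁ z₁₂ z₂₁ z₂₂ s : ℝ}
    (D : Sd p q y₁₁ y₁₂ y₂₁ y₂₂ z₁₁ z₁₂ z₂₁ z₂₂ s) (h₁₁ : 0 < y₁₁) (h₁₂ : 0 < y₁₂)
    (h₂₁ : 0 < y₂₁) (h₂₂ : y₂₂ < 0) (T₁₁ T₁₂ T₂₁ T₂₂ : Matrix n n ℂ)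
    (e₁₁ : LibSch.sn p T₁₁ = z₁₁) (e₁₂ : LibSch.sn p T₁₂ = z₁₂) (e₂₁ : LibSch.sn p T₂₁ = z₂₁)
    (e₂₂ : LibSch.sn p T₂₂ = z₂₂) : s ≤ LibSch.pw p (fromBlocks T₁₁ T₁₂ T₂₁ T₂₂) := by
  have hpq := D.hpq
  have hp0 : 0 < p := hpq.pos
  have hq0 : 0 < q := hpq.symm.pos
  have hya : 0 < |y₂₂| := abs_pos.2 h₂₂.ne
  have hy1 : 0 < |y₂₂| ^ (q - 1) := Real.rpow_pos_of_pos hya _
  have hsum : p⁻¹ + q⁻¹ = 1 := hpq.inv_add_inv_eq_one
  refine le_of_forall_pos_le_add fun e he => ?_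
  have hε : 0 < e / (3 * p) := by positivity
  obtain ⟨S₁₁, u₁₁, w₁₁, t₁₁⟩ := norming p q hpq T₁₁ y₁₁ (e / (3 * p)) h₁₁ hε
  obtain ⟨S₁₂, u₁₂, w₁₂, t₁₂⟩ := norming p q hpq T₁₂ y₁₂ (e / (3 * p)) h₁₂ hε
  obtain ⟨S₂₁, u₂₁, w₂₁, t₂₁⟩ := norming p q hpq T₂₁ y₂₁ (e / (3 * p)) h₂₁ hε
  obtain ⟨X, hX⟩ := exists_corner D h₁₁ h₁₂ h₂₁ h₂₂ S₁₁ S₁₂ S₂₁ u₁₁ u₁₂ u₂₁ w₁₁ w₁₂ w₂₁
  have hY := trace_young p q hpq (fromBlocks T₁₁ T₁₂ T₂₁ T₂₂) (fromBlocks S₁₁ S₁₂ S₂₁ X)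
  rw [trace_blocks, f2_symm S₁₁ T₁₁, f2_symm S₁₂ T₁₂, f2_symm S₂₁ T₂₁, f2_symm X T₂₂] at hY
  have hc := corner_young p q hpq D.hq y₂₂ z₂₂ h₂₂ D.hz₂₂ T₂₂ X e₂₂
  have hlz : z₂₂ / |y₂₂| ^ (q - 1) * |y₂₂| ^ q = -(y₂₂ * z₂₂) := by
    have h1 : |y₂₂| ^ q = |y₂₂| ^ (q - 1) * |y₂₂| := by
      have h3 := Real.rpow_add hya (q - 1) 1
      rw [Real.rpow_one] at h3
      rw [← h3]
      congr 1
      ring
    rw [h1, ← mul_assoc, div_mul_cancel₀ _ hy1.ne', abs_of_neg h₂₂]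
    ring
  have hs := D.hYZ
  rw [e₁₁] at t₁₁
  rw [e₁₂] at t₁₂
  rw [e₂₁] at t₂₁
  set lam := z₂₂ / |y₂₂| ^ (q - 1) with hlam
  set P := LibSch.pw p (fromBlocks T₁₁ T₁₂ T₂₁ T₂₂) with hP
  set Q := LibSch.pw q (fromBlocks S₁₁ S₁₂ S₂₁ X) with hQ
  set x := LibSch.pw q X with hx
  set L := lam * |y₂₂| ^ q with hL
  have hc' : -(lam * x / q + L / p) ≤ (trace (Xᴴ * T₂₂)).re := by
    have : lam * (x / q + |y₂₂| ^ q / p) = lam * x / q + L / p := by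
      rw [hL]
      ring
    rw [← this]
    exact hc
  have hQ' : Q / q ≤ (s + L - lam * x) / q := by
    refine div_le_div_of_nonneg_right ?_ hq0.le
    linarith
  have hep : e / (3 * p) * 3 = e / p := by
    field_simp
  have hL1 : L = L / p + L / q := by
    have : L * (p⁻¹ + q⁻¹) = L := by rw [hsum, mul_one]
    rw [mul_add] at this
    rw [div_eq_mul_inv, div_eq_mul_inv]
    exact this.symm
  have hs1 : s = s / p + s / q := by
    have : s * (p⁻¹ + q⁻¹) = s := by rw [hsum, mul_one]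
    rw [mul_add] at this
    rw [div_eq_mul_inv, div_eq_mul_inv]
    exact this.symm
  have hspl : (s + L - lam * x) / q = s / q + L / q - lam * x / q := by
    ring
  have key : s / p ≤ P / p + e / p := by
    linarith
  have : s / p ≤ (P + e) / p := by
    rw [add_div]
    exact key
  exact (div_le_div_iff_of_pos_right hp0).1 this

end Pool.Agent.LibSchQ
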