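import Pool.Agent.LibSchQ.Defs
import Pool.Agent.LibSchP.A2

/-! **B1.**  API of the kernel forms. -/

open Matrix
open scoped ComplexOrder

namespace Pool.Agent.LibSchQ

open Pool.Agent.LibSchP

variable {κ ν : Type} [Fintype κ] [Fintype ν]

theorem kf_nonneg (k : ℝ → ℝ → ℝ) (s : κ → ℝ) (V : Matrix κ ν ℂ) (z : Matrix ν ν ℂ)
    (hk : ∀ i j, 0 ≤ k (s i) (s j)) : 0 ≤ kf k s V z :=
  Finset.sum_nonneg fun i _ => Finset.sum_nonneg fun j _ => mul_nonneg (hk i j) (sq_nonneg _)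

theorem kf_add (k k' : ℝ → ℝ → ℝ) (s : κ → ℝ) (V : Matrix κ ν ℂ) (z : Matrix ν ν ℂ) :
    kf (fun a b => k a b + k' a b) s V z = kf k s V z + kf k' s V z := by
  unfold kf
  simp only [add_mul, Finset.sum_add_distrib]

theorem kf_smul (c : ℝ) (k : ℝ → ℝ → ℝ) (s : κ → ℝ) (V : Matrix κ ν ℂ) (z : Matrix ν ν ℂ) :
    kf (fun a b => c * k a b) s V z = c * kf k s V z := by
  unfold kf
  simp only [mul_assoc, Finset.mul_sum]

theorem kf_congr (k k' : ℝ → ℝ → ℝ) (s : κ → ℝ) (V : Matrix κ ν ℂ) (z : Matrix ν ν ℂ)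
    (h : ∀ i j, k (s i) (s j) = k' (s i) (s j)) : kf k s V z = kf k' s V z := by
  unfold kf
  simp only [h]

theorem b1_norm_sub (u v : ℂ) :
    ‖u - v‖ ^ 2 = ‖u‖ ^ 2 - 2 * (star v * u).re + ‖v‖ ^ 2 := by
  rw [← Complex.normSq_eq_norm_sq, ← Complex.normSq_eq_norm_sq, ← Complex.normSq_eq_norm_sq]
  simp only [Complex.normSq_apply, Complex.star_def, Complex.mul_re, Complex.conj_re,
    Complex.conj_im, Complex.sub_re, Complex.sub_im]
  ring

theorem b1_star_self (u : ℂ) : (star u * u).re = ‖u‖ ^ 2 := by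
  rw [← Complex.normSq_eq_norm_sq]
  simp only [Complex.normSq_apply, Complex.star_def, Complex.mul_re, Complex.conj_re,
    Complex.conj_im]
  ring

/-- `|u - v|² = |u|² - 2 Re (conj v u) + |v|²` -/
theorem kf_sub (k : ℝ → ℝ → ℝ) (s : κ → ℝ) (V : Matrix κ ν ℂ) (z w : Matrix ν ν ℂ) :
    kf k s V (z - w) = kf k s V z - 2 * kb k s V w z + kf k s V w := by
  unfold kf kb
  rw [Finset.mul_sum, ← Finset.sum_sub_distrib, ← Finset.sum_add_distrib]
  refine Finset.sum_congr rfl fun i _ => ?_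
  rw [Finset.mul_sum, ← Finset.sum_sub_distrib, ← Finset.sum_add_distrib]
  refine Finset.sum_congr rfl fun j _ => ?_
  have e : (V * (z - w) * Vᴴ) i j = (V * z * Vᴴ) i j - (V * w * Vᴴ) i j := by
    rw [Matrix.mul_sub, Matrix.sub_mul, Matrix.sub_apply]
  rw [e, b1_norm_sub]
  ring

theorem b1_smul_apply (c : ℝ) (V : Matrix κ ν ℂ) (z : Matrix ν ν ℂ) (i j : κ) :
    (V * ((c : ℂ) • z) * Vᴴ) i j = (c : ℂ) * (V * z * Vᴴ) i j := by
  rw [Matrix.mul_smul, Matrix.smul_mul, Matrix.smul_apply, smul_eq_mul]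

theorem kf_smul_arg (c : ℝ) (k : ℝ → ℝ → ℝ) (s : κ → ℝ) (V : Matrix κ ν ℂ) (z : Matrix ν ν ℂ) :
    kf k s V ((c : ℂ) • z) = c ^ 2 * kf k s V z := by
  unfold kf
  rw [Finset.mul_sum]
  refine Finset.sum_congr rfl fun i _ => ?_
  rw [Finset.mul_sum]
  refine Finset.sum_congr rfl fun j _ => ?_
  rw [b1_smul_apply, norm_mul, Complex.norm_real, mul_pow, Real.norm_eq_abs, sq_abs]
  ring

theorem kb_smul_left (c : ℝ) (k : ℝ → ℝ → ℝ) (s : κ → ℝ) (V : Matrix κ ν ℂ)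
    (z w : Matrix ν ν ℂ) : kb k s V ((c : ℂ) • z) w = c * kb k s V z w := by
  unfold kb
  rw [Finset.mul_sum]
  refine Finset.sum_congr rfl fun i _ => ?_
  rw [Finset.mul_sum]
  refine Finset.sum_congr rfl fun j _ => ?_
  rw [b1_smul_apply, star_mul', mul_assoc, Complex.star_def, Complex.conj_ofReal,
    Complex.re_ofReal_mul]
  ring

theorem kb_self (k : ℝ → ℝ → ℝ) (s : κ → ℝ) (V : Matrix κ ν ℂ) (z : Matrix ν ν ℂ) :
    kb k s V z z = kf k s V z := by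
  unfold kb kf
  simp only [b1_star_self]

theorem kt_nonneg (k : ℝ → ℝ → ℝ) (θ : ν → ℝ) (z : Matrix ν ν ℂ)
    (hk : ∀ i j, 0 ≤ k (θ i) (θ j)) : 0 ≤ kt k θ z :=
  Finset.sum_nonneg fun i _ => Finset.sum_nonneg fun j _ => mul_nonneg (hk i j) (sq_nonneg _)

theorem kt_add (k k' : ℝ → ℝ → ℝ) (θ : ν → ℝ) (z : Matrix ν ν ℂ) :
    kt (fun a b => k a b + k' a b) θ z = kt k θ z + kt k' θ z := by
  unfold kt
  simp only [add_mul, Finset.sum_add_distrib]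

theorem kt_smul (c : ℝ) (k : ℝ → ℝ → ℝ) (θ : ν → ℝ) (z : Matrix ν ν ℂ) :
    kt (fun a b => c * k a b) θ z = c * kt k θ z := by
  unfold kt
  simp only [mul_assoc, Finset.mul_sum]

theorem kt_mono (k k' : ℝ → ℝ → ℝ) (θ : ν → ℝ) (z : Matrix ν ν ℂ)
    (h : ∀ i j, k (θ i) (θ j) ≤ k' (θ i) (θ j)) : kt k θ z ≤ kt k' θ z :=
  Finset.sum_le_sum fun i _ => Finset.sum_le_sum fun j _ =>
    mul_le_mul_of_nonneg_right (h i j) (sq_nonneg _)

theorem kt_hm (k f : ℝ → ℝ → ℝ) (θ : ν → ℝ) (z : Matrix ν ν ℂ) :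
    kt k θ (hm f θ z) = kt (fun a b => k a b * f a b ^ 2) θ z := by
  unfold kt hm
  refine Finset.sum_congr rfl fun i _ => Finset.sum_congr rfl fun j _ => ?_
  rw [Matrix.of_apply, norm_mul, Complex.norm_real, mul_pow, Real.norm_eq_abs, sq_abs]
  ring

/-- `∑ g_i h_j Re (conj Z_ij W_ij) = Re tr Zᴴ g W h` -/
theorem b1_core [DecidableEq κ] (g h : κ → ℝ) (Z W : Matrix κ κ ℂ) :
    ∑ i, ∑ j, g i * h j * (star (Z i j) * W i j).re = (trace (Zᴴ * dg g * W * dg h)).re := by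
  have e : ∀ j, (Zᴴ * dg g * W * dg h) j j = ∑ i, ((g i * h j : ℝ) : ℂ) * (star (Z i j) * W i j) := by
    intro j
    have e1 : (Zᴴ * dg g * W * dg h) j j = (Zᴴ * dg g * W) j j * (h j : ℂ) := by
      unfold dg
      rw [Matrix.mul_diagonal]
    rw [e1, Matrix.mul_apply, Finset.sum_mul]
    refine Finset.sum_congr rfl fun i _ => ?_
    have e2 : (Zᴴ * dg g) j i = star (Z i j) * (g i : ℂ) := by
      unfold dg
      rw [Matrix.mul_diagonal, Matrix.conjTranspose_apply]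
    rw [e2]
    push_cast
    ring
  unfold Matrix.trace
  simp only [Matrix.diag_apply, e]
  rw [Complex.re_sum, Finset.sum_comm]
  refine Finset.sum_congr rfl fun j _ => ?_
  rw [Complex.re_sum]
  refine Finset.sum_congr rfl fun i _ => ?_
  rw [Complex.re_ofReal_mul]

theorem b1_conj (V : Matrix κ ν ℂ) (z : Matrix ν ν ℂ) : (V * z * Vᴴ)ᴴ = V * zᴴ * Vᴴ := by
  rw [Matrix.conjTranspose_mul, Matrix.conjTranspose_mul, Matrix.conjTranspose_conjTranspose,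
    Matrix.mul_assoc]

/-- `tr (V z Vᴴ)ᴴ g(s) (V wᴴ Vᴴ) h(s)` -/
theorem kx_eq [DecidableEq κ] (g h : ℝ → ℝ) (s : κ → ℝ) (V : Matrix κ ν ℂ)
    (z w : Matrix ν ν ℂ) :
    kx g h s V z w = (trace (zᴴ * (Vᴴ * (dg fun j => g (s j)) * V) * wᴴ *
      (Vᴴ * (dg fun j => h (s j)) * V))).re := by
  unfold kx
  rw [b1_core (fun i => g (s i)) (fun j => h (s j)) (V * z * Vᴴ) (V * wᴴ * Vᴴ), b1_conj]
  congr 1
  have e1 : V * zᴴ * Vᴴ * (dg fun i => g (s i)) * (V * wᴴ * Vᴴ) * (dg fun j => h (s j)) =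
      V * (zᴴ * (Vᴴ * (dg fun j => g (s j)) * V) * wᴴ * (Vᴴ * (dg fun j => h (s j)))) := by
    simp only [Matrix.mul_assoc]
  rw [e1, Matrix.trace_mul_comm]
  congr 1
  simp only [Matrix.mul_assoc]

/-- `∑ f(s_j) |(V z Vᴴ)_ij|² = tr zᴴ z (Vᴴ f(s) V)`: with `Z = V z Vᴴ`, `tr ZᴴZ f(s)` and
`VᴴV = 1`. -/
theorem kf_right [DecidableEq κ] [DecidableEq ν] (f : ℝ → ℝ) (s : κ → ℝ) (V : Matrix κ ν ℂ)
    (hV : Vᴴ * V = 1) (z : Matrix ν ν ℂ) :
    kf (fun _ b => f b) s V z = (trace (zᴴ * z * (Vᴴ * (dg fun j => f (s j)) * V))).re := by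
  have h := kx_eq (fun _ => 1) f s V z zᴴ
  have e1 : kx (fun _ => 1) f s V z zᴴ = kf (fun _ b => f b) s V z := by
    unfold kx kf
    simp only [Matrix.conjTranspose_conjTranspose, b1_star_self, one_mul]
  rw [e1] at h
  rw [h, a2_dg_one, Matrix.mul_one, hV, Matrix.mul_one, Matrix.conjTranspose_conjTranspose]

theorem kf_left [DecidableEq κ] [DecidableEq ν] (f : ℝ → ℝ) (s : κ → ℝ) (V : Matrix κ ν ℂ)
    (hV : Vᴴ * V = 1) (z : Matrix ν ν ℂ) :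
    kf (fun a _ => f a) s V z = (trace (z * zᴴ * (Vᴴ * (dg fun j => f (s j)) * V))).re := by
  have h := kx_eq f (fun _ => 1) s V z zᴴ
  have e1 : kx f (fun _ => 1) s V z zᴴ = kf (fun a _ => f a) s V z := by
    unfold kx kf
    simp only [Matrix.conjTranspose_conjTranspose, b1_star_self, mul_one]
  rw [e1] at h
  rw [h, a2_dg_one, Matrix.mul_one, hV, Matrix.mul_one, Matrix.conjTranspose_conjTranspose]
  congr 1
  rw [Matrix.mul_assoc, Matrix.trace_mul_comm, Matrix.mul_assoc, Matrix.trace_mul_comm]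

end Pool.Agent.LibSchQ
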