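import Pool.Agent.LibSchQ.B1

/-! **B2.**  The form `∑ k(s_i, s_j) |Mm_ij|²` for a general kernel. -/

open Matrix
open scoped ComplexOrder

namespace Pool.Agent.LibSchQ

open Pool.Agent.LibSchP

variable {κ ν : Type} [Fintype κ] [Fintype ν]

theorem sp_zero (a : ℝ) (ha : 0 < a) : sp a 0 = 0 := by
  unfold sp
  rw [if_pos le_rfl, Real.zero_rpow ha.ne']

theorem sp_neg (a x : ℝ) (ha : 0 < a) : sp a (-x) = -sp a x := by
  unfold sp
  rcases lt_trichotomy x 0 with h | h | h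
  · rw [if_pos (by linarith), if_neg (by linarith), neg_neg]
  · subst h
    simp [Real.zero_rpow ha.ne']
  · rw [if_neg (by linarith), if_pos h.le, neg_neg]

theorem sp_pos (a x : ℝ) (hx : 0 ≤ x) : sp a x = x ^ a := by
  unfold sp
  rw [if_pos hx]

theorem b2_neg (a x : ℝ) (hx : x < 0) : sp a x = -(|x| ^ a) := by
  unfold sp
  rw [if_neg (not_le.2 hx), abs_of_neg hx]

theorem sp_one (x : ℝ) : sp 1 x = x := by
  unfold sp
  split_ifs <;> simp

theorem abs_sp (a x : ℝ) (ha : 0 < a) : |sp a x| = |x| ^ a := by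
  rcases le_or_gt 0 x with h | h
  · rw [sp_pos a x h, abs_of_nonneg h, abs_of_nonneg (Real.rpow_nonneg h a)]
  · rw [b2_neg a x h, abs_neg, abs_of_nonneg (Real.rpow_nonneg (abs_nonneg x) a)]

theorem b2_rpow_sq (a x : ℝ) (hx : 0 ≤ x) : (x ^ a) ^ 2 = x ^ (2 * a) := by
  rw [← Real.rpow_natCast, ← Real.rpow_mul hx, mul_comm a]
  norm_num

/-- `|sgn(x)|x|^a|^2 = |x|^(2a)` -/
theorem sp_sq (a x : ℝ) (ha : 0 < a) : sp a x ^ 2 = |x| ^ (2 * a) := by
  rw [← sq_abs, abs_sp a x ha, b2_rpow_sq a _ (abs_nonneg x)]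

/-- `|x|^b sgn(x)|x|^a = sgn(x)|x|^(a+b)` -/
theorem abs_mul_sp (a b x : ℝ) (ha : 0 < a) (hb : 0 ≤ b) : |x| ^ b * sp a x = sp (a + b) x := by
  rcases le_or_gt 0 x with h | h
  · rw [sp_pos a x h, sp_pos _ x h, abs_of_nonneg h, Real.rpow_add_of_nonneg h ha.le hb]
    ring
  · rw [b2_neg a x h, b2_neg _ x h, Real.rpow_add_of_nonneg (abs_nonneg x) ha.le hb]
    ring

/-- `sgn(x)|x|^a sgn(x)|x|^b = |x|^(a+b)` -/
theorem sp_mul_sp (a b x : ℝ) (ha : 0 < a) (hb : 0 < b) : sp a x * sp b x = |x| ^ (a + b) := by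
  rw [Real.rpow_add_of_nonneg (abs_nonneg x) ha.le hb.le]
  rcases le_or_gt 0 x with h | h
  · rw [sp_pos a x h, sp_pos b x h, abs_of_nonneg h]
  · rw [b2_neg a x h, b2_neg b x h]
    ring

/-- `x sgn(x)|x|^(q-1) = |x|^q` -/
theorem mul_sp (q x : ℝ) (hq : 1 < q) : x * sp (q - 1) x = |x| ^ q := by
  have h := sp_mul_sp 1 (q - 1) x one_pos (by linarith)
  rw [sp_one] at h
  rw [h]
  congr 1
  ring

theorem sp_continuous (a : ℝ) (ha : 0 < a) : Continuous (sp a) := by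
  unfold sp
  refine Continuous.if_le (Real.continuous_rpow_const ha.le)
    ((Real.continuous_rpow_const ha.le).comp continuous_neg).neg continuous_const
    continuous_id fun x hx => ?_
  subst hx
  simp [Real.zero_rpow ha.ne']

theorem b2_norm (a b : ℝ) (e e' : ℂ) : ‖(a : ℂ) * e + (b : ℂ) * e'‖ ^ 2 =
    a ^ 2 * ‖e‖ ^ 2 + b ^ 2 * ‖e'‖ ^ 2 + 2 * (a * b) * (star e * e').re := by
  rw [← Complex.normSq_eq_norm_sq, ← Complex.normSq_eq_norm_sq, ← Complex.normSq_eq_norm_sq]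
  simp only [Complex.normSq_apply, Complex.star_def, Complex.mul_re, Complex.mul_im,
    Complex.add_re, Complex.add_im, Complex.ofReal_re, Complex.ofReal_im, Complex.conj_re,
    Complex.conj_im]
  ring

/-- Expand `|α e + β e'|² = α²|e|² + β²|e'|² + 2αβ Re(conj e e')` with
`α = |s_i|^(μ/2) sp (1-μ/2) s_j`, `β = sp (1-μ/2) s_i |s_j|^(μ/2)`, `e = (V z Vᴴ)_ij`,
`e' = (V wᴴ Vᴴ)_ij = conj (V w Vᴴ)_ji`; in the second sum exchange `i` and `j`. -/
theorem Mm_form (μ : ℝ) (h0 : 0 ≤ μ) (h1 : μ < 1) (k : ℝ → ℝ → ℝ) (s : κ → ℝ)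
    (V : Matrix κ ν ℂ) (z w : Matrix ν ν ℂ) :
    ∑ i, ∑ j, k (s i) (s j) * ‖Mm μ s V z w i j‖ ^ 2 =
      kf (fun x y => k x y * (|x| ^ μ * |y| ^ (2 - μ))) s V z +
      kf (fun x y => k y x * (|x| ^ μ * |y| ^ (2 - μ))) s V w +
      2 * ∑ i, ∑ j, k (s i) (s j) * (s i * s j) *
        (star ((V * z * Vᴴ) i j) * (V * wᴴ * Vᴴ) i j).re := by
  have hsw : ∀ i j, ‖(V * wᴴ * Vᴴ) i j‖ = ‖(V * w * Vᴴ) j i‖ := by
    intro i j
    have h : V * wᴴ * Vᴴ = (V * w * Vᴴ)ᴴ := by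
      rw [conjTranspose_mul, conjTranspose_mul, conjTranspose_conjTranspose, Matrix.mul_assoc]
    rw [h, conjTranspose_apply, norm_star]
  have hab : ∀ i, |s i| ^ (μ / 2) * sp (1 - μ / 2) (s i) = s i := by
    intro i
    rw [abs_mul_sp _ _ _ (by linarith) (by linarith)]
    rw [show 1 - μ / 2 + μ / 2 = 1 by ring, sp_one]
  have hterm : ∀ i j, k (s i) (s j) * ‖Mm μ s V z w i j‖ ^ 2 =
      k (s i) (s j) * (|s i| ^ μ * |s j| ^ (2 - μ)) * ‖(V * z * Vᴴ) i j‖ ^ 2 +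
      k (s i) (s j) * (|s j| ^ μ * |s i| ^ (2 - μ)) * ‖(V * w * Vᴴ) j i‖ ^ 2 +
      2 * (k (s i) (s j) * (s i * s j) *
        (star ((V * z * Vᴴ) i j) * (V * wᴴ * Vᴴ) i j).re) := by
    intro i j
    unfold Mm
    rw [Matrix.of_apply, b2_norm, hsw i j]
    have e1 : (|s i| ^ (μ / 2) * sp (1 - μ / 2) (s j)) ^ 2 = |s i| ^ μ * |s j| ^ (2 - μ) := by
      rw [mul_pow, b2_rpow_sq _ _ (abs_nonneg _), sp_sq _ _ (by linarith)]
      congr 2 <;> ring
    have e2 : (sp (1 - μ / 2) (s i) * |s j| ^ (μ / 2)) ^ 2 = |s j| ^ μ * |s i| ^ (2 - μ) := by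
      rw [mul_pow, b2_rpow_sq _ _ (abs_nonneg _), sp_sq _ _ (by linarith), mul_comm]
      congr 2 <;> ring
    have e3 : (|s i| ^ (μ / 2) * sp (1 - μ / 2) (s j)) *
        (sp (1 - μ / 2) (s i) * |s j| ^ (μ / 2)) = s i * s j := by
      have hi := hab i
      have hj := hab j
      calc (|s i| ^ (μ / 2) * sp (1 - μ / 2) (s j)) *
          (sp (1 - μ / 2) (s i) * |s j| ^ (μ / 2)) =
          (|s i| ^ (μ / 2) * sp (1 - μ / 2) (s i)) *
          (|s j| ^ (μ / 2) * sp (1 - μ / 2) (s j)) := by ring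
        _ = s i * s j := by rw [hi, hj]
    rw [e1, e2, e3]
    ring
  simp only [hterm, Finset.sum_add_distrib]
  congr 1
  · congr 1
    unfold kf
    rw [Finset.sum_comm]
  · rw [Finset.mul_sum]
    refine Finset.sum_congr rfl fun i _ => ?_
    rw [Finset.mul_sum]

end Pool.Agent.LibSchQ
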