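import Pool.Agent.LibSchQ.B2

/-! **B3.**  The forms of `Mm` with the kernels `α|x|^(q-2) + β|y|^(q-2)` and `(|x||y|)^((q-2)/2)`. -/

open Matrix
open scoped ComplexOrder

namespace Pool.Agent.LibSchQ

open Pool.Agent.LibSchP

variable {κ ν : Type} [Fintype κ] [Fintype ν]

theorem b3_rpow_add (x a b : ℝ) (ha : 0 ≤ a) (hb : 0 ≤ b) :
    |x| ^ a * |x| ^ b = |x| ^ (a + b) :=
  (Real.rpow_add_of_nonneg (abs_nonneg x) ha hb).symm

/-- `|x|^(q-2) x = sp (q-1) x` -/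
theorem b3_abs_mul (q x : ℝ) (hq : 2 < q) : |x| ^ (q - 2) * x = sp (q - 1) x := by
  have h := abs_mul_sp 1 (q - 2) x one_pos (by linarith)
  rw [sp_one] at h
  rw [h]
  congr 1
  ring

/-- `Mm_form` with `k x y = α|x|^(q-2) + β|y|^(q-2)`;  `|x|^(q-2) x y = sp (q-1) x · y`. -/
theorem form_lin (q μ α β : ℝ) (hq : 2 < q) (h0 : 0 ≤ μ) (h1 : μ < 1) (s : κ → ℝ)
    (V : Matrix κ ν ℂ) (z w : Matrix ν ν ℂ) :
    ∑ i, ∑ j, (α * |s i| ^ (q - 2) + β * |s j| ^ (q - 2)) * ‖Mm μ s V z w i j‖ ^ 2 =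
      α * (kf (kc q (μ + (q - 2))) s V z + kf (kc q μ) s V w) +
      β * (kf (kc q μ) s V z + kf (kc q (μ + (q - 2))) s V w) +
      2 * (α * kx (sp (q - 1)) id s V z w + β * kx id (sp (q - 1)) s V z w) := by
  have e1 : ∀ x y : ℝ, |x| ^ (q - 2) * (|x| ^ μ * |y| ^ (2 - μ)) =
      kc q (μ + (q - 2)) x y := by
    intro x y
    rw [← mul_assoc, b3_rpow_add x _ _ (by linarith) h0, kc]
    congr 2 <;> ring
  have e2 : ∀ x y : ℝ, |y| ^ (q - 2) * (|x| ^ μ * |y| ^ (2 - μ)) = kc q μ x y := by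
    intro x y
    rw [mul_left_comm, b3_rpow_add y _ _ (by linarith) (by linarith), kc]
    congr 2
    ring
  have h := Mm_form μ h0 h1 (fun x y => α * |x| ^ (q - 2) + β * |y| ^ (q - 2)) s V z w
  refine h.trans ?_
  have hz : kf (fun x y => (α * |x| ^ (q - 2) + β * |y| ^ (q - 2)) *
      (|x| ^ μ * |y| ^ (2 - μ))) s V z =
      α * kf (kc q (μ + (q - 2))) s V z + β * kf (kc q μ) s V z := by
    rw [← kf_smul, ← kf_smul, ← kf_add]
    refine kf_congr _ _ _ _ _ fun i j => ?_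
    rw [← e1, ← e2]
    ring
  have hw : kf (fun x y => (α * |y| ^ (q - 2) + β * |x| ^ (q - 2)) *
      (|x| ^ μ * |y| ^ (2 - μ))) s V w =
      α * kf (kc q μ) s V w + β * kf (kc q (μ + (q - 2))) s V w := by
    rw [← kf_smul, ← kf_smul, ← kf_add]
    refine kf_congr _ _ _ _ _ fun i j => ?_
    rw [← e1, ← e2]
    ring
  have hx : ∑ i, ∑ j, (α * |s i| ^ (q - 2) + β * |s j| ^ (q - 2)) * (s i * s j) *
        (star ((V * z * Vᴴ) i j) * (V * wᴴ * Vᴴ) i j).re =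
      α * kx (sp (q - 1)) id s V z w + β * kx id (sp (q - 1)) s V z w := by
    rw [kx, kx, Finset.mul_sum, Finset.mul_sum, ← Finset.sum_add_distrib]
    refine Finset.sum_congr rfl fun i _ => ?_
    rw [Finset.mul_sum, Finset.mul_sum, ← Finset.sum_add_distrib]
    refine Finset.sum_congr rfl fun j _ => ?_
    rw [← b3_abs_mul q (s i) hq, ← b3_abs_mul q (s j) hq]
    simp only [id]
    ring
  rw [hz, hw, hx]
  ring

/-- Expand the product of the two levels.  With `δ = q-2`, `f₁ = |·|^((μ+δ)/2)`,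
`g₁ = sp (1-(μ+δ)/2)`, `f₀ = |·|^(μ/2)`, `g₀ = sp (1-μ/2)`, `r = |·|^(δ/2)`:
`f₁ f₀ r = |·|^(μ+δ)`, `g₁ g₀ r = |·|^(2-μ)`, `f₁ g₀ r = sp (q-1)`, `g₁ f₀ r = id`. -/
theorem form_mix (q μ : ℝ) (hq : 2 < q) (h0 : 0 ≤ μ) (h1 : μ + (q - 2) < 1) (s : κ → ℝ)
    (V : Matrix κ ν ℂ) (z₁ w₁ z₀ w₀ : Matrix ν ν ℂ) :
    ∑ i, ∑ j, (|s i| * |s j|) ^ ((q - 2) / 2) *
        (star (Mm (μ + (q - 2)) s V z₁ w₁ i j) * Mm μ s V z₀ w₀ i j).re =
      kb (kc q (μ + (q - 2))) s V z₁ z₀ + kb (kc q (μ + (q - 2))) s V w₁ w₀ +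
      kx (sp (q - 1)) id s V z₁ w₀ + kx id (sp (q - 1)) s V z₀ w₁ := by
  have a1 : ∀ x : ℝ, |x| ^ ((q - 2) / 2) * (|x| ^ ((μ + (q - 2)) / 2) * |x| ^ (μ / 2)) =
      |x| ^ (μ + (q - 2)) := by
    intro x
    rw [b3_rpow_add x _ _ (by linarith) (by linarith),
      b3_rpow_add x _ _ (by linarith) (by linarith)]
    congr 1
    ring
  have a2 : ∀ x : ℝ, |x| ^ ((q - 2) / 2) * (sp (1 - (μ + (q - 2)) / 2) x * sp (1 - μ / 2) x) =
      |x| ^ (2 - μ) := by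
    intro x
    rw [sp_mul_sp _ _ x (by linarith) (by linarith),
      b3_rpow_add x _ _ (by linarith) (by linarith)]
    congr 1
    ring
  have a3 : ∀ x : ℝ, |x| ^ ((q - 2) / 2) * (|x| ^ ((μ + (q - 2)) / 2) * sp (1 - μ / 2) x) =
      sp (q - 1) x := by
    intro x
    rw [abs_mul_sp _ _ x (by linarith) (by linarith),
      abs_mul_sp _ _ x (by linarith) (by linarith)]
    congr 1
    ring
  have a4 : ∀ x : ℝ, |x| ^ ((q - 2) / 2) * (sp (1 - (μ + (q - 2)) / 2) x * |x| ^ (μ / 2)) =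
      x := by
    intro x
    rw [mul_comm (sp (1 - (μ + (q - 2)) / 2) x), abs_mul_sp _ _ x (by linarith) (by linarith),
      abs_mul_sp _ _ x (by linarith) (by linarith)]
    have : 1 - (μ + (q - 2)) / 2 + μ / 2 + (q - 2) / 2 = 1 := by ring
    rw [this, sp_one]
  -- the entries
  have hst : ∀ (w : Matrix ν ν ℂ) (i j : κ), (V * wᴴ * Vᴴ) i j = star ((V * w * Vᴴ) j i) := by
    intro w i j
    have : V * wᴴ * Vᴴ = (V * w * Vᴴ)ᴴ := by
      rw [conjTranspose_mul, conjTranspose_mul, conjTranspose_conjTranspose, Matrix.mul_assoc]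
    rw [this, conjTranspose_apply]
  have key : ∀ i j : κ, (|s i| * |s j|) ^ ((q - 2) / 2) *
        (star (Mm (μ + (q - 2)) s V z₁ w₁ i j) * Mm μ s V z₀ w₀ i j).re =
      kc q (μ + (q - 2)) (s i) (s j) * (star ((V * z₁ * Vᴴ) i j) * (V * z₀ * Vᴴ) i j).re +
      kc q (μ + (q - 2)) (s j) (s i) * (star ((V * w₁ * Vᴴ) j i) * (V * w₀ * Vᴴ) j i).re +
      sp (q - 1) (s i) * id (s j) * (star ((V * z₁ * Vᴴ) i j) * (V * w₀ᴴ * Vᴴ) i j).re +
      id (s i) * sp (q - 1) (s j) * (star ((V * z₀ * Vᴴ) i j) * (V * w₁ᴴ * Vᴴ) i j).re := by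
    intro i j
    have k1 : kc q (μ + (q - 2)) (s i) (s j) =
        (|s i| ^ ((q - 2) / 2) * (|s i| ^ ((μ + (q - 2)) / 2) * |s i| ^ (μ / 2))) *
        (|s j| ^ ((q - 2) / 2) * (sp (1 - (μ + (q - 2)) / 2) (s j) * sp (1 - μ / 2) (s j))) := by
      rw [a1, a2, kc]
      congr 2
      ring
    have k2 : kc q (μ + (q - 2)) (s j) (s i) =
        (|s j| ^ ((q - 2) / 2) * (|s j| ^ ((μ + (q - 2)) / 2) * |s j| ^ (μ / 2))) *
        (|s i| ^ ((q - 2) / 2) * (sp (1 - (μ + (q - 2)) / 2) (s i) * sp (1 - μ / 2) (s i))) := by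
      rw [a1, a2, kc]
      congr 2
      ring
    have k3 : sp (q - 1) (s i) * id (s j) =
        (|s i| ^ ((q - 2) / 2) * (|s i| ^ ((μ + (q - 2)) / 2) * sp (1 - μ / 2) (s i))) *
        (|s j| ^ ((q - 2) / 2) * (sp (1 - (μ + (q - 2)) / 2) (s j) * |s j| ^ (μ / 2))) := by
      rw [a3, a4, id]
    have k4 : id (s i) * sp (q - 1) (s j) =
        (|s i| ^ ((q - 2) / 2) * (sp (1 - (μ + (q - 2)) / 2) (s i) * |s i| ^ (μ / 2))) *
        (|s j| ^ ((q - 2) / 2) * (|s j| ^ ((μ + (q - 2)) / 2) * sp (1 - μ / 2) (s j))) := by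
      rw [a3, a4, id]
    rw [k1, k2, k3, k4, Real.mul_rpow (abs_nonneg _) (abs_nonneg _)]
    simp only [Mm, Matrix.of_apply, hst]
    generalize (V * z₁ * Vᴴ) i j = e1
    generalize (V * w₁ * Vᴴ) j i = e2
    generalize (V * z₀ * Vᴴ) i j = e3
    generalize (V * w₀ * Vᴴ) j i = e4
    generalize |s i| ^ ((q - 2) / 2) = r1
    generalize |s j| ^ ((q - 2) / 2) = r2
    generalize |s i| ^ ((μ + (q - 2)) / 2) = p1
    generalize |s j| ^ ((μ + (q - 2)) / 2) = p2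
    generalize |s i| ^ (μ / 2) = p3
    generalize |s j| ^ (μ / 2) = p4
    generalize sp (1 - (μ + (q - 2)) / 2) (s i) = g1
    generalize sp (1 - (μ + (q - 2)) / 2) (s j) = g2
    generalize sp (1 - μ / 2) (s i) = g3
    generalize sp (1 - μ / 2) (s j) = g4
    simp only [RCLike.star_def, map_add, map_mul, Complex.conj_ofReal, Complex.mul_re,
      Complex.add_re, Complex.add_im, Complex.mul_im, Complex.conj_re, Complex.conj_im,
      Complex.ofReal_re, Complex.ofReal_im]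
    ring
  have hsum : ∑ i, ∑ j, (|s i| * |s j|) ^ ((q - 2) / 2) *
        (star (Mm (μ + (q - 2)) s V z₁ w₁ i j) * Mm μ s V z₀ w₀ i j).re =
      ∑ i, ∑ j, (kc q (μ + (q - 2)) (s i) (s j) *
          (star ((V * z₁ * Vᴴ) i j) * (V * z₀ * Vᴴ) i j).re +
      kc q (μ + (q - 2)) (s j) (s i) * (star ((V * w₁ * Vᴴ) j i) * (V * w₀ * Vᴴ) j i).re +
      sp (q - 1) (s i) * id (s j) * (star ((V * z₁ * Vᴴ) i j) * (V * w₀ᴴ * Vᴴ) i j).re +
      id (s i) * sp (q - 1) (s j) * (star ((V * z₀ * Vᴴ) i j) * (V * w₁ᴴ * Vᴴ) i j).re) :=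
    Finset.sum_congr rfl fun i _ => Finset.sum_congr rfl fun j _ => key i j
  rw [hsum]
  simp only [Finset.sum_add_distrib]
  have hcomm : ∑ i, ∑ j, kc q (μ + (q - 2)) (s j) (s i) *
      (star ((V * w₁ * Vᴴ) j i) * (V * w₀ * Vᴴ) j i).re =
      kb (kc q (μ + (q - 2))) s V w₁ w₀ := by
    rw [kb, Finset.sum_comm]
  rw [hcomm]
  rfl

end Pool.Agent.LibSchQ
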