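import Pool.Agent.LibSchQ.B1

/-! **B4.**  The cross terms vanish by stationarity; the exact kernels. -/

open Matrix
open scoped ComplexOrder

namespace Pool.Agent.LibSchQ

open Pool.Agent.LibSchP

variable {κ ν : Type} [Fintype κ] [Fintype ν] [DecidableEq κ] [DecidableEq ν]

/-- the form at the diagonal point is the kernel form of the identity frame -/
theorem b4_kt (k : ℝ → ℝ → ℝ) (θ : ν → ℝ) (z : Matrix ν ν ℂ) :
    kt k θ z = kf k θ (1 : Matrix ν ν ℂ) z := by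
  unfold kt kf
  rw [conjTranspose_one, Matrix.one_mul, Matrix.mul_one]

/-- `kx_eq`, `hX` and `hpsi` -/
theorem stat₁ {q lam : ℝ} {s : κ → ℝ} {V : Matrix κ ν ℂ} {x : ν → ℝ} {O : Matrix ν ν ℂ}
    {θ : ν → ℝ} (D : Dat q lam s V x O θ) (z w : Matrix ν ν ℂ) :
    kx (sp (q - 1)) id s V z w + lam * kx (sp (q - 1)) id x O z w = 0 := by
  rw [kx_eq, kx_eq]
  have h1 : Vᴴ * (dg fun j => id (s j)) * V = Oᴴ * (dg fun j => id (x j)) * O := D.hX
  have h2 : Vᴴ * (dg fun j => sp (q - 1) (s j)) * V =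
      -((lam : ℂ) • (Oᴴ * (dg fun j => sp (q - 1) (x j)) * O)) :=
    eq_neg_of_add_eq_zero_left D.hpsi
  rw [h1, h2]
  generalize Oᴴ * (dg fun j => sp (q - 1) (x j)) * O = P
  generalize Oᴴ * (dg fun j => id (x j)) * O = H
  have h3 : trace (zᴴ * -((lam : ℂ) • P) * wᴴ * H) = -((lam : ℂ) * trace (zᴴ * P * wᴴ * H)) := by
    rw [Matrix.mul_neg, Matrix.neg_mul, Matrix.neg_mul, trace_neg, Matrix.mul_smul,
      Matrix.smul_mul, Matrix.smul_mul, trace_smul, smul_eq_mul]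
  rw [h3, Complex.neg_re, Complex.re_ofReal_mul]
  ring

theorem stat₂ {q lam : ℝ} {s : κ → ℝ} {V : Matrix κ ν ℂ} {x : ν → ℝ} {O : Matrix ν ν ℂ}
    {θ : ν → ℝ} (D : Dat q lam s V x O θ) (z w : Matrix ν ν ℂ) :
    kx id (sp (q - 1)) s V z w + lam * kx id (sp (q - 1)) x O z w = 0 := by
  rw [kx_eq, kx_eq]
  have h1 : Vᴴ * (dg fun j => id (s j)) * V = Oᴴ * (dg fun j => id (x j)) * O := D.hX
  have h2 : Vᴴ * (dg fun j => sp (q - 1) (s j)) * V =
      -((lam : ℂ) • (Oᴴ * (dg fun j => sp (q - 1) (x j)) * O)) :=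
    eq_neg_of_add_eq_zero_left D.hpsi
  rw [h1, h2]
  generalize Oᴴ * (dg fun j => sp (q - 1) (x j)) * O = P
  generalize Oᴴ * (dg fun j => id (x j)) * O = H
  have h3 : trace (zᴴ * H * wᴴ * -((lam : ℂ) • P)) = -((lam : ℂ) * trace (zᴴ * H * wᴴ * P)) := by
    rw [Matrix.mul_neg, trace_neg, Matrix.mul_smul, trace_smul, smul_eq_mul]
  rw [h3, Complex.neg_re, Complex.re_ofReal_mul]
  ring

/-- `kf_right`, `hpow` -/
theorem exact_right {q lam : ℝ} {s : κ → ℝ} {V : Matrix κ ν ℂ} {x : ν → ℝ} {O : Matrix ν ν ℂ}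
    {θ : ν → ℝ} (D : Dat q lam s V x O θ) (z : Matrix ν ν ℂ) :
    kf (fun _ b => |b| ^ q) s V z + lam * kf (fun _ b => |b| ^ q) x O z =
      kt (fun _ b => b ^ q) θ z := by
  rw [b4_kt, kf_right (fun b => |b| ^ q) s V D.hV z, kf_right (fun b => |b| ^ q) x O D.hO z,
    kf_right (fun b => b ^ q) θ (1 : Matrix ν ν ℂ) (by simp) z, conjTranspose_one,
    Matrix.one_mul, Matrix.mul_one, ← D.hpow]
  generalize Vᴴ * (dg fun j => |s j| ^ q) * V = P
  generalize Oᴴ * (dg fun j => |x j| ^ q) * O = H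
  rw [Matrix.mul_add, trace_add, Complex.add_re, Matrix.mul_smul, trace_smul, smul_eq_mul,
    Complex.re_ofReal_mul]

theorem exact_left {q lam : ℝ} {s : κ → ℝ} {V : Matrix κ ν ℂ} {x : ν → ℝ} {O : Matrix ν ν ℂ}
    {θ : ν → ℝ} (D : Dat q lam s V x O θ) (z : Matrix ν ν ℂ) :
    kf (fun a _ => |a| ^ q) s V z + lam * kf (fun a _ => |a| ^ q) x O z =
      kt (fun a _ => a ^ q) θ z := by
  rw [b4_kt, kf_left (fun b => |b| ^ q) s V D.hV z, kf_left (fun b => |b| ^ q) x O D.hO z,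
    kf_left (fun b => b ^ q) θ (1 : Matrix ν ν ℂ) (by simp) z, conjTranspose_one,
    Matrix.one_mul, Matrix.mul_one, ← D.hpow]
  generalize Vᴴ * (dg fun j => |s j| ^ q) * V = P
  generalize Oᴴ * (dg fun j => |x j| ^ q) * O = H
  rw [Matrix.mul_add, trace_add, Complex.add_re, Matrix.mul_smul, trace_smul, smul_eq_mul,
    Complex.re_ofReal_mul]

end Pool.Agent.LibSchQ
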