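import Pool.Agent.LibSchQ.S1a
import Pool.Agent.LibSchP.I2

/-! **BI.**  The integrals in the base case, `η = (1-μ)/(q-2) ∈ (0,1)`. -/

open MeasureTheory Set

namespace Pool.Agent.LibSchQ

open Pool.Agent.LibSchP

theorem wt_nonneg (η ρ : ℝ) (h0 : 0 < η) (h1 : η < 1) (hρ : 0 < ρ) : 0 ≤ wt η ρ := by
  have hc := cst_pos η h0 h1
  unfold wt
  have h2 : 0 ≤ ρ ^ η := Real.rpow_nonneg hρ.le _
  positivity

/-- `∫ ρ⁻¹ wt = 1` (definition of `cst`) -/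
theorem wt_int_inv (η : ℝ) (h0 : 0 < η) (h1 : η < 1) :
    IntegrableOn (fun ρ : ℝ => wt η ρ * ρ⁻¹) (Ioi 0) ∧ ∫ ρ in Ioi (0 : ℝ), wt η ρ * ρ⁻¹ = 1 := by
  have hc := cst_pos η h0 h1
  obtain ⟨a1, a2⟩ := int_base η 1 h0 h1 one_pos
  have hEq : EqOn (fun ρ : ℝ => wt η ρ * ρ⁻¹)
      (fun ρ : ℝ => (cst η)⁻¹ * (ρ ^ (η - 1) / (1 + ρ))) (Ioi 0) := by
    intro ρ hρ
    have hρ0 : (0 : ℝ) < ρ := hρ
    show wt η ρ * ρ⁻¹ = (cst η)⁻¹ * (ρ ^ (η - 1) / (1 + ρ))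
    unfold wt
    rw [i2_rpow η ρ hρ0]
    have h2 : 1 + ρ ≠ 0 := by positivity
    field_simp
  constructor
  · have a3 : IntegrableOn (fun ρ : ℝ => (cst η)⁻¹ * (ρ ^ (η - 1) / (1 + ρ))) (Ioi 0) :=
      a1.const_mul _
    exact a3.congr_fun (fun ρ hρ => (hEq hρ).symm) measurableSet_Ioi
  · rw [setIntegral_congr_fun measurableSet_Ioi hEq, integral_const_mul, a2, Real.one_rpow,
      mul_one]
    exact inv_mul_cancel₀ hc.ne'

/-- `x^c = x^d a` -/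
theorem bi_split (q μ x : ℝ) (hx : 0 < x) :
    x ^ (q - 1 - μ) = x ^ (1 - μ) * x ^ (q - 2) := by
  rw [← Real.rpow_add hx]
  congr 1
  ring

theorem bi_ne (e x y : ℝ) (he : 0 < e) (hx : 0 ≤ x) (hy : 0 ≤ y) (hxy : x ≠ y) :
    x ^ e ≠ y ^ e := by
  intro h
  rcases lt_or_gt_of_ne hxy with h1 | h1
  · exact (Real.rpow_lt_rpow hx h1 he).ne h
  · exact (Real.rpow_lt_rpow hy h1 he).ne h.symm

/-- `Φ^μ - b` for `x = y`. -/
theorem bi_diag (q μ x : ℝ) (h1 : μ < 1) :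
    Ph (q - 1 - μ) (1 - μ) x x - x ^ (q - 2) = (q - 2) / (1 - μ) * x ^ (q - 2) := by
  unfold Ph
  rw [if_pos rfl]
  have h2 : q - 1 - μ - (1 - μ) = q - 2 := by ring
  have h3 : 1 - μ ≠ 0 := by linarith
  rw [h2]
  field_simp
  ring

/-- `Φ^μ - b` for `x ≠ y`, both positive. -/
theorem bi_off (q μ x y : ℝ) (h1 : μ < 1) (hx : 0 < x) (hy : 0 < y) (hxy : x ≠ y) :
    Ph (q - 1 - μ) (1 - μ) x y - y ^ (q - 2) =
      x ^ (1 - μ) * (x ^ (q - 2) - y ^ (q - 2)) / (x ^ (1 - μ) - y ^ (1 - μ)) := by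
  unfold Ph
  rw [if_neg hxy, bi_split q μ x hx, bi_split q μ y hy]
  have h2 : x ^ (1 - μ) - y ^ (1 - μ) ≠ 0 :=
    sub_ne_zero.mpr (bi_ne _ x y (by linarith) hx.le hy.le hxy)
  field_simp
  ring

/-- `Φ^μ(x,0) - 0`. -/
theorem bi_zero (q μ x : ℝ) (hq : 2 < q) (_h0 : 0 ≤ μ) (h1 : μ < 1) (hx : 0 < x) :
    Ph (q - 1 - μ) (1 - μ) x 0 - 0 ^ (q - 2) = x ^ (q - 2) := by
  unfold Ph
  have h2 : (0 : ℝ) ^ (q - 1 - μ) = 0 := Real.zero_rpow (by linarith)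
  have h3 : (0 : ℝ) ^ (1 - μ) = 0 := Real.zero_rpow (by linarith)
  have h4 : (0 : ℝ) ^ (q - 2) = 0 := Real.zero_rpow (by linarith)
  rw [if_neg hx.ne', h2, h3, h4, bi_split q μ x hx, sub_zero, sub_zero, sub_zero]
  have h5 : x ^ (1 - μ) ≠ 0 := (Real.rpow_pos_of_pos hx _).ne'
  field_simp

/-- `∫ wt/(b + ρ a) = 1/(Φ^μ - b)`, `a = x^δ > 0`, `b = y^δ ≥ 0`.
`y > 0`: `int_dd` with exponents `η`, points `1` and `b/a`, and
`Φ^μ - b = a (1-r)/(1-r^η)` with `r = b/a` (`a^η = x^(1-μ)`).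
`y = 0`: `Φ^μ = a`, `wt_int_inv`. -/
theorem wt_int (q μ x y : ℝ) (hq : 2 < q) (h0 : 0 ≤ μ) (h1 : μ < 1) (h2 : 1 - μ < q - 2)
    (hx : 0 < x) (hy : 0 ≤ y) :
    IntegrableOn (fun ρ : ℝ => wt ((1 - μ) / (q - 2)) ρ * (y ^ (q - 2) + ρ * x ^ (q - 2))⁻¹)
      (Ioi 0) ∧
    ∫ ρ in Ioi (0 : ℝ), wt ((1 - μ) / (q - 2)) ρ * (y ^ (q - 2) + ρ * x ^ (q - 2))⁻¹ =
      (Ph (q - 1 - μ) (1 - μ) x y - y ^ (q - 2))⁻¹ := by
  have hη0 : 0 < (1 - μ) / (q - 2) := div_pos (by linarith) (by linarith)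
  have hη1 : (1 - μ) / (q - 2) < 1 := by
    rw [div_lt_one (by linarith)]
    exact h2
  have hc := cst_pos _ hη0 hη1
  have ha : 0 < x ^ (q - 2) := Real.rpow_pos_of_pos hx _
  rcases hy.eq_or_lt with hy0 | hy0
  · -- y = 0
    rw [← hy0]
    have hz : (0 : ℝ) ^ (q - 2) = 0 := Real.zero_rpow (by linarith)
    rw [bi_zero q μ x hq h0 h1 hx]
    obtain ⟨a1, a2⟩ := wt_int_inv _ hη0 hη1
    have he : (fun ρ : ℝ => wt ((1 - μ) / (q - 2)) ρ * (0 ^ (q - 2) + ρ * x ^ (q - 2))⁻¹) =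
        fun ρ : ℝ => (x ^ (q - 2))⁻¹ * (wt ((1 - μ) / (q - 2)) ρ * ρ⁻¹) := by
      funext ρ
      rw [hz, zero_add, mul_inv]
      ring
    rw [he]
    refine ⟨a1.const_mul _, ?_⟩
    rw [integral_const_mul, a2, mul_one]
  · have hb : 0 < y ^ (q - 2) := Real.rpow_pos_of_pos hy0 _
    obtain ⟨η, hη⟩ : ∃ η, η = (1 - μ) / (q - 2) := ⟨_, rfl⟩
    obtain ⟨r, hr⟩ : ∃ r, r = y ^ (q - 2) / x ^ (q - 2) := ⟨_, rfl⟩
    rw [← hη] at hη0 hη1 hc ⊢
    have hr0 : 0 < r := by rw [hr]; positivity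
    obtain ⟨a1, a2⟩ := int_dd η 1 r hη0 hη1 one_pos hr0
    have hbr : y ^ (q - 2) = r * x ^ (q - 2) := by
      rw [hr]; field_simp
    have hEq : EqOn (fun ρ : ℝ => wt η ρ * (y ^ (q - 2) + ρ * x ^ (q - 2))⁻¹)
        (fun ρ : ℝ => ((cst η)⁻¹ * (x ^ (q - 2))⁻¹) * (ρ ^ η / ((1 + ρ) * (r + ρ))))
        (Ioi 0) := by
      intro ρ hρ
      have hρ0 : (0 : ℝ) < ρ := hρ
      show wt η ρ * (y ^ (q - 2) + ρ * x ^ (q - 2))⁻¹ =
        ((cst η)⁻¹ * (x ^ (q - 2))⁻¹) * (ρ ^ η / ((1 + ρ) * (r + ρ)))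
      unfold wt
      rw [hbr]
      have h3 : r * x ^ (q - 2) + ρ * x ^ (q - 2) = (r + ρ) * x ^ (q - 2) := by ring
      rw [h3]
      have h4 : 1 + ρ ≠ 0 := by positivity
      have h5 : r + ρ ≠ 0 := by positivity
      have h6 := ha.ne'
      have h7 := hc.ne'
      field_simp
    have hval : dd η 1 r * (x ^ (q - 2))⁻¹ =
        (Ph (q - 1 - μ) (1 - μ) x y - y ^ (q - 2))⁻¹ := by
      by_cases hxy : x = y
      · subst hxy
        rw [bi_diag q μ x h1]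
        have hr1 : r = 1 := by rw [hr]; exact div_self ha.ne'
        unfold dd
        rw [if_pos hr1.symm, Real.one_rpow, hη]
        have h3 : 1 - μ ≠ 0 := by linarith
        have h4 : q - 2 ≠ 0 := by linarith
        have h6 := ha.ne'
        field_simp
      · rw [bi_off q μ x y h1 hx hy0 hxy]
        have hab : x ^ (q - 2) ≠ y ^ (q - 2) :=
          bi_ne _ x y (by linarith) hx.le hy0.le hxy
        have hr1 : (1 : ℝ) ≠ r := by
          intro h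
          apply hab
          rw [hbr, ← h, one_mul]
        have hxd : x ^ (1 - μ) ≠ y ^ (1 - μ) := bi_ne _ x y (by linarith) hx.le hy0.le hxy
        unfold dd
        rw [if_neg hr1, Real.one_rpow]
        have hrη : r ^ η = y ^ (1 - μ) / x ^ (1 - μ) := by
          rw [hr, Real.div_rpow hb.le ha.le, ← Real.rpow_mul hy0.le, ← Real.rpow_mul hx.le]
          have h3 : (q - 2) * η = 1 - μ := by
            rw [hη]
            have h4 : q - 2 ≠ 0 := by linarith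
            field_simp
          rw [h3]
        rw [hrη, hr]
        have h5 : x ^ (1 - μ) ≠ 0 := (Real.rpow_pos_of_pos hx _).ne'
        have h6 := ha.ne'
        have h7 : x ^ (q - 2) - y ^ (q - 2) ≠ 0 := sub_ne_zero.mpr hab
        have h8 : x ^ (1 - μ) - y ^ (1 - μ) ≠ 0 := sub_ne_zero.mpr hxd
        have h9 : 1 - y ^ (q - 2) / x ^ (q - 2) ≠ 0 := by
          have : 1 - y ^ (q - 2) / x ^ (q - 2) = (x ^ (q - 2) - y ^ (q - 2)) / x ^ (q - 2) := by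
            field_simp
          rw [this]
          exact div_ne_zero h7 h6
        rw [inv_div]
        field_simp
    constructor
    · have a3 : IntegrableOn (fun ρ : ℝ => ((cst η)⁻¹ * (x ^ (q - 2))⁻¹) *
          (ρ ^ η / ((1 + ρ) * (r + ρ)))) (Ioi 0) := a1.const_mul _
      exact a3.congr_fun (fun ρ hρ => (hEq hρ).symm) measurableSet_Ioi
    · rw [setIntegral_congr_fun measurableSet_Ioi hEq, integral_const_mul, a2, ← hval]
      have h7 := hc.ne'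
      field_simp

/-- `Φ^μ - b > 0` if `x > 0` (for `x = 0` it is `0`) -/
theorem Ph_sub_pos (q μ x y : ℝ) (hq : 2 < q) (h0 : 0 ≤ μ) (h1 : μ < 1) (hx : 0 < x)
    (hy : 0 ≤ y) : 0 < Ph (q - 1 - μ) (1 - μ) x y - y ^ (q - 2) := by
  have ha : 0 < x ^ (q - 2) := Real.rpow_pos_of_pos hx _
  rcases hy.eq_or_lt with hy0 | hy0
  · rw [← hy0, bi_zero q μ x hq h0 h1 hx]
    exact ha
  · by_cases hxy : x = y
    · subst hxy
      rw [bi_diag q μ x h1]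
      have h3 : 0 < (q - 2) / (1 - μ) := div_pos (by linarith) (by linarith)
      positivity
    · rw [bi_off q μ x y h1 hx hy0 hxy]
      have h5 : 0 < x ^ (1 - μ) := Real.rpow_pos_of_pos hx _
      rcases lt_or_gt_of_ne hxy with h | h
      · have h6 : x ^ (q - 2) < y ^ (q - 2) := Real.rpow_lt_rpow hx.le h (by linarith)
        have h7 : x ^ (1 - μ) < y ^ (1 - μ) := Real.rpow_lt_rpow hx.le h (by linarith)
        apply div_pos_of_neg_of_neg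
        · nlinarith
        · linarith
      · have h6 : y ^ (q - 2) < x ^ (q - 2) := Real.rpow_lt_rpow hy0.le h (by linarith)
        have h7 : y ^ (1 - μ) < x ^ (1 - μ) := Real.rpow_lt_rpow hy0.le h (by linarith)
        apply div_pos
        · exact mul_pos h5 (by linarith)
        · linarith

theorem Ph_sub_zero (q μ y : ℝ) (hq : 2 < q) (h0 : 0 ≤ μ) (h1 : μ < 1) (hy : 0 ≤ y) :
    Ph (q - 1 - μ) (1 - μ) 0 y - y ^ (q - 2) = 0 := by
  rcases hy.eq_or_lt with hy0 | hy0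
  · rw [← hy0, bi_diag q μ 0 h1, Real.zero_rpow (by linarith), mul_zero]
  · have h3 := bi_zero q μ y hq h0 h1 hy0
    have h4 : (0 : ℝ) ^ (q - 2) = 0 := Real.zero_rpow (by linarith)
    rw [h4, sub_zero] at h3
    rw [Ph_comm, h3, sub_self]

/-- the case `1 - μ = q - 2` -/
theorem Ph_eta_one (q x y : ℝ) (hq : 2 < q) (hx : 0 ≤ x) (hy : 0 ≤ y) :
    Ph (q - 1 - (1 - (q - 2))) (1 - (1 - (q - 2))) x y = x ^ (q - 2) + y ^ (q - 2) := by
  have e1 : q - 1 - (1 - (q - 2)) = (q - 2) * 2 := by ring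
  have e2 : 1 - (1 - (q - 2)) = q - 2 := by ring
  rw [e1, e2]
  have h4 : q - 2 ≠ 0 := by linarith
  unfold Ph
  by_cases hxy : x = y
  · subst hxy
    rw [if_pos rfl]
    have e3 : (q - 2) * 2 - (q - 2) = q - 2 := by ring
    rw [e3]
    field_simp
    ring
  · rw [if_neg hxy, Real.rpow_mul hx, Real.rpow_mul hy, Real.rpow_two, Real.rpow_two]
    have h5 : x ^ (q - 2) - y ^ (q - 2) ≠ 0 :=
      sub_ne_zero.mpr (bi_ne _ x y (by linarith) hx hy hxy)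
    field_simp
    ring

end Pool.Agent.LibSchQ
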