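import Pool.Agent.LibSchQ.BI
import Pool.Agent.LibSchQ.B3

/-! **BP1.**  Base case, one component: lower bound of the integrated forms. -/

open Matrix MeasureTheory Set
open scoped ComplexOrder

namespace Pool.Agent.LibSchQ

open Pool.Agent.LibSchP

variable {κ ν : Type} [Fintype κ] [Fintype ν] [DecidableEq κ] [DecidableEq ν]

/-- the optimal factor for `z` -/
noncomputable def kap (q μ ρ x y : ℝ) : ℝ :=
  (Ph (q - 1 - μ) (1 - μ) x y - y ^ (q - 2)) / (y ^ (q - 2) + ρ * x ^ (q - 2))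

/-- the optimal factor for `w` (roles of `x^δ` and `y^δ` exchanged) -/
noncomputable def kap' (q μ ρ x y : ℝ) : ℝ :=
  (Ph (q - 1 - μ) (1 - μ) x y - x ^ (q - 2)) / (x ^ (q - 2) + ρ * y ^ (q - 2))

theorem p1_kap'_eq (q μ ρ x y : ℝ) : kap' q μ ρ x y = kap q μ ρ y x := by
  unfold kap' kap
  rw [Ph_comm]

/-- `∫ wt κ = 1` for `x, y > 0` (`wt_int`) -/
theorem kap_int (q μ x y : ℝ) (hq : 2 < q) (h0 : 0 ≤ μ) (h1 : μ < 1) (h2 : 1 - μ < q - 2)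
    (hx : 0 < x) (hy : 0 < y) :
    IntegrableOn (fun ρ : ℝ => wt ((1 - μ) / (q - 2)) ρ * kap q μ ρ x y) (Ioi 0) ∧
    ∫ ρ in Ioi (0 : ℝ), wt ((1 - μ) / (q - 2)) ρ * kap q μ ρ x y = 1 := by
  obtain ⟨hi, hv⟩ := wt_int q μ x y hq h0 h1 h2 hx hy.le
  have hpos := Ph_sub_pos q μ x y hq h0 h1 hx hy.le
  obtain ⟨Φ, hΦ⟩ : ∃ Φ, Φ = Ph (q - 1 - μ) (1 - μ) x y - y ^ (q - 2) := ⟨_, rfl⟩
  rw [← hΦ] at hv hpos
  have he : (fun ρ : ℝ => wt ((1 - μ) / (q - 2)) ρ * kap q μ ρ x y) =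
      fun ρ : ℝ => Φ * (wt ((1 - μ) / (q - 2)) ρ * (y ^ (q - 2) + ρ * x ^ (q - 2))⁻¹) := by
    funext ρ
    unfold kap
    rw [← hΦ, div_eq_mul_inv]
    ring
  rw [he]
  refine ⟨hi.const_mul Φ, ?_⟩
  rw [integral_const_mul, hv]
  exact mul_inv_cancel₀ hpos.ne'

theorem kap'_int (q μ x y : ℝ) (hq : 2 < q) (h0 : 0 ≤ μ) (h1 : μ < 1) (h2 : 1 - μ < q - 2)
    (hx : 0 < x) (hy : 0 < y) :
    IntegrableOn (fun ρ : ℝ => wt ((1 - μ) / (q - 2)) ρ * kap' q μ ρ x y) (Ioi 0) ∧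
    ∫ ρ in Ioi (0 : ℝ), wt ((1 - μ) / (q - 2)) ρ * kap' q μ ρ x y = 1 := by
  have he : (fun ρ : ℝ => wt ((1 - μ) / (q - 2)) ρ * kap' q μ ρ x y) =
      fun ρ : ℝ => wt ((1 - μ) / (q - 2)) ρ * kap q μ ρ y x := by
    funext ρ
    rw [p1_kap'_eq]
  rw [he]
  exact kap_int q μ y x hq h0 h1 h2 hy hx

/-- Integration of a finite linear combination. -/
theorem p1_lin {ι : Type} [Fintype ι] (W : ℝ → ℝ) (g : ι → ℝ → ℝ) (a : ι → ℝ) (F : ℝ → ℝ)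
    (hF : ∀ ρ, F ρ = ∑ i, a i * g i ρ)
    (hg : ∀ i, IntegrableOn (fun ρ => W ρ * g i ρ) (Ioi 0) ∧
      ∫ ρ in Ioi (0 : ℝ), W ρ * g i ρ = 1) :
    IntegrableOn (fun ρ => W ρ * F ρ) (Ioi 0) ∧
      ∫ ρ in Ioi (0 : ℝ), W ρ * F ρ = ∑ i, a i := by
  have he : (fun ρ => W ρ * F ρ) = fun ρ => ∑ i, a i * (W ρ * g i ρ) := by
    funext ρ
    rw [hF, Finset.mul_sum]
    exact Finset.sum_congr rfl fun i _ => by ring
  rw [he]
  have hi : ∀ i ∈ (Finset.univ : Finset ι),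
      Integrable (fun ρ => a i * (W ρ * g i ρ)) (volume.restrict (Ioi 0)) := by
    intro i _
    exact (hg i).1.const_mul (a i)
  constructor
  · exact integrable_finsetSum _ hi
  · rw [integral_finsetSum _ hi]
    refine Finset.sum_congr rfl fun i _ => ?_
    rw [integral_const_mul, (hg i).2, mul_one]

omit [Fintype κ] [DecidableEq κ] [DecidableEq ν] in
theorem p1_entry (f : ℝ → ℝ → ℝ) (V : Matrix κ ν ℂ) (θ : ν → ℝ) (z : Matrix ν ν ℂ) (i j : κ) :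
    (V * hm f θ z * Vᴴ) i j =
      ∑ p : ν × ν, ((f (θ p.1) (θ p.2) : ℝ) : ℂ) * (V i p.1 * z p.1 p.2 * star (V j p.2)) := by
  rw [Fintype.sum_prod_type, Finset.sum_comm, Matrix.mul_apply]
  refine Finset.sum_congr rfl fun l _ => ?_
  rw [Matrix.mul_apply, Finset.sum_mul]
  refine Finset.sum_congr rfl fun k _ => ?_
  simp only [hm, Matrix.of_apply, Matrix.conjTranspose_apply]
  ring

omit [Fintype κ] [DecidableEq κ] [DecidableEq ν] in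
theorem p1_entry' (f : ℝ → ℝ → ℝ) (V : Matrix κ ν ℂ) (θ : ν → ℝ) (w : Matrix ν ν ℂ) (i j : κ) :
    (V * (hm f θ w)ᴴ * Vᴴ) i j =
      ∑ p : ν × ν, ((f (θ p.2) (θ p.1) : ℝ) : ℂ) *
        (V i p.1 * star (w p.2 p.1) * star (V j p.2)) := by
  rw [Fintype.sum_prod_type, Finset.sum_comm, Matrix.mul_apply]
  refine Finset.sum_congr rfl fun l _ => ?_
  rw [Matrix.mul_apply, Finset.sum_mul]
  refine Finset.sum_congr rfl fun k _ => ?_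
  simp only [hm, Matrix.of_apply, Matrix.conjTranspose_apply, star_mul', Complex.star_def,
    Complex.conj_ofReal]
  ring

omit [Fintype ν] [DecidableEq ν] in
theorem p1_hm_one (θ : ν → ℝ) (z : Matrix ν ν ℂ) : hm (fun _ _ => 1) θ z = z := by
  ext i j
  simp [hm]

theorem p1_sum_bool {α : Type} [Fintype α] (f : α × Bool → ℝ) :
    ∑ x, f x = ∑ a, (f (a, true) + f (a, false)) := by
  rw [Fintype.sum_prod_type]
  refine Finset.sum_congr rfl fun a _ => ?_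
  rw [Fintype.sum_bool]

/-- coefficient of the first kind -/
noncomputable def p1A (μ : ℝ) (s : κ → ℝ) (V : Matrix κ ν ℂ) (z : Matrix ν ν ℂ) (c : ℂ)
    (i j : κ) (p : ν × ν) : ℝ :=
  (star c * (((|s i| ^ (μ / 2) * sp (1 - μ / 2) (s j) : ℝ) : ℂ) *
    (V i p.1 * z p.1 p.2 * star (V j p.2)))).re

/-- coefficient of the second kind -/
noncomputable def p1B (μ : ℝ) (s : κ → ℝ) (V : Matrix κ ν ℂ) (w : Matrix ν ν ℂ) (c : ℂ)
    (i j : κ) (p : ν × ν) : ℝ :=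
  (star c * (((sp (1 - μ / 2) (s i) * |s j| ^ (μ / 2) : ℝ) : ℂ) *
    (V i p.1 * star (w p.2 p.1) * star (V j p.2)))).re

omit [Fintype κ] [DecidableEq κ] [DecidableEq ν] in
theorem p1_Mm (f g : ℝ → ℝ → ℝ) (μ : ℝ) (s : κ → ℝ) (V : Matrix κ ν ℂ) (θ : ν → ℝ)
    (z w : Matrix ν ν ℂ) (c : ℂ) (i j : κ) :
    (star c * Mm μ s V (hm f θ z) (hm g θ w) i j).re =
      ∑ p : ν × ν, (p1A μ s V z c i j p * f (θ p.1) (θ p.2) +
        p1B μ s V w c i j p * g (θ p.2) (θ p.1)) := by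
  have h1 : Mm μ s V (hm f θ z) (hm g θ w) i j =
      ((|s i| ^ (μ / 2) * sp (1 - μ / 2) (s j) : ℝ) : ℂ) * (V * hm f θ z * Vᴴ) i j +
      ((sp (1 - μ / 2) (s i) * |s j| ^ (μ / 2) : ℝ) : ℂ) * (V * (hm g θ w)ᴴ * Vᴴ) i j := rfl
  rw [h1, p1_entry, p1_entry', Finset.mul_sum, Finset.mul_sum, ← Finset.sum_add_distrib,
    Finset.mul_sum, Complex.re_sum]
  refine Finset.sum_congr rfl fun p _ => ?_
  unfold p1A p1B
  have h2 : star c * (((|s i| ^ (μ / 2) * sp (1 - μ / 2) (s j) : ℝ) : ℂ) *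
        (((f (θ p.1) (θ p.2) : ℝ) : ℂ) * (V i p.1 * z p.1 p.2 * star (V j p.2))) +
      ((sp (1 - μ / 2) (s i) * |s j| ^ (μ / 2) : ℝ) : ℂ) *
        (((g (θ p.2) (θ p.1) : ℝ) : ℂ) * (V i p.1 * star (w p.2 p.1) * star (V j p.2)))) =
      ((f (θ p.1) (θ p.2) : ℝ) : ℂ) * (star c *
        (((|s i| ^ (μ / 2) * sp (1 - μ / 2) (s j) : ℝ) : ℂ) *
          (V i p.1 * z p.1 p.2 * star (V j p.2)))) +
      ((g (θ p.2) (θ p.1) : ℝ) : ℂ) * (star c *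
        (((sp (1 - μ / 2) (s i) * |s j| ^ (μ / 2) : ℝ) : ℂ) *
          (V i p.1 * star (w p.2 p.1) * star (V j p.2)))) := by
    ring
  rw [h2, Complex.add_re, Complex.re_ofReal_mul, Complex.re_ofReal_mul]
  ring

/-- the linear integrals: with `zρ = hm (kap ρ) θ z`, `wρ = hm (kap' ρ) θ w`,
`∫ wt Re(conj c · Mm(zρ, wρ)_ij) = Re(conj c · Mm(z,w)_ij)` (a finite linear combination of
`kap_int`, `kap'_int`). -/
theorem Mm_int (q μ : ℝ) (hq : 2 < q) (h0 : 0 ≤ μ) (h1 : μ < 1) (h2 : 1 - μ < q - 2)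
    (s : κ → ℝ) (V : Matrix κ ν ℂ) (θ : ν → ℝ) (hθ : ∀ k, 0 < θ k) (z w : Matrix ν ν ℂ) (c : ℂ)
    (i j : κ) :
    IntegrableOn (fun ρ : ℝ => wt ((1 - μ) / (q - 2)) ρ *
      (star c * Mm μ s V (hm (kap q μ ρ) θ z) (hm (kap' q μ ρ) θ w) i j).re) (Ioi 0) ∧
    ∫ ρ in Ioi (0 : ℝ), wt ((1 - μ) / (q - 2)) ρ *
      (star c * Mm μ s V (hm (kap q μ ρ) θ z) (hm (kap' q μ ρ) θ w) i j).re =
      (star c * Mm μ s V z w i j).re := by
  have hr : (star c * Mm μ s V z w i j).re =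
      ∑ x : (ν × ν) × Bool, (if x.2 then p1A μ s V z c i j x.1 else p1B μ s V w c i j x.1) := by
    have h3 := p1_Mm (fun _ _ => 1) (fun _ _ => 1) μ s V θ z w c i j
    rw [p1_hm_one, p1_hm_one] at h3
    rw [h3, p1_sum_bool]
    refine Finset.sum_congr rfl fun p _ => ?_
    simp
  rw [hr]
  refine p1_lin (wt ((1 - μ) / (q - 2)))
    (fun (x : (ν × ν) × Bool) ρ => if x.2 then kap q μ ρ (θ x.1.1) (θ x.1.2)
      else kap' q μ ρ (θ x.1.2) (θ x.1.1))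
    (fun x => if x.2 then p1A μ s V z c i j x.1 else p1B μ s V w c i j x.1) _ ?_ ?_
  · intro ρ
    rw [p1_Mm, p1_sum_bool]
    refine Finset.sum_congr rfl fun p _ => ?_
    simp
  · rintro ⟨p, b⟩
    cases b
    · exact kap'_int q μ _ _ hq h0 h1 h2 (hθ _) (hθ _)
    · exact kap_int q μ _ _ hq h0 h1 h2 (hθ _) (hθ _)

omit [DecidableEq κ] [DecidableEq ν] in
theorem p1_kb (k g : ℝ → ℝ → ℝ) (s : κ → ℝ) (V : Matrix κ ν ℂ) (θ : ν → ℝ)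
    (w : Matrix ν ν ℂ) :
    kb k s V w (hm g θ w) = ∑ p : ν × ν,
      (∑ i, ∑ j, k (s i) (s j) * (star ((V * w * Vᴴ) i j) *
        (V i p.1 * w p.1 p.2 * star (V j p.2))).re) * g (θ p.1) (θ p.2) := by
  unfold kb
  simp only [Finset.sum_mul]
  symm
  rw [Finset.sum_comm]
  refine Finset.sum_congr rfl fun i _ => ?_
  rw [Finset.sum_comm]
  refine Finset.sum_congr rfl fun j _ => ?_
  symm
  rw [p1_entry g V θ w i j, Finset.mul_sum, Complex.re_sum, Finset.mul_sum]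
  refine Finset.sum_congr rfl fun p _ => ?_
  have h2 : star ((V * w * Vᴴ) i j) * (((g (θ p.1) (θ p.2) : ℝ) : ℂ) *
      (V i p.1 * w p.1 p.2 * star (V j p.2))) =
      ((g (θ p.1) (θ p.2) : ℝ) : ℂ) * (star ((V * w * Vᴴ) i j) *
        (V i p.1 * w p.1 p.2 * star (V j p.2))) := by
    ring
  rw [h2, Complex.re_ofReal_mul]
  ring

/-- similarly for the polarised kernel form, linear in the second argument -/
theorem kb_int (q μ : ℝ) (hq : 2 < q) (h0 : 0 ≤ μ) (h1 : μ < 1) (h2 : 1 - μ < q - 2)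
    (k : ℝ → ℝ → ℝ) (s : κ → ℝ) (V : Matrix κ ν ℂ) (θ : ν → ℝ) (hθ : ∀ k, 0 < θ k)
    (w : Matrix ν ν ℂ) :
    IntegrableOn (fun ρ : ℝ => wt ((1 - μ) / (q - 2)) ρ *
      kb k s V w (hm (kap' q μ ρ) θ w)) (Ioi 0) ∧
    ∫ ρ in Ioi (0 : ℝ), wt ((1 - μ) / (q - 2)) ρ * kb k s V w (hm (kap' q μ ρ) θ w) =
      kf k s V w := by
  have hr : kf k s V w = ∑ p : ν × ν,
      (∑ i, ∑ j, k (s i) (s j) * (star ((V * w * Vᴴ) i j) *
        (V i p.1 * w p.1 p.2 * star (V j p.2))).re) := by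
    have h3 := p1_kb k (fun _ _ => 1) s V θ w
    rw [p1_hm_one, kb_self] at h3
    rw [h3]
    refine Finset.sum_congr rfl fun p _ => ?_
    rw [mul_one]
  rw [hr]
  refine p1_lin (wt ((1 - μ) / (q - 2)))
    (fun (p : ν × ν) ρ => kap' q μ ρ (θ p.1) (θ p.2)) _ _ ?_ ?_
  · intro ρ
    exact p1_kb k (kap' q μ ρ) s V θ w
  · intro p
    exact kap'_int q μ _ _ hq h0 h1 h2 (hθ _) (hθ _)

/-- Pointwise in `ρ`: with `Φ' = Φ^μ - b`, `(b + ρ a)|M_ρ|² ≥ 2Φ' Re(conj M M_ρ) - Φ'²|M|²/(b+ρa)`;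
if `a = 0` then `Φ' = 0` (`Ph_sub_zero`). -/
theorem low_pt (q μ ρ x y : ℝ) (hq : 2 < q) (h0 : 0 ≤ μ) (h1 : μ < 1) (hρ : 0 < ρ) (hx : 0 ≤ x)
    (hy : 0 ≤ y) (M Mρ : ℂ) :
    2 * (Ph (q - 1 - μ) (1 - μ) x y - y ^ (q - 2)) * (star M * Mρ).re -
      (Ph (q - 1 - μ) (1 - μ) x y - y ^ (q - 2)) ^ 2 * ‖M‖ ^ 2 *
        (y ^ (q - 2) + ρ * x ^ (q - 2))⁻¹ ≤
      (y ^ (q - 2) + ρ * x ^ (q - 2)) * ‖Mρ‖ ^ 2 := by
  have ha : 0 ≤ x ^ (q - 2) := Real.rpow_nonneg hx _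
  have hb : 0 ≤ y ^ (q - 2) := Real.rpow_nonneg hy _
  rcases hx.eq_or_lt with hx0 | hx0
  · have h3 : Ph (q - 1 - μ) (1 - μ) x y - y ^ (q - 2) = 0 := by
      rw [← hx0]
      exact Ph_sub_zero q μ y hq h0 h1 hy
    rw [h3]
    have h4 : 0 ≤ (y ^ (q - 2) + ρ * x ^ (q - 2)) * ‖Mρ‖ ^ 2 := by positivity
    nlinarith
  · have hD : 0 < y ^ (q - 2) + ρ * x ^ (q - 2) := by
      have : 0 < x ^ (q - 2) := Real.rpow_pos_of_pos hx0 _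
      positivity
    obtain ⟨D, hDD⟩ : ∃ D, D = y ^ (q - 2) + ρ * x ^ (q - 2) := ⟨_, rfl⟩
    obtain ⟨Φ, hΦ⟩ : ∃ Φ, Φ = Ph (q - 1 - μ) (1 - μ) x y - y ^ (q - 2) := ⟨_, rfl⟩
    rw [← hDD] at hD ⊢
    rw [← hΦ]
    have h5 : ‖M‖ ^ 2 = M.re ^ 2 + M.im ^ 2 := by
      rw [← Complex.normSq_eq_norm_sq, Complex.normSq_apply]
      ring
    have h6 : ‖Mρ‖ ^ 2 = Mρ.re ^ 2 + Mρ.im ^ 2 := by
      rw [← Complex.normSq_eq_norm_sq, Complex.normSq_apply]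
      ring
    have h7 : (star M * Mρ).re = M.re * Mρ.re + M.im * Mρ.im := by
      rw [Complex.star_def, Complex.mul_re, Complex.conj_re, Complex.conj_im]
      ring
    rw [h5, h6, h7]
    have h8 : D * (Mρ.re ^ 2 + Mρ.im ^ 2) - (2 * Φ * (M.re * Mρ.re + M.im * Mρ.im) -
        Φ ^ 2 * (M.re ^ 2 + M.im ^ 2) * D⁻¹) =
        D * ((Mρ.re - Φ * M.re * D⁻¹) ^ 2 + (Mρ.im - Φ * M.im * D⁻¹) ^ 2) := by
      field_simp
      ring
    have h9 : 0 ≤ D * ((Mρ.re - Φ * M.re * D⁻¹) ^ 2 + (Mρ.im - Φ * M.im * D⁻¹) ^ 2) := by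
      positivity
    linarith

end Pool.Agent.LibSchQ
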