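import Pool.Agent.LibSchQ.S1a

/-! **S1b.**  The scalar step. -/

namespace Pool.Agent.LibSchQ

open Pool.Agent.LibSchP

/-- a discriminant inequality -/
theorem s1b_disc {A P s r u v : ℝ} (hP : 0 < P) (hs : s ^ 2 = A * P)
    (hs0 : 0 ≤ s) (hr : r ≤ u * v) : 0 ≤ A * u ^ 2 - 2 * (s * r) + P * v ^ 2 := by
  have h1 : s * r ≤ s * (u * v) := mul_le_mul_of_nonneg_left hr hs0
  have h2 : 0 ≤ P * (A * u ^ 2 - 2 * (s * (u * v)) + P * v ^ 2) := by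
    have h3 : P * (A * u ^ 2 - 2 * (s * (u * v)) + P * v ^ 2) =
        (A * P) * u ^ 2 - 2 * (s * P * u * v) + P ^ 2 * v ^ 2 := by ring
    rw [h3, ← hs]
    nlinarith [sq_nonneg (s * u - P * v)]
  have h4 : 0 ≤ A * u ^ 2 - 2 * (s * (u * v)) + P * v ^ 2 := nonneg_of_mul_nonneg_right h2 hP
  linarith

/-- pointwise step inequality: `a + b - Φ^μ ≥ 0`, `Φ^(μ+δ) ≥ 0` and
`(a + b - Φ^μ) Φ^(μ+δ) = a b` -/
theorem step_pt (q μ x y : ℝ) (hq : 2 < q) (h0 : 0 ≤ μ) (h1 : μ + (q - 2) < 1) (hx : 0 ≤ x)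
    (hy : 0 ≤ y) (m₀ m₁ : ℂ) :
    Ph (q - 1 - μ) (1 - μ) x y * ‖m₀‖ ^ 2 ≤
      (x ^ (q - 2) + y ^ (q - 2)) * ‖m₀‖ ^ 2 - 2 * ((x * y) ^ ((q - 2) / 2) * (star m₁ * m₀).re) +
      Ph (q - 1 - (μ + (q - 2))) (1 - (μ + (q - 2))) x y * ‖m₁‖ ^ 2 := by
  have hrec := Ph_rec q μ x y hq h0 h1 hx hy
  have hP0 := Ph_nonneg (q - 1 - (μ + (q - 2))) (1 - (μ + (q - 2))) x y (by linarith)
    (by linarith) hx hy
  have hr : (star m₁ * m₀).re ≤ ‖m₀‖ * ‖m₁‖ := by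
    calc (star m₁ * m₀).re ≤ ‖star m₁ * m₀‖ := Complex.re_le_norm _
      _ = ‖m₀‖ * ‖m₁‖ := by rw [norm_mul, norm_star, mul_comm]
  rcases (show (x = 0 ∧ y = 0) ∨ (0 < x ∨ 0 < y) by
    rcases hx.eq_or_lt with h | h
    · rcases hy.eq_or_lt with h' | h'
      · exact Or.inl ⟨h.symm, h'.symm⟩
      · exact Or.inr (Or.inr h')
    · exact Or.inr (Or.inl h)) with ⟨rfl, rfl⟩ | hxy
  · have h2 : (0 : ℝ) ^ (q - 2) = 0 := Real.zero_rpow (by linarith)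
    have h3 : ((0 : ℝ) * 0) ^ ((q - 2) / 2) = 0 := by
      rw [mul_zero]
      exact Real.zero_rpow (by linarith)
    have h4 : Ph (q - 1 - μ) (1 - μ) 0 0 = 0 := by
      unfold Ph
      rw [if_pos rfl]
      have h5 : q - 1 - μ - (1 - μ) = q - 2 := by ring
      rw [h5, h2, mul_zero]
    rw [h2, h3, h4]
    have : 0 ≤ Ph (q - 1 - (μ + (q - 2))) (1 - (μ + (q - 2))) 0 0 * ‖m₁‖ ^ 2 :=
      mul_nonneg hP0 (by positivity)
    linarith
  · have hP := Ph_pos (q - 1 - (μ + (q - 2))) (1 - (μ + (q - 2))) x y (by linarith)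
      (by linarith) (by linarith) hx hy hxy
    have hA1 : (x ^ (q - 2) + y ^ (q - 2) - Ph (q - 1 - μ) (1 - μ) x y) *
        Ph (q - 1 - (μ + (q - 2))) (1 - (μ + (q - 2))) x y = x ^ (q - 2) * y ^ (q - 2) := by
      linarith
    have hs : ((x * y) ^ ((q - 2) / 2)) ^ 2 =
        (x ^ (q - 2) + y ^ (q - 2) - Ph (q - 1 - μ) (1 - μ) x y) *
        Ph (q - 1 - (μ + (q - 2))) (1 - (μ + (q - 2))) x y := by
      rw [hA1, ← Real.mul_rpow hx hy, ← Real.rpow_natCast, ← Real.rpow_mul (mul_nonneg hx hy)]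
      congr 1
      push_cast
      ring
    have h7 := s1b_disc hP hs (Real.rpow_nonneg (mul_nonneg hx hy) _) hr
    linarith

/-- the optimal factor at a diagonal point -/
noncomputable def zt (q μ x y : ℝ) : ℝ :=
  x ^ (μ + (q - 2)) * y ^ (2 - μ) /
    (x ^ (μ + (q - 2)) * y ^ (2 - μ) + x ^ (μ + (q - 2)) * y ^ (2 - (μ + (q - 2))) *
      (Ph (q - 1 - (μ + (q - 2))) (1 - (μ + (q - 2))) x y - y ^ (q - 2)))

/-- With `a = x^δ`, `b = y^δ`, `Φ₁ = Φ^(μ+δ)`, common factor `x^μ y^(2-μ)`: `c = a`,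
`K' = (a/b)(Φ₁ - b)`, `c + K' = aΦ₁/b`, `ζ = b/Φ₁`, value `cK'/(c+K') = a(Φ₁-b)/Φ₁ = Φ^μ - b`. -/
theorem step_opt (q μ x y : ℝ) (hq : 2 < q) (h0 : 0 ≤ μ) (h1 : μ + (q - 2) < 1) (hx : 0 < x)
    (hy : 0 < y) :
    kc q (μ + (q - 2)) x y * (1 - zt q μ x y) ^ 2 +
      x ^ (μ + (q - 2)) * y ^ (2 - (μ + (q - 2))) *
        (Ph (q - 1 - (μ + (q - 2))) (1 - (μ + (q - 2))) x y - y ^ (q - 2)) * zt q μ x y ^ 2 =
      x ^ μ * y ^ (2 - μ) * (Ph (q - 1 - μ) (1 - μ) x y - y ^ (q - 2)) := by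
  have hrec := Ph_rec q μ x y hq h0 h1 hx.le hy.le
  have hP := Ph_pos (q - 1 - (μ + (q - 2))) (1 - (μ + (q - 2))) x y (by linarith)
    (by linarith) (by linarith) hx.le hy.le (Or.inl hx)
  have hxa : x ^ (μ + (q - 2)) = x ^ μ * x ^ (q - 2) := Real.rpow_add hx _ _
  have hyb : y ^ (2 - (μ + (q - 2))) = y ^ (2 - μ) / y ^ (q - 2) := by
    rw [← Real.rpow_sub hy]
    congr 1
    ring
  have hkc : kc q (μ + (q - 2)) x y = x ^ μ * x ^ (q - 2) * y ^ (2 - μ) := by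
    unfold kc
    rw [abs_of_pos hx, abs_of_pos hy, hxa]
    congr 2
    ring
  unfold zt
  rw [hkc, hyb, hxa]
  set a := x ^ (q - 2)
  set b := y ^ (q - 2)
  set u := x ^ μ
  set v := y ^ (2 - μ)
  set P := Ph (q - 1 - (μ + (q - 2))) (1 - (μ + (q - 2))) x y
  set F := Ph (q - 1 - μ) (1 - μ) x y
  have ha : 0 < a := Real.rpow_pos_of_pos hx _
  have hb : 0 < b := Real.rpow_pos_of_pos hy _
  have hu : 0 < u := Real.rpow_pos_of_pos hx _
  have hv : 0 < v := Real.rpow_pos_of_pos hy _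
  have hden : u * a * v + u * a * (v / b) * (P - b) = u * v * a * P / b := by
    field_simp
    ring
  have hz : u * a * v / (u * v * a * P / b) = b / P := by
    field_simp
  rw [hden, hz]
  have hF : F = ((a + b) * P - a * b) / P := by
    rw [eq_div_iff hP.ne']
    exact hrec
  rw [hF]
  field_simp
  ring

end Pool.Agent.LibSchQ
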