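import Pool.Agent.LibSchQ.B4
import Pool.Agent.LibSchP.I1

/-! **TL.**  The Lieb transformer inequality for two components. -/

open Matrix MeasureTheory Set
open scoped ComplexOrder

namespace Pool.Agent.LibSchQ

open Pool.Agent.LibSchP

variable {κ ν : Type} [Fintype κ] [Fintype ν] [DecidableEq κ] [DecidableEq ν]

/-- parallel sum: `a b/(a + l b) |m|² ≤ l⁻¹ a |m - m'|² + b |m'|²` for `a, b ≥ 0`, `l > 0`
(`x/0 = 0`). -/
theorem par (a b l : ℝ) (ha : 0 ≤ a) (hb : 0 ≤ b) (hl : 0 < l) (m m' : ℂ) :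
    a * b / (a + l * b) * ‖m‖ ^ 2 ≤ l⁻¹ * a * ‖m - m'‖ ^ 2 + b * ‖m'‖ ^ 2 := by
  have h1 : ‖m‖ ≤ ‖m - m'‖ + ‖m'‖ := by
    calc ‖m‖ = ‖(m - m') + m'‖ := by rw [sub_add_cancel]
      _ ≤ _ := norm_add_le _ _
  have hA : 0 ≤ ‖m - m'‖ := norm_nonneg _
  have hB : 0 ≤ ‖m'‖ := norm_nonneg _
  have hm : 0 ≤ ‖m‖ := norm_nonneg _
  generalize ‖m - m'‖ = A at *
  generalize ‖m'‖ = B at *
  generalize ‖m‖ = M at *
  have hL : 0 < l⁻¹ := inv_pos.2 hl
  have h0 : 0 ≤ a + l * b := by positivity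
  rcases h0.eq_or_lt with h | h
  · rw [← h, div_zero, zero_mul]
    positivity
  · rw [div_mul_eq_mul_div, div_le_iff₀ h]
    have h2 : M ^ 2 ≤ (A + B) ^ 2 := pow_le_pow_left₀ hm h1 2
    have h3 : a * b * M ^ 2 ≤ a * b * (A + B) ^ 2 :=
      mul_le_mul_of_nonneg_left h2 (by positivity)
    refine h3.trans ?_
    have h4 : (l⁻¹ * a * A ^ 2 + b * B ^ 2) * (a + l * b) - a * b * (A + B) ^ 2 =
        l⁻¹ * (a * A - l * b * B) ^ 2 := by
      field_simp
      ring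
    have h5 : 0 ≤ l⁻¹ * (a * A - l * b * B) ^ 2 := by positivity
    linarith

omit [DecidableEq ν] in
theorem tl_comp {κ' : Type} [Fintype κ'] (q l : ℝ) (hl : 0 < l) (s : κ' → ℝ)
    (V : Matrix κ' ν ℂ) (z z' : Matrix ν ν ℂ) :
    kf (fun a b => |a| ^ q * |b| ^ q / (|a| ^ q + l * |b| ^ q)) s V z ≤
      l⁻¹ * kf (fun a _ => |a| ^ q) s V (z - z') + kf (fun _ b => |b| ^ q) s V z' := by
  unfold kf
  rw [Finset.mul_sum, ← Finset.sum_add_distrib]
  refine Finset.sum_le_sum fun i _ => ?_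
  rw [Finset.mul_sum, ← Finset.sum_add_distrib]
  refine Finset.sum_le_sum fun j _ => ?_
  have h1 : (V * (z - z') * Vᴴ) i j = (V * z * Vᴴ) i j - (V * z' * Vᴴ) i j := by
    rw [Matrix.mul_sub, Matrix.sub_mul, Matrix.sub_apply]
  rw [h1]
  have := par (|s i| ^ q) (|s j| ^ q) l (Real.rpow_nonneg (abs_nonneg _) _)
    (Real.rpow_nonneg (abs_nonneg _) _) hl ((V * z * Vᴴ) i j) ((V * z' * Vᴴ) i j)
  linarith

/-- the parallel sum inequality for the two components, `l > 0` fixed: `par` with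
`a = |s_i|^q`, `b = |s_j|^q`, `m = (V z Vᴴ)_ij`, `m' = (V z' Vᴴ)_ij`,
`z' = hm (fun u v => u^q/(u^q + l v^q)) θ z`; `exact_left` for `z - z'`, `exact_right` for `z'`;
`kt_hm`: `l⁻¹ a (1-κ)² + b κ² = a b/(a + l b)` for `κ = a/(a + l b)`. -/
theorem tl_par {q lam : ℝ} {s : κ → ℝ} {V : Matrix κ ν ℂ} {x : ν → ℝ} {O : Matrix ν ν ℂ}
    {θ : ν → ℝ} (D : Dat q lam s V x O θ) (l : ℝ) (hl : 0 < l) (z : Matrix ν ν ℂ) :
    kf (fun a b => |a| ^ q * |b| ^ q / (|a| ^ q + l * |b| ^ q)) s V z +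
      lam * kf (fun a b => |a| ^ q * |b| ^ q / (|a| ^ q + l * |b| ^ q)) x O z ≤
      kt (fun a b => a ^ q * b ^ q / (a ^ q + l * b ^ q)) θ z := by
  set z' : Matrix ν ν ℂ := hm (fun u v => u ^ q / (u ^ q + l * v ^ q)) θ z with hz'
  have h1 := tl_comp q l hl s V z z'
  have h2 := tl_comp q l hl x O z z'
  have h3 := exact_left D (z - z')
  have h4 := exact_right D z'
  have h5 := mul_le_mul_of_nonneg_left h2 D.hlam
  have h6 : l⁻¹ * kt (fun a _ => a ^ q) θ (z - z') + kt (fun _ b => b ^ q) θ z' =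
      kt (fun a b => a ^ q * b ^ q / (a ^ q + l * b ^ q)) θ z := by
    unfold kt
    rw [Finset.mul_sum, ← Finset.sum_add_distrib]
    refine Finset.sum_congr rfl fun i _ => ?_
    rw [Finset.mul_sum, ← Finset.sum_add_distrib]
    refine Finset.sum_congr rfl fun j _ => ?_
    have ha : 0 < θ i ^ q := Real.rpow_pos_of_pos (D.hθ i) q
    have hb : 0 < θ j ^ q := Real.rpow_pos_of_pos (D.hθ j) q
    have e1 : (z - z') i j = (((1 - θ i ^ q / (θ i ^ q + l * θ j ^ q) : ℝ)) : ℂ) * z i j := by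
      rw [Matrix.sub_apply, hz']
      show z i j - ((θ i ^ q / (θ i ^ q + l * θ j ^ q) : ℝ) : ℂ) * z i j = _
      push_cast
      ring
    have e2 : z' i j = ((θ i ^ q / (θ i ^ q + l * θ j ^ q) : ℝ) : ℂ) * z i j := rfl
    rw [e1, e2, norm_mul, norm_mul, mul_pow, mul_pow, Complex.norm_real, Complex.norm_real,
      Real.norm_eq_abs, Real.norm_eq_abs, sq_abs, sq_abs]
    beta_reduce
    generalize θ i ^ q = a at *
    generalize θ j ^ q = b at *
    have h : a + l * b ≠ 0 := by positivity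
    field_simp
    ring
  rw [← h6]
  nlinarith [h1, h5, h3, h4, h6, inv_pos.2 hl]

/-- `a^σ b^(1-σ) = (cst σ)⁻¹ ∫ l^(σ-1) a b/(a + l b) dl` for `a, b ≥ 0` (`int_base` with `a/b`). -/
theorem tl_int (σ a b : ℝ) (h0 : 0 < σ) (h1 : σ < 1) (ha : 0 ≤ a) (hb : 0 ≤ b) :
    IntegrableOn (fun l : ℝ => l ^ (σ - 1) * (a * b / (a + l * b))) (Ioi 0) ∧
    ∫ l in Ioi (0 : ℝ), l ^ (σ - 1) * (a * b / (a + l * b)) = cst σ * (a ^ σ * b ^ (1 - σ)) := by
  rcases ha.eq_or_lt with ha0 | ha0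
  · subst ha0
    have h2 : (fun l : ℝ => l ^ (σ - 1) * (0 * b / (0 + l * b))) = fun _ => 0 := by
      funext l
      simp
    rw [h2]
    refine ⟨integrableOn_zero, ?_⟩
    rw [integral_zero, Real.zero_rpow h0.ne', zero_mul, mul_zero]
  rcases hb.eq_or_lt with hb0 | hb0
  · subst hb0
    have h2 : (fun l : ℝ => l ^ (σ - 1) * (a * 0 / (a + l * 0))) = fun _ => 0 := by
      funext l
      simp
    rw [h2]
    refine ⟨integrableOn_zero, ?_⟩
    rw [integral_zero, Real.zero_rpow (by linarith : (1 : ℝ) - σ ≠ 0), mul_zero, mul_zero]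
  obtain ⟨hI, hV⟩ := int_base σ (a / b) h0 h1 (div_pos ha0 hb0)
  have h2 : ∀ l ∈ Ioi (0 : ℝ), l ^ (σ - 1) * (a * b / (a + l * b)) =
      a * (l ^ (σ - 1) / (a / b + l)) := by
    intro l hl
    have hl0 : (0 : ℝ) < l := hl
    have h3 : a + l * b ≠ 0 := by positivity
    have h4 : a / b + l ≠ 0 := by positivity
    field_simp
  have hI' : IntegrableOn (fun l : ℝ => a * (l ^ (σ - 1) / (a / b + l))) (Ioi 0) :=
    hI.const_mul a
  refine ⟨hI'.congr_fun (fun l hl => (h2 l hl).symm) measurableSet_Ioi, ?_⟩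
  rw [setIntegral_congr_fun measurableSet_Ioi h2, integral_const_mul, hV, Real.rpow_sub_one
    (div_pos ha0 hb0).ne', Real.div_rpow ha hb, Real.rpow_sub hb0, Real.rpow_one]
  have h5 := (Real.rpow_pos_of_pos hb0 σ).ne'
  field_simp

theorem tl_sum_int {ι : Type} [Fintype ι] (σ : ℝ) (h0 : 0 < σ) (h1 : σ < 1) (A : ι → ℝ)
    (hA : ∀ i, 0 ≤ A i) (c : ι → ι → ℝ) :
    IntegrableOn (fun l : ℝ => l ^ (σ - 1) *
      ∑ i, ∑ j, A i * A j / (A i + l * A j) * c i j) (Ioi 0) ∧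
    ∫ l in Ioi (0 : ℝ), l ^ (σ - 1) * ∑ i, ∑ j, A i * A j / (A i + l * A j) * c i j =
      cst σ * ∑ i, ∑ j, A i ^ σ * A j ^ (1 - σ) * c i j := by
  have h2 : (fun l : ℝ => l ^ (σ - 1) * ∑ i, ∑ j, A i * A j / (A i + l * A j) * c i j) =
      fun l => ∑ i, ∑ j, (l ^ (σ - 1) * (A i * A j / (A i + l * A j))) * c i j := by
    funext l
    rw [Finset.mul_sum]
    refine Finset.sum_congr rfl fun i _ => ?_
    rw [Finset.mul_sum]
    refine Finset.sum_congr rfl fun j _ => ?_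
    ring
  have h3 : ∀ i j, IntegrableOn (fun l : ℝ =>
      (l ^ (σ - 1) * (A i * A j / (A i + l * A j))) * c i j) (Ioi 0) := fun i j =>
    (tl_int σ (A i) (A j) h0 h1 (hA i) (hA j)).1.mul_const _
  rw [h2]
  constructor
  · exact integrable_finsetSum _ fun i _ => integrable_finsetSum _ fun j _ => h3 i j
  · rw [integral_finsetSum _ fun i _ => integrable_finsetSum _ fun j _ => h3 i j,
      Finset.mul_sum]
    refine Finset.sum_congr rfl fun i _ => ?_
    rw [integral_finsetSum _ fun j _ => h3 i j, Finset.mul_sum]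
    refine Finset.sum_congr rfl fun j _ => ?_
    rw [integral_mul_const, (tl_int σ (A i) (A j) h0 h1 (hA i) (hA j)).2]
    ring

/-- **TL**: `α = 0`, `α = q`: `exact_right`, `exact_left`; otherwise integrate `tl_par` against
`l^(σ-1)`, `σ = α/q`. -/
theorem tl {q lam : ℝ} {s : κ → ℝ} {V : Matrix κ ν ℂ} {x : ν → ℝ} {O : Matrix ν ν ℂ}
    {θ : ν → ℝ} (D : Dat q lam s V x O θ) (α : ℝ) (h0 : 0 ≤ α) (h1 : α ≤ q)
    (z : Matrix ν ν ℂ) :
    kf (kc q α) s V z + lam * kf (kc q α) x O z ≤ kt (kc q α) θ z := by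
  have hq : 0 < q := by linarith [D.hq]
  rcases h0.eq_or_lt with h | h
  · subst h
    have e : kc q 0 = fun _ b => |b| ^ q := by
      funext a b
      simp [kc]
    rw [e, exact_right D z]
    refine le_of_eq ?_
    unfold kt
    refine Finset.sum_congr rfl fun i _ => Finset.sum_congr rfl fun j _ => ?_
    show θ j ^ q * _ = |θ j| ^ q * _
    rw [abs_of_pos (D.hθ j)]
  rcases h1.eq_or_lt with h' | h'
  · subst h'
    have e : kc α α = fun a _ => |a| ^ α := by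
      funext a b
      simp [kc]
    rw [e, exact_left D z]
    refine le_of_eq ?_
    unfold kt
    refine Finset.sum_congr rfl fun i _ => Finset.sum_congr rfl fun j _ => ?_
    show θ i ^ α * _ = |θ i| ^ α * _
    rw [abs_of_pos (D.hθ i)]
  have hσ0 : 0 < α / q := div_pos h hq
  have hσ1 : α / q < 1 := (div_lt_one hq).2 h'
  have hpw : ∀ u v : ℝ, (|u| ^ q) ^ (α / q) * (|v| ^ q) ^ (1 - α / q) = kc q α u v := by
    intro u v
    unfold kc
    rw [← Real.rpow_mul (abs_nonneg u), ← Real.rpow_mul (abs_nonneg v)]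
    congr 2
    · field_simp
    · field_simp
  obtain ⟨i1, v1⟩ := tl_sum_int (α / q) hσ0 hσ1 (fun i => |s i| ^ q)
    (fun i => Real.rpow_nonneg (abs_nonneg _) _) (fun i j => ‖(V * z * Vᴴ) i j‖ ^ 2)
  obtain ⟨i2, v2⟩ := tl_sum_int (α / q) hσ0 hσ1 (fun i => |x i| ^ q)
    (fun i => Real.rpow_nonneg (abs_nonneg _) _) (fun i j => ‖(O * z * Oᴴ) i j‖ ^ 2)
  obtain ⟨i3, v3⟩ := tl_sum_int (α / q) hσ0 hσ1 (fun i => |θ i| ^ q)
    (fun i => Real.rpow_nonneg (abs_nonneg _) _) (fun i j => ‖z i j‖ ^ 2)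
  simp only [hpw] at v1 v2 v3
  have hmono := setIntegral_mono_on (i1.add (i2.const_mul lam)) i3 measurableSet_Ioi
    (fun l hl => ?_)
  · have hc := cst_pos (α / q) hσ0 hσ1
    have e1 : ∫ l in Ioi (0 : ℝ), ((fun l : ℝ => l ^ (α / q - 1) *
        ∑ i, ∑ j, |s i| ^ q * |s j| ^ q / (|s i| ^ q + l * |s j| ^ q) *
          ‖(V * z * Vᴴ) i j‖ ^ 2) + fun l : ℝ => lam * (l ^ (α / q - 1) *
        ∑ i, ∑ j, |x i| ^ q * |x j| ^ q / (|x i| ^ q + l * |x j| ^ q) *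
          ‖(O * z * Oᴴ) i j‖ ^ 2)) l = cst (α / q) * (kf (kc q α) s V z +
            lam * kf (kc q α) x O z) := by
      rw [integral_add' i1 (i2.const_mul lam), v1, integral_const_mul, v2]
      unfold kf
      ring
    rw [e1, v3] at hmono
    exact le_of_mul_le_mul_left hmono hc
  · have hl0 : (0 : ℝ) < l := hl
    have h2 := tl_par D l hl0 z
    have h3 : 0 ≤ l ^ (α / q - 1) := Real.rpow_nonneg hl0.le _
    have h4 := mul_le_mul_of_nonneg_left h2 h3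
    have e2 : kt (fun a b => a ^ q * b ^ q / (a ^ q + l * b ^ q)) θ z =
        ∑ i, ∑ j, |θ i| ^ q * |θ j| ^ q / (|θ i| ^ q + l * |θ j| ^ q) * ‖z i j‖ ^ 2 := by
      unfold kt
      refine Finset.sum_congr rfl fun i _ => Finset.sum_congr rfl fun j _ => ?_
      rw [abs_of_pos (D.hθ i), abs_of_pos (D.hθ j)]
    rw [e2] at h4
    refine le_trans (le_of_eq ?_) h4
    show l ^ (α / q - 1) * _ + lam * (l ^ (α / q - 1) * _) = _
    unfold kf
    ring

end Pool.Agent.LibSchQ
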