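import Pool.Agent.LibSchQ.B3
import Pool.Agent.LibSchQ.TL
import Pool.Agent.LibSchQ.S1b

/-! **C1.**  The claim at level `μ` and the step `μ + δ → μ`, `δ = q - 2`. -/

open Matrix
open scoped ComplexOrder

namespace Pool.Agent.LibSchQ

open Pool.Agent.LibSchP

variable {κ ν : Type} [Fintype κ] [Fintype ν] [DecidableEq κ] [DecidableEq ν]

/-- The claim at level `μ`. -/
def Claim (q lam μ : ℝ) (s : κ → ℝ) (V : Matrix κ ν ℂ) (x : ν → ℝ) (O : Matrix ν ν ℂ)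
    (θ : ν → ℝ) : Prop :=
  ∀ z w : Matrix ν ν ℂ,
    PF q μ s V z w + lam * PF q μ x O z w ≤
      (kf (kc q μ) s V z + lam * kf (kc q μ) x O z) +
      (kf (kc q μ) s V w + lam * kf (kc q μ) x O w) + KK q μ θ z + KK q μ θ w

/-- One component: `step_pt` summed over `i, j`, `form_lin` (`α = β = 1`) and `form_mix`. -/
theorem step_comp (q μ : ℝ) (hq : 2 < q) (h0 : 0 ≤ μ) (h1 : μ + (q - 2) < 1) (s : κ → ℝ)
    (V : Matrix κ ν ℂ) (z₀ w₀ z₁ w₁ : Matrix ν ν ℂ) :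
    PF q μ s V z₀ w₀ ≤
      (kf (kc q (μ + (q - 2))) s V z₀ + kf (kc q μ) s V w₀) +
      (kf (kc q μ) s V z₀ + kf (kc q (μ + (q - 2))) s V w₀) +
      2 * (kx (sp (q - 1)) id s V z₀ w₀ + kx id (sp (q - 1)) s V z₀ w₀) -
      2 * (kb (kc q (μ + (q - 2))) s V z₁ z₀ + kb (kc q (μ + (q - 2))) s V w₁ w₀ +
        kx (sp (q - 1)) id s V z₁ w₀ + kx id (sp (q - 1)) s V z₀ w₁) +
      PF q (μ + (q - 2)) s V z₁ w₁ := by
  have hμ1 : μ < 1 := by linarith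
  have hl := form_lin q μ 1 1 hq h0 hμ1 s V z₀ w₀
  have hx := form_mix q μ hq h0 h1 s V z₁ w₁ z₀ w₀
  have hp : PF q μ s V z₀ w₀ ≤ ∑ i, ∑ j,
      ((|s i| ^ (q - 2) + |s j| ^ (q - 2)) * ‖Mm μ s V z₀ w₀ i j‖ ^ 2 -
        2 * ((|s i| * |s j|) ^ ((q - 2) / 2) *
          (star (Mm (μ + (q - 2)) s V z₁ w₁ i j) * Mm μ s V z₀ w₀ i j).re) +
        Ph (q - 1 - (μ + (q - 2))) (1 - (μ + (q - 2))) |s i| |s j| *
          ‖Mm (μ + (q - 2)) s V z₁ w₁ i j‖ ^ 2) := by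
    unfold PF
    exact Finset.sum_le_sum fun i _ => Finset.sum_le_sum fun j _ =>
      step_pt q μ _ _ hq h0 h1 (abs_nonneg _) (abs_nonneg _) _ _
  have he : ∑ i, ∑ j,
      ((|s i| ^ (q - 2) + |s j| ^ (q - 2)) * ‖Mm μ s V z₀ w₀ i j‖ ^ 2 -
        2 * ((|s i| * |s j|) ^ ((q - 2) / 2) *
          (star (Mm (μ + (q - 2)) s V z₁ w₁ i j) * Mm μ s V z₀ w₀ i j).re) +
        Ph (q - 1 - (μ + (q - 2))) (1 - (μ + (q - 2))) |s i| |s j| *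
          ‖Mm (μ + (q - 2)) s V z₁ w₁ i j‖ ^ 2) =
      (∑ i, ∑ j, (1 * |s i| ^ (q - 2) + 1 * |s j| ^ (q - 2)) * ‖Mm μ s V z₀ w₀ i j‖ ^ 2) -
        2 * (∑ i, ∑ j, (|s i| * |s j|) ^ ((q - 2) / 2) *
          (star (Mm (μ + (q - 2)) s V z₁ w₁ i j) * Mm μ s V z₀ w₀ i j).re) +
        PF q (μ + (q - 2)) s V z₁ w₁ := by
    unfold PF
    simp only [Finset.sum_add_distrib, Finset.sum_sub_distrib, Finset.mul_sum, one_mul]
  rw [he, hl, hx] at hp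
  linarith

/-- The step.  `z₁ = hm (zt q μ) θ z₀`, `w₁ = hm (zt q μ) θ w₀`; `step_comp` for the two
components, the hypothesis for `z₁, w₁`, `stat₁`, `stat₂`, `kf_sub`
(`kf(z₀) - 2 kb(z₁,z₀) + kf(z₁) = kf(z₀ - z₁)`), `tl` for `z₀ - z₁` with `α = μ + δ`
(`z₀ - z₁ = hm (1 - zt) θ z₀`), `kt_hm` and `step_opt`. -/
theorem claim_step {q lam : ℝ} {s : κ → ℝ} {V : Matrix κ ν ℂ} {x : ν → ℝ} {O : Matrix ν ν ℂ}
    {θ : ν → ℝ} (D : Dat q lam s V x O θ) (μ : ℝ) (h0 : 0 ≤ μ) (h1 : μ + (q - 2) < 1)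
    (hc : Claim q lam (μ + (q - 2)) s V x O θ) : Claim q lam μ s V x O θ := by
  intro z₀ w₀
  have hq := D.hq
  have hlam := D.hlam
  have key : ∀ z : Matrix ν ν ℂ,
      kf (kc q (μ + (q - 2))) s V (z - hm (zt q μ) θ z) +
        lam * kf (kc q (μ + (q - 2))) x O (z - hm (zt q μ) θ z) +
        KK q (μ + (q - 2)) θ (hm (zt q μ) θ z) ≤ KK q μ θ z := by
    intro z
    have e1 : z - hm (zt q μ) θ z = hm (fun a b => 1 - zt q μ a b) θ z := by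
      ext i j
      simp only [Matrix.sub_apply, hm, Matrix.of_apply, Complex.ofReal_sub, Complex.ofReal_one]
      ring
    have h2 := tl D (μ + (q - 2)) (by linarith) (by linarith) (z - hm (zt q μ) θ z)
    have h3 : kt (kc q (μ + (q - 2))) θ (z - hm (zt q μ) θ z) +
        KK q (μ + (q - 2)) θ (hm (zt q μ) θ z) ≤ KK q μ θ z := by
      rw [e1]
      unfold KK
      rw [kt_hm, kt_hm, ← kt_add]
      refine kt_mono _ _ _ _ fun i j => le_of_eq ?_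
      exact step_opt q μ (θ i) (θ j) hq h0 h1 (D.hθ i) (D.hθ j)
    linarith
  have c1 := step_comp q μ hq h0 h1 s V z₀ w₀ (hm (zt q μ) θ z₀) (hm (zt q μ) θ w₀)
  have c2 := mul_le_mul_of_nonneg_left
    (step_comp q μ hq h0 h1 x O z₀ w₀ (hm (zt q μ) θ z₀) (hm (zt q μ) θ w₀)) hlam
  have s1 := stat₁ D z₀ w₀
  have s2 := stat₂ D z₀ w₀
  have s3 := stat₁ D (hm (zt q μ) θ z₀) w₀
  have s4 := stat₂ D z₀ (hm (zt q μ) θ w₀)
  have hz := key z₀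
  have hw := key w₀
  rw [kf_sub, kf_sub] at hz hw
  have hh := hc (hm (zt q μ) θ z₀) (hm (zt q μ) θ w₀)
  nlinarith [c1, c2, s1, s2, s3, s4, hz, hw, hh]

end Pool.Agent.LibSchQ
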