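import Pool.Agent.LibSchQ.BP1
import Pool.Agent.LibSchQ.C1

/-! **BP2.**  The base case. -/

open Matrix MeasureTheory Set
open scoped ComplexOrder

namespace Pool.Agent.LibSchQ

open Pool.Agent.LibSchP

variable {κ ν : Type} [Fintype κ] [Fintype ν] [DecidableEq κ] [DecidableEq ν]

/-- the minorant of one component at `ρ` -/
noncomputable def LL (q μ ρ : ℝ) (s : κ → ℝ) (V : Matrix κ ν ℂ) (θ : ν → ℝ)
    (z w : Matrix ν ν ℂ) : ℝ :=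
  ∑ i, ∑ j, (2 * (Ph (q - 1 - μ) (1 - μ) |s i| |s j| - |s j| ^ (q - 2)) *
      (star (Mm μ s V z w i j) *
        Mm μ s V (hm (kap q μ ρ) θ z) (hm (kap' q μ ρ) θ w) i j).re -
    (Ph (q - 1 - μ) (1 - μ) |s i| |s j| - |s j| ^ (q - 2)) ^ 2 * ‖Mm μ s V z w i j‖ ^ 2 *
      (|s j| ^ (q - 2) + ρ * |s i| ^ (q - 2))⁻¹)

/-- `∫ wt LL = ∑ (Φ^μ - b)|Mm_ij|²`: `Mm_int` with `c = Mm_ij` and `wt_int`;
terms with `s_i = 0` vanish. -/
theorem LL_int (q μ : ℝ) (hq : 2 < q) (h0 : 0 ≤ μ) (h1 : μ < 1) (h2 : 1 - μ < q - 2)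
    (s : κ → ℝ) (V : Matrix κ ν ℂ) (θ : ν → ℝ) (hθ : ∀ k, 0 < θ k) (z w : Matrix ν ν ℂ) :
    IntegrableOn (fun ρ : ℝ => wt ((1 - μ) / (q - 2)) ρ * LL q μ ρ s V θ z w) (Ioi 0) ∧
    ∫ ρ in Ioi (0 : ℝ), wt ((1 - μ) / (q - 2)) ρ * LL q μ ρ s V θ z w =
      ∑ i, ∑ j, (Ph (q - 1 - μ) (1 - μ) |s i| |s j| - |s j| ^ (q - 2)) *
        ‖Mm μ s V z w i j‖ ^ 2 := by
  have key : ∀ i j : κ,
      IntegrableOn (fun ρ : ℝ => wt ((1 - μ) / (q - 2)) ρ *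
        (2 * (Ph (q - 1 - μ) (1 - μ) |s i| |s j| - |s j| ^ (q - 2)) *
          (star (Mm μ s V z w i j) *
            Mm μ s V (hm (kap q μ ρ) θ z) (hm (kap' q μ ρ) θ w) i j).re -
        (Ph (q - 1 - μ) (1 - μ) |s i| |s j| - |s j| ^ (q - 2)) ^ 2 * ‖Mm μ s V z w i j‖ ^ 2 *
          (|s j| ^ (q - 2) + ρ * |s i| ^ (q - 2))⁻¹)) (Ioi 0) ∧
      ∫ ρ in Ioi (0 : ℝ), wt ((1 - μ) / (q - 2)) ρ *
        (2 * (Ph (q - 1 - μ) (1 - μ) |s i| |s j| - |s j| ^ (q - 2)) *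
          (star (Mm μ s V z w i j) *
            Mm μ s V (hm (kap q μ ρ) θ z) (hm (kap' q μ ρ) θ w) i j).re -
        (Ph (q - 1 - μ) (1 - μ) |s i| |s j| - |s j| ^ (q - 2)) ^ 2 * ‖Mm μ s V z w i j‖ ^ 2 *
          (|s j| ^ (q - 2) + ρ * |s i| ^ (q - 2))⁻¹) =
        (Ph (q - 1 - μ) (1 - μ) |s i| |s j| - |s j| ^ (q - 2)) * ‖Mm μ s V z w i j‖ ^ 2 := by
    intro i j
    obtain ⟨m1, m2⟩ := Mm_int q μ hq h0 h1 h2 s V θ hθ z w (Mm μ s V z w i j) i j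
    have hn : (star (Mm μ s V z w i j) * Mm μ s V z w i j).re = ‖Mm μ s V z w i j‖ ^ 2 := by
      rw [Complex.star_def, ← Complex.normSq_eq_conj_mul_self, Complex.ofReal_re,
        Complex.normSq_eq_norm_sq]
    rcases eq_or_lt_of_le (abs_nonneg (s i)) with h | h
    · have hz : Ph (q - 1 - μ) (1 - μ) |s i| |s j| - |s j| ^ (q - 2) = 0 := by
        rw [← h]
        exact Ph_sub_zero q μ |s j| hq h0 h1 (abs_nonneg _)
      constructor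
      · refine IntegrableOn.congr_fun (f := fun _ : ℝ => (0 : ℝ)) integrableOn_zero
          (fun ρ _ => ?_) measurableSet_Ioi
        simp only [hz]
        ring
      · rw [hz]
        simp
    · obtain ⟨w1, w2⟩ := wt_int q μ |s i| |s j| hq h0 h1 h2 h (abs_nonneg _)
      have hpos := Ph_sub_pos q μ |s i| |s j| hq h0 h1 h (abs_nonneg _)
      set P := Ph (q - 1 - μ) (1 - μ) |s i| |s j| - |s j| ^ (q - 2) with hP
      have e : ∀ ρ : ℝ, wt ((1 - μ) / (q - 2)) ρ *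
          (2 * P * (star (Mm μ s V z w i j) *
            Mm μ s V (hm (kap q μ ρ) θ z) (hm (kap' q μ ρ) θ w) i j).re -
          P ^ 2 * ‖Mm μ s V z w i j‖ ^ 2 * (|s j| ^ (q - 2) + ρ * |s i| ^ (q - 2))⁻¹) =
          2 * P * (wt ((1 - μ) / (q - 2)) ρ * (star (Mm μ s V z w i j) *
            Mm μ s V (hm (kap q μ ρ) θ z) (hm (kap' q μ ρ) θ w) i j).re) -
          P ^ 2 * ‖Mm μ s V z w i j‖ ^ 2 *
            (wt ((1 - μ) / (q - 2)) ρ * (|s j| ^ (q - 2) + ρ * |s i| ^ (q - 2))⁻¹) := by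
        intro ρ
        ring
      simp only [e]
      constructor
      · exact (m1.const_mul _).sub (w1.const_mul _)
      · rw [integral_sub (m1.const_mul _) (w1.const_mul _), integral_const_mul,
          integral_const_mul, m2, w2, hn]
        field_simp
        ring
  have hfun : (fun ρ : ℝ => wt ((1 - μ) / (q - 2)) ρ * LL q μ ρ s V θ z w) = fun ρ : ℝ =>
      ∑ i, ∑ j, wt ((1 - μ) / (q - 2)) ρ *
        (2 * (Ph (q - 1 - μ) (1 - μ) |s i| |s j| - |s j| ^ (q - 2)) *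
          (star (Mm μ s V z w i j) *
            Mm μ s V (hm (kap q μ ρ) θ z) (hm (kap' q μ ρ) θ w) i j).re -
        (Ph (q - 1 - μ) (1 - μ) |s i| |s j| - |s j| ^ (q - 2)) ^ 2 * ‖Mm μ s V z w i j‖ ^ 2 *
          (|s j| ^ (q - 2) + ρ * |s i| ^ (q - 2))⁻¹) := by
    funext ρ
    simp only [LL, Finset.mul_sum]
  rw [hfun]
  constructor
  · exact integrable_finsetSum _ fun i _ => integrable_finsetSum _ fun j _ => (key i j).1
  · rw [integral_finsetSum _ fun i _ => integrable_finsetSum _ fun j _ => (key i j).1]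
    refine Finset.sum_congr rfl fun i _ => ?_
    rw [integral_finsetSum _ fun j _ => (key i j).1]
    exact Finset.sum_congr rfl fun j _ => (key i j).2

/-- `low_pt` summed, and `form_lin` with `α = ρ`, `β = 1` -/
theorem LL_le (q μ ρ : ℝ) (hq : 2 < q) (h0 : 0 ≤ μ) (h1 : μ < 1) (hρ : 0 < ρ)
    (s : κ → ℝ) (V : Matrix κ ν ℂ) (θ : ν → ℝ) (z w : Matrix ν ν ℂ) :
    LL q μ ρ s V θ z w ≤
      ρ * (kf (kc q (μ + (q - 2))) s V (hm (kap q μ ρ) θ z) +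
        kf (kc q μ) s V (hm (kap' q μ ρ) θ w)) +
      (kf (kc q μ) s V (hm (kap q μ ρ) θ z) +
        kf (kc q (μ + (q - 2))) s V (hm (kap' q μ ρ) θ w)) +
      2 * (ρ * kx (sp (q - 1)) id s V (hm (kap q μ ρ) θ z) (hm (kap' q μ ρ) θ w) +
        kx id (sp (q - 1)) s V (hm (kap q μ ρ) θ z) (hm (kap' q μ ρ) θ w)) := by
  have hl := form_lin q μ ρ 1 hq h0 h1 s V (hm (kap q μ ρ) θ z) (hm (kap' q μ ρ) θ w)
  have hp : LL q μ ρ s V θ z w ≤ ∑ i, ∑ j, (ρ * |s i| ^ (q - 2) + 1 * |s j| ^ (q - 2)) *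
      ‖Mm μ s V (hm (kap q μ ρ) θ z) (hm (kap' q μ ρ) θ w) i j‖ ^ 2 := by
    unfold LL
    refine Finset.sum_le_sum fun i _ => Finset.sum_le_sum fun j _ => ?_
    have := low_pt q μ ρ |s i| |s j| hq h0 h1 hρ (abs_nonneg _) (abs_nonneg _)
      (Mm μ s V z w i j) (Mm μ s V (hm (kap q μ ρ) θ z) (hm (kap' q μ ρ) θ w) i j)
    have e : (ρ * |s i| ^ (q - 2) + 1 * |s j| ^ (q - 2)) =
        |s j| ^ (q - 2) + ρ * |s i| ^ (q - 2) := by ring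
    rw [e]
    exact this
  rw [hl] at hp
  linarith

/-- the `w` part: `ρ kf(w_ρ) = ρ kf(w_ρ - ρ⁻¹ w) + 2 kb(w, w_ρ) - ρ⁻¹ kf(w)` -/
theorem rho_square (k : ℝ → ℝ → ℝ) (s : κ → ℝ) (V : Matrix κ ν ℂ) (ρ : ℝ) (hρ : 0 < ρ)
    (w wρ : Matrix ν ν ℂ) :
    ρ * kf k s V wρ = ρ * kf k s V (wρ - ((ρ⁻¹ : ℝ) : ℂ) • w) + 2 * kb k s V w wρ -
      ρ⁻¹ * kf k s V w := by
  rw [kf_sub, kb_smul_left, kf_smul_arg]
  have hne : ρ ≠ 0 := hρ.ne'
  field_simp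
  ring

/-- Both components, `ρ` fixed: `LL_le`, `stat₁`, `stat₂`, `rho_square` (kernel `kc q μ`), `tl`.
`w_ρ - ρ⁻¹ w = hm (kap' ρ - ρ⁻¹) θ w`. -/
theorem base_rho {q lam : ℝ} {s : κ → ℝ} {V : Matrix κ ν ℂ} {x : ν → ℝ} {O : Matrix ν ν ℂ}
    {θ : ν → ℝ} (D : Dat q lam s V x O θ) (μ ρ : ℝ) (h0 : 0 ≤ μ) (h1 : μ < 1)
    (h2 : 1 - μ < q - 2) (hρ : 0 < ρ) (z w : Matrix ν ν ℂ) :
    LL q μ ρ s V θ z w + lam * LL q μ ρ x O θ z w ≤
      kt (fun x y => (kc q μ x y + ρ * kc q (μ + (q - 2)) x y) * kap q μ ρ x y ^ 2) θ z +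
      kt (fun x y => kc q (μ + (q - 2)) x y * kap' q μ ρ x y ^ 2 +
        ρ * kc q μ x y * (kap' q μ ρ x y - ρ⁻¹) ^ 2) θ w +
      2 * (kb (kc q μ) s V w (hm (kap' q μ ρ) θ w) +
        lam * kb (kc q μ) x O w (hm (kap' q μ ρ) θ w)) -
      ρ⁻¹ * (kf (kc q μ) s V w + lam * kf (kc q μ) x O w) := by
  have hq := D.hq
  have hlam := D.hlam
  have l1 := LL_le q μ ρ hq h0 h1 hρ s V θ z w
  have l2 := mul_le_mul_of_nonneg_left (LL_le q μ ρ hq h0 h1 hρ x O θ z w) hlam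
  have s1 := congrArg (fun t => ρ * t) (stat₁ D (hm (kap q μ ρ) θ z) (hm (kap' q μ ρ) θ w))
  have s2 := stat₂ D (hm (kap q μ ρ) θ z) (hm (kap' q μ ρ) θ w)
  simp only [mul_zero] at s1
  have r1 := rho_square (kc q μ) s V ρ hρ w (hm (kap' q μ ρ) θ w)
  have r2 := congrArg (fun t => lam * t) (rho_square (kc q μ) x O ρ hρ w (hm (kap' q μ ρ) θ w))
  beta_reduce at r2
  -- the `z` part
  have tz1 := tl D μ h0 (by linarith) (hm (kap q μ ρ) θ z)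
  have tz2 := mul_le_mul_of_nonneg_left
    (tl D (μ + (q - 2)) (by linarith) (by linarith) (hm (kap q μ ρ) θ z)) hρ.le
  have ez : kt (kc q μ) θ (hm (kap q μ ρ) θ z) +
      ρ * kt (kc q (μ + (q - 2))) θ (hm (kap q μ ρ) θ z) =
      kt (fun x y => (kc q μ x y + ρ * kc q (μ + (q - 2)) x y) * kap q μ ρ x y ^ 2) θ z := by
    rw [← kt_smul, ← kt_add, kt_hm]
  -- the `w` part
  have tw1 := tl D (μ + (q - 2)) (by linarith) (by linarith) (hm (kap' q μ ρ) θ w)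
  have ew : hm (kap' q μ ρ) θ w - ((ρ⁻¹ : ℝ) : ℂ) • w =
      hm (fun x y => kap' q μ ρ x y - ρ⁻¹) θ w := by
    ext i j
    simp only [Matrix.sub_apply, hm, Matrix.of_apply, Matrix.smul_apply, smul_eq_mul,
      Complex.ofReal_sub]
    ring
  have tw2 := mul_le_mul_of_nonneg_left
    (tl D μ h0 (by linarith) (hm (kap' q μ ρ) θ w - ((ρ⁻¹ : ℝ) : ℂ) • w)) hρ.le
  have ew2 : kt (kc q (μ + (q - 2))) θ (hm (kap' q μ ρ) θ w) +
      ρ * kt (kc q μ) θ (hm (kap' q μ ρ) θ w - ((ρ⁻¹ : ℝ) : ℂ) • w) =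
      kt (fun x y => kc q (μ + (q - 2)) x y * kap' q μ ρ x y ^ 2 +
        ρ * kc q μ x y * (kap' q μ ρ x y - ρ⁻¹) ^ 2) θ w := by
    rw [ew, kt_hm, kt_hm, ← kt_smul, ← kt_add]
    refine congrArg (fun k => kt k θ w) ?_
    funext a b
    ring
  rw [← ez, ← ew2]
  nlinarith [l1, l2, s1, s2, r1, r2, tz1, tz2, tw1, tw2]

end Pool.Agent.LibSchQ
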