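import Pool.Agent.LibSchQ.BP2

/-! **BP3.**  The base case, conclusion. -/

open Matrix MeasureTheory Set
open scoped ComplexOrder

namespace Pool.Agent.LibSchQ

open Pool.Agent.LibSchP

variable {κ ν : Type} [Fintype κ] [Fintype ν] [DecidableEq κ] [DecidableEq ν]

theorem bp3_kc (q μ x y : ℝ) (hx : 0 < x) (hy : 0 < y) :
    kc q μ x y = x ^ μ * y ^ (2 - μ) * y ^ (q - 2) := by
  unfold kc
  rw [abs_of_pos hx, abs_of_pos hy, mul_assoc, ← Real.rpow_add hy]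
  ring_nf

theorem bp3_kc' (q μ x y : ℝ) (hx : 0 < x) (hy : 0 < y) :
    kc q (μ + (q - 2)) x y = x ^ μ * y ^ (2 - μ) * x ^ (q - 2) := by
  unfold kc
  rw [abs_of_pos hx, abs_of_pos hy, Real.rpow_add hx]
  have h : q - (μ + (q - 2)) = 2 - μ := by ring
  rw [h]
  ring

/-- `z` part at a diagonal point, `F = x^μ y^(2-μ)`, `a = x^δ`, `b = y^δ`:
`F (b + ρ a) (Φ-b)²/(b+ρa)² = F (Φ-b)²/(b+ρa)`, integral `F(Φ-b)`. -/
theorem zpart_int (q μ x y : ℝ) (hq : 2 < q) (h0 : 0 ≤ μ) (h1 : μ < 1) (h2 : 1 - μ < q - 2)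
    (hx : 0 < x) (hy : 0 < y) :
    IntegrableOn (fun ρ : ℝ => wt ((1 - μ) / (q - 2)) ρ *
      ((kc q μ x y + ρ * kc q (μ + (q - 2)) x y) * kap q μ ρ x y ^ 2)) (Ioi 0) ∧
    ∫ ρ in Ioi (0 : ℝ), wt ((1 - μ) / (q - 2)) ρ *
      ((kc q μ x y + ρ * kc q (μ + (q - 2)) x y) * kap q μ ρ x y ^ 2) =
      x ^ μ * y ^ (2 - μ) * (Ph (q - 1 - μ) (1 - μ) x y - y ^ (q - 2)) := by
  obtain ⟨hi, hv⟩ := kap_int q μ x y hq h0 h1 h2 hx hy
  have ha : 0 < x ^ (q - 2) := Real.rpow_pos_of_pos hx _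
  have hb : 0 < y ^ (q - 2) := Real.rpow_pos_of_pos hy _
  have he : EqOn (fun ρ : ℝ => (x ^ μ * y ^ (2 - μ) *
        (Ph (q - 1 - μ) (1 - μ) x y - y ^ (q - 2))) *
        (wt ((1 - μ) / (q - 2)) ρ * kap q μ ρ x y))
      (fun ρ : ℝ => wt ((1 - μ) / (q - 2)) ρ *
        ((kc q μ x y + ρ * kc q (μ + (q - 2)) x y) * kap q μ ρ x y ^ 2)) (Ioi 0) := by
    intro ρ hρ
    have hρ0 : (0 : ℝ) < ρ := hρ
    have hd : y ^ (q - 2) + ρ * x ^ (q - 2) ≠ 0 := by positivity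
    simp only [bp3_kc q μ x y hx hy, bp3_kc' q μ x y hx hy, kap]
    field_simp
  have hI1 : IntegrableOn (fun ρ : ℝ => (x ^ μ * y ^ (2 - μ) *
        (Ph (q - 1 - μ) (1 - μ) x y - y ^ (q - 2))) *
        (wt ((1 - μ) / (q - 2)) ρ * kap q μ ρ x y)) (Ioi 0) := hi.const_mul _
  refine ⟨?_, ?_⟩
  · exact hI1.congr_fun he measurableSet_Ioi
  · rw [← setIntegral_congr_fun measurableSet_Ioi he, integral_const_mul, hv, mul_one]

/-- `w` part: `F(a κ'² + ρ b (κ' - ρ⁻¹)²) = F((a + ρ b) κ'² - 2 b κ' + b ρ⁻¹)`, integral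
`F((Φ-a) - 2b + b) = F(Φ - a - b)`. -/
theorem wpart_int (q μ x y : ℝ) (hq : 2 < q) (h0 : 0 ≤ μ) (h1 : μ < 1) (h2 : 1 - μ < q - 2)
    (hx : 0 < x) (hy : 0 < y) :
    IntegrableOn (fun ρ : ℝ => wt ((1 - μ) / (q - 2)) ρ *
      (kc q (μ + (q - 2)) x y * kap' q μ ρ x y ^ 2 +
        ρ * kc q μ x y * (kap' q μ ρ x y - ρ⁻¹) ^ 2)) (Ioi 0) ∧
    ∫ ρ in Ioi (0 : ℝ), wt ((1 - μ) / (q - 2)) ρ *
      (kc q (μ + (q - 2)) x y * kap' q μ ρ x y ^ 2 +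
        ρ * kc q μ x y * (kap' q μ ρ x y - ρ⁻¹) ^ 2) =
      x ^ μ * y ^ (2 - μ) * (Ph (q - 1 - μ) (1 - μ) x y - x ^ (q - 2) - y ^ (q - 2)) := by
  obtain ⟨hi, hv⟩ := kap'_int q μ x y hq h0 h1 h2 hx hy
  have hη0 : 0 < (1 - μ) / (q - 2) := div_pos (by linarith) (by linarith)
  have hη1 : (1 - μ) / (q - 2) < 1 := by rw [div_lt_one (by linarith)]; exact h2
  obtain ⟨hi2, hv2⟩ := wt_int_inv _ hη0 hη1
  have ha : 0 < x ^ (q - 2) := Real.rpow_pos_of_pos hx _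
  have hb : 0 < y ^ (q - 2) := Real.rpow_pos_of_pos hy _
  have he : EqOn (fun ρ : ℝ => (x ^ μ * y ^ (2 - μ) *
        (Ph (q - 1 - μ) (1 - μ) x y - x ^ (q - 2) - 2 * y ^ (q - 2))) *
        (wt ((1 - μ) / (q - 2)) ρ * kap' q μ ρ x y) +
        (x ^ μ * y ^ (2 - μ) * y ^ (q - 2)) * (wt ((1 - μ) / (q - 2)) ρ * ρ⁻¹))
      (fun ρ : ℝ => wt ((1 - μ) / (q - 2)) ρ *
      (kc q (μ + (q - 2)) x y * kap' q μ ρ x y ^ 2 +
        ρ * kc q μ x y * (kap' q μ ρ x y - ρ⁻¹) ^ 2)) (Ioi 0) := by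
    intro ρ hρ
    have hρ0 : (0 : ℝ) < ρ := hρ
    have hd : x ^ (q - 2) + ρ * y ^ (q - 2) ≠ 0 := by positivity
    have hk : (x ^ (q - 2) + ρ * y ^ (q - 2)) * kap' q μ ρ x y =
        Ph (q - 1 - μ) (1 - μ) x y - x ^ (q - 2) := by
      unfold kap'
      field_simp
    have hρi : ρ * ρ⁻¹ = 1 := mul_inv_cancel₀ hρ0.ne'
    simp only [bp3_kc q μ x y hx hy, bp3_kc' q μ x y hx hy]
    linear_combination (-(x ^ μ * y ^ (2 - μ)) * wt ((1 - μ) / (q - 2)) ρ * kap' q μ ρ x y) * hk +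
      (x ^ μ * y ^ (2 - μ) * y ^ (q - 2) * wt ((1 - μ) / (q - 2)) ρ *
        (2 * kap' q μ ρ x y - ρ⁻¹)) * hρi
  have hI1 : IntegrableOn (fun ρ : ℝ => (x ^ μ * y ^ (2 - μ) *
        (Ph (q - 1 - μ) (1 - μ) x y - x ^ (q - 2) - 2 * y ^ (q - 2))) *
        (wt ((1 - μ) / (q - 2)) ρ * kap' q μ ρ x y)) (Ioi 0) := hi.const_mul _
  have hI2 : IntegrableOn (fun ρ : ℝ => (x ^ μ * y ^ (2 - μ) * y ^ (q - 2)) *
      (wt ((1 - μ) / (q - 2)) ρ * ρ⁻¹)) (Ioi 0) := hi2.const_mul _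
  refine ⟨?_, ?_⟩
  · exact IntegrableOn.congr_fun (hI1.add hI2) he measurableSet_Ioi
  · rw [← setIntegral_congr_fun measurableSet_Ioi he, integral_add hI1 hI2, integral_const_mul,
      integral_const_mul, hv, hv2]
    ring

omit [DecidableEq ν] in
theorem bp3_kt_int (q μ : ℝ) (k : ℝ → ℝ → ℝ → ℝ) (g : ℝ → ℝ → ℝ) (θ : ν → ℝ)
    (hθ : ∀ i, 0 < θ i)
    (hk : ∀ x y : ℝ, 0 < x → 0 < y →
      IntegrableOn (fun ρ : ℝ => wt ((1 - μ) / (q - 2)) ρ * k ρ x y) (Ioi 0) ∧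
      ∫ ρ in Ioi (0 : ℝ), wt ((1 - μ) / (q - 2)) ρ * k ρ x y = g x y) (z : Matrix ν ν ℂ) :
    IntegrableOn (fun ρ : ℝ => wt ((1 - μ) / (q - 2)) ρ * kt (k ρ) θ z) (Ioi 0) ∧
    ∫ ρ in Ioi (0 : ℝ), wt ((1 - μ) / (q - 2)) ρ * kt (k ρ) θ z = kt g θ z := by
  have he : (fun ρ : ℝ => wt ((1 - μ) / (q - 2)) ρ * kt (k ρ) θ z) =
      fun ρ : ℝ => ∑ i, ∑ j, (wt ((1 - μ) / (q - 2)) ρ * k ρ (θ i) (θ j)) * ‖z i j‖ ^ 2 := by
    funext ρ
    unfold kt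
    rw [Finset.mul_sum]
    refine Finset.sum_congr rfl fun i _ => ?_
    rw [Finset.mul_sum]
    refine Finset.sum_congr rfl fun j _ => ?_
    ring
  have hI : ∀ i j, IntegrableOn (fun ρ : ℝ => (wt ((1 - μ) / (q - 2)) ρ * k ρ (θ i) (θ j)) *
      ‖z i j‖ ^ 2) (Ioi 0) := fun i j => (hk _ _ (hθ i) (hθ j)).1.mul_const _
  rw [he]
  refine ⟨?_, ?_⟩
  · exact integrable_finsetSum _ fun i _ => integrable_finsetSum _ fun j _ => hI i j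
  · rw [integral_finsetSum _ fun i _ => integrable_finsetSum _ fun j _ => hI i j]
    unfold kt
    refine Finset.sum_congr rfl fun i _ => ?_
    rw [integral_finsetSum _ fun j _ => hI i j]
    refine Finset.sum_congr rfl fun j _ => ?_
    rw [integral_mul_const, (hk _ _ (hθ i) (hθ j)).2]

/-- the second sum of the two components -/
theorem bp3_second {q lam : ℝ} {s : κ → ℝ} {V : Matrix κ ν ℂ} {x : ν → ℝ}
    {O : Matrix ν ν ℂ} {θ : ν → ℝ} (D : Dat q lam s V x O θ) (μ : ℝ) (h0 : 0 ≤ μ) (h1 : μ < 1)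
    (h2 : 1 - μ < q - 2) (z w : Matrix ν ν ℂ) :
    (∑ i, ∑ j, (Ph (q - 1 - μ) (1 - μ) |s i| |s j| - |s j| ^ (q - 2)) *
        ‖Mm μ s V z w i j‖ ^ 2) +
      lam * (∑ i, ∑ j, (Ph (q - 1 - μ) (1 - μ) |x i| |x j| - |x j| ^ (q - 2)) *
        ‖Mm μ x O z w i j‖ ^ 2) ≤
      kt (fun x y => x ^ μ * y ^ (2 - μ) * (Ph (q - 1 - μ) (1 - μ) x y - y ^ (q - 2))) θ z +
      kt (fun x y => x ^ μ * y ^ (2 - μ) *
        (Ph (q - 1 - μ) (1 - μ) x y - x ^ (q - 2) - y ^ (q - 2))) θ w +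
      (kf (kc q μ) s V w + lam * kf (kc q μ) x O w) := by
  have hq := D.hq
  have hθ := D.hθ
  have hη0 : 0 < (1 - μ) / (q - 2) := div_pos (by linarith) (by linarith)
  have hη1 : (1 - μ) / (q - 2) < 1 := by rw [div_lt_one (by linarith)]; exact h2
  obtain ⟨iL1, vL1⟩ := LL_int q μ hq h0 h1 h2 s V θ hθ z w
  obtain ⟨iL2, vL2⟩ := LL_int q μ hq h0 h1 h2 x O θ hθ z w
  obtain ⟨iZ, vZ⟩ := bp3_kt_int q μ
    (fun ρ x y => (kc q μ x y + ρ * kc q (μ + (q - 2)) x y) * kap q μ ρ x y ^ 2)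
    (fun x y => x ^ μ * y ^ (2 - μ) * (Ph (q - 1 - μ) (1 - μ) x y - y ^ (q - 2))) θ hθ
    (fun x y hx hy => zpart_int q μ x y hq h0 h1 h2 hx hy) z
  obtain ⟨iW, vW⟩ := bp3_kt_int q μ
    (fun ρ x y => kc q (μ + (q - 2)) x y * kap' q μ ρ x y ^ 2 +
        ρ * kc q μ x y * (kap' q μ ρ x y - ρ⁻¹) ^ 2)
    (fun x y => x ^ μ * y ^ (2 - μ) * (Ph (q - 1 - μ) (1 - μ) x y - x ^ (q - 2) - y ^ (q - 2)))
    θ hθ (fun x y hx hy => wpart_int q μ x y hq h0 h1 h2 hx hy) w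
  obtain ⟨iB1, vB1⟩ := kb_int q μ hq h0 h1 h2 (kc q μ) s V θ hθ w
  obtain ⟨iB2, vB2⟩ := kb_int q μ hq h0 h1 h2 (kc q μ) x O θ hθ w
  obtain ⟨iV, vV⟩ := wt_int_inv _ hη0 hη1
  -- the left side
  have iL : IntegrableOn (fun ρ : ℝ => wt ((1 - μ) / (q - 2)) ρ * LL q μ ρ s V θ z w +
      lam * (wt ((1 - μ) / (q - 2)) ρ * LL q μ ρ x O θ z w)) (Ioi 0) :=
    iL1.add (iL2.const_mul lam)
  have vL : ∫ ρ in Ioi (0 : ℝ), (wt ((1 - μ) / (q - 2)) ρ * LL q μ ρ s V θ z w +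
      lam * (wt ((1 - μ) / (q - 2)) ρ * LL q μ ρ x O θ z w)) =
      (∑ i, ∑ j, (Ph (q - 1 - μ) (1 - μ) |s i| |s j| - |s j| ^ (q - 2)) *
        ‖Mm μ s V z w i j‖ ^ 2) +
      lam * (∑ i, ∑ j, (Ph (q - 1 - μ) (1 - μ) |x i| |x j| - |x j| ^ (q - 2)) *
        ‖Mm μ x O z w i j‖ ^ 2) := by
    rw [integral_add iL1 (iL2.const_mul lam), integral_const_mul, vL1, vL2]
  -- the right side
  have iR1 : IntegrableOn (fun ρ : ℝ =>
      wt ((1 - μ) / (q - 2)) ρ *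
        kt (fun x y => (kc q μ x y + ρ * kc q (μ + (q - 2)) x y) * kap q μ ρ x y ^ 2) θ z +
      wt ((1 - μ) / (q - 2)) ρ *
        kt (fun x y => kc q (μ + (q - 2)) x y * kap' q μ ρ x y ^ 2 +
          ρ * kc q μ x y * (kap' q μ ρ x y - ρ⁻¹) ^ 2) θ w) (Ioi 0) := iZ.add iW
  have iR2 : IntegrableOn (fun ρ : ℝ =>
      2 * (wt ((1 - μ) / (q - 2)) ρ * kb (kc q μ) s V w (hm (kap' q μ ρ) θ w)) +
      2 * lam * (wt ((1 - μ) / (q - 2)) ρ * kb (kc q μ) x O w (hm (kap' q μ ρ) θ w)))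
      (Ioi 0) := (iB1.const_mul 2).add (iB2.const_mul (2 * lam))
  have iR3 : IntegrableOn (fun ρ : ℝ =>
      (kf (kc q μ) s V w + lam * kf (kc q μ) x O w) * (wt ((1 - μ) / (q - 2)) ρ * ρ⁻¹))
      (Ioi 0) := iV.const_mul _
  have iR12 : IntegrableOn (fun ρ : ℝ =>
      (wt ((1 - μ) / (q - 2)) ρ *
        kt (fun x y => (kc q μ x y + ρ * kc q (μ + (q - 2)) x y) * kap q μ ρ x y ^ 2) θ z +
      wt ((1 - μ) / (q - 2)) ρ *
        kt (fun x y => kc q (μ + (q - 2)) x y * kap' q μ ρ x y ^ 2 +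
          ρ * kc q μ x y * (kap' q μ ρ x y - ρ⁻¹) ^ 2) θ w) +
      (2 * (wt ((1 - μ) / (q - 2)) ρ * kb (kc q μ) s V w (hm (kap' q μ ρ) θ w)) +
      2 * lam * (wt ((1 - μ) / (q - 2)) ρ * kb (kc q μ) x O w (hm (kap' q μ ρ) θ w))))
      (Ioi 0) := iR1.add iR2
  have iR : IntegrableOn (fun ρ : ℝ =>
      (wt ((1 - μ) / (q - 2)) ρ *
        kt (fun x y => (kc q μ x y + ρ * kc q (μ + (q - 2)) x y) * kap q μ ρ x y ^ 2) θ z +
      wt ((1 - μ) / (q - 2)) ρ *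
        kt (fun x y => kc q (μ + (q - 2)) x y * kap' q μ ρ x y ^ 2 +
          ρ * kc q μ x y * (kap' q μ ρ x y - ρ⁻¹) ^ 2) θ w) +
      (2 * (wt ((1 - μ) / (q - 2)) ρ * kb (kc q μ) s V w (hm (kap' q μ ρ) θ w)) +
      2 * lam * (wt ((1 - μ) / (q - 2)) ρ * kb (kc q μ) x O w (hm (kap' q μ ρ) θ w))) -
      (kf (kc q μ) s V w + lam * kf (kc q μ) x O w) * (wt ((1 - μ) / (q - 2)) ρ * ρ⁻¹))
      (Ioi 0) := iR12.sub iR3
  have vR : ∫ ρ in Ioi (0 : ℝ),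
      ((wt ((1 - μ) / (q - 2)) ρ *
        kt (fun x y => (kc q μ x y + ρ * kc q (μ + (q - 2)) x y) * kap q μ ρ x y ^ 2) θ z +
      wt ((1 - μ) / (q - 2)) ρ *
        kt (fun x y => kc q (μ + (q - 2)) x y * kap' q μ ρ x y ^ 2 +
          ρ * kc q μ x y * (kap' q μ ρ x y - ρ⁻¹) ^ 2) θ w) +
      (2 * (wt ((1 - μ) / (q - 2)) ρ * kb (kc q μ) s V w (hm (kap' q μ ρ) θ w)) +
      2 * lam * (wt ((1 - μ) / (q - 2)) ρ * kb (kc q μ) x O w (hm (kap' q μ ρ) θ w))) -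
      (kf (kc q μ) s V w + lam * kf (kc q μ) x O w) * (wt ((1 - μ) / (q - 2)) ρ * ρ⁻¹)) =
      (kt (fun x y => x ^ μ * y ^ (2 - μ) * (Ph (q - 1 - μ) (1 - μ) x y - y ^ (q - 2))) θ z +
      kt (fun x y => x ^ μ * y ^ (2 - μ) *
        (Ph (q - 1 - μ) (1 - μ) x y - x ^ (q - 2) - y ^ (q - 2))) θ w) +
      (2 * kf (kc q μ) s V w + 2 * lam * kf (kc q μ) x O w) -
      (kf (kc q μ) s V w + lam * kf (kc q μ) x O w) * 1 := by
    rw [integral_sub iR12 iR3, integral_add iR1 iR2, integral_add iZ iW,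
      integral_add (iB1.const_mul 2) (iB2.const_mul (2 * lam)), integral_const_mul,
      integral_const_mul, integral_const_mul, vZ, vW, vB1, vB2, vV]
  have hle := setIntegral_mono_on iL iR measurableSet_Ioi (by
    intro ρ hρ
    have hρ0 : (0 : ℝ) < ρ := hρ
    have hw := wt_nonneg _ ρ hη0 hη1 hρ0
    have hb := mul_le_mul_of_nonneg_left (base_rho D μ ρ h0 h1 h2 hρ0 z w) hw
    nlinarith [hb])
  rw [vL, vR] at hle
  linarith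

/-- `PF = ∑ b|Mm|² + ∑ (Φ - b)|Mm|²`; the first sum is `form_lin` with `α = 0`, `β = 1`;
`kf (kc q (μ+δ)) w` of it is bounded by `tl`; the second sum: `LL_int`, `base_rho` integrated,
`kb_int`, `wt_int_inv`, `zpart_int`, `wpart_int`. -/
theorem claim_base_lt {q lam : ℝ} {s : κ → ℝ} {V : Matrix κ ν ℂ} {x : ν → ℝ}
    {O : Matrix ν ν ℂ} {θ : ν → ℝ} (D : Dat q lam s V x O θ) (μ : ℝ) (h0 : 0 ≤ μ) (h1 : μ < 1)
    (h2 : 1 - μ < q - 2) : Claim q lam μ s V x O θ := by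
  intro z w
  have hq := D.hq
  have hsplit : ∀ {ι : Type} [Fintype ι] (t : ι → ℝ) (U : Matrix ι ν ℂ),
      PF q μ t U z w = (∑ i, ∑ j, (0 * |t i| ^ (q - 2) + 1 * |t j| ^ (q - 2)) *
        ‖Mm μ t U z w i j‖ ^ 2) +
      ∑ i, ∑ j, (Ph (q - 1 - μ) (1 - μ) |t i| |t j| - |t j| ^ (q - 2)) *
        ‖Mm μ t U z w i j‖ ^ 2 := by
    intro ι _ t U
    unfold PF
    rw [← Finset.sum_add_distrib]
    refine Finset.sum_congr rfl fun i _ => ?_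
    rw [← Finset.sum_add_distrib]
    refine Finset.sum_congr rfl fun j _ => ?_
    ring
  rw [hsplit s V, hsplit x O, form_lin q μ 0 1 hq h0 h1 s V z w, form_lin q μ 0 1 hq h0 h1 x O z w]
  have hs := bp3_second D μ h0 h1 h2 z w
  have ht := tl D (μ + (q - 2)) (by linarith) (by linarith) w
  have hst := stat₂ D z w
  have hkt : kt (fun x y => x ^ μ * y ^ (2 - μ) *
        (Ph (q - 1 - μ) (1 - μ) x y - x ^ (q - 2) - y ^ (q - 2))) θ w +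
      kt (kc q (μ + (q - 2))) θ w = KK q μ θ w := by
    unfold KK kt
    rw [← Finset.sum_add_distrib]
    refine Finset.sum_congr rfl fun i _ => ?_
    rw [← Finset.sum_add_distrib]
    refine Finset.sum_congr rfl fun j _ => ?_
    rw [bp3_kc' q μ _ _ (D.hθ i) (D.hθ j)]
    ring
  have hKK : KK q μ θ z = kt (fun x y => x ^ μ * y ^ (2 - μ) *
    (Ph (q - 1 - μ) (1 - μ) x y - y ^ (q - 2))) θ z := rfl
  rw [hKK]
  linarith

/-- `1 - μ = q - 2`: `Ph_eta_one`, `form_lin`, `stat₁`, `stat₂`, `tl`. -/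
theorem claim_base_eq {q lam : ℝ} {s : κ → ℝ} {V : Matrix κ ν ℂ} {x : ν → ℝ}
    {O : Matrix ν ν ℂ} {θ : ν → ℝ} (D : Dat q lam s V x O θ) (μ : ℝ) (h0 : 0 ≤ μ) (h1 : μ < 1)
    (h2 : 1 - μ = q - 2) : Claim q lam μ s V x O θ := by
  intro z w
  have hq := D.hq
  have hμ : μ = 1 - (q - 2) := by linarith
  have hPh : ∀ a b : ℝ, 0 ≤ a → 0 ≤ b →
      Ph (q - 1 - μ) (1 - μ) a b = a ^ (q - 2) + b ^ (q - 2) := by
    intro a b ha hb
    rw [hμ]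
    exact Ph_eta_one q a b hq ha hb
  have hsplit : ∀ {ι : Type} [Fintype ι] (t : ι → ℝ) (U : Matrix ι ν ℂ),
      PF q μ t U z w = ∑ i, ∑ j, (1 * |t i| ^ (q - 2) + 1 * |t j| ^ (q - 2)) *
        ‖Mm μ t U z w i j‖ ^ 2 := by
    intro ι _ t U
    unfold PF
    refine Finset.sum_congr rfl fun i _ => ?_
    refine Finset.sum_congr rfl fun j _ => ?_
    rw [hPh _ _ (abs_nonneg _) (abs_nonneg _)]
    ring
  rw [hsplit s V, hsplit x O, form_lin q μ 1 1 hq h0 h1 s V z w, form_lin q μ 1 1 hq h0 h1 x O z w]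
  have ht := tl D (μ + (q - 2)) (by linarith) (by linarith) w
  have ht' := tl D (μ + (q - 2)) (by linarith) (by linarith) z
  have hst := stat₂ D z w
  have hst' := stat₁ D z w
  have hkt : ∀ u : Matrix ν ν ℂ, kt (kc q (μ + (q - 2))) θ u = KK q μ θ u := by
    intro u
    unfold KK kt
    refine Finset.sum_congr rfl fun i _ => ?_
    refine Finset.sum_congr rfl fun j _ => ?_
    have e := hPh _ _ (D.hθ i).le (D.hθ j).le
    rw [bp3_kc' q μ _ _ (D.hθ i) (D.hθ j)]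
    simp only [e]
    ring
  rw [hkt] at ht ht'
  linarith

end Pool.Agent.LibSchQ
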