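import Pool.Agent.LibSchP.Defs

/-! Definitions for the negative sector of the Schatten norm compression inequality, `N = 2`
(`MP_9d9785_an`). -/

open Matrix
open scoped ComplexOrder

namespace Pool.Agent.LibSchQ

open Pool.Agent.LibSchP

/-- signed power `sgn(x) |x|^a` -/
noncomputable def sp (a x : ℝ) : ℝ := if 0 ≤ x then x ^ a else -((-x) ^ a)

/-- `(x^c - y^c)/(x^d - y^d)` for `x, y ≥ 0` -/
noncomputable def Ph (c d x y : ℝ) : ℝ :=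
  if x = y then c / d * x ^ (c - d) else (x ^ c - y ^ c) / (x ^ d - y ^ d)

/-- divided difference of `x ↦ sgn(x) |x|^(q-1)` -/
noncomputable def dps (q x y : ℝ) : ℝ :=
  if x = y then (q - 1) * |x| ^ (q - 2) else (sp (q - 1) x - sp (q - 1) y) / (x - y)

/-- the kernel `|x|^α |y|^(q-α)` -/
noncomputable def kc (q α x y : ℝ) : ℝ := |x| ^ α * |y| ^ (q - α)

/-- the weight in the integral representation of the base case -/
noncomputable def wt (η ρ : ℝ) : ℝ := ρ ^ η / (1 + ρ) / cst η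

section forms

variable {κ ν : Type} [Fintype κ] [Fintype ν]

/-- kernel form `∑ k(s_i, s_j) |(V z Vᴴ)_ij|²` -/
noncomputable def kf (k : ℝ → ℝ → ℝ) (s : κ → ℝ) (V : Matrix κ ν ℂ) (z : Matrix ν ν ℂ) : ℝ :=
  ∑ i, ∑ j, k (s i) (s j) * ‖(V * z * Vᴴ) i j‖ ^ 2

/-- polarised kernel form -/
noncomputable def kb (k : ℝ → ℝ → ℝ) (s : κ → ℝ) (V : Matrix κ ν ℂ) (z w : Matrix ν ν ℂ) : ℝ :=
  ∑ i, ∑ j, k (s i) (s j) * (star ((V * z * Vᴴ) i j) * (V * w * Vᴴ) i j).re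

/-- cross form `Re ∑ g(s_i) h(s_j) conj (V z Vᴴ)_ij (V wᴴ Vᴴ)_ij` -/
noncomputable def kx (g h : ℝ → ℝ) (s : κ → ℝ) (V : Matrix κ ν ℂ) (z w : Matrix ν ν ℂ) : ℝ :=
  ∑ i, ∑ j, g (s i) * h (s j) * (star ((V * z * Vᴴ) i j) * (V * wᴴ * Vᴴ) i j).re

/-- kernel form at the diagonal point `θ` -/
noncomputable def kt (k : ℝ → ℝ → ℝ) (θ : ν → ℝ) (z : Matrix ν ν ℂ) : ℝ :=
  ∑ i, ∑ j, k (θ i) (θ j) * ‖z i j‖ ^ 2

/-- `|s|^(μ/2) V z Vᴴ sgn(s)|s|^(1-μ/2) + sgn(s)|s|^(1-μ/2) V wᴴ Vᴴ |s|^(μ/2)` -/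
noncomputable def Mm (μ : ℝ) (s : κ → ℝ) (V : Matrix κ ν ℂ) (z w : Matrix ν ν ℂ) :
    Matrix κ κ ℂ :=
  Matrix.of fun i j =>
    ((|s i| ^ (μ / 2) * sp (1 - μ / 2) (s j) : ℝ) : ℂ) * (V * z * Vᴴ) i j +
    ((sp (1 - μ / 2) (s i) * |s j| ^ (μ / 2) : ℝ) : ℂ) * (V * wᴴ * Vᴴ) i j

/-- the form with the kernel `Φ^μ` on `Mm μ` -/
noncomputable def PF (q μ : ℝ) (s : κ → ℝ) (V : Matrix κ ν ℂ) (z w : Matrix ν ν ℂ) : ℝ :=
  ∑ i, ∑ j, Ph (q - 1 - μ) (1 - μ) |s i| |s j| * ‖Mm μ s V z w i j‖ ^ 2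

/-- `K^μ` -/
noncomputable def KK (q μ : ℝ) (θ : ν → ℝ) (z : Matrix ν ν ℂ) : ℝ :=
  kt (fun x y => x ^ μ * y ^ (2 - μ) * (Ph (q - 1 - μ) (1 - μ) x y - y ^ (q - 2))) θ z

/-- entrywise multiplication with a function of `θ_k, θ_l` -/
noncomputable def hm (f : ℝ → ℝ → ℝ) (θ : ν → ℝ) (z : Matrix ν ν ℂ) : Matrix ν ν ℂ :=
  Matrix.of fun i j => ((f (θ i) (θ j) : ℝ) : ℂ) * z i j

/-- The data: two components `(s, V)` (weight `1`) and `(x, O)` (weight `lam`). -/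
structure Dat [DecidableEq κ] [DecidableEq ν] (q lam : ℝ) (s : κ → ℝ) (V : Matrix κ ν ℂ)
    (x : ν → ℝ) (O : Matrix ν ν ℂ) (θ : ν → ℝ) : Prop where
  hq : 2 < q
  hlam : 0 ≤ lam
  hV : Vᴴ * V = 1
  hO : Oᴴ * O = 1
  hθ : ∀ k, 0 < θ k
  hX : Vᴴ * dg s * V = Oᴴ * dg x * O
  hpsi : Vᴴ * (dg fun j => sp (q - 1) (s j)) * V +
    (lam : ℂ) • (Oᴴ * (dg fun j => sp (q - 1) (x j)) * O) = 0
  hpow : Vᴴ * (dg fun j => |s j| ^ q) * V +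
    (lam : ℂ) • (Oᴴ * (dg fun j => |x j| ^ q) * O) = dg fun k => θ k ^ q

end forms

section fcalc

variable {n : Type} [Fintype n] [DecidableEq n]

/-- functional calculus of a Hermitian matrix -/
noncomputable def fc (f : ℝ → ℝ) (H : Matrix n n ℂ) : Matrix n n ℂ :=
  open Classical in
  if h : H.IsHermitian then
    ud (h.eigenvectorUnitary : Matrix n n ℂ) (fun k => f (h.eigenvalues k))
  else 0

/-- Hermitian dilation -/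
def dil {m n : Type} (M : Matrix m n ℂ) : Matrix (m ⊕ n) (m ⊕ n) ℂ := fromBlocks 0 M Mᴴ 0

/-- the functional whose minimum over `X` is `J_λ` -/
noncomputable def FJ (q lam : ℝ) (B α₁ α₂ X : Matrix n n ℂ) : ℝ :=
  LibSch.pw q (fromBlocks B (rp (1 / q) α₂) (rp (1 / q) α₁) X) + lam * LibSch.pw q X

end fcalc

end Pool.Agent.LibSchQ
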