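import Pool.Agent.LibSchP.A3

/-! **E1.**  The variational formula for `tr (XᴴX)^(q/2)`, `q > 2` (compare `LibSchP.C1`). -/

open Matrix
open scoped ComplexOrder

namespace Pool.Agent.LibSchQ

open Pool.Agent.LibSchP

variable {m n : Type} [Fintype m] [Fintype n] [DecidableEq n]

/-- Young: `u z b^(1-1/u) ≤ z^u + (u-1) b`, `u = q/2` -/
theorem young_ge_scalar (u z b : ℝ) (h1 : 1 < u) (hz : 0 ≤ z) (hb : 0 < b) :
    u * (z * b ^ (1 - 1 / u)) - (u - 1) * b ≤ z ^ u := by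
  have hu : 0 < u := by linarith
  have hi0 : 0 ≤ 1 / u := by positivity
  have hi1 : 0 ≤ 1 - 1 / u := by
    have : 1 / u ≤ 1 := by rw [div_le_one hu]; exact h1.le
    linarith
  have h2 := Real.geom_mean_le_arith_mean2_weighted hi0 hi1
    (Real.rpow_nonneg hz u) hb.le (by ring)
  have h3 : (z ^ u) ^ (1 / u) = z := by
    rw [← Real.rpow_mul hz, mul_one_div_cancel hu.ne', Real.rpow_one]
  rw [h3] at h2
  have h4 := mul_le_mul_of_nonneg_left h2 hu.le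
  have h5 : u * (1 / u * z ^ u + (1 - 1 / u) * b) = z ^ u + (u - 1) * b := by
    field_simp
  rw [h5] at h4
  linarith

theorem e1_row (S : Matrix n n ℂ) (hS : S * Sᴴ = 1) (j : n) : ∑ k, ‖S j k‖ ^ 2 = 1 := by
  have h2 := congrFun (congrFun hS j) j
  rw [Matrix.mul_apply, Matrix.one_apply_eq] at h2
  have h3 : ((∑ k, ‖S j k‖ ^ 2 : ℝ) : ℂ) = 1 := by
    rw [← h2]
    push_cast
    refine Finset.sum_congr rfl fun k _ => ?_
    rw [conjTranspose_apply]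
    exact (Complex.mul_conj' (S j k)).symm
  exact_mod_cast h3

theorem e1_col (S : Matrix n n ℂ) (hS : Sᴴ * S = 1) (k : n) : ∑ j, ‖S j k‖ ^ 2 = 1 := by
  have h2 := congrFun (congrFun hS k) k
  rw [Matrix.mul_apply, Matrix.one_apply_eq] at h2
  have h3 : ((∑ j, ‖S j k‖ ^ 2 : ℝ) : ℂ) = 1 := by
    rw [← h2]
    push_cast
    refine Finset.sum_congr rfl fun j _ => ?_
    rw [conjTranspose_apply, mul_comm]
    exact (Complex.mul_conj' (S j k)).symm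
  exact_mod_cast h3

theorem e1_trace (V W : Matrix n n ℂ) (z y : n → ℝ) :
    trace (ud V z * ud W y) = ((∑ j, ∑ k, ‖(Vᴴ * W) j k‖ ^ 2 * (z j * y k) : ℝ) : ℂ) := by
  have h1 : trace (ud V z * ud W y) = trace (dg z * (Vᴴ * W) * dg y * (Vᴴ * W)ᴴ) := by
    unfold ud
    rw [conjTranspose_mul, conjTranspose_conjTranspose]
    have h2 : V * dg z * Vᴴ * (W * dg y * Wᴴ) = V * (dg z * Vᴴ * (W * dg y * Wᴴ)) := by
      simp only [Matrix.mul_assoc]
    rw [h2, trace_mul_comm]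
    congr 1
    simp only [Matrix.mul_assoc]
  rw [h1]
  simp only [trace, diag_apply]
  rw [Complex.ofReal_sum]
  refine Finset.sum_congr rfl fun j _ => ?_
  rw [Matrix.mul_apply, Complex.ofReal_sum]
  refine Finset.sum_congr rfl fun k _ => ?_
  have h3 : (dg z * (Vᴴ * W) * dg y) j k = (z j : ℂ) * (Vᴴ * W) j k * (y k : ℂ) := by
    unfold dg
    rw [mul_diagonal, diagonal_mul]
  rw [h3, conjTranspose_apply]
  have h4 : (Vᴴ * W) j k * star ((Vᴴ * W) j k) = ((‖(Vᴴ * W) j k‖ : ℝ) : ℂ) ^ 2 :=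
    Complex.mul_conj' _
  push_cast
  rw [← h4]
  ring

/-- with `XᴴX = ud V z`, `S = VᴴW`: `tr (ud V z * ud W y) = ∑_jk |S_jk|² z_j y_k`. -/
theorem young_ge (q : ℝ) (hq : 2 < q) (X : Matrix m n ℂ) (W : Matrix n n ℂ)
    (hW : W ∈ unitaryGroup n ℂ) (b : n → ℝ) (hb : ∀ k, 0 < b k) :
    q / 2 * (trace (Xᴴ * X * ud W fun k => b k ^ (1 - 2 / q))).re - (q / 2 - 1) * ∑ k, b k ≤
      LibSch.pw q X := by
  obtain ⟨V, hV, z, hz, hVz⟩ := ud_exists_nonneg (Xᴴ * X) (posSemidef_conjTranspose_mul_self X)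
  rw [pw_ud q X V hV z hVz, hVz, e1_trace, Complex.ofReal_re]
  have hVV : V * Vᴴ = 1 := mem_unitaryGroup_iff.1 hV
  have hVV' : Vᴴ * V = 1 := mem_unitaryGroup_iff'.1 hV
  have hWW : W * Wᴴ = 1 := mem_unitaryGroup_iff.1 hW
  have hWW' : Wᴴ * W = 1 := mem_unitaryGroup_iff'.1 hW
  have hS1 : (Vᴴ * W) * (Vᴴ * W)ᴴ = 1 := by
    rw [conjTranspose_mul, conjTranspose_conjTranspose]
    calc Vᴴ * W * (Wᴴ * V) = Vᴴ * (W * Wᴴ) * V := by simp only [Matrix.mul_assoc]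
      _ = 1 := by rw [hWW, Matrix.mul_one, hVV']
  have hS2 : (Vᴴ * W)ᴴ * (Vᴴ * W) = 1 := by
    rw [conjTranspose_mul, conjTranspose_conjTranspose]
    calc Wᴴ * V * (Vᴴ * W) = Wᴴ * (V * Vᴴ) * W := by simp only [Matrix.mul_assoc]
      _ = 1 := by rw [hVV, Matrix.mul_one, hWW']
  set S := Vᴴ * W with hS
  have e1 : ∑ k, z k ^ (q / 2) = ∑ j, ∑ k, ‖S j k‖ ^ 2 * z j ^ (q / 2) := by
    refine Finset.sum_congr rfl fun j _ => ?_
    rw [← Finset.sum_mul, e1_row S hS1, one_mul]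
  have e2 : ∑ k, b k = ∑ j, ∑ k, ‖S j k‖ ^ 2 * b k := by
    rw [Finset.sum_comm]
    refine Finset.sum_congr rfl fun k _ => ?_
    rw [← Finset.sum_mul, e1_col S hS2, one_mul]
  rw [e1, e2, Finset.mul_sum, Finset.mul_sum, ← Finset.sum_sub_distrib]
  refine Finset.sum_le_sum fun j _ => ?_
  rw [Finset.mul_sum, Finset.mul_sum, ← Finset.sum_sub_distrib]
  refine Finset.sum_le_sum fun k _ => ?_
  have h3 := young_ge_scalar (q / 2) (z j) (b k) (by linarith) (hz j) (hb k)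
  have h4 : (1 : ℝ) / (q / 2) = 2 / q := by
    field_simp
  rw [h4] at h3
  have h5 := mul_le_mul_of_nonneg_left h3 (sq_nonneg ‖S j k‖)
  calc q / 2 * (‖S j k‖ ^ 2 * (z j * b k ^ (1 - 2 / q))) - (q / 2 - 1) * (‖S j k‖ ^ 2 * b k)
      = ‖S j k‖ ^ 2 * (q / 2 * (z j * b k ^ (1 - 2 / q)) - (q / 2 - 1) * b k) := by ring
    _ ≤ ‖S j k‖ ^ 2 * z j ^ (q / 2) := h5

/-- equality for `B = (XᴴX)^(q/2)` -/
theorem young_ge_eq (q : ℝ) (hq : 2 < q) (X : Matrix m n ℂ) (hX : (Xᴴ * X).PosDef) :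
    ∃ (W : Matrix n n ℂ) (b : n → ℝ), W ∈ unitaryGroup n ℂ ∧ (∀ k, 0 < b k) ∧
      LibSch.pw q X = q / 2 * (trace (Xᴴ * X * ud W fun k => b k ^ (1 - 2 / q))).re -
        (q / 2 - 1) * ∑ k, b k := by
  obtain ⟨U, hU, x, hx, hUx⟩ := ud_exists_pos (Xᴴ * X) hX
  have hUU' : Uᴴ * U = 1 := mem_unitaryGroup_iff'.1 hU
  have hq0 : q ≠ 0 := by linarith
  refine ⟨U, fun k => x k ^ (q / 2), hU, fun k => Real.rpow_pos_of_pos (hx k) _, ?_⟩
  rw [pw_ud q X U hU x hUx, hUx, ud_mul U hU]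
  have h3 : trace (ud U fun k => x k * (x k ^ (q / 2)) ^ (1 - 2 / q)) =
      ((∑ k, x k * (x k ^ (q / 2)) ^ (1 - 2 / q) : ℝ) : ℂ) := by
    unfold ud
    rw [trace_mul_comm, ← Matrix.mul_assoc, hUU', Matrix.one_mul]
    unfold dg
    rw [trace_diagonal, Complex.ofReal_sum]
  rw [h3, Complex.ofReal_re, Finset.mul_sum, Finset.mul_sum, ← Finset.sum_sub_distrib]
  refine Finset.sum_congr rfl fun k _ => ?_
  have h4 : x k * (x k ^ (q / 2)) ^ (1 - 2 / q) = x k ^ (q / 2) := by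
    rw [← Real.rpow_mul (hx k).le]
    nth_rewrite 1 [← Real.rpow_one (x k)]
    rw [← Real.rpow_add (hx k)]
    congr 1
    field_simp
    ring
  rw [h4]
  ring

end Pool.Agent.LibSchQ
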