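import Pool.Agent.LibSchQ.TL

/-! **E2.**  Lieb's concavity theorem, midpoint form, in eigenbases. -/

open Matrix MeasureTheory Set
open scoped ComplexOrder

namespace Pool.Agent.LibSchQ

open Pool.Agent.LibSchP

variable {m n : Type} [Fintype m] [Fintype n] [DecidableEq m] [DecidableEq n]

/-- parallel sum form in the double eigenbasis (`δ = ud U d`, `B = ud W b`) -/
noncomputable def ps (l : ℝ) (K : Matrix m n ℂ) (U : Matrix m m ℂ) (d : m → ℝ)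
    (W : Matrix n n ℂ) (b : n → ℝ) : ℝ :=
  ∑ j, ∑ k, d j * b k / (d j + l * b k) * ‖(Uᴴ * K * W) j k‖ ^ 2

omit [DecidableEq n] in
theorem e2_tr1 (A : Matrix m n ℂ) (d : m → ℝ) :
    (trace (Aᴴ * dg d * A)).re = ∑ j, ∑ k, d j * ‖A j k‖ ^ 2 := by
  have h : trace (Aᴴ * dg d * A) = ∑ k, ∑ j, star (A j k) * (d j : ℂ) * A j k := by
    simp only [trace, diag, mul_apply, conjTranspose_apply, dg, diagonal_apply, mul_ite, mul_zero,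
      Finset.sum_ite_eq', Finset.mem_univ, if_true]
  rw [h, Finset.sum_comm, Complex.re_sum]
  refine Finset.sum_congr rfl fun j _ => ?_
  rw [Complex.re_sum]
  refine Finset.sum_congr rfl fun k _ => ?_
  have : star (A j k) * (d j : ℂ) * A j k = (d j : ℂ) * (A j k * star (A j k)) := by ring
  rw [this, Complex.re_ofReal_mul]
  congr 1
  rw [Complex.star_def, Complex.mul_conj, Complex.ofReal_re, Complex.normSq_eq_norm_sq]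

omit [DecidableEq m] in
theorem e2_tr2 (A : Matrix m n ℂ) (b : n → ℝ) :
    (trace (A * dg b * Aᴴ)).re = ∑ j, ∑ k, b k * ‖A j k‖ ^ 2 := by
  have h : trace (A * dg b * Aᴴ) = ∑ j, ∑ k, A j k * (b k : ℂ) * star (A j k) := by
    simp only [trace, diag, mul_apply, conjTranspose_apply, dg, diagonal_apply, mul_ite, mul_zero,
      Finset.sum_ite_eq', Finset.mem_univ, if_true]
  rw [h, Complex.re_sum]
  refine Finset.sum_congr rfl fun j _ => ?_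
  rw [Complex.re_sum]
  refine Finset.sum_congr rfl fun k _ => ?_
  have : A j k * (b k : ℂ) * star (A j k) = (b k : ℂ) * (A j k * star (A j k)) := by ring
  rw [this, Complex.re_ofReal_mul]
  congr 1
  rw [Complex.star_def, Complex.mul_conj, Complex.ofReal_re, Complex.normSq_eq_norm_sq]

/-- the right-hand side in the double eigenbasis -/
theorem e2_rhs (l : ℝ) (K Y : Matrix m n ℂ) (U : Matrix m m ℂ) (d : m → ℝ)
    (W : Matrix n n ℂ) (b : n → ℝ) (hU : U ∈ unitaryGroup m ℂ) (hW : W ∈ unitaryGroup n ℂ) :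
    l⁻¹ * (trace ((K - Y)ᴴ * ud U d * (K - Y))).re + (trace (Y * ud W b * Yᴴ)).re =
    ∑ j, ∑ k, (l⁻¹ * d j * ‖(Uᴴ * K * W) j k - (Uᴴ * Y * W) j k‖ ^ 2 +
      b k * ‖(Uᴴ * Y * W) j k‖ ^ 2) := by
  have hW' : W * Wᴴ = 1 := (mem_unitaryGroup_iff.1 hW)
  have hU' : U * Uᴴ = 1 := (mem_unitaryGroup_iff.1 hU)
  have e1 : ∀ A : Matrix m n ℂ, trace (Aᴴ * ud U d * A) =
      trace ((Uᴴ * A * W)ᴴ * dg d * (Uᴴ * A * W)) := by
    intro A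
    have : (Uᴴ * A * W)ᴴ * dg d * (Uᴴ * A * W) = Wᴴ * (Aᴴ * ud U d * A * W) := by
      simp only [conjTranspose_mul, conjTranspose_conjTranspose, ud, Matrix.mul_assoc]
    rw [this, trace_mul_comm Wᴴ, Matrix.mul_assoc _ W Wᴴ, hW', Matrix.mul_one]
  have e2 : trace (Y * ud W b * Yᴴ) = trace ((Uᴴ * Y * W) * dg b * (Uᴴ * Y * W)ᴴ) := by
    have : (Uᴴ * Y * W) * dg b * (Uᴴ * Y * W)ᴴ = Uᴴ * (Y * ud W b * Yᴴ * U) := by
      simp only [conjTranspose_mul, conjTranspose_conjTranspose, ud, Matrix.mul_assoc]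
    rw [this, trace_mul_comm Uᴴ, Matrix.mul_assoc _ U Uᴴ, hU', Matrix.mul_one]
  have e3 : Uᴴ * (K - Y) * W = Uᴴ * K * W - Uᴴ * Y * W := by
    rw [Matrix.mul_sub, Matrix.sub_mul]
  rw [e1 (K - Y), e2, e2_tr1, e2_tr2, e3]
  simp only [Finset.mul_sum, ← Finset.sum_add_distrib, Matrix.sub_apply, mul_assoc]

/-- `ps ≤ l⁻¹ tr (K-Y)ᴴ δ (K-Y) + tr Y B Yᴴ` for every `Y`; termwise (`par`) in the double
eigenbasis. -/
theorem ps_le (l : ℝ) (hl : 0 < l) (K Y : Matrix m n ℂ) (U : Matrix m m ℂ) (d : m → ℝ)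
    (W : Matrix n n ℂ) (b : n → ℝ) (hU : U ∈ unitaryGroup m ℂ) (hW : W ∈ unitaryGroup n ℂ)
    (hd : ∀ j, 0 < d j) (hb : ∀ k, 0 < b k) :
    ps l K U d W b ≤ l⁻¹ * (trace ((K - Y)ᴴ * ud U d * (K - Y))).re +
      (trace (Y * ud W b * Yᴴ)).re := by
  rw [e2_rhs l K Y U d W b hU hW, ps]
  exact Finset.sum_le_sum fun j _ => Finset.sum_le_sum fun k _ =>
    par (d j) (b k) l (hd j).le (hb k).le hl _ _

/-- equality for `Y = U Ỹ Wᴴ`, `Ỹ_jk = d_j/(d_j + l b_k) (Uᴴ K W)_jk` -/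
theorem ps_attained (l : ℝ) (hl : 0 < l) (K : Matrix m n ℂ) (U : Matrix m m ℂ) (d : m → ℝ)
    (W : Matrix n n ℂ) (b : n → ℝ) (hU : U ∈ unitaryGroup m ℂ) (hW : W ∈ unitaryGroup n ℂ)
    (hd : ∀ j, 0 < d j) (hb : ∀ k, 0 < b k) : ∃ Y : Matrix m n ℂ,
    l⁻¹ * (trace ((K - Y)ᴴ * ud U d * (K - Y))).re + (trace (Y * ud W b * Yᴴ)).re =
      ps l K U d W b := by
  have hW' : Wᴴ * W = 1 := (mem_unitaryGroup_iff'.1 hW)
  have hU' : Uᴴ * U = 1 := (mem_unitaryGroup_iff'.1 hU)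
  refine ⟨U * (of fun j k => ((d j / (d j + l * b k) : ℝ) : ℂ) * (Uᴴ * K * W) j k) * Wᴴ, ?_⟩
  rw [e2_rhs l K _ U d W b hU hW, ps]
  have hY : Uᴴ * (U * (of fun j k => ((d j / (d j + l * b k) : ℝ) : ℂ) * (Uᴴ * K * W) j k) * Wᴴ)
      * W = of fun j k => ((d j / (d j + l * b k) : ℝ) : ℂ) * (Uᴴ * K * W) j k := by
    rw [← Matrix.mul_assoc, ← Matrix.mul_assoc, hU', Matrix.one_mul, Matrix.mul_assoc, hW',
      Matrix.mul_one]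
  rw [hY]
  refine Finset.sum_congr rfl fun j _ => Finset.sum_congr rfl fun k _ => ?_
  have hc : 0 < d j + l * b k := add_pos (hd j) (mul_pos hl (hb k))
  simp only [of_apply]
  set z := (Uᴴ * K * W) j k
  have h1 : ‖z - ((d j / (d j + l * b k) : ℝ) : ℂ) * z‖ ^ 2 =
      (l * b k / (d j + l * b k)) ^ 2 * ‖z‖ ^ 2 := by
    have : z - ((d j / (d j + l * b k) : ℝ) : ℂ) * z =
        ((l * b k / (d j + l * b k) : ℝ) : ℂ) * z := by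
      have h : (l * b k / (d j + l * b k) : ℝ) = 1 - d j / (d j + l * b k) := by
        field_simp
        ring
      rw [h]
      push_cast
      ring
    rw [this, norm_mul, mul_pow, Complex.norm_real, Real.norm_eq_abs, sq_abs]
  have h2 : ‖((d j / (d j + l * b k) : ℝ) : ℂ) * z‖ ^ 2 =
      (d j / (d j + l * b k)) ^ 2 * ‖z‖ ^ 2 := by
    rw [norm_mul, mul_pow, Complex.norm_real, Real.norm_eq_abs, sq_abs]
  rw [h1, h2]
  field_simp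
  ring

omit [DecidableEq m] [DecidableEq n] in
/-- integrated form of `ps`. -/
theorem e2_int (σ : ℝ) (h0 : 0 < σ) (h1 : σ < 1) (K : Matrix m n ℂ)
    (U : Matrix m m ℂ) (d : m → ℝ) (W : Matrix n n ℂ) (b : n → ℝ)
    (hd : ∀ j, 0 < d j) (hb : ∀ j, 0 < b j) :
    IntegrableOn (fun l : ℝ => l ^ (σ - 1) * ps l K U d W b) (Ioi 0) ∧
    ∫ l in Ioi (0 : ℝ), l ^ (σ - 1) * ps l K U d W b =
      cst σ * ∑ j, ∑ k, d j ^ σ * b k ^ (1 - σ) * ‖(Uᴴ * K * W) j k‖ ^ 2 := by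
  have hEq : (fun l : ℝ => l ^ (σ - 1) * ps l K U d W b) =
      (fun l : ℝ => ∑ j, ∑ k, l ^ (σ - 1) * (d j * b k / (d j + l * b k)) *
        ‖(Uᴴ * K * W) j k‖ ^ 2) := by
    funext l
    unfold ps
    rw [Finset.mul_sum]
    refine Finset.sum_congr rfl fun j _ => ?_
    rw [Finset.mul_sum]
    refine Finset.sum_congr rfl fun k _ => ?_
    ring
  have hint : ∀ j k, Integrable (fun l : ℝ => l ^ (σ - 1) * (d j * b k / (d j + l * b k)) *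
        ‖(Uᴴ * K * W) j k‖ ^ 2) (volume.restrict (Ioi 0)) := fun j k =>
    (tl_int σ (d j) (b k) h0 h1 (hd j).le (hb k).le).1.mul_const _
  rw [hEq]
  refine ⟨?_, ?_⟩
  · exact integrable_finsetSum _ fun j _ => integrable_finsetSum _ fun k _ => hint j k
  · rw [integral_finsetSum _ fun j _ => integrable_finsetSum _ fun k _ => hint j k,
      Finset.mul_sum]
    refine Finset.sum_congr rfl fun j _ => ?_
    rw [integral_finsetSum _ fun k _ => hint j k, Finset.mul_sum]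
    refine Finset.sum_congr rfl fun k _ => ?_
    rw [integral_mul_const, (tl_int σ (d j) (b k) h0 h1 (hd j).le (hb k).le).2]
    ring

/-- **Lieb**: index `0` is the mean of `1` and `2`; `ps_attained` at `0`, `ps_le` at `1`, `2`,
then `tl_int`. -/
theorem lieb (σ : ℝ) (h0 : 0 < σ) (h1 : σ < 1) (K : Matrix m n ℂ)
    (U₀ U₁ U₂ : Matrix m m ℂ) (d₀ d₁ d₂ : m → ℝ) (W₀ W₁ W₂ : Matrix n n ℂ) (b₀ b₁ b₂ : n → ℝ)
    (hU₀ : U₀ ∈ unitaryGroup m ℂ) (hU₁ : U₁ ∈ unitaryGroup m ℂ) (hU₂ : U₂ ∈ unitaryGroup m ℂ)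
    (hW₀ : W₀ ∈ unitaryGroup n ℂ) (hW₁ : W₁ ∈ unitaryGroup n ℂ) (hW₂ : W₂ ∈ unitaryGroup n ℂ)
    (hd₀ : ∀ j, 0 < d₀ j) (hd₁ : ∀ j, 0 < d₁ j) (hd₂ : ∀ j, 0 < d₂ j)
    (hb₀ : ∀ j, 0 < b₀ j) (hb₁ : ∀ j, 0 < b₁ j) (hb₂ : ∀ j, 0 < b₂ j)
    (hδ : (2 : ℂ) • ud U₀ d₀ = ud U₁ d₁ + ud U₂ d₂)
    (hB : (2 : ℂ) • ud W₀ b₀ = ud W₁ b₁ + ud W₂ b₂) :
    ∑ j, ∑ k, d₁ j ^ σ * b₁ k ^ (1 - σ) * ‖(U₁ᴴ * K * W₁) j k‖ ^ 2 +
      ∑ j, ∑ k, d₂ j ^ σ * b₂ k ^ (1 - σ) * ‖(U₂ᴴ * K * W₂) j k‖ ^ 2 ≤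
      2 * ∑ j, ∑ k, d₀ j ^ σ * b₀ k ^ (1 - σ) * ‖(U₀ᴴ * K * W₀) j k‖ ^ 2 := by
  obtain ⟨i0, v0⟩ := e2_int σ h0 h1 K U₀ d₀ W₀ b₀ hd₀ hb₀
  obtain ⟨i1, v1⟩ := e2_int σ h0 h1 K U₁ d₁ W₁ b₁ hd₁ hb₁
  obtain ⟨i2, v2⟩ := e2_int σ h0 h1 K U₂ d₂ W₂ b₂ hd₂ hb₂
  have hc := cst_pos σ h0 h1
  have hpt : ∀ l : ℝ, 0 < l → ps l K U₁ d₁ W₁ b₁ + ps l K U₂ d₂ W₂ b₂ ≤
      2 * ps l K U₀ d₀ W₀ b₀ := by
    intro l hl0
    obtain ⟨Y, hY⟩ := ps_attained l hl0 K U₀ d₀ W₀ b₀ hU₀ hW₀ hd₀ hb₀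
    have g1 := ps_le l hl0 K Y U₁ d₁ W₁ b₁ hU₁ hW₁ hd₁ hb₁
    have g2 := ps_le l hl0 K Y U₂ d₂ W₂ b₂ hU₂ hW₂ hd₂ hb₂
    have t2 : 2 * (trace ((K - Y)ᴴ * ud U₀ d₀ * (K - Y))).re =
        (trace ((K - Y)ᴴ * ud U₁ d₁ * (K - Y))).re +
          (trace ((K - Y)ᴴ * ud U₂ d₂ * (K - Y))).re := by
      have e : (2 : ℂ) * trace ((K - Y)ᴴ * ud U₀ d₀ * (K - Y)) =
          trace ((K - Y)ᴴ * ud U₁ d₁ * (K - Y)) + trace ((K - Y)ᴴ * ud U₂ d₂ * (K - Y)) := by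
        rw [← trace_add, ← Matrix.add_mul, ← Matrix.mul_add, ← hδ, Matrix.mul_smul,
          Matrix.smul_mul, trace_smul, smul_eq_mul]
      have e' := congrArg Complex.re e
      simpa using e'
    have t3 : 2 * (trace (Y * ud W₀ b₀ * Yᴴ)).re =
        (trace (Y * ud W₁ b₁ * Yᴴ)).re + (trace (Y * ud W₂ b₂ * Yᴴ)).re := by
      have e : (2 : ℂ) * trace (Y * ud W₀ b₀ * Yᴴ) =
          trace (Y * ud W₁ b₁ * Yᴴ) + trace (Y * ud W₂ b₂ * Yᴴ) := by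
        rw [← trace_add, ← Matrix.add_mul, ← Matrix.mul_add, ← hB, Matrix.mul_smul,
          Matrix.smul_mul, trace_smul, smul_eq_mul]
      have e' := congrArg Complex.re e
      simpa using e'
    have t4 : 2 * (l⁻¹ * (trace ((K - Y)ᴴ * ud U₀ d₀ * (K - Y))).re) =
        l⁻¹ * (trace ((K - Y)ᴴ * ud U₁ d₁ * (K - Y))).re +
          l⁻¹ * (trace ((K - Y)ᴴ * ud U₂ d₂ * (K - Y))).re := by
      rw [← mul_add, ← t2]; ring
    rw [← hY]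
    linarith
  have hmono : ∫ l in Ioi (0 : ℝ), (l ^ (σ - 1) * ps l K U₁ d₁ W₁ b₁ +
        l ^ (σ - 1) * ps l K U₂ d₂ W₂ b₂) ≤
      ∫ l in Ioi (0 : ℝ), 2 * (l ^ (σ - 1) * ps l K U₀ d₀ W₀ b₀) := by
    refine setIntegral_mono_on (i1.add i2) (i0.const_mul 2) measurableSet_Ioi ?_
    intro l hl'
    have hl0 : (0 : ℝ) < l := hl'
    have hp : 0 ≤ l ^ (σ - 1) := (Real.rpow_pos_of_pos hl0 _).le
    have := mul_le_mul_of_nonneg_left (hpt l hl0) hp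
    linarith
  rw [integral_const_mul, integral_add i1 i2, v0, v1, v2] at hmono
  have h3 : cst σ * (∑ j, ∑ k, d₁ j ^ σ * b₁ k ^ (1 - σ) * ‖(U₁ᴴ * K * W₁) j k‖ ^ 2 +
      ∑ j, ∑ k, d₂ j ^ σ * b₂ k ^ (1 - σ) * ‖(U₂ᴴ * K * W₂) j k‖ ^ 2) ≤
      cst σ * (2 * ∑ j, ∑ k, d₀ j ^ σ * b₀ k ^ (1 - σ) * ‖(U₀ᴴ * K * W₀) j k‖ ^ 2) := by
    linarith
  exact le_of_mul_le_mul_left h3 hc

end Pool.Agent.LibSchQ
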