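import Pool.Agent.LibSchQ.E1
import Pool.Agent.LibSchQ.E2
import Pool.Agent.LibSchP.C3

/-! **E3.**  Concavity of `δ ↦ tr (Kᴴ δ^(2/q) K)^(q/2)`, `q > 2`. -/

open Matrix
open scoped ComplexOrder

namespace Pool.Agent.LibSchQ

open Pool.Agent.LibSchP

variable {n : Type} [Fintype n] [DecidableEq n]

/-- `young_ge_eq` at `δ₁`, `δ₂` gives `B₁`, `B₂`; `young_ge` at `δ₀` with `B₀ = (B₁+B₂)/2`
(`ud_exists_pos`); `lieb` with `σ = 2/q` (`LibSchP.trace_double`). -/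
theorem epstein (q : ℝ) (hq : 2 < q) (K : Matrix n n ℂ) (hK : IsUnit K.det)
    (δ₀ δ₁ δ₂ : Matrix n n ℂ) (hδ₀ : δ₀.PosDef) (hδ₁ : δ₁.PosDef) (hδ₂ : δ₂.PosDef)
    (h : (2 : ℂ) • δ₀ = δ₁ + δ₂) :
    LibSch.pw q (rp (1 / q) δ₁ * K) + LibSch.pw q (rp (1 / q) δ₂ * K) ≤
      2 * LibSch.pw q (rp (1 / q) δ₀ * K) := by
  have hq0 : 0 < q := by linarith
  obtain ⟨U₀, hU₀, d₀, hd₀, rfl⟩ := ud_exists_pos δ₀ hδ₀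
  obtain ⟨U₁, hU₁, d₁, hd₁, rfl⟩ := ud_exists_pos δ₁ hδ₁
  obtain ⟨U₂, hU₂, d₂, hd₂, rfl⟩ := ud_exists_pos δ₂ hδ₂
  obtain ⟨W₁, b₁, hW₁, hb₁, e₁⟩ := young_ge_eq q hq (rp (1 / q) (ud U₁ d₁) * K)
    (by rw [c3_X q K U₁ hU₁ d₁ hd₁]; exact c3_posDef q K U₁ hK hU₁ d₁ hd₁)
  obtain ⟨W₂, b₂, hW₂, hb₂, e₂⟩ := young_ge_eq q hq (rp (1 / q) (ud U₂ d₂) * K)
    (by rw [c3_X q K U₂ hU₂ d₂ hd₂]; exact c3_posDef q K U₂ hK hU₂ d₂ hd₂)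
  have hB : ((1 / 2 : ℂ) • (ud W₁ b₁ + ud W₂ b₂)).PosDef := by
    have hs := (ud_posDef W₁ hW₁ b₁ hb₁).add (ud_posDef W₂ hW₂ b₂ hb₂)
    have h3 : (0 : ℂ) < 1 / 2 := by
      have : ((1 / 2 : ℝ) : ℂ) = 1 / 2 := by push_cast; ring
      rw [← this]
      exact_mod_cast (by norm_num : (0 : ℝ) < 1 / 2)
    exact hs.smul h3
  obtain ⟨W₀, hW₀, b₀, hb₀, eB⟩ := ud_exists_pos _ hB
  have eB2 : (2 : ℂ) • ud W₀ b₀ = ud W₁ b₁ + ud W₂ b₂ := by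
    rw [← eB, smul_smul]
    norm_num
  have hY := young_ge q hq (rp (1 / q) (ud U₀ d₀) * K) W₀ hW₀ b₀ hb₀
  rw [c3_X q K U₀ hU₀ d₀ hd₀, trace_double] at hY
  rw [c3_X q K U₁ hU₁ d₁ hd₁, trace_double] at e₁
  rw [c3_X q K U₂ hU₂ d₂ hd₂, trace_double] at e₂
  have hA := lieb (2 / q) (by positivity)
    (by rw [div_lt_iff₀ hq0]; linarith) K U₀ U₁ U₂ d₀ d₁ d₂ W₀ W₁ W₂ b₀ b₁ b₂
    hU₀ hU₁ hU₂ hW₀ hW₁ hW₂ hd₀ hd₁ hd₂ hb₀ hb₁ hb₂ h eB2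
  have hT : 2 * ∑ k, b₀ k = ∑ k, b₁ k + ∑ k, b₂ k := by
    have ht := congrArg trace eB2
    rw [trace_smul, trace_add, c3_trace_ud W₀ hW₀, c3_trace_ud W₁ hW₁, c3_trace_ud W₂ hW₂,
      smul_eq_mul] at ht
    exact_mod_cast ht
  rw [e₁, e₂]
  have hq2 : 0 ≤ q / 2 := by linarith
  have := mul_le_mul_of_nonneg_left hA hq2
  nlinarith [this, hY, hT]

end Pool.Agent.LibSchQ
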