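import Pool.Agent.LibSchQ.Y2
import Pool.Agent.LibSchP.A3

/-! **G2a.**  From a Hermitian matrix `S` with an isometry `ι` to the diagonal data. -/

open Matrix
open scoped ComplexOrder

namespace Pool.Agent.LibSchQ

open Pool.Agent.LibSchP

variable {κ ν : Type} [Fintype κ] [Fintype ν] [DecidableEq κ] [DecidableEq ν]

/-- `S = ud U s`, `ιᴴ S ι = ud O₀ x` (`herm_ud`), the positive definite matrix is
`ud W (θ^q)` (`ud_exists_pos`, `θ = (eigenvalue)^(1/q)`), `O = O₀ᴴ W`, `V = Uᴴ ι W`; `fc_ud`. -/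
theorem dat_exists (q lam : ℝ) (hq : 2 < q) (hlam : 0 ≤ lam) (S : Matrix κ κ ℂ)
    (hS : S.IsHermitian) (ι : Matrix κ ν ℂ) (hι : ιᴴ * ι = 1)
    (hstat : ιᴴ * fc (sp (q - 1)) S * ι + (lam : ℂ) • fc (sp (q - 1)) (ιᴴ * S * ι) = 0)
    (hpos : (ιᴴ * fc (fun t => |t| ^ q) S * ι +
      (lam : ℂ) • fc (fun t => |t| ^ q) (ιᴴ * S * ι)).PosDef) :
    ∃ (s : κ → ℝ) (U : Matrix κ κ ℂ) (W : Matrix ν ν ℂ) (x : ν → ℝ) (O : Matrix ν ν ℂ)
      (θ : ν → ℝ), U ∈ unitaryGroup κ ℂ ∧ W ∈ unitaryGroup ν ℂ ∧ O ∈ unitaryGroup ν ℂ ∧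
      S = ud U s ∧ Wᴴ * (ιᴴ * S * ι) * W = Oᴴ * dg x * O ∧
      Dat q lam s (Uᴴ * ι * W) x O θ := by
  obtain ⟨U, hU, s, hSU⟩ := herm_ud S hS
  have hXh : (ιᴴ * S * ι).IsHermitian := by
    have h := isHermitian_conjTranspose_mul_mul ι hS
    exact h
  obtain ⟨O₀, hO₀, x, hX⟩ := herm_ud _ hXh
  obtain ⟨W, hW, y, hy, hP⟩ := ud_exists_pos _ hpos
  have hUU := a2_uu' U hU
  have hWW := a2_uu W hW
  have hWW' := a2_uu' W hW
  have hOO := a2_uu O₀ hO₀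
  have hOO' := a2_uu' O₀ hO₀
  have hOm : O₀ᴴ * W ∈ unitaryGroup ν ℂ := by
    rw [mem_unitaryGroup_iff', star_eq_conjTranspose, conjTranspose_mul,
      conjTranspose_conjTranspose, Matrix.mul_assoc, ← Matrix.mul_assoc O₀, hOO',
      Matrix.one_mul, hWW]
  have hq0 : (0 : ℝ) < q := by linarith
  have key1 : ∀ f : κ → ℝ, (Uᴴ * ι * W)ᴴ * dg f * (Uᴴ * ι * W) = Wᴴ * (ιᴴ * ud U f * ι) * W := by
    intro f
    simp only [ud, conjTranspose_mul, conjTranspose_conjTranspose, Matrix.mul_assoc]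
  have key2 : ∀ f : ν → ℝ, (O₀ᴴ * W)ᴴ * dg f * (O₀ᴴ * W) = Wᴴ * ud O₀ f * W := by
    intro f
    simp only [ud, conjTranspose_mul, conjTranspose_conjTranspose, Matrix.mul_assoc]
  have key3 : ∀ (A B : Matrix ν ν ℂ), Wᴴ * A * W + (lam : ℂ) • (Wᴴ * B * W) =
      Wᴴ * (A + (lam : ℂ) • B) * W := by
    intro A B
    rw [Matrix.mul_add, Matrix.add_mul, Matrix.mul_smul, Matrix.smul_mul]
  have hfcS : ∀ f : ℝ → ℝ, fc f S = ud U fun k => f (s k) := by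
    intro f
    rw [hSU, fc_ud f U hU]
  have hfcX : ∀ f : ℝ → ℝ, fc f (ιᴴ * S * ι) = ud O₀ fun k => f (x k) := by
    intro f
    rw [hX, fc_ud f O₀ hO₀]
  refine ⟨s, U, W, x, O₀ᴴ * W, fun k => y k ^ (1 / q), hU, hW, hOm, hSU, ?_, ?_⟩
  · rw [key2, ← hX]
  · refine ⟨hq, hlam, ?_, ?_, fun k => Real.rpow_pos_of_pos (hy k) _, ?_, ?_, ?_⟩
    · calc (Uᴴ * ι * W)ᴴ * (Uᴴ * ι * W) = Wᴴ * (ιᴴ * (U * Uᴴ) * ι) * W := by
            simp only [conjTranspose_mul, conjTranspose_conjTranspose, Matrix.mul_assoc]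
        _ = 1 := by rw [hUU, Matrix.mul_one, hι, Matrix.mul_one, hWW]
    · have := hOm
      rw [mem_unitaryGroup_iff', star_eq_conjTranspose] at this
      exact this
    · rw [key1, key2, ← hSU, ← hX]
    · rw [key1, key2, ← hfcS (sp (q - 1)), ← hfcX (sp (q - 1)), key3, hstat, Matrix.mul_zero,
        Matrix.zero_mul]
    · rw [key1, key2, ← hfcS (fun t => |t| ^ q), ← hfcX (fun t => |t| ^ q), key3, hP, ud]
      have h1 : Wᴴ * (W * dg y * Wᴴ) * W = (Wᴴ * W) * dg y * (Wᴴ * W) := by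
        simp only [Matrix.mul_assoc]
      rw [h1, hWW, Matrix.one_mul, Matrix.mul_one]
      congr 1
      funext k
      rw [← Real.rpow_mul (hy k).le, one_div_mul_cancel hq0.ne', Real.rpow_one]

end Pool.Agent.LibSchQ
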