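import Pool.Agent.LibSchQ.Defs

/-! **S1a.**  Scalar facts on `Φ^μ = Ph (q-1-μ) (1-μ)`. -/

namespace Pool.Agent.LibSchQ

open Pool.Agent.LibSchP

theorem Ph_comm (c d x y : ℝ) : Ph c d x y = Ph c d y x := by
  unfold Ph
  by_cases h : x = y
  · subst h
    simp
  · rw [if_neg h, if_neg (Ne.symm h), ← neg_div_neg_eq]
    congr 1 <;> ring

theorem s1a_of_lt {c d x y : ℝ} (h : y < x) :
    Ph c d x y = (x ^ c - y ^ c) / (x ^ d - y ^ d) := by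
  unfold Ph
  rw [if_neg h.ne']

theorem s1a_sub_pos {d x y : ℝ} (hd : 0 < d) (hy : 0 ≤ y) (h : y < x) : 0 < x ^ d - y ^ d :=
  sub_pos.2 (Real.rpow_lt_rpow hy h hd)

theorem s1a_nonneg_lt {c d x y : ℝ} (hc : 0 < c) (hd : 0 < d) (hy : 0 ≤ y) (h : y < x) :
    0 < Ph c d x y := by
  rw [s1a_of_lt h]
  exact div_pos (s1a_sub_pos hc hy h) (s1a_sub_pos hd hy h)

theorem Ph_nonneg (c d x y : ℝ) (hc : 0 < c) (hd : 0 < d) (hx : 0 ≤ x) (hy : 0 ≤ y) :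
    0 ≤ Ph c d x y := by
  rcases lt_trichotomy x y with h | h | h
  · rw [Ph_comm]
    exact (s1a_nonneg_lt hc hd hx h).le
  · subst h
    unfold Ph
    rw [if_pos rfl]
    have := Real.rpow_nonneg hx (c - d)
    positivity
  · exact (s1a_nonneg_lt hc hd hy h).le

theorem s1a_split {q μ x : ℝ} (hq : 2 < q) (h1 : μ < 1) (hx : 0 ≤ x) :
    x ^ (q - 1 - μ) = x ^ (q - 2) * x ^ (1 - μ) := by
  rw [← Real.rpow_add_of_nonneg hx (by linarith) (by linarith)]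
  congr 1
  ring

/-- `y^(q-2) ≤ Φ^μ(x,y)` for `x, y ≥ 0` -/
theorem Ph_ge (q μ x y : ℝ) (hq : 2 < q) (h0 : 0 ≤ μ) (h1 : μ < 1) (hx : 0 ≤ x) (hy : 0 ≤ y) :
    y ^ (q - 2) ≤ Ph (q - 1 - μ) (1 - μ) x y := by
  have hd : 0 < 1 - μ := by linarith
  have hq2 : 0 < q - 2 := by linarith
  rcases lt_trichotomy x y with h | h | h
  · rw [Ph_comm, s1a_of_lt h, le_div_iff₀ (s1a_sub_pos hd hx h), s1a_split hq h1 hx,
      s1a_split hq h1 hy]
    have h2 : x ^ (q - 2) ≤ y ^ (q - 2) := Real.rpow_le_rpow hx h.le hq2.le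
    have h3 : 0 ≤ x ^ (1 - μ) := Real.rpow_nonneg hx _
    nlinarith
  · subst h
    unfold Ph
    rw [if_pos rfl]
    have h2 : q - 1 - μ - (1 - μ) = q - 2 := by ring
    rw [h2]
    have h3 : 0 ≤ x ^ (q - 2) := Real.rpow_nonneg hx _
    have h4 : 1 ≤ (q - 1 - μ) / (1 - μ) := by
      rw [le_div_iff₀ hd]
      linarith
    nlinarith
  · rw [s1a_of_lt h, le_div_iff₀ (s1a_sub_pos hd hy h), s1a_split hq h1 hx,
      s1a_split hq h1 hy]
    have h2 : y ^ (q - 2) ≤ x ^ (q - 2) := Real.rpow_le_rpow hy h.le hq2.le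
    have h3 : 0 ≤ x ^ (1 - μ) := Real.rpow_nonneg hx _
    nlinarith

theorem s1a_rec_lt {q μ x y : ℝ} (hq : 2 < q) (h1 : μ + (q - 2) < 1) (hx : 0 ≤ x)
    (hy : 0 ≤ y) (h : y < x) :
    Ph (q - 1 - μ) (1 - μ) x y * Ph (q - 1 - (μ + (q - 2))) (1 - (μ + (q - 2))) x y =
      (x ^ (q - 2) + y ^ (q - 2)) * Ph (q - 1 - (μ + (q - 2))) (1 - (μ + (q - 2))) x y -
        x ^ (q - 2) * y ^ (q - 2) := by
  have hc1 : q - 1 - (μ + (q - 2)) = 1 - μ := by ring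
  have hd : 0 < 1 - μ := by linarith
  have hd1 : 0 < 1 - (μ + (q - 2)) := by linarith
  have e1 : ∀ t : ℝ, 0 ≤ t → t ^ (1 - μ) = t ^ (q - 2) * t ^ (1 - (μ + (q - 2))) := by
    intro t ht
    rw [← Real.rpow_add_of_nonneg ht (by linarith) hd1.le]
    congr 1
    ring
  rw [hc1, s1a_of_lt h, s1a_of_lt h, s1a_split hq (by linarith) hx,
    s1a_split hq (by linarith) hy]
  have n1 := s1a_sub_pos hd hy h
  have n2 := s1a_sub_pos hd1 hy h
  rw [e1 x hx, e1 y hy] at *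
  field_simp
  ring

/-- `Φ^μ Φ^(μ+δ) = (x^δ + y^δ) Φ^(μ+δ) - x^δ y^δ`, `δ = q-2` -/
theorem Ph_rec (q μ x y : ℝ) (hq : 2 < q) (h0 : 0 ≤ μ) (h1 : μ + (q - 2) < 1) (hx : 0 ≤ x)
    (hy : 0 ≤ y) :
    Ph (q - 1 - μ) (1 - μ) x y * Ph (q - 1 - (μ + (q - 2))) (1 - (μ + (q - 2))) x y =
      (x ^ (q - 2) + y ^ (q - 2)) * Ph (q - 1 - (μ + (q - 2))) (1 - (μ + (q - 2))) x y -
        x ^ (q - 2) * y ^ (q - 2) := by
  rcases lt_trichotomy x y with h | h | h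
  · have := s1a_rec_lt hq h1 hy hx h
    rw [Ph_comm _ _ x y, Ph_comm _ _ x y, this]
    ring
  · subst h
    unfold Ph
    rw [if_pos rfl, if_pos rfl]
    have h2 : q - 1 - μ - (1 - μ) = q - 2 := by ring
    have h3 : q - 1 - (μ + (q - 2)) - (1 - (μ + (q - 2))) = q - 2 := by ring
    have hd : 1 - μ ≠ 0 := by linarith
    have hd1 : 1 - (μ + (q - 2)) ≠ 0 := by linarith
    rw [h2, h3]
    field_simp
    ring
  · exact s1a_rec_lt hq h1 hx hy h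

/-- `Φ^(μ+δ) = 0` only for `x = y = 0` -/
theorem Ph_pos (c d x y : ℝ) (hc : 0 < c) (hd : 0 < d) (hcd : d < c) (hx : 0 ≤ x) (hy : 0 ≤ y)
    (h : 0 < x ∨ 0 < y) : 0 < Ph c d x y := by
  rcases lt_trichotomy x y with h' | h' | h'
  · rw [Ph_comm]
    exact s1a_nonneg_lt hc hd hx h'
  · subst h'
    have hx' : 0 < x := by rcases h with h | h <;> exact h
    unfold Ph
    rw [if_pos rfl]
    have := Real.rpow_pos_of_pos hx' (c - d)
    positivity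
  · exact s1a_nonneg_lt hc hd hy h'

end Pool.Agent.LibSchQ
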