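import Pool.Agent.LibSchQ.B2
import Pool.Agent.LibSchQ.S1a

/-! **Y4.**  Comparison of the divided differences. -/

namespace Pool.Agent.LibSchQ

open Pool.Agent.LibSchP

private theorem y4_sp_nonneg {a x : ℝ} (hx : 0 ≤ x) : sp a x = x ^ a := by
  simp [sp, hx]

private theorem y4_sp_neg {a x : ℝ} (hx : x < 0) : sp a x = -((-x) ^ a) := by
  simp [sp, not_le.mpr hx]

private theorem y4_key {a b p : ℝ} (ha : 0 < a) (hb : 0 ≤ b) (hab : b < a) (hp : 1 < p) :
    (a ^ p + b ^ p) / (a + b) ≤ (a ^ p - b ^ p) / (a - b) := by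
  have h1 : 0 < a - b := by linarith
  have h2 : 0 < a + b := by linarith
  rw [div_le_div_iff₀ h2 h1]
  have h3 : a * b ^ p ≤ a ^ p * b := by
    rcases hb.eq_or_lt with hb | hb
    · subst hb
      rw [Real.zero_rpow (by linarith)]
      simp
    · have h4 : a ^ p = a ^ (p - 1) * a := by
        rw [← Real.rpow_add_one ha.ne']; congr 1; ring
      have h5 : b ^ p = b ^ (p - 1) * b := by
        rw [← Real.rpow_add_one hb.ne']; congr 1; ring
      have h6 : b ^ (p - 1) ≤ a ^ (p - 1) :=
        Real.rpow_le_rpow hb.le hab.le (by linarith)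
      rw [h4, h5]
      have h7 : 0 < a * b := mul_pos ha hb
      nlinarith
  nlinarith

private theorem y4_key' {a b p : ℝ} (ha : 0 ≤ a) (hb : 0 < b) (hab : a ≠ b) (hp : 1 < p) :
    (a ^ p + b ^ p) / (a + b) ≤ (a ^ p - b ^ p) / (a - b) := by
  rcases lt_or_gt_of_ne hab with h | h
  · have := y4_key hb ha h hp
    rw [add_comm (b ^ p), add_comm b] at this
    have h2 : (a ^ p - b ^ p) / (a - b) = (b ^ p - a ^ p) / (b - a) := by
      rw [← neg_div_neg_eq]; congr 1 <;> ring
    rw [h2]; exact this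
  · exact y4_key (hb.trans h) hb.le h hp

/-- same signs: equality; opposite signs:
`(x^(q-1) + y^(q-1))/(x+y) ≤ (x^(q-1) - y^(q-1))/(x-y)` for `x, y ≥ 0` (i.e.
`x y^(q-1) ≤ x^(q-1) y` for `y ≤ x`; for `x = y`: `x^(q-2) ≤ (q-1) x^(q-2)`). -/
theorem dps_le (q x y : ℝ) (hq : 2 < q) : dps q x y ≤ Ph (q - 1) 1 |x| |y| := by
  have e1 : q - 1 - 1 = q - 2 := by ring
  -- opposite signs
  have opp : ∀ a b : ℝ, 0 ≤ a → 0 < b →
      (a ^ (q - 1) + b ^ (q - 1)) / (a + b) ≤ Ph (q - 1) 1 a b := by
    intro a b ha hb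
    by_cases hab : a = b
    · subst hab
      simp only [Ph, if_true, div_one, e1]
      have h4 : a ^ (q - 1) = a ^ (q - 2) * a := by
        rw [← Real.rpow_add_one hb.ne']; congr 1; ring
      rw [h4]
      have h5 : (a ^ (q - 2) * a + a ^ (q - 2) * a) / (a + a) = a ^ (q - 2) := by
        field_simp
      rw [h5]
      have h6 : 0 ≤ a ^ (q - 2) := Real.rpow_nonneg ha _
      nlinarith
    · simp only [Ph, if_neg hab, Real.rpow_one]
      exact y4_key' ha hb hab (by linarith)
  have phsymm : ∀ a b : ℝ, Ph (q - 1) 1 a b = Ph (q - 1) 1 b a := by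
    intro a b
    by_cases hab : a = b
    · subst hab; rfl
    · simp only [Ph, if_neg hab, if_neg (Ne.symm hab)]
      rw [← neg_div_neg_eq]; congr 1 <;> ring
  by_cases hxy : x = y
  · subst hxy
    simp [dps, Ph, e1]
  · simp only [dps, if_neg hxy]
    rcases le_or_gt 0 x with hx | hx
    · rcases le_or_gt 0 y with hy | hy
      · rw [y4_sp_nonneg hx, y4_sp_nonneg hy, abs_of_nonneg hx, abs_of_nonneg hy]
        simp [Ph, if_neg hxy]
      · rw [y4_sp_nonneg hx, y4_sp_neg hy, abs_of_nonneg hx, abs_of_neg hy]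
        have := opp x (-y) hx (by linarith)
        simpa [sub_neg_eq_add, sub_eq_add_neg] using this
    · rcases le_or_gt 0 y with hy | hy
      · rw [y4_sp_neg hx, y4_sp_nonneg hy, abs_of_neg hx, abs_of_nonneg hy, phsymm]
        have := opp y (-x) hy (by linarith)
        refine le_trans (le_of_eq ?_) this
        rw [← neg_div_neg_eq]; congr 1 <;> ring
      · rw [y4_sp_neg hx, y4_sp_neg hy, abs_of_neg hx, abs_of_neg hy]
        have h : ¬ (-x = -y) := fun h => hxy (neg_injective h)
        simp only [Ph, if_neg h, Real.rpow_one]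
        apply le_of_eq
        rw [← neg_div_neg_eq]; congr 1 <;> ring

theorem dps_eq (q x y : ℝ) (hq : 2 < q) (hx : 0 < x) (hy : 0 < y) :
    dps q x y = Ph (q - 1) 1 x y := by
  have e1 : q - 1 - 1 = q - 2 := by ring
  by_cases hxy : x = y
  · subst hxy
    simp [dps, Ph, e1, abs_of_pos hx]
  · simp [dps, Ph, if_neg hxy, y4_sp_nonneg hx.le, y4_sp_nonneg hy.le]

theorem dps_nonneg (q x y : ℝ) (hq : 2 < q) : 0 ≤ dps q x y := by
  have hmono : ∀ u v : ℝ, u ≤ v → sp (q - 1) u ≤ sp (q - 1) v := by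
    intro u v huv
    rcases le_or_gt 0 u with hu | hu
    · rw [y4_sp_nonneg hu, y4_sp_nonneg (hu.trans huv)]
      exact Real.rpow_le_rpow hu huv (by linarith)
    · rcases le_or_gt 0 v with hv | hv
      · rw [y4_sp_neg hu, y4_sp_nonneg hv]
        have h1 : 0 ≤ (-u) ^ (q - 1) := Real.rpow_nonneg (by linarith) _
        have h2 : 0 ≤ v ^ (q - 1) := Real.rpow_nonneg hv _
        linarith
      · rw [y4_sp_neg hu, y4_sp_neg hv]
        have : (-v) ^ (q - 1) ≤ (-u) ^ (q - 1) :=
          Real.rpow_le_rpow (by linarith) (by linarith) (by linarith)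
        linarith
  by_cases hxy : x = y
  · subst hxy
    simp only [dps, if_true]
    exact mul_nonneg (by linarith) (Real.rpow_nonneg (abs_nonneg _) _)
  · simp only [dps, if_neg hxy]
    rcases lt_or_gt_of_ne hxy with h | h
    · exact div_nonneg_of_nonpos (by linarith [hmono x y h.le]) (by linarith)
    · exact div_nonneg (by linarith [hmono y x h.le]) (by linarith)

end Pool.Agent.LibSchQ
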