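import Pool.Agent.LibSchQ.Y3
import Pool.Agent.LibSchQ.Y4

/-! **LOCa.**  The local theorem: upper bound for one component. -/

open Matrix
open scoped ComplexOrder

namespace Pool.Agent.LibSchQ

open Pool.Agent.LibSchP

variable {κ ν : Type} [Fintype κ] [Fintype ν] [DecidableEq κ] [DecidableEq ν]

/-- the multiplier `1 + V (Δ θ⁻¹) Vᴴ` -/
noncomputable def Dm (θ : ν → ℝ) (V : Matrix κ ν ℂ) (Δ : Matrix ν ν ℂ) : Matrix κ κ ℂ :=
  1 + V * (Δ * dg fun k => (θ k)⁻¹) * Vᴴ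

/-- `∑ a_j Re D_jj = Re tr (dg a D)` -/
theorem loca_diag (a : κ → ℝ) (D : Matrix κ κ ℂ) :
    ∑ j, a j * (D j j).re = (trace (dg a * D)).re := by
  unfold Matrix.trace
  rw [Complex.re_sum]
  refine Finset.sum_congr rfl fun j _ => ?_
  rw [Matrix.diag_apply]
  unfold dg
  rw [Matrix.diagonal_mul, Complex.re_ofReal_mul]

theorem loca_dg_comm (a b : κ → ℝ) : dg a * dg b = dg b * dg a := by
  rw [dg_mul, dg_mul]
  congr 1
  funext k
  ring

theorem loca_trace_star (A : Matrix κ κ ℂ) : (trace Aᴴ).re = (trace A).re := by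
  rw [Matrix.trace_conjTranspose, Complex.star_def, Complex.conj_re]

/-- the first order terms -/
theorem loca_first (q : ℝ) (hq : 2 < q) (s : κ → ℝ) (V : Matrix κ ν ℂ) (z : Matrix ν ν ℂ) :
    ∑ j, sp (q - 1) (s j) *
        ((V * z * Vᴴ * dg s + dg s * (V * zᴴ * Vᴴ) + V * z * Vᴴ * dg s * (V * zᴴ * Vᴴ)) j j).re =
      2 * (trace (z * (Vᴴ * (dg fun j => |s j| ^ q) * V))).re +
      (trace ((Vᴴ * (dg fun j => sp (q - 1) (s j)) * V) * z * (Vᴴ * dg s * V) * zᴴ)).re := by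
  rw [loca_diag (fun j => sp (q - 1) (s j)), Matrix.mul_add, Matrix.mul_add, Matrix.trace_add,
    Matrix.trace_add, Complex.add_re, Complex.add_re]
  have hes : dg s * (dg fun j => sp (q - 1) (s j)) = dg fun j => |s j| ^ q := by
    rw [dg_mul]
    congr 1
    funext k
    exact mul_sp q (s k) (by linarith)
  have h1 : trace ((dg fun j => sp (q - 1) (s j)) * (V * z * Vᴴ * dg s)) =
      trace (z * (Vᴴ * (dg fun j => |s j| ^ q) * V)) := by
    rw [← hes]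
    calc trace ((dg fun j => sp (q - 1) (s j)) * (V * z * Vᴴ * dg s))
        = trace ((V * z * Vᴴ * dg s) * (dg fun j => sp (q - 1) (s j))) := Matrix.trace_mul_comm _ _
      _ = trace (V * (z * (Vᴴ * (dg s * dg fun j => sp (q - 1) (s j))))) := by
          simp only [Matrix.mul_assoc]
      _ = trace (z * (Vᴴ * (dg s * dg fun j => sp (q - 1) (s j))) * V) := Matrix.trace_mul_comm _ _
      _ = _ := by simp only [Matrix.mul_assoc]
  have h2 : (trace ((dg fun j => sp (q - 1) (s j)) * (dg s * (V * zᴴ * Vᴴ)))).re =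
      (trace ((dg fun j => sp (q - 1) (s j)) * (V * z * Vᴴ * dg s))).re := by
    rw [← loca_trace_star ((dg fun j => sp (q - 1) (s j)) * (V * z * Vᴴ * dg s))]
    congr 1
    rw [Matrix.conjTranspose_mul, Matrix.conjTranspose_mul, dg_conjTranspose, dg_conjTranspose,
      Matrix.conjTranspose_mul, Matrix.conjTranspose_mul, Matrix.conjTranspose_conjTranspose]
    rw [Matrix.trace_mul_comm (dg s * (V * (zᴴ * Vᴴ)))]
    simp only [Matrix.mul_assoc]
  have h3 : trace ((dg fun j => sp (q - 1) (s j)) * (V * z * Vᴴ * dg s * (V * zᴴ * Vᴴ))) =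
      trace ((Vᴴ * (dg fun j => sp (q - 1) (s j)) * V) * z * (Vᴴ * dg s * V) * zᴴ) := by
    calc trace ((dg fun j => sp (q - 1) (s j)) * (V * z * Vᴴ * dg s * (V * zᴴ * Vᴴ)))
        = trace (((dg fun j => sp (q - 1) (s j)) * V * z * (Vᴴ * dg s * V) * zᴴ) * Vᴴ) := by
          simp only [Matrix.mul_assoc]
      _ = trace (Vᴴ * ((dg fun j => sp (q - 1) (s j)) * V * z * (Vᴴ * dg s * V) * zᴴ)) :=
          Matrix.trace_mul_comm _ _
      _ = _ := by simp only [Matrix.mul_assoc]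
  rw [h2, h1, h3]
  ring

/-- the second order term: `M + N` may be replaced by `M` -/
theorem loca_second (q : ℝ) (hq : 2 < q) (s : κ → ℝ) (M N : Matrix κ κ ℂ) :
    ∑ i, ∑ j, dps q (s i) (s j) * ‖(M + N) i j‖ ^ 2 ≤
      ∑ i, ∑ j, Ph (q - 1) 1 |s i| |s j| * ‖M i j‖ ^ 2 +
        (∑ i, ∑ j, dps q (s i) (s j)) * (2 * nf M * nf N + nf N ^ 2) := by
  rw [Finset.sum_mul, ← Finset.sum_add_distrib]
  refine Finset.sum_le_sum fun i _ => ?_
  rw [Finset.sum_mul, ← Finset.sum_add_distrib]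
  refine Finset.sum_le_sum fun j _ => ?_
  have h0 := dps_nonneg q (s i) (s j) hq
  have h1 := dps_le q (s i) (s j) hq
  have h2 : ‖(M + N) i j‖ ^ 2 ≤ ‖M i j‖ ^ 2 + (2 * nf M * nf N + nf N ^ 2) := by
    have e1 : ‖(M + N) i j‖ ≤ ‖M i j‖ + ‖N i j‖ := by
      rw [Matrix.add_apply]
      exact norm_add_le _ _
    have e2 := norm_le_nf M i j
    have e3 := norm_le_nf N i j
    have e4 := norm_nonneg ((M + N) i j)
    have e5 := norm_nonneg (M i j)
    have e6 := norm_nonneg (N i j)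
    have e7 := nf_nonneg M
    calc ‖(M + N) i j‖ ^ 2 ≤ (‖M i j‖ + ‖N i j‖) ^ 2 := pow_le_pow_left₀ e4 e1 2
      _ = ‖M i j‖ ^ 2 + (2 * ‖M i j‖ * ‖N i j‖ + ‖N i j‖ ^ 2) := by ring
      _ ≤ ‖M i j‖ ^ 2 + (2 * nf M * nf N + nf N ^ 2) := by gcongr
  calc dps q (s i) (s j) * ‖(M + N) i j‖ ^ 2
      ≤ dps q (s i) (s j) * (‖M i j‖ ^ 2 + (2 * nf M * nf N + nf N ^ 2)) :=
        mul_le_mul_of_nonneg_left h2 h0
    _ = dps q (s i) (s j) * ‖M i j‖ ^ 2 + dps q (s i) (s j) * (2 * nf M * nf N + nf N ^ 2) := by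
        ring
    _ ≤ _ := by gcongr

/-- Upper second order bound for one component.  `z = Δ θ⁻¹`, `Z = V z Vᴴ`,
`Dm s Dmᴴ - s = Z s + s Zᴴ + Z s Zᴴ`, `nf ≤ C nf Δ`; `taylor`; first order term of `Z s + s Zᴴ`:
`2 Re tr z (Vᴴ |s|^q V)`; of `Z s Zᴴ`: `Re tr (Vᴴ sp(q-1)(s) V) z (Vᴴ s V) zᴴ`; in the second
order term replace `B - dg s` by `M = Z s + s Zᴴ` (error `O(nf Δ ^ 3)`) and use `dps_le`. -/
theorem comp_upper (q : ℝ) (hq : 2 < q) (s : κ → ℝ) (V : Matrix κ ν ℂ) (hV : Vᴴ * V = 1)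
    (θ : ν → ℝ) (hθ : ∀ k, 0 < θ k) (ε : ℝ) (hε : 0 < ε) :
    ∃ η : ℝ, 0 < η ∧ ∀ Δ : Matrix ν ν ℂ, nf Δ ≤ η →
      LibSch.pw q (Dm θ V Δ * dg s * (Dm θ V Δ)ᴴ) ≤
        ∑ j, |s j| ^ q +
        2 * q * (trace (Δ * (dg fun k => (θ k)⁻¹) * (Vᴴ * (dg fun j => |s j| ^ q) * V))).re +
        q * (trace ((Vᴴ * (dg fun j => sp (q - 1) (s j)) * V) * (Δ * dg fun k => (θ k)⁻¹) *
          (Vᴴ * dg s * V) * (Δ * dg fun k => (θ k)⁻¹)ᴴ)).re +
        q / 2 * ∑ i, ∑ j, Ph (q - 1) 1 |s i| |s j| *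
          ‖(V * (Δ * dg fun k => (θ k)⁻¹) * Vᴴ * dg s +
            dg s * (V * (Δ * dg fun k => (θ k)⁻¹)ᴴ * Vᴴ)) i j‖ ^ 2 +
        ε * fr Δ := by
  -- constants
  set c : ℝ := nf V * nf (dg fun k => (θ k)⁻¹) * nf V with hc
  have hc0 : 0 ≤ c := mul_nonneg (mul_nonneg (nf_nonneg _) (nf_nonneg _)) (nf_nonneg _)
  set a : ℝ := 2 * (c * nf (dg s)) with ha
  have ha0 : 0 ≤ a := by have := nf_nonneg (dg s); positivity
  set b : ℝ := c * nf (dg s) * c with hb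
  have hb0 : 0 ≤ b := by have := nf_nonneg (dg s); positivity
  set K : ℝ := ∑ i, ∑ j, dps q (s i) (s j) with hK
  have hK0 : 0 ≤ K := Finset.sum_nonneg fun i _ => Finset.sum_nonneg fun j _ => dps_nonneg _ _ _ hq
  obtain ⟨η₁, hη₁, hT⟩ := taylor q hq s (ε / (2 * ((a + b) ^ 2 + 1))) (by positivity)
  set L : ℝ := q / 2 * K * (2 * a * b + b ^ 2) with hL
  have hq0 : 0 < q := by linarith
  have hL0 : 0 ≤ L := by positivity
  refine ⟨min 1 (min (η₁ / (a + b + 1)) (ε / (2 * (L + 1)))), by positivity, fun Δ hΔ => ?_⟩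
  have hΔ1 : nf Δ ≤ 1 := hΔ.trans (min_le_left _ _)
  have hΔ2 : nf Δ ≤ η₁ / (a + b + 1) := hΔ.trans ((min_le_right _ _).trans (min_le_left _ _))
  have hΔ3 : nf Δ ≤ ε / (2 * (L + 1)) := hΔ.trans ((min_le_right _ _).trans (min_le_right _ _))
  have hΔ0 := nf_nonneg Δ
  set t := nf Δ with ht
  set z : Matrix ν ν ℂ := Δ * dg fun k => (θ k)⁻¹ with hz
  set Z : Matrix κ κ ℂ := V * z * Vᴴ with hZ
  have hZn : nf Z ≤ c * t := by
    calc nf Z ≤ nf (V * z) * nf Vᴴ := nf_mul_le _ _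
      _ ≤ (nf V * nf z) * nf V := by
          rw [nf_conjTranspose]
          exact mul_le_mul_of_nonneg_right (nf_mul_le _ _) (nf_nonneg _)
      _ ≤ (nf V * (t * nf (dg fun k => (θ k)⁻¹))) * nf V := by
          have := nf_mul_le Δ (dg fun k => (θ k)⁻¹)
          have h1 := nf_nonneg V
          gcongr
      _ = c * t := by rw [hc]; ring
  have hZH : Zᴴ = V * zᴴ * Vᴴ := by
    rw [hZ, Matrix.conjTranspose_mul, Matrix.conjTranspose_mul, Matrix.conjTranspose_conjTranspose]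
    simp only [Matrix.mul_assoc]
  set M : Matrix κ κ ℂ := Z * dg s + dg s * Zᴴ with hM
  set N : Matrix κ κ ℂ := Z * dg s * Zᴴ with hN
  have hMn : nf M ≤ a * t := by
    calc nf M ≤ nf (Z * dg s) + nf (dg s * Zᴴ) := nf_add_le _ _
      _ ≤ nf Z * nf (dg s) + nf (dg s) * nf Z := by
          refine add_le_add (nf_mul_le _ _) ?_
          have := nf_mul_le (dg s) Zᴴ
          rwa [nf_conjTranspose] at this
      _ = 2 * nf (dg s) * nf Z := by ring
      _ ≤ 2 * nf (dg s) * (c * t) := by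
          have := nf_nonneg (dg s)
          gcongr
      _ = a * t := by rw [ha]; ring
  have hNn : nf N ≤ b * t ^ 2 := by
    calc nf N ≤ nf (Z * dg s) * nf Zᴴ := nf_mul_le _ _
      _ ≤ (nf Z * nf (dg s)) * nf Z := by
          rw [nf_conjTranspose]
          exact mul_le_mul_of_nonneg_right (nf_mul_le _ _) (nf_nonneg _)
      _ ≤ (c * t * nf (dg s)) * (c * t) := by
          have h1 := nf_nonneg (dg s)
          have h2 := nf_nonneg Z
          gcongr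
      _ = b * t ^ 2 := by rw [hb]; ring
  have hBs : Dm θ V Δ * dg s * (Dm θ V Δ)ᴴ = dg s + (M + N) := by
    have e1 : Dm θ V Δ = 1 + Z := rfl
    rw [e1, Matrix.conjTranspose_add, Matrix.conjTranspose_one]
    rw [hM, hN]
    noncomm_ring
  have hherm : (Dm θ V Δ * dg s * (Dm θ V Δ)ᴴ).IsHermitian :=
    isHermitian_mul_mul_conjTranspose _ (dg_isHermitian s)
  have hsub : Dm θ V Δ * dg s * (Dm θ V Δ)ᴴ - dg s = M + N := by
    rw [hBs, add_sub_cancel_left]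
  have ht2 : t ^ 2 ≤ t := by nlinarith
  have hMN : nf (M + N) ≤ (a + b) * t := by
    calc nf (M + N) ≤ nf M + nf N := nf_add_le _ _
      _ ≤ a * t + b * t ^ 2 := add_le_add hMn hNn
      _ ≤ a * t + b * t := by gcongr
      _ = _ := by ring
  have hMN1 : nf (M + N) ≤ η₁ := by
    refine hMN.trans ?_
    have h1 : (a + b + 1) * t ≤ η₁ := by
      rw [le_div_iff₀ (by positivity)] at hΔ2
      linarith
    nlinarith
  have hTay := hT (Dm θ V Δ * dg s * (Dm θ V Δ)ᴴ) hherm (by rw [hsub]; exact hMN1)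
  rw [hsub] at hTay
  have hTay2 := (abs_le.1 hTay).2
  -- first order terms
  have hfirst := loca_first q hq s V z
  rw [← hZ, ← hZH, ← hM, ← hN] at hfirst
  rw [hfirst] at hTay2
  -- second order terms
  have hsec := loca_second q hq s M N
  rw [← hK] at hsec
  have hfr : fr (M + N) ≤ ((a + b) * t) ^ 2 := by
    rw [← nf_sq]
    exact pow_le_pow_left₀ (nf_nonneg _) hMN 2
  have herr1 : ε / (2 * ((a + b) ^ 2 + 1)) * fr (M + N) ≤ ε / 2 * t ^ 2 := by
    calc ε / (2 * ((a + b) ^ 2 + 1)) * fr (M + N)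
        ≤ ε / (2 * ((a + b) ^ 2 + 1)) * ((a + b) * t) ^ 2 := by gcongr
      _ = ε / 2 * t ^ 2 * ((a + b) ^ 2 / ((a + b) ^ 2 + 1)) := by field_simp
      _ ≤ ε / 2 * t ^ 2 * 1 := by
          have h1 : (a + b) ^ 2 / ((a + b) ^ 2 + 1) ≤ 1 := by
            rw [div_le_one (by positivity)]
            linarith
          gcongr
      _ = _ := by ring
  have herr2 : q / 2 * (K * (2 * nf M * nf N + nf N ^ 2)) ≤ ε / 2 * t ^ 2 := by
    have h1 : 2 * nf M * nf N + nf N ^ 2 ≤ (2 * a * b + b ^ 2) * (t * t ^ 2) := by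
      have e1 : 2 * nf M * nf N ≤ 2 * (a * t) * (b * t ^ 2) := by
        have := nf_nonneg M
        have := nf_nonneg N
        gcongr
      have e2 : nf N ^ 2 ≤ (b * t ^ 2) ^ 2 := pow_le_pow_left₀ (nf_nonneg _) hNn 2
      have e3 : (b * t ^ 2) ^ 2 ≤ b ^ 2 * (t * t ^ 2) := by
        have : (b * t ^ 2) ^ 2 = b ^ 2 * (t ^ 2 * t ^ 2) := by ring
        rw [this]
        gcongr
      calc 2 * nf M * nf N + nf N ^ 2 ≤ 2 * (a * t) * (b * t ^ 2) + b ^ 2 * (t * t ^ 2) :=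
            add_le_add e1 (e2.trans e3)
        _ = _ := by ring
    have h2 : L * t ≤ ε / 2 := by
      rw [le_div_iff₀ (by positivity)] at hΔ3
      nlinarith
    calc q / 2 * (K * (2 * nf M * nf N + nf N ^ 2))
        ≤ q / 2 * (K * ((2 * a * b + b ^ 2) * (t * t ^ 2))) := by gcongr
      _ = L * t * t ^ 2 := by rw [hL]; ring
      _ ≤ ε / 2 * t ^ 2 := by gcongr
  have hfrΔ : fr Δ = t ^ 2 := by rw [ht, nf_sq]
  rw [← hZH, hfrΔ]
  have hsec2 := mul_le_mul_of_nonneg_left hsec (show (0 : ℝ) ≤ q / 2 by positivity)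
  rw [mul_add] at hsec2
  linarith

end Pool.Agent.LibSchQ
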