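import Pool.Agent.LibSchQ.Y2
import Pool.Agent.LibSchQ.LOCa

/-! **G2b.**  The gauge. -/

open Matrix
open scoped ComplexOrder

namespace Pool.Agent.LibSchQ

open Pool.Agent.LibSchP

variable {κ ν : Type} [Fintype κ] [Fintype ν] [DecidableEq κ] [DecidableEq ν]

/-- The polar factor: two invertible matrices with the same `RᴴR` differ by a unitary. -/
theorem unitary_factor (R R' : Matrix ν ν ℂ) (hR : IsUnit R.det) (h : Rᴴ * R = R'ᴴ * R') :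
    ∃ Y ∈ unitaryGroup ν ℂ, R = Y * R' := by
  have hR' : IsUnit R'.det := by
    have h1 : (Rᴴ * R).det = (R'ᴴ * R').det := congrArg Matrix.det h
    rw [Matrix.det_mul, Matrix.det_mul] at h1
    have h2 : IsUnit (Rᴴ.det * R.det) := by
      rw [Matrix.det_conjTranspose]
      exact hR.star.mul hR
    rw [h1] at h2
    exact isUnit_of_mul_isUnit_right h2
  refine ⟨R * R'⁻¹, ?_, ?_⟩
  · rw [Matrix.mem_unitaryGroup_iff', Matrix.star_eq_conjTranspose, Matrix.conjTranspose_mul,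
      Matrix.conjTranspose_nonsing_inv]
    have h3 : R'ᴴ⁻¹ * Rᴴ * (R * R'⁻¹) = R'ᴴ⁻¹ * (Rᴴ * R) * R'⁻¹ := by
      simp only [Matrix.mul_assoc]
    rw [h3, h]
    have h4 : IsUnit R'ᴴ.det := by
      rw [Matrix.det_conjTranspose]
      exact hR'.star
    rw [← Matrix.mul_assoc, Matrix.nonsing_inv_mul _ h4, Matrix.one_mul, Matrix.mul_nonsing_inv _ hR']
  · rw [Matrix.mul_assoc, Matrix.nonsing_inv_mul _ hR', Matrix.mul_one]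

theorem g2b_mul (ι : Matrix κ ν ℂ) (hι : ιᴴ * ι = 1) (A B : Matrix ν ν ℂ) :
    (1 + ι * (A - 1) * ιᴴ) * (1 + ι * (B - 1) * ιᴴ) = 1 + ι * (A * B - 1) * ιᴴ := by
  have h1 : ι * (A - 1) * ιᴴ * (ι * (B - 1) * ιᴴ) = ι * ((A - 1) * (B - 1)) * ιᴴ := by
    calc ι * (A - 1) * ιᴴ * (ι * (B - 1) * ιᴴ) = ι * (A - 1) * (ιᴴ * ι) * (B - 1) * ιᴴ := by
          simp only [Matrix.mul_assoc]
      _ = ι * ((A - 1) * (B - 1)) * ιᴴ := by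
          rw [hι, Matrix.mul_one]
          simp only [Matrix.mul_assoc]
  have h2 : A * B - 1 = (A - 1) + ((B - 1) + (A - 1) * (B - 1)) := by
    rw [Matrix.sub_mul, Matrix.mul_sub, Matrix.mul_one, Matrix.one_mul]
    abel
  have h3 : ι * (A * B - 1) * ιᴴ = ι * (A - 1) * ιᴴ + (ι * (B - 1) * ιᴴ +
      ι * ((A - 1) * (B - 1)) * ιᴴ) := by
    rw [h2, Matrix.mul_add, Matrix.mul_add, Matrix.add_mul, Matrix.add_mul]
  rw [h3, ← h1, Matrix.mul_add, Matrix.mul_one, Matrix.add_mul, Matrix.one_mul]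
  abel

omit [Fintype κ] in
theorem g2b_star (ι : Matrix κ ν ℂ) (A : Matrix ν ν ℂ) :
    (1 + ι * (A - 1) * ιᴴ)ᴴ = 1 + ι * (Aᴴ - 1) * ιᴴ := by
  rw [Matrix.conjTranspose_add, Matrix.conjTranspose_one, Matrix.conjTranspose_mul,
    Matrix.conjTranspose_mul, Matrix.conjTranspose_conjTranspose, Matrix.conjTranspose_sub,
    Matrix.conjTranspose_one, Matrix.mul_assoc]

omit [Fintype κ] in
theorem g2b_Dm (θ : ν → ℝ) (hθ : ∀ k, 0 < θ k) (V : Matrix κ ν ℂ) (Θ : Matrix ν ν ℂ) :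
    Dm θ V (Θ - dg θ) = 1 + V * (Θ * (dg fun k => (θ k)⁻¹) - 1) * Vᴴ := by
  unfold Dm
  rw [Matrix.sub_mul, dg_mul_inv θ hθ]

theorem g2b_pw (q : ℝ) (Y : Matrix κ κ ℂ) (hY : Y ∈ unitaryGroup κ ℂ) (M : Matrix κ κ ℂ) :
    LibSch.pw q (Y * M * Yᴴ) = LibSch.pw q M := by
  have hY' : Yᴴ ∈ unitaryGroup κ ℂ := a4a_conj_mem Y hY
  exact LibSch.pw_unitary q M ⟨Y, hY⟩ ⟨Yᴴ, hY'⟩

/-- `R = Y (W Θ θ⁻¹ Wᴴ)`; `1 + ι (R - 1) ιᴴ = (1 + ι (Y-1) ιᴴ)(1 + ι (W Θ θ⁻¹ Wᴴ - 1) ιᴴ)`, the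
first factor is unitary; `Uᴴ (1 + ι (WΘθ⁻¹Wᴴ - 1) ιᴴ) U = Dm θ V (Θ - θ)`; `pw_unitary`. -/
theorem gauge_eq (q : ℝ) (hq : 2 < q) (S : Matrix κ κ ℂ) (ι : Matrix κ ν ℂ) (hι : ιᴴ * ι = 1)
    (s : κ → ℝ) (U : Matrix κ κ ℂ) (W : Matrix ν ν ℂ) (x : ν → ℝ) (O : Matrix ν ν ℂ)
    (θ : ν → ℝ) (hU : U ∈ unitaryGroup κ ℂ) (hW : W ∈ unitaryGroup ν ℂ)
    (hO : O ∈ unitaryGroup ν ℂ) (hS : S = ud U s)
    (hX : Wᴴ * (ιᴴ * S * ι) * W = Oᴴ * dg x * O) (hθ : ∀ k, 0 < θ k) (R Θ : Matrix ν ν ℂ)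
    (hΘ : Θ.IsHermitian) (hR : IsUnit R.det)
    (h : Rᴴ * R = W * ((dg fun k => (θ k)⁻¹) * (Θ * Θ) * dg fun k => (θ k)⁻¹) * Wᴴ) :
    LibSch.pw q ((1 + ι * (R - 1) * ιᴴ) * S * (1 + ι * (R - 1) * ιᴴ)ᴴ) =
      LibSch.pw q (Dm θ (Uᴴ * ι * W) (Θ - dg θ) * dg s *
        (Dm θ (Uᴴ * ι * W) (Θ - dg θ))ᴴ) ∧
    LibSch.pw q (R * (ιᴴ * S * ι) * Rᴴ) =
      LibSch.pw q (Dm θ O (Θ - dg θ) * dg x * (Dm θ O (Θ - dg θ))ᴴ) := by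
  have hU1 := a2_uu U hU
  have hU2 := a2_uu' U hU
  have hW1 := a2_uu W hW
  have hW2 := a2_uu' W hW
  have hO1 := a2_uu O hO
  have hO2 := a2_uu' O hO
  obtain ⟨N, hN⟩ : ∃ N : Matrix ν ν ℂ, N = Θ * dg fun k => (θ k)⁻¹ := ⟨_, rfl⟩
  have hNs : Nᴴ = (dg fun k => (θ k)⁻¹) * Θ := by
    rw [hN, Matrix.conjTranspose_mul, dg_conjTranspose, hΘ.eq]
  obtain ⟨Y, hY, hRY⟩ := unitary_factor R (W * N * Wᴴ) hR (by
    rw [h, Matrix.conjTranspose_mul, Matrix.conjTranspose_mul, Matrix.conjTranspose_conjTranspose]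
    have e1 : W * (Nᴴ * Wᴴ) * (W * N * Wᴴ) = W * (Nᴴ * (Wᴴ * W) * N) * Wᴴ := by
      simp only [Matrix.mul_assoc]
    rw [e1, hW1, Matrix.mul_one, hNs, hN]
    simp only [Matrix.mul_assoc])
  have hY1 := a2_uu Y hY
  have hY2 := a2_uu' Y hY
  constructor
  · -- big part
    have hYt : (1 + ι * (Y - 1) * ιᴴ) ∈ unitaryGroup κ ℂ := by
      rw [Matrix.mem_unitaryGroup_iff', Matrix.star_eq_conjTranspose, g2b_star, g2b_mul ι hι, hY1,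
        sub_self, Matrix.mul_zero, Matrix.zero_mul, add_zero]
    have e1 : 1 + ι * (R - 1) * ιᴴ =
        (1 + ι * (Y - 1) * ιᴴ) * (1 + ι * (W * N * Wᴴ - 1) * ιᴴ) := by
      rw [g2b_mul ι hι, hRY]
    have e2 : 1 + ι * (W * N * Wᴴ - 1) * ιᴴ = U * Dm θ (Uᴴ * ι * W) (Θ - dg θ) * Uᴴ := by
      rw [g2b_Dm θ hθ, ← hN, Matrix.mul_add, Matrix.add_mul, Matrix.mul_one, hU2]
      congr 1
      have e3 : W * N * Wᴴ - 1 = W * (N - 1) * Wᴴ := by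
        rw [Matrix.mul_sub, Matrix.sub_mul, Matrix.mul_one, hW2]
      rw [e3, Matrix.conjTranspose_mul, Matrix.conjTranspose_mul,
        Matrix.conjTranspose_conjTranspose]
      have e4 : U * (Uᴴ * ι * W * (N - 1) * (Wᴴ * (ιᴴ * U))) * Uᴴ =
          (U * Uᴴ) * ι * (W * (N - 1) * Wᴴ) * ιᴴ * (U * Uᴴ) := by
        simp only [Matrix.mul_assoc]
      rw [e4, hU2, Matrix.one_mul, Matrix.mul_one]
    obtain ⟨D, hD⟩ : ∃ D : Matrix κ κ ℂ, D = Dm θ (Uᴴ * ι * W) (Θ - dg θ) := ⟨_, rfl⟩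
    obtain ⟨Z, hZ⟩ : ∃ Z : Matrix κ κ ℂ, Z = 1 + ι * (Y - 1) * ιᴴ := ⟨_, rfl⟩
    rw [e1, e2, ← hD, ← hZ, hS]
    rw [← hZ] at hYt
    have e5 : Z * (U * D * Uᴴ) * ud U s * (Z * (U * D * Uᴴ))ᴴ = (Z * U) * (D * dg s * Dᴴ) *
        (Z * U)ᴴ := by
      unfold ud
      simp only [Matrix.conjTranspose_mul, Matrix.conjTranspose_conjTranspose]
      calc Z * (U * D * Uᴴ) * (U * dg s * Uᴴ) * (U * (Dᴴ * Uᴴ) * Zᴴ) =
          Z * U * D * (Uᴴ * U) * dg s * (Uᴴ * U) * Dᴴ * Uᴴ * Zᴴ := by simp only [Matrix.mul_assoc]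
        _ = Z * U * (D * dg s * Dᴴ) * (Uᴴ * Zᴴ) := by
          rw [hU1, Matrix.mul_one, Matrix.mul_one]
          simp only [Matrix.mul_assoc]
    rw [e5]
    exact g2b_pw q (Z * U) (mul_mem hYt hU) _
  · have e1 : Dm θ O (Θ - dg θ) = O * N * Oᴴ := by
      rw [g2b_Dm θ hθ, ← hN, Matrix.mul_sub, Matrix.sub_mul, Matrix.mul_one, hO2]
      abel
    have e2 : R * (ιᴴ * S * ι) * Rᴴ = (Y * W * Oᴴ) * (O * N * Oᴴ * dg x * (O * N * Oᴴ)ᴴ) *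
        (Y * W * Oᴴ)ᴴ := by
      simp only [hRY, Matrix.conjTranspose_mul, Matrix.conjTranspose_conjTranspose]
      calc Y * (W * N * Wᴴ) * (ιᴴ * S * ι) * (W * (Nᴴ * Wᴴ) * Yᴴ) =
          Y * W * N * (Wᴴ * (ιᴴ * S * ι) * W) * Nᴴ * Wᴴ * Yᴴ := by simp only [Matrix.mul_assoc]
        _ = Y * W * N * (Oᴴ * dg x * O) * Nᴴ * Wᴴ * Yᴴ := by rw [hX]
        _ = Y * W * (Oᴴ * O) * N * (Oᴴ * dg x * O) * Nᴴ * (Oᴴ * O) * Wᴴ * Yᴴ := by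
          rw [hO1, Matrix.mul_one, Matrix.mul_one]
        _ = Y * W * Oᴴ * (O * N * Oᴴ * dg x * (O * (Nᴴ * Oᴴ))) * (O * (Wᴴ * Yᴴ)) := by
          simp only [Matrix.mul_assoc]
    rw [e1, e2]
    exact g2b_pw q (Y * W * Oᴴ) (mul_mem (mul_mem hY hW) (a4a_conj_mem O hO)) _

end Pool.Agent.LibSchQ
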