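import Pool.Agent.LibSchQ.QS
import Pool.Agent.LibSchQ.LOCa

/-! **LOC.**  The local theorem. -/

open Matrix
open scoped ComplexOrder

namespace Pool.Agent.LibSchQ

open Pool.Agent.LibSchP

variable {κ ν : Type} [Fintype κ] [Fintype ν] [DecidableEq κ] [DecidableEq ν]

/-- Lower bound for the model: `taylor` at `θ`, `dps_eq`. -/
theorem model_lower (q : ℝ) (hq : 2 < q) (θ : ν → ℝ) (hθ : ∀ k, 0 < θ k) (ε : ℝ) (hε : 0 < ε) :
    ∃ η : ℝ, 0 < η ∧ ∀ Δ : Matrix ν ν ℂ, Δ.IsHermitian → nf Δ ≤ η →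
      ∑ k, θ k ^ q + q * ∑ k, θ k ^ (q - 1) * (Δ k k).re +
        q / 2 * ∑ i, ∑ j, Ph (q - 1) 1 (θ i) (θ j) * ‖Δ i j‖ ^ 2 - ε * fr Δ ≤
      LibSch.pw q (dg θ + Δ) := by
  obtain ⟨η, hη, hT⟩ := taylor q hq θ ε hε
  refine ⟨η, hη, fun Δ hΔ hn => ?_⟩
  have hsub : dg θ + Δ - dg θ = Δ := add_sub_cancel_left _ _
  have h := hT (dg θ + Δ) ((dg_isHermitian θ).add hΔ) (by rw [hsub]; exact hn)
  rw [hsub] at h
  have h2 := (abs_le.1 h).1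
  have e1 : ∑ j, |θ j| ^ q = ∑ j, θ j ^ q :=
    Finset.sum_congr rfl fun j _ => by rw [abs_of_pos (hθ j)]
  have e2 : ∑ j, sp (q - 1) (θ j) * (Δ j j).re = ∑ j, θ j ^ (q - 1) * (Δ j j).re :=
    Finset.sum_congr rfl fun j _ => by rw [sp_pos _ _ (hθ j).le]
  have e3 : ∑ i, ∑ j, dps q (θ i) (θ j) * ‖Δ i j‖ ^ 2 =
      ∑ i, ∑ j, Ph (q - 1) 1 (θ i) (θ j) * ‖Δ i j‖ ^ 2 :=
    Finset.sum_congr rfl fun i _ => Finset.sum_congr rfl fun j _ => by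
      rw [dps_eq q (θ i) (θ j) hq (hθ i) (hθ j)]
  rw [e1, e2, e3] at h2
  linarith

theorem loc_tr (q : ℝ) (θ : ν → ℝ) (hθ : ∀ k, 0 < θ k) (Δ : Matrix ν ν ℂ) :
    (trace (Δ * (dg fun k => (θ k)⁻¹) * dg fun k => θ k ^ q)).re =
      ∑ k, θ k ^ (q - 1) * (Δ k k).re := by
  rw [loca_diag (fun k => θ k ^ (q - 1)), Matrix.mul_assoc, dg_mul, Matrix.trace_mul_comm]
  congr 3
  congr 1
  funext k
  rw [Real.rpow_sub (hθ k), Real.rpow_one]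
  field_simp

theorem loc_kt (q : ℝ) (θ : ν → ℝ) (hθ : ∀ k, 0 < θ k) (Δ : Matrix ν ν ℂ) :
    kt (fun a b => Ph (q - 1) 1 a b * b ^ 2) θ (Δ * dg fun k => (θ k)⁻¹) =
      ∑ i, ∑ j, Ph (q - 1) 1 (θ i) (θ j) * ‖Δ i j‖ ^ 2 := by
  unfold kt
  refine Finset.sum_congr rfl fun i _ => Finset.sum_congr rfl fun j _ => ?_
  have e1 : (Δ * dg fun k => (θ k)⁻¹) i j = Δ i j * (((θ j)⁻¹ : ℝ) : ℂ) := by
    unfold dg
    rw [Matrix.mul_diagonal]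
  have hj := (hθ j).ne'
  rw [e1, norm_mul, Complex.norm_real, Real.norm_eq_abs, mul_pow, sq_abs]
  field_simp

/-- **LOC**: `comp_upper` for both components, `model_lower`, `qs` with `z = w = Δ θ⁻¹`,
`hpow` (first order terms: `2q Re tr Δ θ⁻¹ θ^q`), `hpsi`, `hX` (second order term of `Z s Zᴴ`
vanishes). -/
theorem loc {q lam : ℝ} {s : κ → ℝ} {V : Matrix κ ν ℂ} {x : ν → ℝ} {O : Matrix ν ν ℂ}
    {θ : ν → ℝ} (D : Dat q lam s V x O θ) (ε : ℝ) (hε : 0 < ε) :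
    ∃ η : ℝ, 0 < η ∧ ∀ Δ : Matrix ν ν ℂ, Δ.IsHermitian → nf Δ ≤ η →
      LibSch.pw q (Dm θ V Δ * dg s * (Dm θ V Δ)ᴴ) +
        lam * LibSch.pw q (Dm θ O Δ * dg x * (Dm θ O Δ)ᴴ) ≤
      ∑ j, |s j| ^ q + lam * ∑ j, |x j| ^ q +
        2 * (LibSch.pw q (dg θ + Δ) - ∑ k, θ k ^ q) + ε * fr Δ := by
  have hlam := D.hlam
  have hq := D.hq
  have hq0 : 0 < q := by linarith
  obtain ⟨η₁, hη₁, h₁⟩ := comp_upper q hq s V D.hV θ D.hθ (ε / (2 * (1 + lam))) (by positivity)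
  obtain ⟨η₂, hη₂, h₂⟩ := comp_upper q hq x O D.hO θ D.hθ (ε / (2 * (1 + lam))) (by positivity)
  obtain ⟨η₃, hη₃, h₃⟩ := model_lower q hq θ D.hθ (ε / 4) (by positivity)
  refine ⟨min η₁ (min η₂ η₃), by positivity, fun Δ hΔ hn => ?_⟩
  have i₁ := h₁ Δ (hn.trans (min_le_left _ _))
  have i₂ := h₂ Δ (hn.trans ((min_le_right _ _).trans (min_le_left _ _)))
  have i₃ := h₃ Δ hΔ (hn.trans ((min_le_right _ _).trans (min_le_right _ _)))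
  have i₄ := qs D (Δ * dg fun k => (θ k)⁻¹) (Δ * dg fun k => (θ k)⁻¹)
  rw [loc_kt q θ D.hθ Δ] at i₄
  -- first order terms
  have e₁ : (trace (Δ * (dg fun k => (θ k)⁻¹) * (Vᴴ * (dg fun j => |s j| ^ q) * V))).re +
      lam * (trace (Δ * (dg fun k => (θ k)⁻¹) * (Oᴴ * (dg fun j => |x j| ^ q) * O))).re =
      ∑ k, θ k ^ (q - 1) * (Δ k k).re := by
    rw [← loc_tr q θ D.hθ Δ, ← D.hpow, Matrix.mul_add, Matrix.trace_add, Complex.add_re,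
      Matrix.mul_smul, Matrix.trace_smul, smul_eq_mul, Complex.re_ofReal_mul]
  -- second order term of `Z s Zᴴ`
  have e₂ : (trace ((Vᴴ * (dg fun j => sp (q - 1) (s j)) * V) * (Δ * dg fun k => (θ k)⁻¹) *
          (Vᴴ * dg s * V) * (Δ * dg fun k => (θ k)⁻¹)ᴴ)).re +
      lam * (trace ((Oᴴ * (dg fun j => sp (q - 1) (x j)) * O) * (Δ * dg fun k => (θ k)⁻¹) *
          (Oᴴ * dg x * O) * (Δ * dg fun k => (θ k)⁻¹)ᴴ)).re = 0 := by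
    have e : (Vᴴ * (dg fun j => sp (q - 1) (s j)) * V) * (Δ * dg fun k => (θ k)⁻¹) *
          (Vᴴ * dg s * V) * (Δ * dg fun k => (θ k)⁻¹)ᴴ +
        (lam : ℂ) • ((Oᴴ * (dg fun j => sp (q - 1) (x j)) * O) * (Δ * dg fun k => (θ k)⁻¹) *
          (Oᴴ * dg x * O) * (Δ * dg fun k => (θ k)⁻¹)ᴴ) = 0 := by
      rw [D.hX, ← Matrix.smul_mul, ← Matrix.smul_mul, ← Matrix.smul_mul, ← Matrix.add_mul,
        ← Matrix.add_mul, ← Matrix.add_mul, D.hpsi, Matrix.zero_mul, Matrix.zero_mul,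
        Matrix.zero_mul]
    have e' := congrArg (fun A => (trace A).re) e
    simp only [Matrix.trace_add, Complex.add_re, Matrix.trace_smul, smul_eq_mul,
      Complex.re_ofReal_mul, Matrix.trace_zero, Complex.zero_re] at e'
    exact e'
  have i₂' := mul_le_mul_of_nonneg_left i₂ hlam
  have e₃ : (1 + lam) * (ε / (2 * (1 + lam))) = ε / 2 := by
    have : (1 + lam) ≠ 0 := by positivity
    field_simp
  have i₄' := mul_le_mul_of_nonneg_left i₄ (show (0 : ℝ) ≤ q / 2 by positivity)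
  set F := fr Δ with hF
  set δ := ε / (2 * (1 + lam)) with hδ
  generalize LibSch.pw q (Dm θ V Δ * dg s * (Dm θ V Δ)ᴴ) = P₁ at *
  generalize LibSch.pw q (Dm θ O Δ * dg x * (Dm θ O Δ)ᴴ) = P₂ at *
  generalize (trace (Δ * (dg fun k => (θ k)⁻¹) * (Vᴴ * (dg fun j => |s j| ^ q) * V))).re = A₁ at *
  generalize (trace (Δ * (dg fun k => (θ k)⁻¹) * (Oᴴ * (dg fun j => |x j| ^ q) * O))).re = A₂ at *
  generalize (trace ((Vᴴ * (dg fun j => sp (q - 1) (s j)) * V) * (Δ * dg fun k => (θ k)⁻¹) *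
          (Vᴴ * dg s * V) * (Δ * dg fun k => (θ k)⁻¹)ᴴ)).re = B₁ at *
  generalize (trace ((Oᴴ * (dg fun j => sp (q - 1) (x j)) * O) * (Δ * dg fun k => (θ k)⁻¹) *
          (Oᴴ * dg x * O) * (Δ * dg fun k => (θ k)⁻¹)ᴴ)).re = B₂ at *
  generalize (∑ i, ∑ j, Ph (q - 1) 1 |s i| |s j| *
          ‖(V * (Δ * dg fun k => (θ k)⁻¹) * Vᴴ * dg s +
            dg s * (V * (Δ * dg fun k => (θ k)⁻¹)ᴴ * Vᴴ)) i j‖ ^ 2) = C₁ at *
  generalize (∑ i, ∑ j, Ph (q - 1) 1 |x i| |x j| *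
          ‖(O * (Δ * dg fun k => (θ k)⁻¹) * Oᴴ * dg x +
            dg x * (O * (Δ * dg fun k => (θ k)⁻¹)ᴴ * Oᴴ)) i j‖ ^ 2) = C₂ at *
  generalize (∑ i, ∑ j, Ph (q - 1) 1 (θ i) (θ j) * ‖Δ i j‖ ^ 2) = C₃ at *
  generalize LibSch.pw q (dg θ + Δ) = P₃ at *
  generalize (∑ j, |s j| ^ q) = S₁ at *
  generalize (∑ j, |x j| ^ q) = S₂ at *
  generalize (∑ k, θ k ^ q) = S₃ at *
  generalize (∑ k, θ k ^ (q - 1) * (Δ k k).re) = T at *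
  have e₄ : δ * F + lam * (δ * F) = ε / 2 * F := by rw [← e₃]; ring
  have e₁' : 2 * q * A₁ + lam * (2 * q * A₂) = 2 * q * T := by rw [← e₁]; ring
  have e₂' : q * B₁ + lam * (q * B₂) = 0 := by
    have : q * B₁ + lam * (q * B₂) = q * (B₁ + lam * B₂) := by ring
    rw [this, e₂, mul_zero]
  nlinarith [e₄, e₁', e₂', i₁, i₂', i₃, i₄']

end Pool.Agent.LibSchQ
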