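import Pool.Agent.LibSchQ.E3
import Pool.Agent.LibSchQ.G1
import Pool.Agent.LibSchQ.G2a
import Pool.Agent.LibSchQ.G2b
import Pool.Agent.LibSchQ.LOC

/-! **G3.**  The second difference along the path. -/

open Matrix
open scoped ComplexOrder

namespace Pool.Agent.LibSchQ

open Pool.Agent.LibSchP

variable {κ ν : Type} [Fintype κ] [Fintype ν] [DecidableEq κ] [DecidableEq ν]

noncomputable def RR (q : ℝ) (α₀ α₁ : Matrix ν ν ℂ) (h : ℝ) : Matrix ν ν ℂ :=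
  rp (1 / q) (α₀ + (h : ℂ) • α₁) * (rp (1 / q) α₀)⁻¹

noncomputable def QQ (q lam : ℝ) (S : Matrix κ κ ℂ) (ι : Matrix κ ν ℂ) (α₀ α₁ : Matrix ν ν ℂ)
    (h : ℝ) : ℝ :=
  LibSch.pw q ((1 + ι * (RR q α₀ α₁ h - 1) * ιᴴ) * S * (1 + ι * (RR q α₀ α₁ h - 1) * ιᴴ)ᴴ) +
    lam * LibSch.pw q (RR q α₀ α₁ h * (ιᴴ * S * ι) * (RR q α₀ α₁ h)ᴴ)

theorem g3q_unit {U : Matrix ν ν ℂ} (hU : U ∈ unitaryGroup ν ℂ) : Uᴴ * U = 1 ∧ U * Uᴴ = 1 := by
  constructor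
  · have := hU
    rw [mem_unitaryGroup_iff'] at this
    exact this
  · have := hU
    rw [mem_unitaryGroup_iff] at this
    exact this

theorem g3q_pw_dg (q : ℝ) (s : κ → ℝ) : LibSch.pw q (dg s) = ∑ j, |s j| ^ q := by
  rw [pw_ud q (dg s) 1 (one_mem _) (fun j => s j ^ 2)]
  · refine Finset.sum_congr rfl fun j _ => ?_
    rw [← sq_abs, ← Real.rpow_natCast, ← Real.rpow_mul (abs_nonneg _)]
    congr 1
    push_cast
    ring
  · unfold ud dg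
    rw [diagonal_conjTranspose, diagonal_mul_diagonal, conjTranspose_one, Matrix.mul_one,
      Matrix.one_mul]
    congr 1
    funext k
    simp [sq]

theorem g3q_dg_inv (θ : ν → ℝ) (hθ : ∀ k, 0 < θ k) :
    (dg fun k => (θ k)⁻¹) * dg θ = 1 ∧ dg θ * (dg fun k => (θ k)⁻¹) = 1 := by
  unfold dg
  constructor
  · rw [diagonal_mul_diagonal, ← diagonal_one]
    congr 1
    funext k
    have : (θ k : ℂ) ≠ 0 := by exact_mod_cast (hθ k).ne'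
    push_cast
    field_simp
  · rw [diagonal_mul_diagonal, ← diagonal_one]
    congr 1
    funext k
    have : (θ k : ℂ) ≠ 0 := by exact_mod_cast (hθ k).ne'
    push_cast
    field_simp

/-- `dat_exists`; `K = (α₀^(1/q))⁻¹ W θ`; `theta_path`, `gauge_eq` with `R = RR h`, `loc` at
`±h`; `epstein` for `α₀, α₀ ± h α₁` and this `K` (`∑ θ^q = pw q (α₀^(1/q) K)`). -/
theorem second_diff (q lam : ℝ) (hq : 2 < q) (hlam : 0 ≤ lam) (S : Matrix κ κ ℂ)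
    (hS : S.IsHermitian) (ι : Matrix κ ν ℂ) (hι : ιᴴ * ι = 1)
    (hstat : ιᴴ * fc (sp (q - 1)) S * ι + (lam : ℂ) • fc (sp (q - 1)) (ιᴴ * S * ι) = 0)
    (hpos : (ιᴴ * fc (fun t => |t| ^ q) S * ι +
      (lam : ℂ) • fc (fun t => |t| ^ q) (ιᴴ * S * ι)).PosDef)
    (α₀ α₁ : Matrix ν ν ℂ) (hα₀ : α₀.PosDef) (hα₁ : α₁.IsHermitian) (ε : ℝ) (hε : 0 < ε) :
    ∃ η : ℝ, 0 < η ∧ ∀ h : ℝ, |h| ≤ η → (α₀ + (h : ℂ) • α₁).PosDef ∧
      QQ q lam S ι α₀ α₁ h + QQ q lam S ι α₀ α₁ (-h) ≤ 2 * QQ q lam S ι α₀ α₁ 0 + ε * h ^ 2 := by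
  obtain ⟨s, U, W, x, O, θ, hU, hW, hO, hSU, hX, D⟩ :=
    dat_exists q lam hq hlam S hS ι hι hstat hpos
  have hθ := D.hθ
  obtain ⟨hW1, hW2⟩ := g3q_unit hW
  obtain ⟨hθ1, hθ2⟩ := g3q_dg_inv θ hθ
  set a₀ : Matrix ν ν ℂ := rp (1 / q) α₀ with ha₀
  have ha₀pd : a₀.PosDef := rp_posDef (1 / q) α₀ hα₀
  have ha₀h : a₀ᴴ = a₀ := ha₀pd.isHermitian.eq
  have ha₀u : IsUnit a₀.det := (Matrix.isUnit_iff_isUnit_det _).1 ha₀pd.isUnit
  have hai : a₀⁻¹ * a₀ = 1 := nonsing_inv_mul _ ha₀u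
  have hia : a₀ * a₀⁻¹ = 1 := mul_nonsing_inv _ ha₀u
  have haih : (a₀⁻¹)ᴴ = a₀⁻¹ := by rw [conjTranspose_nonsing_inv, ha₀h]
  have hdgh : (dg θ)ᴴ = dg θ := (dg_isHermitian θ).eq
  set K : Matrix ν ν ℂ := a₀⁻¹ * W * dg θ with hKdef
  have hKh : Kᴴ = dg θ * Wᴴ * a₀⁻¹ := by
    rw [hKdef, conjTranspose_mul, conjTranspose_mul, haih, hdgh, Matrix.mul_assoc]
  have hKK : ∀ Y : Matrix ν ν ℂ, Kᴴ * Y * K = dg θ * (Wᴴ * (a₀⁻¹ * Y * a₀⁻¹) * W) * dg θ := by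
    intro Y
    rw [hKh, hKdef]
    simp only [Matrix.mul_assoc]
  have hK : Kᴴ * (rp (1 / q) α₀ * rp (1 / q) α₀) * K = dg fun k => θ k ^ 2 := by
    rw [hKK, ← ha₀]
    have h1 : a₀⁻¹ * (a₀ * a₀) * a₀⁻¹ = 1 := by
      rw [← Matrix.mul_assoc, hai, Matrix.one_mul, hia]
    rw [h1, Matrix.mul_one, hW1, Matrix.mul_one]
    unfold dg
    rw [diagonal_mul_diagonal]
    congr 1
    funext k
    push_cast
    ring
  obtain ⟨C, η₁, hC, hη₁, hpath⟩ := theta_path q hq K α₀ α₁ θ hα₀ hα₁ hθ hK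
  obtain ⟨η₂, hη₂, hloc⟩ := loc D (ε / (2 * (C ^ 2 + 1))) (by positivity)
  -- the value at `0` of the two components
  set c₀ : ℝ := ∑ j, |s j| ^ q + lam * ∑ j, |x j| ^ q with hc₀
  -- the formula for `QQ`
  have hQQ : ∀ h : ℝ, |h| ≤ η₁ → ∃ Θ : Matrix ν ν ℂ, Θ.PosSemidef ∧ nf (Θ - dg θ) ≤ C * |h| ∧
      LibSch.pw q Θ = LibSch.pw q (rp (1 / q) (α₀ + (h : ℂ) • α₁) * K) ∧
      QQ q lam S ι α₀ α₁ h =
        LibSch.pw q (Dm θ (Uᴴ * ι * W) (Θ - dg θ) * dg s *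
          (Dm θ (Uᴴ * ι * W) (Θ - dg θ))ᴴ) +
        lam * LibSch.pw q (Dm θ O (Θ - dg θ) * dg x * (Dm θ O (Θ - dg θ))ᴴ) := by
    intro h hh
    obtain ⟨hpd, Θ, hΘ, hΘΘ, hnf, hpw⟩ := hpath h hh
    refine ⟨Θ, hΘ, hnf, hpw, ?_⟩
    set a : Matrix ν ν ℂ := rp (1 / q) (α₀ + (h : ℂ) • α₁) with ha
    have hapd : a.PosDef := rp_posDef (1 / q) _ hpd
    have hah : aᴴ = a := hapd.isHermitian.eq
    have hau : IsUnit a.det := (Matrix.isUnit_iff_isUnit_det _).1 hapd.isUnit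
    have hRdef : RR q α₀ α₁ h = a * a₀⁻¹ := rfl
    have hRu : IsUnit (RR q α₀ α₁ h).det := by
      rw [hRdef, det_mul]
      refine hau.mul ?_
      rw [det_nonsing_inv]
      exact ha₀u.ringInverse
    have hRR : (RR q α₀ α₁ h)ᴴ * RR q α₀ α₁ h =
        W * ((dg fun k => (θ k)⁻¹) * (Θ * Θ) * dg fun k => (θ k)⁻¹) * Wᴴ := by
      rw [hΘΘ, hKK, hRdef, conjTranspose_mul, haih, hah]
      have e1 : (dg fun k => (θ k)⁻¹) * (dg θ * (Wᴴ * (a₀⁻¹ * (a * a) * a₀⁻¹) * W) * dg θ) *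
          (dg fun k => (θ k)⁻¹) = Wᴴ * (a₀⁻¹ * (a * a) * a₀⁻¹) * W := by
        calc _ = ((dg fun k => (θ k)⁻¹) * dg θ) * (Wᴴ * (a₀⁻¹ * (a * a) * a₀⁻¹) * W) *
              (dg θ * (dg fun k => (θ k)⁻¹)) := by simp only [Matrix.mul_assoc]
          _ = _ := by rw [hθ1, hθ2, Matrix.one_mul, Matrix.mul_one]
      rw [e1]
      calc a₀⁻¹ * a * (a * a₀⁻¹) = a₀⁻¹ * (a * a) * a₀⁻¹ := by simp only [Matrix.mul_assoc]
        _ = (W * Wᴴ) * (a₀⁻¹ * (a * a) * a₀⁻¹) * (W * Wᴴ) := by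
            rw [hW2, Matrix.one_mul, Matrix.mul_one]
        _ = _ := by simp only [Matrix.mul_assoc]
    obtain ⟨g1, g2⟩ := gauge_eq q hq S ι hι s U W x O θ hU hW hO hSU hX hθ (RR q α₀ α₁ h) Θ
      hΘ.isHermitian hRu hRR
    unfold QQ
    rw [g1, g2]
  -- the value at `0`
  have hQ0 : QQ q lam S ι α₀ α₁ 0 = c₀ := by
    have hR0 : RR q α₀ α₁ 0 = 1 := by
      unfold RR
      rw [Complex.ofReal_zero, zero_smul, add_zero]
      exact hia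
    have hRu : IsUnit (RR q α₀ α₁ 0).det := by
      rw [hR0, det_one]
      exact isUnit_one
    have hRR : (RR q α₀ α₁ 0)ᴴ * RR q α₀ α₁ 0 =
        W * ((dg fun k => (θ k)⁻¹) * (dg θ * dg θ) * dg fun k => (θ k)⁻¹) * Wᴴ := by
      rw [hR0, conjTranspose_one, Matrix.one_mul]
      have e1 : (dg fun k => (θ k)⁻¹) * (dg θ * dg θ) * (dg fun k => (θ k)⁻¹) = 1 := by
        calc _ = ((dg fun k => (θ k)⁻¹) * dg θ) * (dg θ * (dg fun k => (θ k)⁻¹)) := by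
              simp only [Matrix.mul_assoc]
          _ = _ := by rw [hθ1, hθ2, Matrix.one_mul]
      rw [e1, Matrix.mul_one, hW2]
    obtain ⟨g1, g2⟩ := gauge_eq q hq S ι hι s U W x O θ hU hW hO hSU hX hθ (RR q α₀ α₁ 0) (dg θ)
      (dg_isHermitian θ) hRu hRR
    have hD0 : ∀ (μ : Type) [Fintype μ] [DecidableEq μ] (V : Matrix μ ν ℂ),
        Dm θ V (dg θ - dg θ) = 1 := by
      intro μ _ _ V
      unfold Dm
      rw [sub_self, Matrix.zero_mul, Matrix.mul_zero, Matrix.zero_mul, add_zero]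
    unfold QQ
    rw [g1, g2, hD0, hD0, conjTranspose_one, conjTranspose_one, Matrix.one_mul, Matrix.mul_one,
      Matrix.one_mul, Matrix.mul_one, g3q_pw_dg, g3q_pw_dg]
  have hKu : IsUnit K.det := by
    rw [hKdef, det_mul, det_mul]
    refine (IsUnit.mul ?_ ?_).mul ?_
    · rw [det_nonsing_inv]
      exact ha₀u.ringInverse
    · exact (Matrix.isUnit_iff_isUnit_det _).1 ⟨⟨W, Wᴴ, hW2, hW1⟩, rfl⟩
    · exact (Matrix.isUnit_iff_isUnit_det _).1 ⟨⟨dg θ, dg fun k => (θ k)⁻¹, hθ2, hθ1⟩, rfl⟩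
  have hpw0 : LibSch.pw q (rp (1 / q) α₀ * K) = ∑ k, θ k ^ q := by
    have e1 : rp (1 / q) α₀ * K = W * dg θ := by
      rw [hKdef, ← ha₀, ← Matrix.mul_assoc, ← Matrix.mul_assoc, hia, Matrix.one_mul]
    rw [e1, pw_congr q (W * dg θ) (dg θ)
      (by rw [conjTranspose_mul, Matrix.mul_assoc, ← Matrix.mul_assoc Wᴴ, hW1, Matrix.one_mul]),
      g3q_pw_dg]
    exact Finset.sum_congr rfl fun k _ => by rw [abs_of_pos (hθ k)]
  set η : ℝ := min η₁ (η₂ / (C + 1)) with hηdef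
  have hηpos : 0 < η := lt_min hη₁ (div_pos hη₂ (by linarith))
  refine ⟨η, hηpos, fun h hh => ?_⟩
  have hh1 : |h| ≤ η₁ := hh.trans (min_le_left _ _)
  have hh1' : |-h| ≤ η₁ := by rw [abs_neg]; exact hh1
  have hh2 : C * |h| ≤ η₂ := by
    have h8 : |h| ≤ η₂ / (C + 1) := hh.trans (min_le_right _ _)
    rw [le_div_iff₀ (by linarith : (0 : ℝ) < C + 1)] at h8
    have := abs_nonneg h
    nlinarith
  refine ⟨(hpath h hh1).1, ?_⟩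
  obtain ⟨Θ, hΘ, hnf, hpw, hQ⟩ := hQQ h hh1
  obtain ⟨Θ', hΘ', hnf', hpw', hQ'⟩ := hQQ (-h) hh1'
  have hnf'' : nf (Θ' - dg θ) ≤ C * |h| := by rw [abs_neg] at hnf'; exact hnf'
  have l1 := hloc (Θ - dg θ) (hΘ.isHermitian.sub (dg_isHermitian θ)) (hnf.trans hh2)
  have l2 := hloc (Θ' - dg θ) (hΘ'.isHermitian.sub (dg_isHermitian θ)) (hnf''.trans hh2)
  rw [← hQ, add_sub_cancel, hpw] at l1
  rw [← hQ', add_sub_cancel, hpw'] at l2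
  have hep := epstein q hq K hKu α₀ (α₀ + (h : ℂ) • α₁) (α₀ + ((-h : ℝ) : ℂ) • α₁) hα₀
    (hpath h hh1).1 (hpath (-h) hh1').1 (by
      push_cast
      rw [neg_smul, two_smul]
      abel)
  rw [hpw0] at hep
  have hfr : ∀ Y : Matrix ν ν ℂ, nf Y ≤ C * |h| → fr Y ≤ C ^ 2 * h ^ 2 := by
    intro Y hY
    rw [← nf_sq]
    have := pow_le_pow_left₀ (nf_nonneg Y) hY 2
    rw [mul_pow, sq_abs] at this
    exact this
  have f1 := hfr _ hnf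
  have f2 := hfr _ hnf''
  have hε' : ε / (2 * (C ^ 2 + 1)) * (C ^ 2 * h ^ 2) ≤ ε * h ^ 2 / 2 := by
    rw [div_mul_eq_mul_div, div_le_div_iff₀ (by positivity) (by norm_num)]
    have : 0 ≤ ε * h ^ 2 := by positivity
    nlinarith
  have g1 : ε / (2 * (C ^ 2 + 1)) * fr (Θ - dg θ) ≤ ε * h ^ 2 / 2 :=
    (mul_le_mul_of_nonneg_left f1 (by positivity)).trans hε'
  have g2 : ε / (2 * (C ^ 2 + 1)) * fr (Θ' - dg θ) ≤ ε * h ^ 2 / 2 :=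
    (mul_le_mul_of_nonneg_left f2 (by positivity)).trans hε'
  rw [hQ0]
  linarith

end Pool.Agent.LibSchQ
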