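import Pool.Agent.LibSchQ.Y2

/-! **J0.**  The Hermitian dilation and the gradient of `pw q`. -/

open Matrix
open scoped ComplexOrder

namespace Pool.Agent.LibSchQ

open Pool.Agent.LibSchP

variable {m n : Type} [Fintype m] [Fintype n] [DecidableEq m] [DecidableEq n]

theorem j0_dil_h (M : Matrix m n ℂ) : (dil M)ᴴ = dil M := by
  unfold dil
  rw [fromBlocks_conjTranspose, conjTranspose_zero, conjTranspose_zero,
    conjTranspose_conjTranspose]

theorem dil_isHermitian (M : Matrix m n ℂ) : (dil M).IsHermitian := j0_dil_h M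

theorem dil_add (M H : Matrix m n ℂ) : dil (M + H) = dil M + dil H := by
  unfold dil
  rw [fromBlocks_add, conjTranspose_add, add_zero, add_zero]

theorem dil_smul (c : ℝ) (M : Matrix m n ℂ) : dil ((c : ℂ) • M) = (c : ℂ) • dil M := by
  unfold dil
  rw [fromBlocks_smul, conjTranspose_smul, smul_zero, smul_zero]
  simp

theorem j0_mul (G H : Matrix m n ℂ) :
    dil G * dil H = fromBlocks (G * Hᴴ) 0 0 (Gᴴ * H) := by
  unfold dil
  rw [fromBlocks_multiply]
  simp

/-- `(dil M)ᴴ dil M = fromBlocks (M Mᴴ) 0 0 (Mᴴ M)` (`PwBasic_pw`,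
`charpoly_fromBlocks_zero₁₂`, `pw_conjTranspose`) -/
theorem pw_dil (q : ℝ) (hq : 0 < q) (M : Matrix m n ℂ) :
    LibSch.pw q (dil M) = 2 * LibSch.pw q M := by
  have h1 : LibSch.pw q (dil M) = LibSch.pw q Mᴴ + LibSch.pw q M := by
    rw [LibSch.PwBasic_pw, LibSch.PwBasic_pw, LibSch.PwBasic_pw, j0_dil_h, j0_mul,
      conjTranspose_conjTranspose]
    unfold LibSch.PwBasic_S
    rw [charpoly_fromBlocks_zero₁₂, Polynomial.roots_mul, Multiset.map_add, Multiset.sum_add]
    exact mul_ne_zero (charpoly_monic _).ne_zero (charpoly_monic _).ne_zero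
  rw [h1, LibSch.pw_conjTranspose q hq]
  ring

theorem fr_dil (M : Matrix m n ℂ) : fr (dil M) = 2 * fr M := by
  have h : ∑ j : n, ∑ i : m, ‖M i j‖ ^ 2 = ∑ i : m, ∑ j : n, ‖M i j‖ ^ 2 := Finset.sum_comm
  unfold fr dil
  rw [Fintype.sum_sum_type]
  simp only [Fintype.sum_sum_type, fromBlocks_apply₁₁, fromBlocks_apply₁₂, fromBlocks_apply₂₁,
    fromBlocks_apply₂₂, Matrix.zero_apply, norm_zero, conjTranspose_apply, norm_star]
  simp only [ne_eq, OfNat.ofNat_ne_zero, not_false_eq_true, zero_pow, Finset.sum_const_zero,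
    zero_add, add_zero]
  rw [h]
  ring

/-- the gradient `M |M|^(q-2)` of `pw q / q` -/
noncomputable def gm (q : ℝ) (M : Matrix m n ℂ) : Matrix m n ℂ :=
  (fc (sp (q - 1)) (dil M)).toBlocks₁₂

theorem j0_sp_neg (a : ℝ) (ha : 0 < a) (x : ℝ) : sp a (-x) = -sp a x := by
  unfold sp
  rcases lt_trichotomy x 0 with hx | hx | hx
  · rw [if_pos (by linarith), if_neg (by linarith), neg_neg]
  · subst hx
    simp [Real.zero_rpow ha.ne']
  · rw [if_neg (by linarith), if_pos hx.le, neg_neg]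

theorem j0_ud_neg (U : Matrix n n ℂ) (x : n → ℝ) : ud U (fun k => -x k) = -ud U x := by
  have h : dg (fun k => -x k) = -dg x := by
    unfold dg
    rw [diagonal_neg]
    congr 1
    funext k
    push_cast
    rfl
  unfold ud
  rw [h, Matrix.mul_neg, Matrix.neg_mul]

theorem j0_fc_neg (f : ℝ → ℝ) (hf : ∀ x, f (-x) = -f x) (H : Matrix n n ℂ)
    (hH : H.IsHermitian) : fc f (-H) = -fc f H := by
  obtain ⟨U, hU, x, rfl⟩ := herm_ud H hH
  rw [← j0_ud_neg, fc_ud f U hU, fc_ud f U hU, ← j0_ud_neg]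
  congr 1
  funext k
  exact hf (x k)

/-- `J (dil M) J = - dil M` for `J = fromBlocks 1 0 0 (-1)` and `f` odd: `fc_conj`, and
`fc f (-H) = - fc f H`. -/
theorem fc_dil (q : ℝ) (hq : 1 < q) (M : Matrix m n ℂ) :
    fc (sp (q - 1)) (dil M) = dil (gm q M) := by
  have hJh : (fromBlocks (1 : Matrix m m ℂ) 0 0 (-1 : Matrix n n ℂ))ᴴ = fromBlocks 1 0 0 (-1) := by
    rw [fromBlocks_conjTranspose]
    simp
  have hJJ : fromBlocks (1 : Matrix m m ℂ) 0 0 (-1 : Matrix n n ℂ) *
      fromBlocks (1 : Matrix m m ℂ) 0 0 (-1 : Matrix n n ℂ) = 1 := by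
    rw [fromBlocks_multiply]
    simp [fromBlocks_one]
  have hJ : fromBlocks (1 : Matrix m m ℂ) 0 0 (-1 : Matrix n n ℂ) ∈ unitaryGroup (m ⊕ n) ℂ := by
    rw [mem_unitaryGroup_iff, star_eq_conjTranspose, hJh]
    exact hJJ
  have h1 : fromBlocks (1 : Matrix m m ℂ) 0 0 (-1 : Matrix n n ℂ) * dil M *
      (fromBlocks (1 : Matrix m m ℂ) 0 0 (-1 : Matrix n n ℂ))ᴴ = -dil M := by
    rw [hJh]
    unfold dil
    rw [fromBlocks_multiply, fromBlocks_multiply, fromBlocks_neg]
    simp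
  have h2 := fc_conj (sp (q - 1)) _ hJ (dil M) (dil_isHermitian M)
  rw [h1, j0_fc_neg _ (j0_sp_neg (q - 1) (by linarith)) _ (dil_isHermitian M), hJh] at h2
  have h3 := fc_isHermitian (sp (q - 1)) (dil M)
  unfold gm
  generalize fc (sp (q - 1)) (dil M) = F at h2 h3 ⊢
  obtain ⟨A, B, C, D, rfl⟩ : ∃ A B C D, F = fromBlocks A B C D :=
    ⟨_, _, _, _, (fromBlocks_toBlocks F).symm⟩
  rw [fromBlocks_multiply, fromBlocks_multiply, fromBlocks_neg, fromBlocks_inj] at h2
  obtain ⟨hA, -, -, hD⟩ := h2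
  simp only [Matrix.one_mul, Matrix.mul_one, Matrix.zero_mul, Matrix.mul_zero, add_zero, zero_add,
    Matrix.neg_mul, Matrix.mul_neg, neg_neg] at hA hD
  have hA0 : A = 0 := by
    ext i j
    have := congrFun (congrFun hA i) j
    rw [neg_apply] at this
    have h4 : (2 : ℂ) * A i j = 0 := by linear_combination -this
    simpa using h4
  have hD0 : D = 0 := by
    ext i j
    have := congrFun (congrFun hD i) j
    rw [neg_apply] at this
    have h4 : (2 : ℂ) * D i j = 0 := by linear_combination -this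
    simpa using h4
  have h5 : (fromBlocks A B C D)ᴴ = fromBlocks A B C D := h3
  rw [fromBlocks_conjTranspose, fromBlocks_inj] at h5
  rw [toBlocks_fromBlocks₁₂]
  unfold dil
  rw [hA0, hD0, h5.2.2.1]

theorem trace_dil (G H : Matrix m n ℂ) : (trace (dil G * dil H)).re = 2 * (trace (Gᴴ * H)).re := by
  have h1 : (trace (G * Hᴴ)).re = (trace (Gᴴ * H)).re := by
    have h2 : trace (G * Hᴴ) = star (trace (Gᴴ * H)) := by
      rw [← trace_conjTranspose, conjTranspose_mul, conjTranspose_conjTranspose, trace_mul_comm]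
    rw [h2, Complex.star_def, Complex.conj_re]
  have h3 : trace (fromBlocks (G * Hᴴ) 0 0 (Gᴴ * H)) = trace (G * Hᴴ) + trace (Gᴴ * H) := by
    simp only [trace, Fintype.sum_sum_type, diag_apply, fromBlocks_apply₁₁, fromBlocks_apply₂₂]
  rw [j0_mul, h3, Complex.add_re, h1]
  ring

end Pool.Agent.LibSchQ
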