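import Pool.Agent.LibSchQ.B2
import Pool.Agent.LibSchP.A4a

/-! **Y2.**  API of `fc`; `pw` of a Hermitian matrix; functional calculus with a modulus. -/

open Matrix
open scoped ComplexOrder

namespace Pool.Agent.LibSchQ

open Pool.Agent.LibSchP

variable {n : Type} [Fintype n] [DecidableEq n]

theorem fc_ud (f : ℝ → ℝ) (U : Matrix n n ℂ) (hU : U ∈ unitaryGroup n ℂ) (x : n → ℝ) :
    fc f (ud U x) = ud U fun k => f (x k) := by
  have hH := ud_isHermitian U x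
  rw [fc, dif_pos hH]
  exact ud_fun _ U (hH.eigenvectorUnitary).2 hU _ x (ud_exists _ hH).symm f

theorem fc_isHermitian (f : ℝ → ℝ) (H : Matrix n n ℂ) : (fc f H).IsHermitian := by
  rw [fc]
  split_ifs
  · exact ud_isHermitian _ _
  · exact isHermitian_zero

theorem fc_conj (f : ℝ → ℝ) (U : Matrix n n ℂ) (hU : U ∈ unitaryGroup n ℂ) (H : Matrix n n ℂ)
    (hH : H.IsHermitian) : fc f (U * H * Uᴴ) = U * fc f H * Uᴴ := by
  have h := ud_exists H hH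
  set V : Matrix n n ℂ := (hH.eigenvectorUnitary : Matrix n n ℂ) with hV
  have hVm : V ∈ unitaryGroup n ℂ := (hH.eigenvectorUnitary).2
  have key : ∀ y : n → ℝ, U * ud V y * Uᴴ = ud (U * V) y := by
    intro y
    simp only [ud, conjTranspose_mul, Matrix.mul_assoc]
  rw [h, key, fc_ud f _ (mul_mem hU hVm), fc_ud f V hVm, key]

theorem fc_conj' (f : ℝ → ℝ) (U : Matrix n n ℂ) (hU : U ∈ unitaryGroup n ℂ) (H : Matrix n n ℂ)
    (hH : H.IsHermitian) : fc f (Uᴴ * H * U) = Uᴴ * fc f H * U := by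
  have h := fc_conj f Uᴴ (a4a_conj_mem U hU) H hH
  rwa [conjTranspose_conjTranspose] at h

theorem rp_eq_fc (s : ℝ) (H : Matrix n n ℂ) : rp s H = fc (fun x => x ^ s) H := rfl

/-- `pw q H = ∑ |x_k|^q` for `H = U x Uᴴ` (`pw_ud`, `HᴴH = U x² Uᴴ`) -/
theorem pw_herm (q : ℝ) (hq : 0 < q) (U : Matrix n n ℂ) (hU : U ∈ unitaryGroup n ℂ)
    (x : n → ℝ) : LibSch.pw q (ud U x) = ∑ k, |x k| ^ q := by
  have h := ud_isHermitian U x
  rw [pw_ud q _ U hU (fun k => x k * x k) (by rw [h.eq, ud_mul U hU])]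
  refine Finset.sum_congr rfl fun k _ => ?_
  have h1 : x k * x k = |x k| ^ (2 : ℝ) := by
    rw [Real.rpow_two, sq_abs, sq]
  rw [h1, ← Real.rpow_mul (abs_nonneg _)]
  congr 1
  ring

/-- spectral theorem -/
theorem herm_ud (H : Matrix n n ℂ) (hH : H.IsHermitian) :
    ∃ U ∈ unitaryGroup n ℂ, ∃ x : n → ℝ, H = ud U x :=
  ⟨_, (hH.eigenvectorUnitary).2, _, ud_exists H hH⟩

/-- `ud_fr`: `∑_jk |W_jk|² (f(x_j) - f(y_k))² ≤ ∑ |W_jk|² (ε + C (x_j-y_k)²)` -/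
theorem ud_mod (U V : Matrix n n ℂ) (hU : U ∈ unitaryGroup n ℂ) (hV : V ∈ unitaryGroup n ℂ)
    (x y : n → ℝ) (f : ℝ → ℝ) (ε C : ℝ)
    (h : ∀ j k, (f (x j) - f (y k)) ^ 2 ≤ ε + C * (x j - y k) ^ 2) :
    fr ((ud U fun k => f (x k)) - ud V fun k => f (y k)) ≤
      ε * Fintype.card n + C * fr (ud U x - ud V y) := by
  rw [ud_fr U V hU hV, ud_fr U V hU hV, Finset.mul_sum]
  have hW : Uᴴ * V ∈ unitaryGroup n ℂ := mul_mem (a4a_conj_mem U hU) hV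
  have hcard : ε * (Fintype.card n : ℝ) = ∑ j, ∑ k, ‖(Uᴴ * V) j k‖ ^ 2 * ε := by
    have h1 : ∀ j, ∑ k, ‖(Uᴴ * V) j k‖ ^ 2 * ε = ε := by
      intro j
      have h2 := a4a_row (Uᴴ * V)ᴴ (a4a_conj_mem _ hW) j
      rw [conjTranspose_conjTranspose, Matrix.mul_one] at h2
      rw [← Finset.sum_mul, h2, one_mul]
    simp only [h1]
    rw [Finset.sum_const, Finset.card_univ, nsmul_eq_mul, mul_comm]
  rw [hcard, ← Finset.sum_add_distrib]
  refine Finset.sum_le_sum fun j _ => ?_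
  rw [Finset.mul_sum, ← Finset.sum_add_distrib]
  refine Finset.sum_le_sum fun k _ => ?_
  calc ‖(Uᴴ * V) j k‖ ^ 2 * (f (x j) - f (y k)) ^ 2
      ≤ ‖(Uᴴ * V) j k‖ ^ 2 * (ε + C * (x j - y k) ^ 2) :=
        mul_le_mul_of_nonneg_left (h j k) (sq_nonneg _)
    _ = ‖(Uᴴ * V) j k‖ ^ 2 * ε + C * (‖(Uᴴ * V) j k‖ ^ 2 * (x j - y k) ^ 2) := by ring

end Pool.Agent.LibSchQ
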