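import Pool.Agent.LibSchQ.Y1
import Pool.Agent.LibSchQ.Y2
import Pool.Agent.LibSchP.E1a

/-! **Y3.**  Second order expansion of `tr |A + H|^q` at a diagonal point. -/

open Matrix
open scoped ComplexOrder

namespace Pool.Agent.LibSchQ

open Pool.Agent.LibSchP

variable {κ : Type} [Fintype κ] [DecidableEq κ]

/-- as `LibSchP.second_row`, but with the norm of `G = ud V (g ∘ l) - dg (g ∘ q)` on the right:
`∑_k |V_jk|² (l_k - q_j)² g(l_k) - ∑_i |D_ji|² g(q_i) = (D G Dᴴ)_jj`. -/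
theorem second_row' (V : Matrix κ κ ℂ) (hV : V ∈ unitaryGroup κ ℂ) (l q : κ → ℝ) (g : ℝ → ℝ)
    (j : κ) :
    |∑ k, ‖V j k‖ ^ 2 * (l k - q j) ^ 2 * g (l k) - ∑ i, ‖(ud V l - dg q) j i‖ ^ 2 * g (q i)| ≤
      nf ((ud V fun k => g (l k)) - dg fun i => g (q i)) *
        ∑ i, ‖(ud V l - dg q) j i‖ ^ 2 := by
  set D := ud V l - dg q with hD
  obtain ⟨r, hr⟩ : ∃ r : Matrix (Fin 1) κ ℂ, ∀ a i, r a i = D j i := ⟨fun _ i => D j i, fun _ _ => rfl⟩
  have hfr : fr r = ∑ i, ‖D j i‖ ^ 2 := by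
    unfold fr
    rw [Fin.sum_univ_one]
    exact Finset.sum_congr rfl fun i _ => by rw [hr]
  -- `D V`
  have hDV : D * V = V * dg l - dg q * V := by
    rw [hD, Matrix.sub_mul]
    unfold ud
    rw [Matrix.mul_assoc, e1a_mem V hV, Matrix.mul_one]
  have hrV : ∀ a k, (r * V) a k = ((l k - q j : ℝ) : ℂ) * V j k := by
    intro a k
    have h1 : (r * V) a k = (D * V) j k := by
      rw [Matrix.mul_apply, Matrix.mul_apply]
      exact Finset.sum_congr rfl fun i _ => by rw [hr]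
    rw [h1, hDV, Matrix.sub_apply]
    unfold dg
    rw [Matrix.mul_diagonal, Matrix.diagonal_mul]
    push_cast
    ring
  have key : (r * ((ud V fun k => g (l k)) - dg fun k => g (q k)) * rᴴ) 0 0 =
      ((∑ k, ‖V j k‖ ^ 2 * (l k - q j) ^ 2 * g (l k) - ∑ i, ‖D j i‖ ^ 2 * g (q i) : ℝ) : ℂ) := by
    rw [Matrix.mul_sub, Matrix.sub_mul, Matrix.sub_apply]
    have h1 : (r * (ud V fun k => g (l k)) * rᴴ) 0 0 =
        ((∑ k, ‖V j k‖ ^ 2 * (l k - q j) ^ 2 * g (l k) : ℝ) : ℂ) := by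
      have e : r * (ud V fun k => g (l k)) * rᴴ = (r * V) * dg (fun k => g (l k)) * (r * V)ᴴ := by
        unfold ud
        rw [Matrix.conjTranspose_mul]
        simp only [Matrix.mul_assoc]
      rw [e, Matrix.mul_apply]
      push_cast
      refine Finset.sum_congr rfl fun k _ => ?_
      unfold dg
      rw [Matrix.mul_diagonal, Matrix.conjTranspose_apply, e1a_nn, hrV, norm_mul,
        Complex.norm_real, Real.norm_eq_abs, mul_pow, sq_abs]
      push_cast
      ring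
    have h2 : (r * (dg fun k => g (q k)) * rᴴ) 0 0 = ((∑ i, ‖D j i‖ ^ 2 * g (q i) : ℝ) : ℂ) := by
      rw [Matrix.mul_apply]
      push_cast
      refine Finset.sum_congr rfl fun k _ => ?_
      unfold dg
      rw [Matrix.mul_diagonal, Matrix.conjTranspose_apply, e1a_nn, hr]
      push_cast
      rfl
    rw [h1, h2, ← Complex.ofReal_sub]
  have h3 : |∑ k, ‖V j k‖ ^ 2 * (l k - q j) ^ 2 * g (l k) - ∑ i, ‖D j i‖ ^ 2 * g (q i)| =
      ‖(r * ((ud V fun k => g (l k)) - dg fun k => g (q k)) * rᴴ) 0 0‖ := by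
    rw [key, Complex.norm_real, Real.norm_eq_abs]
  rw [h3]
  refine (norm_le_nf _ 0 0).trans ?_
  refine (nf_mul_le _ _).trans ?_
  rw [nf_conjTranspose]
  refine (mul_le_mul_of_nonneg_right (nf_mul_le _ _) (nf_nonneg _)).trans ?_
  rw [← hfr, ← nf_sq]
  exact le_of_eq (by ring)

/-- **Taylor.**  `B = ud V l` (`herm_ud`), `klein` with `f = |·|^q`, `f' = q sp (q-1)`,
`G2_expand`; `second_row'` with `g = G2 q (a j)`, `modulus` (`R = max |a| + 1`) and `ud_mod`: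
`nf G ≤ ε/card` for small `nf D`; symmetrise with `G2_symm` (`|D_ij| = |D_ji|`). -/
theorem taylor (q : ℝ) (hq : 2 < q) (a : κ → ℝ) (ε : ℝ) (hε : 0 < ε) :
    ∃ η : ℝ, 0 < η ∧ ∀ B : Matrix κ κ ℂ, B.IsHermitian → nf (B - dg a) ≤ η →
      |LibSch.pw q B - (∑ j, |a j| ^ q + q * ∑ j, sp (q - 1) (a j) * ((B - dg a) j j).re +
        q / 2 * ∑ i, ∑ j, dps q (a i) (a j) * ‖(B - dg a) i j‖ ^ 2)| ≤ ε * fr (B - dg a) := by
  set R : ℝ := nf (dg a) + 1 with hR
  set n : ℝ := (Fintype.card κ : ℝ) with hn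
  have hn0 : 0 ≤ n := Nat.cast_nonneg _
  set ε' : ℝ := ε ^ 2 / (2 * (n + 1)) with hε'
  have hε'pos : 0 < ε' := by positivity
  have hmod := fun j => modulus (G2 q (a j)) (G2_continuous q (a j) hq) R ε' hε'pos
  choose C hC0 hC using hmod
  set S : ℝ := ∑ j, C j with hS
  have hS0 : 0 ≤ S := Finset.sum_nonneg fun j _ => hC0 j
  have hCS : ∀ j, C j ≤ S := fun j =>
    Finset.single_le_sum (f := C) (fun i _ => hC0 i) (Finset.mem_univ j)
  have hu1 : ∀ x : κ → ℝ, ud (1 : Matrix κ κ ℂ) x = dg x := ud_one_fun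
  set η : ℝ := min 1 (ε / (2 * (S + 1))) with hη
  have hηpos : 0 < η := lt_min one_pos (by positivity)
  refine ⟨η, hηpos, ?_⟩
  intro B hB hBη
  have hη1 : η ≤ 1 := min_le_left _ _
  have hη2 : η ≤ ε / (2 * (S + 1)) := min_le_right _ _
  obtain ⟨V, hV, l, hBl⟩ := herm_ud B hB
  have hDH : ∀ i j, ‖(B - dg a) i j‖ = ‖(B - dg a) j i‖ := by
    intro i j
    have h1 : (B - dg a).IsHermitian := hB.sub (dg_isHermitian a)
    have h2 := h1.apply i j
    rw [← h2, norm_star]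
  -- bounds on eigenvalues
  have hla : ∀ k, |a k| ≤ R := by
    intro k
    have h1 := ud_le_nf (1 : Matrix κ κ ℂ) (one_mem _) a k
    rw [hu1] at h1
    linarith
  have hll : ∀ k, |l k| ≤ R := by
    intro k
    have h1 := ud_le_nf V hV l k
    rw [← hBl] at h1
    have h2 : nf B ≤ nf (B - dg a) + nf (dg a) := by
      have := nf_add_le (B - dg a) (dg a)
      rwa [sub_add_cancel] at this
    linarith
  -- the matrices `G`
  have hG : ∀ j, nf ((ud V fun k => G2 q (a j) (l k)) - dg fun i => G2 q (a j) (a i)) ≤ ε := by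
    intro j
    have h1 := ud_mod V 1 hV (one_mem _) l a (G2 q (a j)) ε' (C j)
      (fun i k => hC j (l i) (a k) (hll i) (hla k))
    rw [hu1, hu1, ← hBl] at h1
    have h2 : fr (B - dg a) ≤ η ^ 2 := by
      rw [← nf_sq]
      exact pow_le_pow_left₀ (nf_nonneg _) hBη 2
    have h3 : ε' * n ≤ ε ^ 2 / 2 := by
      rw [hε', div_mul_eq_mul_div, div_le_div_iff₀ (by positivity) (by norm_num)]
      nlinarith [sq_nonneg ε]
    have h4 : C j * fr (B - dg a) ≤ ε ^ 2 / 2 := by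
      have h5 : C j * fr (B - dg a) ≤ S * η ^ 2 :=
        mul_le_mul (hCS j) h2 (fr_nonneg _) hS0
      have h6 : S * η ^ 2 ≤ (S + 1) ^ 2 * η ^ 2 := by
        have : S ≤ (S + 1) ^ 2 := by nlinarith
        exact mul_le_mul_of_nonneg_right this (sq_nonneg _)
      have h7 : (S + 1) * η ≤ ε / 2 := by
        have := (le_div_iff₀ (by positivity : (0 : ℝ) < 2 * (S + 1))).mp hη2
        linarith
      have h8 : (S + 1) ^ 2 * η ^ 2 ≤ (ε / 2) ^ 2 := by
        rw [← mul_pow]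
        exact pow_le_pow_left₀ (by positivity) h7 2
      nlinarith [sq_nonneg ε]
    have h9 : fr ((ud V fun k => G2 q (a j) (l k)) - dg fun i => G2 q (a j) (a i)) ≤ ε ^ 2 := by
      linarith
    rw [← nf_sq] at h9
    exact (pow_le_pow_iff_left₀ (nf_nonneg _) hε.le two_ne_zero).mp h9
  have hkl := klein V hV l a (fun x => |x| ^ q) (fun x => q * sp (q - 1) x)
  have hsec : ∀ j, |∑ k, ‖V j k‖ ^ 2 * (l k - a j) ^ 2 * G2 q (a j) (l k) -
      ∑ i, ‖(B - dg a) j i‖ ^ 2 * G2 q (a j) (a i)| ≤ ε * ∑ i, ‖(B - dg a) j i‖ ^ 2 := by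
    intro j
    have h1 := second_row' V hV l a (G2 q (a j)) j
    rw [← hBl] at h1
    exact h1.trans (mul_le_mul_of_nonneg_right (hG j)
      (Finset.sum_nonneg fun i _ => sq_nonneg _))
  have hpw : LibSch.pw q B = ∑ k, |l k| ^ q := by
    rw [hBl]
    exact pw_herm q (by linarith) V hV l
  rw [hpw, hkl, ← hBl]
  have hrem : ∀ j, ∑ k, ‖V j k‖ ^ 2 * (|l k| ^ q - |a j| ^ q - q * sp (q - 1) (a j) * (l k - a j)) =
      ∑ k, ‖V j k‖ ^ 2 * (l k - a j) ^ 2 * G2 q (a j) (l k) := by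
    intro j
    refine Finset.sum_congr rfl fun k _ => ?_
    rw [G2_expand q (a j) (l k)]
    ring
  have hsym : q / 2 * ∑ i, ∑ j, dps q (a i) (a j) * ‖(B - dg a) i j‖ ^ 2 =
      ∑ j, ∑ i, ‖(B - dg a) j i‖ ^ 2 * G2 q (a j) (a i) := by
    have h1 : ∑ j, ∑ i, ‖(B - dg a) j i‖ ^ 2 * G2 q (a j) (a i) =
        ∑ j, ∑ i, ‖(B - dg a) j i‖ ^ 2 * G2 q (a i) (a j) := by
      rw [Finset.sum_comm]
      refine Finset.sum_congr rfl fun j _ => Finset.sum_congr rfl fun i _ => ?_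
      rw [hDH i j]
    have h2 : q * ∑ i, ∑ j, dps q (a i) (a j) * ‖(B - dg a) i j‖ ^ 2 =
        ∑ j, ∑ i, ‖(B - dg a) j i‖ ^ 2 * G2 q (a j) (a i) +
        ∑ j, ∑ i, ‖(B - dg a) j i‖ ^ 2 * G2 q (a i) (a j) := by
      rw [← Finset.sum_add_distrib, Finset.mul_sum]
      refine Finset.sum_congr rfl fun j _ => ?_
      rw [← Finset.sum_add_distrib, Finset.mul_sum]
      refine Finset.sum_congr rfl fun i _ => ?_
      rw [← mul_add, G2_symm q (a j) (a i) hq]
      ring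
    rw [← h1] at h2
    linarith
  rw [hsym]
  have hlin : ∑ j, q * sp (q - 1) (a j) * ((B - dg a) j j).re =
      q * ∑ j, sp (q - 1) (a j) * ((B - dg a) j j).re := by
    rw [Finset.mul_sum]
    exact Finset.sum_congr rfl fun j _ => by ring
  simp only [hrem]
  rw [hlin]
  have hfin : ∀ x y z w : ℝ, x + y + z - (x + y + w) = z - w := by intro x y z w; ring
  rw [hfin, ← Finset.sum_sub_distrib]
  refine (Finset.abs_sum_le_sum_abs _ _).trans ?_
  refine (Finset.sum_le_sum fun j _ => hsec j).trans ?_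
  rw [← Finset.mul_sum]
  exact le_of_eq rfl

end Pool.Agent.LibSchQ
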