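import Pool.Agent.LibSchQ.J0
import Pool.Agent.LibSchQ.Y3
import Pool.Agent.LibSch.RankOne

/-! **J1.**  First order expansion, continuity and coercivity of `pw q`, `q > 2`. -/

open Matrix
open scoped ComplexOrder

namespace Pool.Agent.LibSchQ

open Pool.Agent.LibSchP

variable {m n : Type} [Fintype m] [Fintype n] [DecidableEq m] [DecidableEq n]

theorem j1_mem {k : Type} [Fintype k] [DecidableEq k] (U : Matrix k k ℂ)
    (hU : U ∈ unitaryGroup k ℂ) : Uᴴ ∈ unitaryGroup k ℂ := a4a_conj_mem U hU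

theorem j1_pw_conj {k : Type} [Fintype k] [DecidableEq k] (q : ℝ) (U : Matrix k k ℂ)
    (hU : U ∈ unitaryGroup k ℂ) (M : Matrix k k ℂ) :
    LibSch.pw q (Uᴴ * M * U) = LibSch.pw q M :=
  LibSch.pw_unitary q M ⟨Uᴴ, j1_mem U hU⟩ ⟨U, hU⟩

theorem j1_fr_conj {k : Type} [Fintype k] [DecidableEq k] (U : Matrix k k ℂ)
    (hU : U ∈ unitaryGroup k ℂ) (M : Matrix k k ℂ) : fr (Uᴴ * M * U) = fr M := by
  rw [← nf_sq, ← nf_sq, nf_mul_unitary U hU, nf_unitary_mul Uᴴ (j1_mem U hU)]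

/-- `∑ f(x_j) (Uᴴ K U)_jj = tr (U f(x) Uᴴ K)` -/
theorem j1_diag {k : Type} [Fintype k] [DecidableEq k] (U K : Matrix k k ℂ) (y : k → ℝ) :
    ∑ j, y j * ((Uᴴ * K * U) j j).re = (trace (ud U y * K)).re := by
  have h1 : trace (ud U y * K) = trace (dg y * (Uᴴ * K * U)) := by
    unfold ud
    rw [Matrix.mul_assoc, Matrix.mul_assoc, Matrix.trace_mul_comm]
    simp only [Matrix.mul_assoc]
  rw [h1, Matrix.trace, Complex.re_sum]
  refine Finset.sum_congr rfl fun j _ => ?_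
  unfold dg
  rw [Matrix.diag_apply, Matrix.diagonal_mul, Complex.re_ofReal_mul]

theorem j1_herm_conj {k : Type} [Fintype k] [DecidableEq k] (U K : Matrix k k ℂ)
    (hK : K.IsHermitian) : (Uᴴ * K * U).IsHermitian :=
  Matrix.isHermitian_conjTranspose_mul_mul U hK

theorem j1_back {k : Type} [Fintype k] [DecidableEq k] (U : Matrix k k ℂ)
    (hU : U ∈ unitaryGroup k ℂ) (x : k → ℝ) : Uᴴ * ud U x * U = dg x := by
  unfold ud
  have h := a2_uu U hU
  calc Uᴴ * (U * dg x * Uᴴ) * U = (Uᴴ * U) * dg x * (Uᴴ * U) := by simp only [Matrix.mul_assoc]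
    _ = dg x := by rw [h, Matrix.one_mul, Matrix.mul_one]

/-- `taylor` with `ε = 1` for `Uᴴ (dil (A + H)) U`, `dil A = ud U a`; the second order term is
`≤ C fr H`; `∑_j sp (q-1) (a_j) (Uᴴ dil H U)_jj = tr (fc (sp (q-1)) (dil A) * dil H)`, `fc_dil`,
`trace_dil`, `pw_dil`. -/
theorem first_order (q : ℝ) (hq : 2 < q) (A : Matrix m n ℂ) : ∃ C η : ℝ, 0 ≤ C ∧ 0 < η ∧
    ∀ H : Matrix m n ℂ, nf H ≤ η →
      |LibSch.pw q (A + H) - LibSch.pw q A - q * (trace ((gm q A)ᴴ * H)).re| ≤ C * fr H := by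
  obtain ⟨U, hU, x, hx⟩ := herm_ud (dil A) (dil_isHermitian A)
  obtain ⟨η, hη, hT⟩ := taylor q hq x 1 one_pos
  set Mx : ℝ := ∑ i, ∑ j, |dps q (x i) (x j)| with hMx
  have hMx0 : 0 ≤ Mx := by positivity
  refine ⟨1 + q / 2 * Mx, η / 2, by positivity, by positivity, fun H hH => ?_⟩
  have hD : Uᴴ * dil (A + H) * U - dg x = Uᴴ * dil H * U := by
    rw [dil_add, Matrix.mul_add, Matrix.add_mul, hx, j1_back U hU, add_sub_cancel_left]
  have hfr : fr (Uᴴ * dil H * U) = 2 * fr H := by rw [j1_fr_conj U hU, fr_dil]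
  have hnf : nf (Uᴴ * dil H * U) ≤ η := by
    have h1 : nf (Uᴴ * dil H * U) ^ 2 ≤ η ^ 2 := by
      rw [nf_sq, hfr, ← nf_sq]
      have := nf_nonneg H
      nlinarith [mul_self_le_mul_self this hH]
    exact abs_le_of_sq_le_sq' h1 hη.le |>.2
  have h := hT (Uᴴ * dil (A + H) * U) (j1_herm_conj U _ (dil_isHermitian _)) (by rw [hD]; exact hnf)
  rw [hD, hfr, j1_pw_conj q U hU, pw_dil q (by linarith)] at h
  have hA : ∑ j, |x j| ^ q = 2 * LibSch.pw q A := by
    rw [← pw_herm q (by linarith) U hU x, ← hx, pw_dil q (by linarith)]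
  have hS : ∑ j, sp (q - 1) (x j) * ((Uᴴ * dil H * U) j j).re = 2 * (trace ((gm q A)ᴴ * H)).re := by
    rw [j1_diag U (dil H) fun j => sp (q - 1) (x j), ← fc_ud (sp (q - 1)) U hU x, ← hx,
      fc_dil q (by linarith), trace_dil]
  rw [hA, hS] at h
  have hQ : |∑ i, ∑ j, dps q (x i) (x j) * ‖(Uᴴ * dil H * U) i j‖ ^ 2| ≤ Mx * (2 * fr H) := by
    rw [← hfr]
    calc |∑ i, ∑ j, dps q (x i) (x j) * ‖(Uᴴ * dil H * U) i j‖ ^ 2|
        ≤ ∑ i, |∑ j, dps q (x i) (x j) * ‖(Uᴴ * dil H * U) i j‖ ^ 2| :=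
          Finset.abs_sum_le_sum_abs _ _
      _ ≤ ∑ i, ∑ j, |dps q (x i) (x j) * ‖(Uᴴ * dil H * U) i j‖ ^ 2| :=
          Finset.sum_le_sum fun i _ => Finset.abs_sum_le_sum_abs _ _
      _ ≤ ∑ i, ∑ j, |dps q (x i) (x j)| * fr (Uᴴ * dil H * U) := by
          refine Finset.sum_le_sum fun i _ => Finset.sum_le_sum fun j _ => ?_
          rw [abs_mul, abs_of_nonneg (by positivity : 0 ≤ ‖(Uᴴ * dil H * U) i j‖ ^ 2)]
          refine mul_le_mul_of_nonneg_left ?_ (abs_nonneg _)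
          rw [← nf_sq]
          exact pow_le_pow_left₀ (norm_nonneg _) (norm_le_nf _ i j) 2
      _ = Mx * fr (Uᴴ * dil H * U) := by
          rw [hMx, Finset.sum_mul]
          exact Finset.sum_congr rfl fun i _ => by rw [Finset.sum_mul]
  have hfr0 := fr_nonneg H
  have hq2 : 0 ≤ q / 2 := by linarith
  rw [abs_le] at h hQ ⊢
  have e1 := mul_le_mul_of_nonneg_left hQ.1 hq2
  have e2 := mul_le_mul_of_nonneg_left hQ.2 hq2
  constructor <;> nlinarith [h.1, h.2, e1, e2]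

theorem pw_smul (q : ℝ) (hq : 0 < q) (c : ℝ) (M : Matrix m n ℂ) :
    LibSch.pw q ((c : ℂ) • M) = |c| ^ q * LibSch.pw q M := by
  obtain ⟨U, hU, x, hx⟩ := herm_ud (dil M) (dil_isHermitian M)
  have h1 : dil ((c : ℂ) • M) = ud U fun k => c * x k := by
    rw [dil_smul, hx]
    unfold ud
    have : (dg fun k => c * x k) = (c : ℂ) • dg x := by
      ext i j
      rw [dg_apply, Matrix.smul_apply, dg_apply]
      split_ifs <;> simp
    rw [this, Matrix.mul_smul, Matrix.smul_mul]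
  have h2 := pw_dil q hq ((c : ℂ) • M)
  have h3 := pw_dil q hq M
  rw [h1, pw_herm q hq U hU] at h2
  rw [hx, pw_herm q hq U hU] at h3
  have h4 : ∑ k, |c * x k| ^ q = |c| ^ q * ∑ k, |x k| ^ q := by
    rw [Finset.mul_sum]
    refine Finset.sum_congr rfl fun k _ => ?_
    rw [abs_mul, Real.mul_rpow (abs_nonneg _) (abs_nonneg _)]
  rw [h4, h3] at h2
  linarith

omit [DecidableEq m] [DecidableEq n] in
theorem j1_continuous_fr : Continuous fun M : Matrix m n ℂ => fr M := by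
  unfold fr
  exact continuous_finsetSum _ fun i _ => continuous_finsetSum _ fun j _ =>
    ((continuous_apply_apply i j).norm).pow 2

omit [DecidableEq m] [DecidableEq n] in
theorem j1_continuous_nf : Continuous fun M : Matrix m n ℂ => nf M := by
  unfold nf
  exact j1_continuous_fr.sqrt

/-- from `first_order` -/
theorem pw_continuous_q (q : ℝ) (hq : 2 < q) :
    Continuous fun M : Matrix m n ℂ => LibSch.pw q M := by
  rw [continuous_iff_continuousAt]
  intro A
  obtain ⟨C, η, hC, hη, h⟩ := first_order q hq A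
  have hc : Continuous fun M : Matrix m n ℂ => nf (M - A) :=
    j1_continuous_nf.comp (continuous_id.sub continuous_const)
  have hc2 : Continuous fun M : Matrix m n ℂ => fr (M - A) :=
    j1_continuous_fr.comp (continuous_id.sub continuous_const)
  have hev : ∀ᶠ M in nhds A, nf (M - A) < η := by
    refine (hc.tendsto A).eventually (gt_mem_nhds ?_)
    rw [sub_self, nf_zero]
    exact hη
  have hb : Filter.Tendsto (fun M : Matrix m n ℂ => q * (nf (gm q A) * nf (M - A)) + C * fr (M - A))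
      (nhds A) (nhds 0) := by
    have h1 : Continuous fun M : Matrix m n ℂ =>
        q * (nf (gm q A) * nf (M - A)) + C * fr (M - A) := by fun_prop
    have h2 := h1.tendsto A
    simp only [sub_self, nf_zero, mul_zero] at h2
    have h3 : fr (0 : Matrix m n ℂ) = 0 := by rw [← nf_sq, nf_zero]; simp
    rw [h3] at h2
    simpa using h2
  show Filter.Tendsto (fun M : Matrix m n ℂ => LibSch.pw q M) (nhds A) (nhds (LibSch.pw q A))
  rw [tendsto_iff_dist_tendsto_zero]
  refine squeeze_zero' (Filter.Eventually.of_forall fun _ => dist_nonneg) ?_ hb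
  filter_upwards [hev] with M hM
  have h1 := h (M - A) hM.le
  rw [add_sub_cancel] at h1
  have h2 := re_trace_le (gm q A) (M - A)
  rw [Real.dist_eq]
  rw [abs_le] at h1 h2 ⊢
  have e1 := mul_le_mul_of_nonneg_left h2.1 (by linarith : (0 : ℝ) ≤ q)
  have e2 := mul_le_mul_of_nonneg_left h2.2 (by linarith : (0 : ℝ) ≤ q)
  constructor <;> nlinarith [h1.1, h1.2, e1, e2]

/-- power mean: `∑ e_j = fr M` (`LibSch.rk_sum_eig`), `pw q M = ∑ e_j^(q/2)` -/
theorem pw_coercive (q : ℝ) (hq : 2 < q) : ∃ c : ℝ, 0 < c ∧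
    ∀ M : Matrix m n ℂ, c * nf M ^ q ≤ LibSch.pw q M := by
  have hb : (0 : ℝ) < (Fintype.card n : ℝ) + 1 := by positivity
  refine ⟨(((Fintype.card n : ℝ) + 1) ^ (q / 2 - 1))⁻¹, inv_pos.mpr (Real.rpow_pos_of_pos hb _),
    fun M => ?_⟩
  have h1 := LibSch.rk_sum_eig M
  have h2 := Real.rpow_sum_le_const_mul_sum_rpow_of_nonneg (Finset.univ : Finset n)
    (f := fun j => (isHermitian_conjTranspose_mul_self M).eigenvalues j) (p := q / 2)
    (by linarith) (fun j _ => LibSch.rk_eig_nonneg M j)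
  have h3 : nf M ^ q = (fr M) ^ (q / 2) := by
    rw [← nf_sq, ← Real.rpow_natCast, ← Real.rpow_mul (nf_nonneg M)]
    congr 1
    push_cast
    ring
  rw [h1] at h2
  have h4 : fr M ^ (q / 2) ≤ ((Fintype.card n : ℝ) + 1) ^ (q / 2 - 1) * LibSch.pw q M := by
    refine h2.trans ?_
    show _ ≤ ((Fintype.card n : ℝ) + 1) ^ (q / 2 - 1) *
      ∑ j, (isHermitian_conjTranspose_mul_self M).eigenvalues j ^ (q / 2)
    refine mul_le_mul_of_nonneg_right ?_ ?_
    · refine Real.rpow_le_rpow (by positivity) ?_ (by linarith)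
      rw [Finset.card_univ]
      linarith
    · exact Finset.sum_nonneg fun j _ => Real.rpow_nonneg (LibSch.rk_eig_nonneg M j) _
  rw [h3, inv_mul_le_iff₀ (Real.rpow_pos_of_pos hb _)]
  exact h4

end Pool.Agent.LibSchQ
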