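import Pool.Agent.LibSchQ.J1

/-! **J2a.**  The embedding and the minimiser `X`. -/

open Matrix
open scoped ComplexOrder

namespace Pool.Agent.LibSchQ

open Pool.Agent.LibSchP

variable {n : Type} [Fintype n] [DecidableEq n]

/-- the embedding of (second row space) ⊕ (second column space) -/
def iot (n : Type) [DecidableEq n] : Matrix ((n ⊕ n) ⊕ (n ⊕ n)) (n ⊕ n) ℂ :=
  fromBlocks (fromRows 0 1) 0 0 (fromRows 0 1)

omit [Fintype n] in
theorem j2a_iotH : (iot n)ᴴ = fromBlocks (fromCols 0 1) 0 0 (fromCols 0 1) := by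
  unfold iot
  rw [fromBlocks_conjTranspose, conjTranspose_fromRows_eq_fromCols_conjTranspose]
  simp

theorem iot_isometry : (iot n)ᴴ * iot n = 1 := by
  rw [j2a_iotH]
  unfold iot
  rw [fromBlocks_multiply]
  simp [fromCols_mul_fromRows, fromBlocks_one]

theorem iot_dil (A B C X : Matrix n n ℂ) :
    (iot n)ᴴ * dil (fromBlocks A B C X) * iot n = dil X := by
  rw [j2a_iotH]
  unfold iot dil
  rw [fromBlocks_multiply, fromBlocks_multiply, fromBlocks_conjTranspose]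
  simp [fromCols_mul_fromRows, fromCols_mul_fromBlocks]

/-- `(1 + ι (R-1) ιᴴ) dil S (…)ᴴ` for block diagonal `R` -/
theorem iot_mul (R₁ R₂ A B C X : Matrix n n ℂ) :
    (1 + iot n * (fromBlocks R₁ 0 0 R₂ - 1) * (iot n)ᴴ) * dil (fromBlocks A B C X) *
      (1 + iot n * (fromBlocks R₁ 0 0 R₂ - 1) * (iot n)ᴴ)ᴴ =
    dil (fromBlocks A (B * R₂ᴴ) (R₁ * C) (R₁ * X * R₂ᴴ)) := by
  have h1 : (1 : Matrix ((n ⊕ n) ⊕ (n ⊕ n)) ((n ⊕ n) ⊕ (n ⊕ n)) ℂ) +
      iot n * (fromBlocks R₁ 0 0 R₂ - 1) * (iot n)ᴴ =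
      fromBlocks (fromBlocks 1 0 0 R₁) 0 0 (fromBlocks 1 0 0 R₂) := by
    rw [j2a_iotH]
    unfold iot
    have h2 : fromBlocks R₁ 0 0 R₂ - 1 = fromBlocks (R₁ - 1) 0 0 (R₂ - 1) := by
      rw [← fromBlocks_one, sub_eq_add_neg, fromBlocks_neg, fromBlocks_add]
      simp [sub_eq_add_neg]
    have h3 : ∀ R : Matrix n n ℂ, (1 : Matrix (n ⊕ n) (n ⊕ n) ℂ) +
        fromRows (0 : Matrix n n ℂ) 1 * (R - 1) * fromCols (0 : Matrix n n ℂ) 1 =
        fromBlocks 1 0 0 R := by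
      intro R
      rw [fromRows_mul, fromRows_mul_fromCols, ← fromBlocks_one, fromBlocks_add]
      simp
    rw [h2, fromBlocks_multiply, fromBlocks_multiply, ← fromBlocks_one, fromBlocks_add]
    simp only [Matrix.mul_zero, Matrix.zero_mul, add_zero, zero_add]
    rw [h3, h3]
  rw [h1]
  unfold dil
  simp only [fromBlocks_conjTranspose, fromBlocks_multiply, conjTranspose_zero,
    conjTranspose_one, Matrix.mul_zero, Matrix.zero_mul, add_zero, zero_add, Matrix.one_mul,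
    Matrix.mul_one, conjTranspose_mul, conjTranspose_conjTranspose, Matrix.mul_assoc]

/-- `FJ` is continuous in `X` and `FJ ≥ c nf(X)^q` -/
theorem FJ_min (q lam : ℝ) (hq : 2 < q) (hlam : 0 ≤ lam) (B α₁ α₂ : Matrix n n ℂ) :
    ∃ X : Matrix n n ℂ, ∀ X', FJ q lam B α₁ α₂ X ≤ FJ q lam B α₁ α₂ X' := by
  have hcont : Continuous fun X : Matrix n n ℂ => FJ q lam B α₁ α₂ X := by
    unfold FJ
    refine Continuous.add ?_ (continuous_const.mul (pw_continuous_q q hq))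
    refine (pw_continuous_q (m := n ⊕ n) (n := n ⊕ n) q hq).comp ?_
    exact Continuous.matrix_fromBlocks continuous_const continuous_const continuous_const
      continuous_id
  obtain ⟨c, hc, hcoer⟩ := pw_coercive (m := n ⊕ n) (n := n ⊕ n) q hq
  have hF0 : 0 ≤ FJ q lam B α₁ α₂ 0 := by
    unfold FJ
    exact add_nonneg (LibSch.pw_nonneg _ _) (mul_nonneg hlam (LibSch.pw_nonneg _ _))
  set R : ℝ := (FJ q lam B α₁ α₂ 0 / c) ^ (1 / q) with hR
  have hR0 : 0 ≤ R := Real.rpow_nonneg (div_nonneg hF0 hc.le) _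
  have hq0 : 0 < q := by linarith
  have hRq : c * R ^ q = FJ q lam B α₁ α₂ 0 := by
    rw [hR, ← Real.rpow_mul (div_nonneg hF0 hc.le), one_div_mul_cancel hq0.ne', Real.rpow_one]
    field_simp
  refine hcont.exists_forall_le' (0 : Matrix n n ℂ) ?_
  rw [Filter.eventually_iff, Filter.mem_cocompact]
  refine ⟨Set.pi Set.univ fun _ : n => Set.pi Set.univ fun _ : n => Metric.closedBall (0 : ℂ) R,
    isCompact_univ_pi fun _ => isCompact_univ_pi fun _ => isCompact_closedBall _ _, ?_⟩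
  intro X hX
  have hX' : ¬ ∀ i j, ‖X i j‖ ≤ R := fun h => hX fun i _ j _ => by
    rw [Metric.mem_closedBall, dist_zero_right]
    exact h i j
  push Not at hX'
  obtain ⟨i, j, hij⟩ := hX'
  show FJ q lam B α₁ α₂ 0 ≤ FJ q lam B α₁ α₂ X
  have h1 : ‖X i j‖ ≤ nf (fromBlocks B (rp (1 / q) α₂) (rp (1 / q) α₁) X) := by
    have := norm_le_nf (fromBlocks B (rp (1 / q) α₂) (rp (1 / q) α₁) X) (Sum.inr i) (Sum.inr j)
    simpa using this
  have h2 : R ^ q ≤ nf (fromBlocks B (rp (1 / q) α₂) (rp (1 / q) α₁) X) ^ q :=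
    Real.rpow_le_rpow hR0 (hij.le.trans h1) hq0.le
  have h3 := hcoer (fromBlocks B (rp (1 / q) α₂) (rp (1 / q) α₁) X)
  have h4 : 0 ≤ lam * LibSch.pw q X := mul_nonneg hlam (LibSch.pw_nonneg _ _)
  have h5 : c * R ^ q ≤ c * nf (fromBlocks B (rp (1 / q) α₂) (rp (1 / q) α₁) X) ^ q :=
    mul_le_mul_of_nonneg_left h2 hc.le
  rw [hRq] at h5
  calc FJ q lam B α₁ α₂ 0 ≤ _ := h5
    _ ≤ LibSch.pw q (fromBlocks B (rp (1 / q) α₂) (rp (1 / q) α₁) X) := h3
    _ ≤ FJ q lam B α₁ α₂ X := by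
      unfold FJ
      linarith

end Pool.Agent.LibSchQ
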