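import Pool.Agent.LibSchQ.J2a

/-! **J2b.**  First order condition and positivity. -/

open Matrix
open scoped ComplexOrder

namespace Pool.Agent.LibSchQ

open Pool.Agent.LibSchP

variable {n : Type} [Fintype n] [DecidableEq n]

theorem j2b_lin (a c η : ℝ) (hη : 0 < η) (hc : 0 ≤ c)
    (h : ∀ t : ℝ, |t| ≤ η → 0 ≤ a * t + c * t ^ 2) : a = 0 := by
  by_contra ha
  have hpos : 0 < |a| := abs_pos.mpr ha
  set t : ℝ := min η (|a| / (2 * (c + 1))) with ht
  have ht0 : 0 < t := lt_min hη (by positivity)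
  have ht1 : t ≤ η := min_le_left _ _
  have ht2 : t ≤ |a| / (2 * (c + 1)) := min_le_right _ _
  have hct : c * t < |a| := by
    have h1 : (c + 1) * t ≤ |a| / 2 := by
      rw [le_div_iff₀ (by positivity)] at ht2
      linarith
    nlinarith
  rcases lt_or_gt_of_ne ha with h0 | h0
  · have h1 := h t (by rw [abs_of_pos ht0]; exact ht1)
    rw [abs_of_neg h0] at hct
    nlinarith
  · have h1 := h (-t) (by rw [abs_neg, abs_of_pos ht0]; exact ht1)
    rw [abs_of_pos h0] at hct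
    nlinarith

omit [DecidableEq n] in
theorem j2b_fr (K : Matrix n n ℂ) :
    fr (fromBlocks 0 0 0 K : Matrix (n ⊕ n) (n ⊕ n) ℂ) = fr K := by
  unfold fr
  simp [Fintype.sum_sum_type]

omit [DecidableEq n] in
theorem j2b_nf (K : Matrix n n ℂ) :
    nf (fromBlocks 0 0 0 K : Matrix (n ⊕ n) (n ⊕ n) ℂ) = nf K := by
  unfold nf
  rw [j2b_fr]

omit [DecidableEq n] in
theorem j2b_fr_smul (t : ℝ) (K : Matrix n n ℂ) : fr ((t : ℂ) • K) = t ^ 2 * fr K := by
  rw [← nf_sq, nf_smul, mul_pow, nf_sq, Complex.norm_real, Real.norm_eq_abs, sq_abs]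

omit [DecidableEq n] in
theorem j2b_expand (lam : ℝ) (P Q E : Matrix n n ℂ) :
    (P + (lam : ℂ) • Q)ᴴ * E = Pᴴ * E + (lam : ℂ) • (Qᴴ * E) := by
  rw [conjTranspose_add, conjTranspose_smul, Matrix.add_mul, Matrix.smul_mul]
  simp

omit [DecidableEq n] in
theorem j2b_trace (G : Matrix (n ⊕ n) (n ⊕ n) ℂ) (K : Matrix n n ℂ) :
    trace (Gᴴ * fromBlocks 0 0 0 K) = trace (G.toBlocks₂₂ᴴ * K) := by
  conv_lhs => rw [← fromBlocks_toBlocks G]
  rw [fromBlocks_conjTranspose, fromBlocks_multiply]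
  simp [trace, Fintype.sum_sum_type]

/-- `first_order` for `X + t K`, all `K` and both signs of `t`:
`Re tr ((gm q S)₂₂ + lam gm q X)ᴴ K = 0`; `fc_dil`, `iot_dil`. -/
theorem hstat_of_min (q lam : ℝ) (hq : 2 < q) (hlam : 0 ≤ lam) (B α₁ α₂ X : Matrix n n ℂ)
    (hX : ∀ X', FJ q lam B α₁ α₂ X ≤ FJ q lam B α₁ α₂ X') :
    (iot n)ᴴ * fc (sp (q - 1)) (dil (fromBlocks B (rp (1 / q) α₂) (rp (1 / q) α₁) X)) * iot n +
      (lam : ℂ) • fc (sp (q - 1)) ((iot n)ᴴ *
        dil (fromBlocks B (rp (1 / q) α₂) (rp (1 / q) α₁) X) * iot n) = 0 := by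
  set S : Matrix (n ⊕ n) (n ⊕ n) ℂ := fromBlocks B (rp (1 / q) α₂) (rp (1 / q) α₁) X with hS
  set D : Matrix n n ℂ := (gm q S).toBlocks₂₂ + (lam : ℂ) • gm q X with hD
  obtain ⟨C₁, η₁, hC₁, hη₁, h₁⟩ := first_order q hq S
  obtain ⟨C₂, η₂, hC₂, hη₂, h₂⟩ := first_order q hq X
  have hDn : 0 ≤ nf D := nf_nonneg D
  have hfr : 0 ≤ fr D := fr_nonneg D
  have hzero : q * fr D = 0 := by
    refine j2b_lin _ ((C₁ + lam * C₂) * fr D) (min η₁ η₂ / (nf D + 1))
      (div_pos (lt_min hη₁ hη₂) (by linarith)) (by positivity) fun t ht => ?_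
    have ht' : |t| * nf D ≤ min η₁ η₂ := by
      rw [le_div_iff₀ (by linarith)] at ht
      have := abs_nonneg t
      nlinarith
    have hK : nf ((t : ℂ) • D) = |t| * nf D := by
      rw [nf_smul, Complex.norm_real, Real.norm_eq_abs]
    have hE : S + fromBlocks 0 0 0 ((t : ℂ) • D) =
        fromBlocks B (rp (1 / q) α₂) (rp (1 / q) α₁) (X + (t : ℂ) • D) := by
      rw [hS, fromBlocks_add]
      simp
    have g₁ := h₁ (fromBlocks 0 0 0 ((t : ℂ) • D)) (by
      rw [j2b_nf, hK]; exact ht'.trans (min_le_left _ _))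
    have g₂ := h₂ ((t : ℂ) • D) (by rw [hK]; exact ht'.trans (min_le_right _ _))
    rw [j2b_fr, j2b_fr_smul, j2b_trace, hE] at g₁
    rw [j2b_fr_smul] at g₂
    have g₃ := hX (X + (t : ℂ) • D)
    unfold FJ at g₃
    rw [← hS] at g₃
    have g₁' := (abs_le.mp g₁).2
    have g₂' := (abs_le.mp g₂).2
    have g₂'' := mul_le_mul_of_nonneg_left g₂' hlam
    have htr : (trace ((gm q S).toBlocks₂₂ᴴ * ((t : ℂ) • D))).re +
        lam * (trace ((gm q X)ᴴ * ((t : ℂ) • D))).re = t * fr D := by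
      rw [fr_eq_trace]
      have e1 : Dᴴ * D = (gm q S).toBlocks₂₂ᴴ * D + (lam : ℂ) • ((gm q X)ᴴ * D) :=
        j2b_expand lam _ _ D
      rw [e1, trace_add, trace_smul, Matrix.mul_smul, Matrix.mul_smul, trace_smul, trace_smul,
        Complex.add_re, smul_eq_mul, smul_eq_mul, smul_eq_mul, Complex.re_ofReal_mul,
        Complex.re_ofReal_mul, Complex.re_ofReal_mul]
      ring
    have hlin : 0 ≤ q * ((trace ((gm q S).toBlocks₂₂ᴴ * ((t : ℂ) • D))).re +
        lam * (trace ((gm q X)ᴴ * ((t : ℂ) • D))).re) +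
        (C₁ * (t ^ 2 * fr D) + lam * (C₂ * (t ^ 2 * fr D))) := by linarith
    rw [htr] at hlin
    linarith
  have hfr0 : fr D = 0 := by
    have hq0 : q ≠ 0 := by linarith
    exact (mul_eq_zero.mp hzero).resolve_left hq0
  have hD0 : D = 0 := by
    have hn : nf D = 0 := by unfold nf; rw [hfr0, Real.sqrt_zero]
    ext i j
    have := norm_le_nf D i j
    rw [hn] at this
    simpa using norm_le_zero_iff.mp this
  rw [show (iot n)ᴴ * dil S * iot n = dil X from iot_dil _ _ _ _, fc_dil q (by linarith) S,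
    fc_dil q (by linarith) X]
  have h3 : (iot n)ᴴ * dil (gm q S) * iot n = dil (gm q S).toBlocks₂₂ := by
    conv_lhs => rw [← fromBlocks_toBlocks (gm q S)]
    exact iot_dil _ _ _ _
  rw [h3, ← dil_smul, ← dil_add, ← hD, hD0]
  ext i j
  rcases i with i | i <;> rcases j with j | j <;> simp [dil]

/-- `vᴴ ιᴴ |H|^q ι v = 0` implies `H ι v = 0` (spectral theorem for `H = dil S`), hence
`rp (1/q) α₁ v₁ = 0` and `rp (1/q) α₂ v₂ = 0`. -/
theorem hpos_of_posDef (q lam : ℝ) (hq : 2 < q) (hlam : 0 ≤ lam) (B α₁ α₂ X : Matrix n n ℂ)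
    (h₁ : α₁.PosDef) (h₂ : α₂.PosDef) :
    ((iot n)ᴴ * fc (fun t => |t| ^ q)
        (dil (fromBlocks B (rp (1 / q) α₂) (rp (1 / q) α₁) X)) * iot n +
      (lam : ℂ) • fc (fun t => |t| ^ q) ((iot n)ᴴ *
        dil (fromBlocks B (rp (1 / q) α₂) (rp (1 / q) α₁) X) * iot n)).PosDef := by
  set S : Matrix (n ⊕ n) (n ⊕ n) ℂ := fromBlocks B (rp (1 / q) α₂) (rp (1 / q) α₁) X with hS
  obtain ⟨U, hU, a, ha⟩ := herm_ud (dil S) (dil_isHermitian S)
  obtain ⟨V, hV, b, hb⟩ := herm_ud (dil X) (dil_isHermitian X)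
  rw [show (iot n)ᴴ * dil S * iot n = dil X from iot_dil _ _ _ _]
  have hps : ((lam : ℂ) • fc (fun t => |t| ^ q) (dil X)).PosSemidef := by
    rw [hb, fc_ud _ V hV]
    exact (ud_posSemidef V _ fun k => Real.rpow_nonneg (abs_nonneg _) _).smul
      (by exact_mod_cast hlam)
  refine PosDef.add_posSemidef ?_ hps
  rw [ha, fc_ud _ U hU]
  have hsplit : (iot n)ᴴ * (ud U fun k => |a k| ^ q) * iot n =
      ((dg fun k => |a k| ^ (q / 2)) * (Uᴴ * iot n))ᴴ *
        ((dg fun k => |a k| ^ (q / 2)) * (Uᴴ * iot n)) := by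
    rw [conjTranspose_mul, conjTranspose_mul, conjTranspose_conjTranspose, dg_conjTranspose]
    have : (dg fun k => |a k| ^ q) = (dg fun k => |a k| ^ (q / 2)) * dg fun k => |a k| ^ (q / 2) := by
      rw [dg_mul]
      congr 1
      ext k
      rw [← Real.rpow_add_of_nonneg (abs_nonneg _) (by linarith) (by linarith)]
      congr 1
      ring
    unfold ud
    rw [this]
    simp only [Matrix.mul_assoc]
  rw [hsplit]
  refine PosDef.conjTranspose_mul_self _ ?_
  have hker : ∀ v : n ⊕ n → ℂ,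
      ((dg fun k => |a k| ^ (q / 2)) * (Uᴴ * iot n)) *ᵥ v = 0 → v = 0 := by
    intro v hv
    have hz : ∀ k, (a k : ℂ) * ((Uᴴ * iot n) *ᵥ v) k = 0 := by
      intro k
      have h0 := congrFun hv k
      rw [← mulVec_mulVec] at h0
      unfold dg at h0
      rw [mulVec_diagonal, Pi.zero_apply] at h0
      rcases mul_eq_zero.mp h0 with h0 | h0
      · have h3 : |a k| ^ (q / 2) = 0 := by exact_mod_cast h0
        have h4 : a k = 0 := by
          have := (Real.rpow_eq_zero (abs_nonneg (a k)) (by linarith : q / 2 ≠ 0)).mp h3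
          exact abs_eq_zero.mp this
        rw [h4]; simp
      · rw [h0, mul_zero]
    have hH : (dil S * iot n) *ᵥ v = 0 := by
      rw [ha]
      unfold ud
      rw [Matrix.mul_assoc, Matrix.mul_assoc, ← mulVec_mulVec, ← mulVec_mulVec]
      have : dg a *ᵥ ((Uᴴ * iot n) *ᵥ v) = 0 := by
        unfold dg
        ext k
        rw [mulVec_diagonal]
        exact hz k
      rw [this, mulVec_zero]
    have hcomp : dil S * iot n = fromBlocks (fromRows 0 0) (fromRows (rp (1 / q) α₂) X)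
        (fromRows (rp (1 / q) α₁)ᴴ Xᴴ) (fromRows 0 0) := by
      rw [hS]
      unfold dil iot
      rw [fromBlocks_multiply, fromBlocks_conjTranspose]
      congr 1
      · simp
      · rw [fromBlocks_mul_fromRows]; simp
      · rw [Matrix.zero_mul, add_zero, fromBlocks_mul_fromRows]; simp
      · simp
    rw [hcomp, fromBlocks_mulVec] at hH
    have hb1 : (rp (1 / q) α₁).PosDef := rp_posDef _ _ h₁
    have hb2 : (rp (1 / q) α₂).PosDef := rp_posDef _ _ h₂
    have e2 : rp (1 / q) α₂ *ᵥ (v ∘ Sum.inr) = 0 := by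
      ext i
      have := congrFun hH (Sum.inl (Sum.inl i))
      simpa [fromRows_mulVec] using this
    have e1 : (rp (1 / q) α₁)ᴴ *ᵥ (v ∘ Sum.inl) = 0 := by
      ext i
      have := congrFun hH (Sum.inr (Sum.inl i))
      simpa [fromRows_mulVec] using this
    rw [hb1.isHermitian.eq] at e1
    have i1 := mulVec_injective_of_isUnit hb1.isUnit
    have i2 := mulVec_injective_of_isUnit hb2.isUnit
    have v1 : v ∘ Sum.inl = 0 := i1 (by rw [e1, mulVec_zero])
    have v2 : v ∘ Sum.inr = 0 := i2 (by rw [e2, mulVec_zero])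
    ext i
    rcases i with i | i
    · exact congrFun v1 i
    · exact congrFun v2 i
  intro x y hxy
  have : x - y = 0 := hker _ (by rw [mulVec_sub]; exact sub_eq_zero.mpr hxy)
  exact sub_eq_zero.mp this

end Pool.Agent.LibSchQ
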