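import Pool.Agent.LibSchQ.J2b
import Pool.Agent.LibSchQ.G3
import Pool.Agent.LibSch.DirSum

/-! **J3.**  The second difference of `FJ` along a path. -/

open Matrix
open scoped ComplexOrder

namespace Pool.Agent.LibSchQ

open Pool.Agent.LibSchP

variable {n : Type} [Fintype n] [DecidableEq n]

theorem j3_ud_blocks (U₁ U₂ : Matrix n n ℂ) (x₁ x₂ : n → ℝ) :
    fromBlocks (ud U₁ x₁) 0 0 (ud U₂ x₂) = ud (fromBlocks U₁ 0 0 U₂) (Sum.elim x₁ x₂) := by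
  have h : dg (Sum.elim x₁ x₂) = fromBlocks (dg x₁) 0 0 (dg x₂) := by
    unfold dg
    rw [fromBlocks_diagonal]
    congr 1
    funext k
    cases k <;> rfl
  unfold ud
  rw [h, fromBlocks_multiply, fromBlocks_conjTranspose, fromBlocks_multiply]
  simp

theorem j3_mem (U₁ U₂ : Matrix n n ℂ) (h₁ : U₁ ∈ unitaryGroup n ℂ)
    (h₂ : U₂ ∈ unitaryGroup n ℂ) : fromBlocks U₁ 0 0 U₂ ∈ unitaryGroup (n ⊕ n) ℂ :=
  LibSch.fromBlocks_mem_unitary ⟨U₁, h₁⟩ ⟨U₂, h₂⟩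

theorem rp_blocks (r : ℝ) (α₁ α₂ : Matrix n n ℂ) (h₁ : α₁.IsHermitian) (h₂ : α₂.IsHermitian) :
    rp r (fromBlocks α₁ 0 0 α₂) = fromBlocks (rp r α₁) 0 0 (rp r α₂) := by
  obtain ⟨U, hU, x, rfl⟩ := herm_ud α₁ h₁
  obtain ⟨V, hV, y, rfl⟩ := herm_ud α₂ h₂
  rw [j3_ud_blocks, rp_ud r _ (j3_mem U V hU hV), rp_ud r U hU, rp_ud r V hV, j3_ud_blocks]
  congr 1
  funext k
  cases k <;> rfl

theorem posDef_blocks (α₁ α₂ : Matrix n n ℂ) (h₁ : α₁.PosDef) (h₂ : α₂.PosDef) :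
    (fromBlocks α₁ 0 0 α₂).PosDef := by
  obtain ⟨U, hU, x, hx, rfl⟩ := ud_exists_pos α₁ h₁
  obtain ⟨V, hV, y, hy, rfl⟩ := ud_exists_pos α₂ h₂
  rw [j3_ud_blocks]
  refine ud_posDef _ (j3_mem U V hU hV) _ fun k => ?_
  cases k with
  | inl k => exact hx k
  | inr k => exact hy k

theorem posDef_of_blocks (α₁ α₂ : Matrix n n ℂ) (h : (fromBlocks α₁ 0 0 α₂).PosDef) :
    α₁.PosDef ∧ α₂.PosDef := by
  have h1 := h.submatrix (e := Sum.inl) Sum.inl_injective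
  have h2 := h.submatrix (e := Sum.inr) Sum.inr_injective
  exact ⟨h1, h2⟩

theorem j3_herm (α β : Matrix n n ℂ) (hα : α.IsHermitian) (hβ : β.IsHermitian) (h : ℝ) :
    (α + (h : ℂ) • β).IsHermitian := by
  refine hα.add ?_
  unfold IsHermitian
  rw [conjTranspose_smul, hβ.eq]
  simp

theorem j3_inv_blocks (A B : Matrix n n ℂ) (hA : IsUnit A) (hB : IsUnit B) :
    (fromBlocks A 0 0 B)⁻¹ = fromBlocks A⁻¹ 0 0 B⁻¹ := by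
  refine Matrix.inv_eq_right_inv ?_
  rw [fromBlocks_multiply, Matrix.mul_nonsing_inv A ((Matrix.isUnit_iff_isUnit_det A).mp hA),
    Matrix.mul_nonsing_inv B ((Matrix.isUnit_iff_isUnit_det B).mp hB)]
  simp

theorem j3_RR (q : ℝ) (α₁ α₂ β₁ β₂ : Matrix n n ℂ) (h₁ : α₁.PosDef)
    (h₂ : α₂.PosDef) (hβ₁ : β₁.IsHermitian) (hβ₂ : β₂.IsHermitian) (h : ℝ) :
    RR q (fromBlocks α₁ 0 0 α₂) (fromBlocks β₁ 0 0 β₂) h =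
      fromBlocks (rp (1 / q) (α₁ + (h : ℂ) • β₁) * (rp (1 / q) α₁)⁻¹) 0 0
        (rp (1 / q) (α₂ + (h : ℂ) • β₂) * (rp (1 / q) α₂)⁻¹) := by
  unfold RR
  have e : fromBlocks α₁ 0 0 α₂ + (h : ℂ) • fromBlocks β₁ 0 0 β₂ =
      fromBlocks (α₁ + (h : ℂ) • β₁) 0 0 (α₂ + (h : ℂ) • β₂) := by
    rw [fromBlocks_smul, fromBlocks_add]
    simp
  rw [e, rp_blocks _ _ _ (j3_herm _ _ h₁.isHermitian hβ₁ h) (j3_herm _ _ h₂.isHermitian hβ₂ h),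
    rp_blocks _ _ _ h₁.isHermitian h₂.isHermitian,
    j3_inv_blocks _ _ (rp_posDef _ _ h₁).isUnit (rp_posDef _ _ h₂).isUnit, fromBlocks_multiply]
  simp

theorem j3_dil_conj (R₁ R₂ X : Matrix n n ℂ) :
    fromBlocks R₁ 0 0 R₂ * dil X * (fromBlocks R₁ 0 0 R₂)ᴴ = dil (R₁ * X * R₂ᴴ) := by
  unfold dil
  rw [fromBlocks_conjTranspose, fromBlocks_multiply, fromBlocks_multiply]
  simp [conjTranspose_mul, Matrix.mul_assoc]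

/-- `QQ h = 2 FJ (α(h)) (R₁ X R₂ᴴ)`: `iot_mul`, `iot_dil`, `rp_blocks`, `pw_dil`;
`S₁₂ R₂ᴴ = rp (1/q) (α₂(h))`, `R₁ S₂₁ = rp (1/q) (α₁(h))`. -/
theorem QQ_eq (q lam : ℝ) (hq : 2 < q) (B α₁ α₂ β₁ β₂ X : Matrix n n ℂ) (h₁ : α₁.PosDef)
    (h₂ : α₂.PosDef) (hβ₁ : β₁.IsHermitian) (hβ₂ : β₂.IsHermitian) (h : ℝ) :
    QQ q lam (dil (fromBlocks B (rp (1 / q) α₂) (rp (1 / q) α₁) X)) (iot n)
      (fromBlocks α₁ 0 0 α₂) (fromBlocks β₁ 0 0 β₂) h =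
    2 * FJ q lam B (α₁ + (h : ℂ) • β₁) (α₂ + (h : ℂ) • β₂)
      (rp (1 / q) (α₁ + (h : ℂ) • β₁) * (rp (1 / q) α₁)⁻¹ * X *
        (rp (1 / q) (α₂ + (h : ℂ) • β₂) * (rp (1 / q) α₂)⁻¹)ᴴ) := by
  unfold QQ FJ
  rw [j3_RR q α₁ α₂ β₁ β₂ h₁ h₂ hβ₁ hβ₂ h, iot_dil, iot_mul, j3_dil_conj,
    pw_dil q (by linarith), pw_dil q (by linarith)]
  have e1 : rp (1 / q) (α₁ + (h : ℂ) • β₁) * (rp (1 / q) α₁)⁻¹ * rp (1 / q) α₁ =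
      rp (1 / q) (α₁ + (h : ℂ) • β₁) := by
    rw [Matrix.mul_assoc, Matrix.nonsing_inv_mul _
      ((Matrix.isUnit_iff_isUnit_det _).mp (rp_posDef (1 / q) _ h₁).isUnit), Matrix.mul_one]
  have e2 : rp (1 / q) α₂ * (rp (1 / q) (α₂ + (h : ℂ) • β₂) * (rp (1 / q) α₂)⁻¹)ᴴ =
      rp (1 / q) (α₂ + (h : ℂ) • β₂) := by
    have e3 : rp (1 / q) (α₂ + (h : ℂ) • β₂) * (rp (1 / q) α₂)⁻¹ * rp (1 / q) α₂ =
        rp (1 / q) (α₂ + (h : ℂ) • β₂) := by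
      rw [Matrix.mul_assoc, Matrix.nonsing_inv_mul _
        ((Matrix.isUnit_iff_isUnit_det _).mp (rp_posDef (1 / q) _ h₂).isUnit), Matrix.mul_one]
    have e4 := congrArg conjTranspose e3
    rw [conjTranspose_mul, (rp_isHermitian (1 / q) α₂).eq, (rp_isHermitian (1 / q) _).eq] at e4
    exact e4
  rw [e1, e2]
  ring

/-- `second_diff`, `QQ_eq`, `hstat_of_min`, `hpos_of_posDef` -/
theorem FJ_second (q lam : ℝ) (hq : 2 < q) (hlam : 0 ≤ lam) (B α₁ α₂ β₁ β₂ X : Matrix n n ℂ)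
    (h₁ : α₁.PosDef) (h₂ : α₂.PosDef) (hβ₁ : β₁.IsHermitian) (hβ₂ : β₂.IsHermitian)
    (hX : ∀ X', FJ q lam B α₁ α₂ X ≤ FJ q lam B α₁ α₂ X') (ε : ℝ) (hε : 0 < ε) :
    ∃ η : ℝ, 0 < η ∧ ∀ h : ℝ, |h| ≤ η → ∃ X₁ X₂ : Matrix n n ℂ,
      FJ q lam B (α₁ + (h : ℂ) • β₁) (α₂ + (h : ℂ) • β₂) X₁ +
        FJ q lam B (α₁ - (h : ℂ) • β₁) (α₂ - (h : ℂ) • β₂) X₂ ≤
      2 * FJ q lam B α₁ α₂ X + ε * h ^ 2 := by
  have hβ : (fromBlocks β₁ 0 0 β₂).IsHermitian := by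
    unfold IsHermitian
    rw [fromBlocks_conjTranspose, hβ₁.eq, hβ₂.eq]
    simp
  obtain ⟨η, hη, hh⟩ := second_diff q lam hq hlam
    (dil (fromBlocks B (rp (1 / q) α₂) (rp (1 / q) α₁) X)) (dil_isHermitian _) (iot n)
    iot_isometry (hstat_of_min q lam hq hlam B α₁ α₂ X hX)
    (hpos_of_posDef q lam hq hlam B α₁ α₂ X h₁ h₂)
    (fromBlocks α₁ 0 0 α₂) (fromBlocks β₁ 0 0 β₂) (posDef_blocks α₁ α₂ h₁ h₂) hβ (2 * ε)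
    (by positivity)
  refine ⟨η, hη, fun h hle => ?_⟩
  obtain ⟨-, hs⟩ := hh h hle
  rw [QQ_eq q lam hq B α₁ α₂ β₁ β₂ X h₁ h₂ hβ₁ hβ₂ h,
    QQ_eq q lam hq B α₁ α₂ β₁ β₂ X h₁ h₂ hβ₁ hβ₂ (-h),
    QQ_eq q lam hq B α₁ α₂ β₁ β₂ X h₁ h₂ hβ₁ hβ₂ 0] at hs
  have z1 : α₁ + ((0 : ℝ) : ℂ) • β₁ = α₁ := by simp
  have z2 : α₂ + ((0 : ℝ) : ℂ) • β₂ = α₂ := by simp
  have u1 : rp (1 / q) α₁ * (rp (1 / q) α₁)⁻¹ = 1 := Matrix.mul_nonsing_inv _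
      ((Matrix.isUnit_iff_isUnit_det _).mp (rp_posDef (1 / q) _ h₁).isUnit)
  have u2 : rp (1 / q) α₂ * (rp (1 / q) α₂)⁻¹ = 1 := Matrix.mul_nonsing_inv _
      ((Matrix.isUnit_iff_isUnit_det _).mp (rp_posDef (1 / q) _ h₂).isUnit)
  have n1 : α₁ + ((-h : ℝ) : ℂ) • β₁ = α₁ - (h : ℂ) • β₁ := by
    rw [Complex.ofReal_neg, neg_smul, sub_eq_add_neg]
  have n2 : α₂ + ((-h : ℝ) : ℂ) • β₂ = α₂ - (h : ℂ) • β₂ := by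
    rw [Complex.ofReal_neg, neg_smul, sub_eq_add_neg]
  rw [z1, z2, u1, u2, n1, n2, conjTranspose_one, Matrix.one_mul, Matrix.mul_one] at hs
  exact ⟨_, _, by linarith⟩

end Pool.Agent.LibSchQ
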