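import Pool.Agent.LibSchQ.J2a
import Pool.Agent.LibSch.PwBasic

/-! **J4a.**  The value function. -/

open Matrix
open scoped ComplexOrder

namespace Pool.Agent.LibSchQ

open Pool.Agent.LibSchP

variable {n : Type} [Fintype n] [DecidableEq n]

/-- the value function `min_X FJ` -/
noncomputable def JV (q lam : ℝ) (B α₁ α₂ : Matrix n n ℂ) : ℝ :=
  sInf (Set.range (FJ q lam B α₁ α₂))

theorem JV_le (q lam : ℝ) (hq : 2 < q) (hlam : 0 ≤ lam) (B α₁ α₂ X : Matrix n n ℂ) :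
    JV q lam B α₁ α₂ ≤ FJ q lam B α₁ α₂ X := by
  refine csInf_le ⟨0, ?_⟩ ⟨X, rfl⟩
  rintro _ ⟨X', rfl⟩
  exact add_nonneg (LibSch.pw_nonneg _ _) (mul_nonneg hlam (LibSch.pw_nonneg _ _))

theorem j4a_le (q lam : ℝ) (B α₁ α₂ : Matrix n n ℂ) (c : ℝ) (h : ∀ X, c ≤ FJ q lam B α₁ α₂ X) :
    c ≤ JV q lam B α₁ α₂ := by
  refine le_csInf (Set.range_nonempty _) ?_
  rintro _ ⟨X', rfl⟩
  exact h X'

theorem JV_attained (q lam : ℝ) (hq : 2 < q) (hlam : 0 ≤ lam) (B α₁ α₂ : Matrix n n ℂ) :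
    ∃ X : Matrix n n ℂ, JV q lam B α₁ α₂ = FJ q lam B α₁ α₂ X ∧
      ∀ X', FJ q lam B α₁ α₂ X ≤ FJ q lam B α₁ α₂ X' := by
  obtain ⟨X, hX⟩ := FJ_min q lam hq hlam B α₁ α₂
  exact ⟨X, le_antisymm (JV_le q lam hq hlam B α₁ α₂ X) (j4a_le q lam B α₁ α₂ _ hX), hX⟩

theorem le_JV (q lam : ℝ) (B α₁ α₂ : Matrix n n ℂ) (c : ℝ) (h : ∀ X, c ≤ FJ q lam B α₁ α₂ X) :
    c ≤ JV q lam B α₁ α₂ := j4a_le q lam B α₁ α₂ c h

end Pool.Agent.LibSchQ
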