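import Pool.Agent.LibSchQ.J4a
import Pool.Agent.LibSchQ.G1

/-! **J4b.**  Continuity of the value function on segments. -/

open Matrix
open scoped ComplexOrder

namespace Pool.Agent.LibSchQ

open Pool.Agent.LibSchP

variable {n : Type} [Fintype n] [DecidableEq n]

/-- the segment between two positive definite matrices -/
noncomputable def sg (α α' : Matrix n n ℂ) (t : ℝ) : Matrix n n ℂ :=
  α + (t : ℂ) • (α' - α)

omit [Fintype n] [DecidableEq n] in
theorem sg_posDef (α α' : Matrix n n ℂ) (h : α.PosDef) (h' : α'.PosDef) (t : ℝ) (h0 : 0 ≤ t)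
    (h1 : t ≤ 1) : (sg α α' t).PosDef := by
  have e : sg α α' t = ((1 - t : ℝ) : ℂ) • α + ((t : ℝ) : ℂ) • α' := by
    unfold sg
    push_cast
    module
  rw [e]
  rcases h0.eq_or_lt with rfl | ht
  · simpa using h
  · refine PosDef.posSemidef_add ?_ ?_
    · exact h.posSemidef.smul (by exact_mod_cast sub_nonneg.2 h1)
    · exact h'.smul (by exact_mod_cast ht)

omit [DecidableEq n] in
theorem j4b_sg_sub (α α' : Matrix n n ℂ) (s t : ℝ) :
    nf (sg α α' s - sg α α' t) = |s - t| * nf (α' - α) := by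
  have e : sg α α' s - sg α α' t = ((s - t : ℝ) : ℂ) • (α' - α) := by
    unfold sg
    push_cast
    module
  rw [e, nf_smul, Complex.norm_real, Real.norm_eq_abs]

/-- powers are continuous at positive definite points (`rp_lip_near`) -/
theorem rp_sg_continuous (r : ℝ) (α α' : Matrix n n ℂ) (h : α.PosDef) (h' : α'.PosDef) :
    ContinuousOn (fun t : ℝ => rp r (sg α α' t)) (Set.Icc 0 1) := by
  intro t₀ ht₀
  obtain ⟨L, η, hL, hη, H⟩ := rp_lip_near r (sg α α' t₀) (sg_posDef α α' h h' t₀ ht₀.1 ht₀.2)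
  have hn := nf_nonneg (α' - α)
  unfold ContinuousWithinAt
  refine tendsto_pi_nhds.2 fun i => tendsto_pi_nhds.2 fun j => ?_
  rw [tendsto_iff_norm_sub_tendsto_zero]
  have hlim : Filter.Tendsto (fun t : ℝ => L * (|t - t₀| * nf (α' - α)))
      (nhdsWithin t₀ (Set.Icc 0 1)) (nhds 0) := by
    have : Continuous fun t : ℝ => L * (|t - t₀| * nf (α' - α)) := by fun_prop
    have h2 := (this.tendsto t₀).mono_left (nhdsWithin_le_nhds (s := Set.Icc 0 1))
    simpa using h2
  refine squeeze_zero' (Filter.Eventually.of_forall fun t => norm_nonneg _) ?_ hlim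
  have hnear : ∀ᶠ t in nhdsWithin t₀ (Set.Icc (0 : ℝ) 1), |t - t₀| * nf (α' - α) ≤ η := by
    have : Continuous fun t : ℝ => |t - t₀| * nf (α' - α) := by fun_prop
    have h2 := (this.tendsto t₀).mono_left (nhdsWithin_le_nhds (s := Set.Icc 0 1))
    have h3 : (fun t : ℝ => |t - t₀| * nf (α' - α)) t₀ < η := by simpa using hη
    exact (h2.eventually (gt_mem_nhds h3)).mono fun t ht => ht.le
  filter_upwards [hnear, self_mem_nhdsWithin] with t ht1 ht2
  have h4 := H (sg α α' t) (sg_posDef α α' h h' t ht2.1 ht2.2) (by rw [j4b_sg_sub]; exact ht1)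
  rw [j4b_sg_sub] at h4
  refine le_trans ?_ h4
  exact norm_le_nf (rp r (sg α α' t) - rp r (sg α α' t₀)) i j

/-- `JV` is the infimum over a fixed compact ball of `X` (by `pw_coercive` and `FJ … 0` bounded on
`[0,1]`): `IsCompact.continuous_sInf` -/
theorem JV_continuous (q lam : ℝ) (hq : 2 < q) (hlam : 0 ≤ lam)
    (B α₁ α₂ α₁' α₂' : Matrix n n ℂ) (h₁ : α₁.PosDef) (h₂ : α₂.PosDef) (h₁' : α₁'.PosDef)
    (h₂' : α₂'.PosDef) :
    ContinuousOn (fun t : ℝ => JV q lam B (sg α₁ α₁' t) (sg α₂ α₂' t)) (Set.Icc 0 1) := by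
  have hc1 := continuousOn_iff_continuous_domRestrict.1 (rp_sg_continuous (1 / q) α₁ α₁' h₁ h₁')
  have hc2 := continuousOn_iff_continuous_domRestrict.1 (rp_sg_continuous (1 / q) α₂ α₂' h₂ h₂')
  rw [continuousOn_iff_continuous_domRestrict]
  obtain ⟨F, hF⟩ : ∃ F : Set.Icc (0 : ℝ) 1 → Matrix n n ℂ → ℝ, ∀ t X, F t X =
    FJ q lam B (sg α₁ α₁' t) (sg α₂ α₂' t) X := ⟨_, fun _ _ => rfl⟩
  have hFc : Continuous fun p : Set.Icc (0 : ℝ) 1 × Matrix n n ℂ => F p.1 p.2 := by
    simp only [hF]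
    unfold FJ
    refine Continuous.add ?_ ?_
    · refine (pw_continuous_q q hq).comp ?_
      refine Continuous.matrix_fromBlocks continuous_const ?_ ?_ continuous_snd
      · exact hc2.comp continuous_fst
      · exact hc1.comp continuous_fst
    · exact continuous_const.mul ((pw_continuous_q q hq).comp continuous_snd)
  -- an upper bound at `X = 0`
  obtain ⟨M, hM⟩ : ∃ M : ℝ, ∀ t : Set.Icc (0 : ℝ) 1, F t 0 ≤ M := by
    have hcont : Continuous fun t : Set.Icc (0 : ℝ) 1 => F t 0 :=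
      hFc.comp (f := fun t : Set.Icc (0 : ℝ) 1 => (t, (0 : Matrix n n ℂ)))
        (continuous_id.prodMk continuous_const)
    obtain ⟨M, hM⟩ := (isCompact_range hcont).bddAbove
    exact ⟨M, fun t => hM (Set.mem_range_self t)⟩
  obtain ⟨c, hc, hcoer⟩ := pw_coercive (m := n ⊕ n) (n := n ⊕ n) q hq
  obtain ⟨R, hR0, hR⟩ : ∃ R : ℝ, 0 ≤ R ∧ ∀ x : ℝ, 0 ≤ x → c * x ^ q ≤ M → x ≤ R := by
    refine ⟨(max M 0 / c) ^ (1 / q), by positivity, fun x hx hxM => ?_⟩
    have h1 : x ^ q ≤ max M 0 / c := by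
      rw [le_div_iff₀ hc]
      have := le_max_left M 0
      linarith
    have h2 := Real.rpow_le_rpow (Real.rpow_nonneg hx q) h1
      (by positivity : (0 : ℝ) ≤ 1 / q)
    rwa [← Real.rpow_mul hx, mul_one_div_cancel (by linarith : q ≠ 0), Real.rpow_one] at h2
  set K : Set (Matrix n n ℂ) := {X | ∀ i j, X i j ∈ Metric.closedBall (0 : ℂ) R} with hK
  have hKc : IsCompact K := by
    have h1 : IsCompact (Set.pi Set.univ fun _ : n => Set.pi Set.univ fun _ : n =>
        Metric.closedBall (0 : ℂ) R) :=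
      isCompact_univ_pi fun i => isCompact_univ_pi fun j => isCompact_closedBall _ _
    have h2 : K = (Set.pi Set.univ fun _ : n => Set.pi Set.univ fun _ : n =>
        Metric.closedBall (0 : ℂ) R) := by
      ext X
      exact ⟨fun h i _ j _ => h i j, fun h i j => h i trivial j trivial⟩
    rw [h2]
    exact h1
  have hcs := IsCompact.continuous_sInf hKc hFc
  refine hcs.congr fun t => ?_
  obtain ⟨X, hX1, hX2⟩ := JV_attained q lam hq hlam B (sg α₁ α₁' t) (sg α₂ α₂' t)
  have hXK : X ∈ K := by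
    intro i j
    rw [mem_closedBall_zero_iff]
    refine (norm_le_nf X i j).trans (hR _ (nf_nonneg X) ?_)
    have h1 : F t X ≤ M := by
      have h0 := hX2 0
      rw [← hF, ← hF] at h0
      exact h0.trans (hM t)
    have h2 : c * nf (fromBlocks B (rp (1 / q) (sg α₂ α₂' t)) (rp (1 / q) (sg α₁ α₁' t)) X) ^ q
        ≤ F t X := by
      have h3 := hcoer (fromBlocks B (rp (1 / q) (sg α₂ α₂' t)) (rp (1 / q) (sg α₁ α₁' t)) X)
      have h4 := mul_nonneg hlam (LibSch.pw_nonneg q X)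
      rw [hF]
      unfold FJ
      linarith
    have h5 : nf X ≤ nf (fromBlocks B (rp (1 / q) (sg α₂ α₂' t)) (rp (1 / q) (sg α₁ α₁' t)) X) := by
      unfold nf
      refine Real.sqrt_le_sqrt ?_
      unfold fr
      rw [Fintype.sum_sum_type]
      simp only [Fintype.sum_sum_type, fromBlocks_apply₁₁, fromBlocks_apply₁₂,
        fromBlocks_apply₂₁, fromBlocks_apply₂₂]
      have h6 : ∀ (Y : Matrix n n ℂ), 0 ≤ ∑ i, ∑ j, ‖Y i j‖ ^ 2 := fun Y => by positivity
      simp only [Finset.sum_add_distrib]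
      have := h6 B
      have := h6 (rp (1 / q) (sg α₂ α₂' t))
      have := h6 (rp (1 / q) (sg α₁ α₁' t))
      linarith
    have h7 := Real.rpow_le_rpow (nf_nonneg X) h5 (by linarith : (0 : ℝ) ≤ q)
    calc c * nf X ^ q ≤ _ := mul_le_mul_of_nonneg_left h7 hc.le
      _ ≤ _ := h2
      _ ≤ M := h1
  have hleast : IsLeast (F t '' K) (F t X) := by
    refine ⟨⟨X, hXK, rfl⟩, ?_⟩
    rintro _ ⟨X', -, rfl⟩
    rw [hF, hF]
    exact hX2 X'
  rw [hleast.csInf_eq, hF]
  exact hX1.symm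

end Pool.Agent.LibSchQ
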