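import Mathlib

/-! **J5.**  Schwarz: local second differences and concavity (compare `LibSchP.L1`). -/

namespace Pool.Agent.LibSchQ

/-- If not, `g(x) = (1-x) f(0) + x f(1) - f(x) + ε (x² - x)` is continuous on `[0,1]`, zero at
`0, 1` and positive somewhere for a small `ε > 0`; at an interior maximum
`g(x+h) + g(x-h) ≤ 2 g(x)`, but `g(x+h) + g(x-h) - 2 g(x) ≥ (2 ε - ε) h²`. -/
theorem schwarz_concave (f : ℝ → ℝ) (hf : ContinuousOn f (Set.Icc 0 1))
    (h : ∀ x ∈ Set.Ioo (0 : ℝ) 1, ∀ ε : ℝ, 0 < ε → ∃ η : ℝ, 0 < η ∧ ∀ h : ℝ, |h| ≤ η →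
      f (x + h) + f (x - h) ≤ 2 * f x + ε * h ^ 2) (t : ℝ) (h0 : 0 ≤ t) (h1 : t ≤ 1) :
    (1 - t) * f 0 + t * f 1 ≤ f t := by
  by_contra hcon
  push Not at hcon
  set ε : ℝ := (1 - t) * f 0 + t * f 1 - f t with hε
  have hεpos : 0 < ε := by rw [hε]; linarith
  let g : ℝ → ℝ := fun x => (1 - x) * f 0 + x * f 1 - f x + ε * (x ^ 2 - x)
  have hg : ContinuousOn g (Set.Icc 0 1) := by
    have h1 : ContinuousOn (fun x : ℝ => (1 - x) * f 0 + x * f 1) (Set.Icc 0 1) := by fun_prop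
    have h3 : ContinuousOn (fun x : ℝ => ε * (x ^ 2 - x)) (Set.Icc 0 1) := by fun_prop
    exact (h1.sub hf).add h3
  obtain ⟨x0, hx0, hmax⟩ := isCompact_Icc.exists_isMaxOn
    (Set.nonempty_Icc.mpr (zero_le_one (α := ℝ))) hg
  have hmax' : ∀ y ∈ Set.Icc (0 : ℝ) 1, g y ≤ g x0 := fun y hy => hmax hy
  have hmid : (0 : ℝ) < g t := by
    simp only [g]
    rw [← hε]
    nlinarith [sq_nonneg (t - 1 / 2)]
  have hx0pos : 0 < g x0 := lt_of_lt_of_le hmid (hmax' t ⟨h0, h1⟩)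
  have hx00 : x0 ≠ 0 := by
    intro h0
    rw [h0] at hx0pos
    simp only [g] at hx0pos
    norm_num at hx0pos
  have hx01 : x0 ≠ 1 := by
    intro h0
    rw [h0] at hx0pos
    simp only [g] at hx0pos
    norm_num at hx0pos
  have hp0 : 0 < x0 := lt_of_le_of_ne hx0.1 (Ne.symm hx00)
  have hp1 : x0 < 1 := lt_of_le_of_ne hx0.2 hx01
  obtain ⟨η, hη, hh⟩ := h x0 ⟨hp0, hp1⟩ ε hεpos
  set r : ℝ := min η (min x0 (1 - x0)) with hr
  have hrpos : 0 < r := by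
    rw [hr]
    exact lt_min hη (lt_min hp0 (by linarith))
  have hr1 : r ≤ η := min_le_left _ _
  have hr3 : r ≤ x0 := le_trans (min_le_right _ _) (min_le_left _ _)
  have hr4 : r ≤ 1 - x0 := le_trans (min_le_right _ _) (min_le_right _ _)
  have h2 := hh r (by rw [abs_of_pos hrpos]; exact hr1)
  have hm1 := hmax' (x0 + r) ⟨by linarith, by linarith⟩
  have hm2 := hmax' (x0 - r) ⟨by linarith, by linarith⟩
  simp only [g] at hm1 hm2
  have hr2 : 0 < ε * r ^ 2 := by positivity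
  nlinarith

end Pool.Agent.LibSchQ
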