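import Pool.Agent.LibSchQ.J3
import Pool.Agent.LibSchQ.J4b
import Pool.Agent.LibSchQ.J5

/-! **J6.**  Concavity of the value function. -/

open Matrix
open scoped ComplexOrder

namespace Pool.Agent.LibSchQ

open Pool.Agent.LibSchP

variable {n : Type} [Fintype n] [DecidableEq n]

omit [Fintype n] [DecidableEq n] in
theorem j6_sg_add (α α' : Matrix n n ℂ) (x h : ℝ) :
    sg α α' (x + h) = sg α α' x + (h : ℂ) • (α' - α) := by
  unfold sg
  rw [Complex.ofReal_add, add_smul, add_assoc]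

omit [Fintype n] [DecidableEq n] in
theorem j6_sg_sub (α α' : Matrix n n ℂ) (x h : ℝ) :
    sg α α' (x - h) = sg α α' x - (h : ℂ) • (α' - α) := by
  unfold sg
  rw [Complex.ofReal_sub, sub_smul, add_sub_assoc]

omit [Fintype n] [DecidableEq n] in
theorem j6_sg_zero (α α' : Matrix n n ℂ) : sg α α' 0 = α := by
  unfold sg
  simp

omit [Fintype n] [DecidableEq n] in
theorem j6_sg_one (α α' : Matrix n n ℂ) : sg α α' 1 = α' := by
  unfold sg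
  simp

/-- `schwarz_concave`, `JV_continuous`, `FJ_second`, `JV_attained`, `JV_le`;
`sg α α' (t ± h) = sg α α' t ± h (α' - α)`. -/
theorem JV_concave (q lam : ℝ) (hq : 2 < q) (hlam : 0 ≤ lam)
    (B α₁ α₂ α₁' α₂' : Matrix n n ℂ) (h₁ : α₁.PosDef) (h₂ : α₂.PosDef) (h₁' : α₁'.PosDef)
    (h₂' : α₂'.PosDef) (t : ℝ) (h0 : 0 ≤ t) (h1 : t ≤ 1) :
    (1 - t) * JV q lam B α₁ α₂ + t * JV q lam B α₁' α₂' ≤
      JV q lam B (sg α₁ α₁' t) (sg α₂ α₂' t) := by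
  have key := schwarz_concave (fun t : ℝ => JV q lam B (sg α₁ α₁' t) (sg α₂ α₂' t))
    (JV_continuous q lam hq hlam B α₁ α₂ α₁' α₂' h₁ h₂ h₁' h₂') ?_ t h0 h1
  · simpa only [j6_sg_zero, j6_sg_one] using key
  · intro x hx ε hε
    obtain ⟨X, hX, hmin⟩ := JV_attained q lam hq hlam B (sg α₁ α₁' x) (sg α₂ α₂' x)
    obtain ⟨η, hη, hη2⟩ := FJ_second q lam hq hlam B (sg α₁ α₁' x) (sg α₂ α₂' x)
      (α₁' - α₁) (α₂' - α₂) X (sg_posDef α₁ α₁' h₁ h₁' x hx.1.le hx.2.le)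
      (sg_posDef α₂ α₂' h₂ h₂' x hx.1.le hx.2.le) (h₁'.1.sub h₁.1) (h₂'.1.sub h₂.1) hmin ε hε
    refine ⟨η, hη, fun h hh => ?_⟩
    obtain ⟨X₁, X₂, h12⟩ := hη2 h hh
    have e1 := JV_le q lam hq hlam B (sg α₁ α₁' (x + h)) (sg α₂ α₂' (x + h)) X₁
    have e2 := JV_le q lam hq hlam B (sg α₁ α₁' (x - h)) (sg α₂ α₂' (x - h)) X₂
    simp only [j6_sg_add, j6_sg_sub] at e1 e2 ⊢
    rw [hX]
    linarith

end Pool.Agent.LibSchQ
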