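import Pool.Agent.LibSchQ.Defs
import Pool.Agent.LibSchTri.S13
import Pool.Agent.LibSchTri.S17
import Pool.Agent.LibSchP.A3

/-! **K1a.**  Young's inequality for the trace. -/

open Matrix
open scoped ComplexOrder

namespace Pool.Agent.LibSchQ

open Pool.Agent.LibSchP

variable {n : Type} [Fintype n] [DecidableEq n]

theorem k1a_row (U : Matrix n n ℂ) (hU : U * Uᴴ = 1) (i : n) : ∑ j, ‖U i j‖ ^ 2 = 1 := by
  have h := congrArg (fun M : Matrix n n ℂ => (M i i).re) hU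
  simp only [mul_apply, conjTranspose_apply, one_apply_eq, Complex.one_re, Complex.re_sum] at h
  rw [← h]
  refine Finset.sum_congr rfl fun j _ => ?_
  rw [Complex.star_def, Complex.mul_conj, Complex.normSq_eq_norm_sq, Complex.ofReal_re]

theorem k1a_col (U : Matrix n n ℂ) (hU : Uᴴ * U = 1) (j : n) : ∑ i, ‖U i j‖ ^ 2 = 1 := by
  have h := k1a_row Uᴴ (by rwa [conjTranspose_conjTranspose]) j
  rw [← h]
  refine Finset.sum_congr rfl fun i _ => ?_
  rw [conjTranspose_apply, norm_star]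

theorem k1a_diag (p : ℝ) (hp : 0 < p) (G : Matrix n n ℂ) (U V : unitaryGroup n ℂ) (b : n → ℝ)
    (hb : ∀ k, 0 ≤ b k)
    (h : (U : Matrix n n ℂ) * G * (V : Matrix n n ℂ) = diagonal fun k => (b k : ℂ)) :
    LibSch.pw p G = ∑ k, b k ^ p := by
  rw [← LibSch.pw_unitary p G U V, h, LibSchTri.pw_diagonal p hp b hb]

/-- singular values: `G = U γ Vᴴ`, `S = U' σ V'ᴴ` (`LibSchTri.svd_sq`, `LibSchTri.pw_diagonal`),
`Re tr GᴴS = Re ∑ γ_i σ_j conj(a_ij) b_ij ≤ ∑ γ_i σ_j (|a_ij|² + |b_ij|²)/2` with unitary `a`, `b`;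
scalar Young (`Real.young_inequality_of_nonneg`); rows and columns sum to `1`. -/
theorem trace_young (p q : ℝ) (hpq : p.HolderConjugate q) (G S : Matrix n n ℂ) :
    (trace (Gᴴ * S)).re ≤ LibSch.pw p G / p + LibSch.pw q S / q := by
  obtain ⟨U, V, g, hg, hUV⟩ := LibSchTri.svd_sq G
  obtain ⟨U', V', s, hs, hUV'⟩ := LibSchTri.svd_sq S
  rw [k1a_diag p hpq.pos G U V g hg hUV, k1a_diag q hpq.symm.pos S U' V' s hs hUV']
  have hU1 : (U : Matrix n n ℂ)ᴴ * U = 1 := mem_unitaryGroup_iff'.1 U.2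
  have hU2 : (U : Matrix n n ℂ) * (U : Matrix n n ℂ)ᴴ = 1 := mem_unitaryGroup_iff.1 U.2
  have hV1 : (V : Matrix n n ℂ)ᴴ * V = 1 := mem_unitaryGroup_iff'.1 V.2
  have hV2 : (V : Matrix n n ℂ) * (V : Matrix n n ℂ)ᴴ = 1 := mem_unitaryGroup_iff.1 V.2
  have hU1' : (U' : Matrix n n ℂ)ᴴ * U' = 1 := mem_unitaryGroup_iff'.1 U'.2
  have hU2' : (U' : Matrix n n ℂ) * (U' : Matrix n n ℂ)ᴴ = 1 := mem_unitaryGroup_iff.1 U'.2
  have hV1' : (V' : Matrix n n ℂ)ᴴ * V' = 1 := mem_unitaryGroup_iff'.1 V'.2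
  have hV2' : (V' : Matrix n n ℂ) * (V' : Matrix n n ℂ)ᴴ = 1 := mem_unitaryGroup_iff.1 V'.2
  have hG : G = (U : Matrix n n ℂ)ᴴ * dg g * (V : Matrix n n ℂ)ᴴ := by
    have : (U : Matrix n n ℂ)ᴴ * ((U : Matrix n n ℂ) * G * (V : Matrix n n ℂ)) *
        (V : Matrix n n ℂ)ᴴ = G := by
      calc _ = ((U : Matrix n n ℂ)ᴴ * U) * G * ((V : Matrix n n ℂ) * (V : Matrix n n ℂ)ᴴ) := by
            simp only [Matrix.mul_assoc]
        _ = G := by rw [hU1, hV2, Matrix.one_mul, Matrix.mul_one]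
    rw [hUV] at this
    exact this.symm
  have hS : S = (U' : Matrix n n ℂ)ᴴ * dg s * (V' : Matrix n n ℂ)ᴴ := by
    have : (U' : Matrix n n ℂ)ᴴ * ((U' : Matrix n n ℂ) * S * (V' : Matrix n n ℂ)) *
        (V' : Matrix n n ℂ)ᴴ = S := by
      calc _ = ((U' : Matrix n n ℂ)ᴴ * U') * S * ((V' : Matrix n n ℂ) * (V' : Matrix n n ℂ)ᴴ) := by
            simp only [Matrix.mul_assoc]
        _ = S := by rw [hU1', hV2', Matrix.one_mul, Matrix.mul_one]
    rw [hUV'] at this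
    exact this.symm
  set a : Matrix n n ℂ := (U : Matrix n n ℂ) * (U' : Matrix n n ℂ)ᴴ with ha
  set b : Matrix n n ℂ := (V' : Matrix n n ℂ)ᴴ * (V : Matrix n n ℂ) with hb
  have ha1 : a * aᴴ = 1 := by
    rw [ha, conjTranspose_mul, conjTranspose_conjTranspose]
    calc _ = (U : Matrix n n ℂ) * ((U' : Matrix n n ℂ)ᴴ * U') * (U : Matrix n n ℂ)ᴴ := by
          simp only [Matrix.mul_assoc]
      _ = 1 := by rw [hU1', Matrix.mul_one, hU2]
  have ha2 : aᴴ * a = 1 := by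
    rw [ha, conjTranspose_mul, conjTranspose_conjTranspose]
    calc _ = (U' : Matrix n n ℂ) * ((U : Matrix n n ℂ)ᴴ * U) * (U' : Matrix n n ℂ)ᴴ := by
          simp only [Matrix.mul_assoc]
      _ = 1 := by rw [hU1, Matrix.mul_one, hU2']
  have hb1 : b * bᴴ = 1 := by
    rw [hb, conjTranspose_mul, conjTranspose_conjTranspose]
    calc _ = (V' : Matrix n n ℂ)ᴴ * ((V : Matrix n n ℂ) * (V : Matrix n n ℂ)ᴴ) * V' := by
          simp only [Matrix.mul_assoc]
      _ = 1 := by rw [hV2, Matrix.mul_one, hV1']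
  have hb2 : bᴴ * b = 1 := by
    rw [hb, conjTranspose_mul, conjTranspose_conjTranspose]
    calc _ = (V : Matrix n n ℂ)ᴴ * ((V' : Matrix n n ℂ) * (V' : Matrix n n ℂ)ᴴ) * V := by
          simp only [Matrix.mul_assoc]
      _ = 1 := by rw [hV2', Matrix.mul_one, hV1]
  have htr : trace (Gᴴ * S) = trace (dg g * a * dg s * b) := by
    rw [hG, hS, conjTranspose_mul, conjTranspose_mul, conjTranspose_conjTranspose,
      conjTranspose_conjTranspose, dg_conjTranspose]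
    calc trace ((V : Matrix n n ℂ) * (dg g * (U : Matrix n n ℂ)) *
          ((U' : Matrix n n ℂ)ᴴ * dg s * (V' : Matrix n n ℂ)ᴴ))
        = trace ((V : Matrix n n ℂ) * (dg g * (U : Matrix n n ℂ) * (U' : Matrix n n ℂ)ᴴ * dg s *
            (V' : Matrix n n ℂ)ᴴ)) := by simp only [Matrix.mul_assoc]
      _ = trace ((dg g * (U : Matrix n n ℂ) * (U' : Matrix n n ℂ)ᴴ * dg s *
            (V' : Matrix n n ℂ)ᴴ) * (V : Matrix n n ℂ)) := trace_mul_comm _ _
      _ = trace (dg g * a * dg s * b) := by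
          rw [ha, hb]
          simp only [Matrix.mul_assoc]
  have hexp : trace (dg g * a * dg s * b) = ∑ i, ∑ j, ((g i * s j : ℝ) : ℂ) * (a i j * b j i) := by
    rw [trace]
    refine Finset.sum_congr rfl fun i _ => ?_
    rw [diag_apply, mul_apply]
    refine Finset.sum_congr rfl fun j _ => ?_
    unfold dg
    rw [mul_diagonal, diagonal_mul]
    push_cast
    ring
  have hle : (trace (Gᴴ * S)).re ≤
      ∑ i, ∑ j, (g i ^ p / p + s j ^ q / q) * ((‖a i j‖ ^ 2 + ‖b j i‖ ^ 2) / 2) := by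
    rw [htr, hexp, Complex.re_sum]
    refine Finset.sum_le_sum fun i _ => ?_
    rw [Complex.re_sum]
    refine Finset.sum_le_sum fun j _ => ?_
    rw [Complex.re_ofReal_mul]
    have h1 : (a i j * b j i).re ≤ (‖a i j‖ ^ 2 + ‖b j i‖ ^ 2) / 2 := by
      refine (Complex.re_le_norm _).trans ?_
      rw [norm_mul]
      nlinarith [sq_nonneg (‖a i j‖ - ‖b j i‖)]
    have h2 : g i * s j ≤ g i ^ p / p + s j ^ q / q :=
      Real.young_inequality_of_nonneg (hg i) (hs j) hpq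
    calc g i * s j * (a i j * b j i).re ≤ g i * s j * ((‖a i j‖ ^ 2 + ‖b j i‖ ^ 2) / 2) :=
          mul_le_mul_of_nonneg_left h1 (mul_nonneg (hg i) (hs j))
      _ ≤ _ := mul_le_mul_of_nonneg_right h2 (by positivity)
  refine hle.trans (le_of_eq ?_)
  have e1 : ∀ i, ∑ j, (‖a i j‖ ^ 2 + ‖b j i‖ ^ 2) / 2 = 1 := by
    intro i
    rw [← Finset.sum_div, Finset.sum_add_distrib, k1a_row a ha1 i, k1a_col b hb2 i]
    norm_num
  have e2 : ∀ j, ∑ i, (‖a i j‖ ^ 2 + ‖b j i‖ ^ 2) / 2 = 1 := by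
    intro j
    rw [← Finset.sum_div, Finset.sum_add_distrib, k1a_col a ha2 j, k1a_row b hb1 j]
    norm_num
  simp only [add_mul, Finset.sum_add_distrib]
  rw [Finset.sum_comm (f := fun i j => s j ^ q / q * ((‖a i j‖ ^ 2 + ‖b j i‖ ^ 2) / 2))]
  simp only [← Finset.mul_sum, e1, e2, mul_one, Finset.sum_div]

end Pool.Agent.LibSchQ
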