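import Pool.Agent.LibSchQ.K1a
import Pool.Agent.LibSchQ.J1

/-! **K2.**  Tensor products `Y ⊗ P` with a real `2 × 2` matrix `Y`. -/

open Matrix
open scoped ComplexOrder

namespace Pool.Agent.LibSchQ

open Pool.Agent.LibSchP

variable {n : Type} [Fintype n] [DecidableEq n]

/-- real `2 × 2` matrix, as a complex one -/
noncomputable def m2 (a b c d : ℝ) : Matrix (Fin 2) (Fin 2) ℂ :=
  Matrix.of ![![(a : ℂ), (b : ℂ)], ![(c : ℂ), (d : ℂ)]]

/-- `Y ⊗ P` -/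
noncomputable def tp (a b c d : ℝ) (P : Matrix n n ℂ) : Matrix (n ⊕ n) (n ⊕ n) ℂ :=
  fromBlocks ((a : ℂ) • P) ((b : ℂ) • P) ((c : ℂ) • P) ((d : ℂ) • P)

theorem k2_pw_ud (r : ℝ) (U : Matrix n n ℂ) (hU : U ∈ unitaryGroup n ℂ) (x : n → ℝ)
    (hx : ∀ k, 0 ≤ x k) : LibSch.pw r (ud U x) = ∑ k, x k ^ r := by
  have h : (ud U x)ᴴ * ud U x = ud U fun k => x k * x k := by
    rw [(ud_isHermitian U x).eq, ud_mul U hU]
  rw [pw_ud r (ud U x) U hU _ h]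
  refine Finset.sum_congr rfl fun k _ => ?_
  have h2 : x k * x k = x k ^ (2 : ℝ) := by
    rw [Real.rpow_two]
    ring
  rw [h2, ← Real.rpow_mul (hx k)]
  congr 1
  ring

theorem k2_trace_ud (U : Matrix n n ℂ) (hU : U ∈ unitaryGroup n ℂ) (x : n → ℝ) :
    (trace (ud U x)).re = ∑ k, x k := by
  unfold ud
  rw [Matrix.mul_assoc, trace_mul_comm, Matrix.mul_assoc, a2_uu U hU, Matrix.mul_one]
  unfold dg
  rw [trace_diagonal, Complex.re_sum]
  simp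

/-- the reindexing -/
def k2_e (n : Type) : (Σ _ : n, Fin 2) ≃ n ⊕ n where
  toFun p := if p.2 = 0 then Sum.inl p.1 else Sum.inr p.1
  invFun := Sum.elim (fun k => ⟨k, 0⟩) (fun k => ⟨k, 1⟩)
  left_inv := by
    rintro ⟨k, i⟩
    fin_cases i <;> rfl
  right_inv := by
    rintro (k | k) <;> rfl

theorem k2_block (a b c d : ℝ) (x : n → ℝ) :
    (tp a b c d (dg x)).submatrix (k2_e n) (k2_e n) =
      blockDiagonal' (fun k : n => ((x k : ℝ) : ℂ) • m2 a b c d) := by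
  ext ⟨k, i⟩ ⟨l, j⟩
  rw [submatrix_apply, blockDiagonal'_apply]
  by_cases h : k = l
  · subst h
    rw [dif_pos rfl]
    fin_cases i <;> fin_cases j <;> simp [k2_e, tp, m2, dg, mul_comm]
  · rw [dif_neg h]
    fin_cases i <;> fin_cases j <;> simp [k2_e, tp, dg, h]

/-- `P = ud U x`; conjugate by `fromBlocks U 0 0 U`; reindex to the block diagonal matrix with
blocks `x_k • m2 a b c d` (`LibSch.pw_submatrix`, `LibSch.pw_blockDiagonal'`, `pw_smul`). -/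
theorem pw_tp (r : ℝ) (hr : 0 < r) (a b c d : ℝ) (P : Matrix n n ℂ) (hP : P.PosSemidef) :
    LibSch.pw r (tp a b c d P) = LibSch.pw r (m2 a b c d) * LibSch.pw r P := by
  obtain ⟨U, hU, x, hx, rfl⟩ := ud_exists_nonneg P hP
  have hUU := a2_uu U hU
  have hUU' := a2_uu' U hU
  have hW : (fromBlocks U 0 0 U : Matrix (n ⊕ n) (n ⊕ n) ℂ) ∈ unitaryGroup (n ⊕ n) ℂ := by
    rw [mem_unitaryGroup_iff, star_eq_conjTranspose, fromBlocks_conjTranspose,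
      fromBlocks_multiply]
    simp [hUU']
  have hW' : (fromBlocks U 0 0 U : Matrix (n ⊕ n) (n ⊕ n) ℂ)ᴴ ∈ unitaryGroup (n ⊕ n) ℂ := by
    have := Unitary.star_mem hW
    rwa [star_eq_conjTranspose] at this
  have h1 : tp a b c d (ud U x) = (fromBlocks U 0 0 U : Matrix (n ⊕ n) (n ⊕ n) ℂ) *
      tp a b c d (dg x) * (fromBlocks U 0 0 U : Matrix (n ⊕ n) (n ⊕ n) ℂ)ᴴ := by
    unfold tp ud
    rw [fromBlocks_conjTranspose, fromBlocks_multiply, fromBlocks_multiply]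
    simp
  have h2 := LibSch.pw_unitary r (tp a b c d (dg x)) ⟨_, hW⟩ ⟨_, hW'⟩
  rw [h1]
  refine h2.trans ?_
  rw [← LibSch.pw_submatrix r (tp a b c d (dg x)) (k2_e n) (k2_e n), k2_block,
    LibSch.pw_blockDiagonal', k2_pw_ud r U hU x hx, Finset.mul_sum]
  refine Finset.sum_congr rfl fun k _ => ?_
  rw [pw_smul r hr, abs_of_nonneg (hx k), mul_comm]

/-- `pw p (P^(q-1)) = pw q P`, `tr P^(q-1) P = pw q P` -/
theorem pw_rp_conj (p q : ℝ) (hpq : p.HolderConjugate q) (P : Matrix n n ℂ) (hP : P.PosDef) :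
    LibSch.pw p (rp (q - 1) P) = LibSch.pw q P ∧
      (trace (rp (q - 1) P * P)).re = LibSch.pw q P := by
  obtain ⟨U, hU, x, hx, rfl⟩ := ud_exists_pos P hP
  have hq0 : 0 < q := hpq.symm.pos
  have hmul : (q - 1) * p = q := by
    have := hpq.symm.sub_one_mul_conj
    linarith
  rw [rp_ud (q - 1) U hU, k2_pw_ud p U hU _ (fun k => (Real.rpow_pos_of_pos (hx k) _).le),
    k2_pw_ud q U hU _ (fun k => (hx k).le), ud_mul U hU, k2_trace_ud U hU]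
  constructor
  · refine Finset.sum_congr rfl fun k _ => ?_
    rw [← Real.rpow_mul (hx k).le, hmul]
  · refine Finset.sum_congr rfl fun k _ => ?_
    have h3 := Real.rpow_add (hx k) (q - 1) 1
    rw [Real.rpow_one] at h3
    rw [← h3]
    congr 1
    ring

theorem trace_blocks (A B C D A' B' C' D' : Matrix n n ℂ) :
    (trace ((fromBlocks A B C D)ᴴ * fromBlocks A' B' C' D')).re =
      (trace (Aᴴ * A')).re + (trace (Bᴴ * B')).re + (trace (Cᴴ * C')).re +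
        (trace (Dᴴ * D')).re := by
  rw [fromBlocks_conjTranspose, fromBlocks_multiply]
  simp only [Matrix.trace, Fintype.sum_sum_type, diag_apply, fromBlocks_apply₁₁,
    fromBlocks_apply₂₂, Matrix.add_apply, Finset.sum_add_distrib, Complex.add_re]
  ring

/-- Scalar data: `Z = m2 z₁₁ z₁₂ z₂₁ z₂₂`, `Y = Z |Z|^(p-2)`. -/
structure Sd (p q y₁₁ y₁₂ y₂₁ y₂₂ z₁₁ z₁₂ z₂₁ z₂₂ s : ℝ) : Prop where
  hpq : p.HolderConjugate q
  hq : 2 < q
  hY : LibSch.pw q (m2 y₁₁ y₁₂ y₂₁ y₂₂) = s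
  hZ : LibSch.pw p (m2 z₁₁ z₁₂ z₂₁ z₂₂) = s
  hYZ : y₁₁ * z₁₁ + y₁₂ * z₁₂ + y₂₁ * z₂₁ + y₂₂ * z₂₂ = s
  hz₁₁ : 0 ≤ z₁₁
  hz₁₂ : 0 ≤ z₁₂
  hz₂₁ : 0 ≤ z₂₁
  hz₂₂ : 0 ≤ z₂₂

end Pool.Agent.LibSchQ
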