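import Pool.Agent.LibSchQ.K2

/-! **K3a.**  The base point of the segment. -/

open Matrix
open scoped ComplexOrder

namespace Pool.Agent.LibSchQ

open Pool.Agent.LibSchP

variable {n : Type} [Fintype n] [DecidableEq n]

theorem k3a_smul_ud (c : ℝ) (U : Matrix n n ℂ) (x : n → ℝ) :
    (c : ℂ) • ud U x = ud U fun k => c * x k := by
  have h : (c : ℂ) • dg x = dg fun k => c * x k := by
    unfold dg
    rw [← diagonal_smul]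
    congr 1
    funext k
    simp
  unfold ud
  rw [← h, Matrix.mul_smul, Matrix.smul_mul]

theorem k3a_root {q y : ℝ} (hq : 0 < q) (hy : 0 < y) (P : Matrix n n ℂ) (hP : P.PosDef) :
    rp (1 / q) (((y ^ q : ℝ) : ℂ) • rp q P) = (y : ℂ) • P := by
  obtain ⟨U, hU, x, hx, rfl⟩ := ud_exists_pos P hP
  rw [rp_ud q U hU, k3a_smul_ud, rp_ud _ U hU, k3a_smul_ud]
  congr 1
  funext k
  rw [Real.mul_rpow (Real.rpow_nonneg hy.le _) (Real.rpow_nonneg (hx k).le _),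
    ← Real.rpow_mul hy.le, ← Real.rpow_mul (hx k).le, mul_one_div_cancel hq.ne', Real.rpow_one,
    Real.rpow_one]

theorem k3a_rpH (r : ℝ) (P : Matrix n n ℂ) : (rp r P)ᴴ = rp r P := (rp_isHermitian r P).eq

theorem k3a_trace {p q : ℝ} (hpq : p.HolderConjugate q) (P : Matrix n n ℂ) (hP : P.PosDef)
    (hP1 : LibSch.pw q P = 1) (c d : ℝ) :
    (trace (((c : ℂ) • rp (q - 1) P)ᴴ * ((d : ℂ) • P))).re = c * d := by
  have h := (pw_rp_conj p q hpq P hP).2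
  rw [hP1] at h
  rw [conjTranspose_smul, k3a_rpH, Matrix.smul_mul, Matrix.mul_smul, trace_smul, trace_smul,
    smul_eq_mul, smul_eq_mul, Complex.star_def, Complex.conj_ofReal, Complex.re_ofReal_mul,
    Complex.re_ofReal_mul, h, mul_one]

theorem k3a_traceX (P X : Matrix n n ℂ) (q c : ℝ) :
    (trace (((c : ℂ) • rp (q - 1) P)ᴴ * X)).re = c * (trace ((rp (q - 1) P)ᴴ * X)).re := by
  rw [conjTranspose_smul, Matrix.smul_mul, trace_smul, smul_eq_mul, Complex.star_def,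
    Complex.conj_ofReal, Complex.re_ofReal_mul]

/-- `FJ` at the base point: `pw_tp`, `rp (1/q) (y^q P^q) = y P` -/
theorem base_value {p q y₁₁ y₁₂ y₂₁ y₂₂ z₁₁ z₁₂ z₂₁ z₂₂ s : ℝ}
    (D : Sd p q y₁₁ y₁₂ y₂₁ y₂₂ z₁₁ z₁₂ z₂₁ z₂₂ s) (h₁₂ : 0 < y₁₂) (h₂₁ : 0 < y₂₁)
    (h₂₂ : y₂₂ < 0) (P : Matrix n n ℂ) (hP : P.PosDef) (hP1 : LibSch.pw q P = 1) :
    rp (1 / q) (((y₁₂ ^ q : ℝ) : ℂ) • rp q P) = (y₁₂ : ℂ) • P ∧
    rp (1 / q) (((y₂₁ ^ q : ℝ) : ℂ) • rp q P) = (y₂₁ : ℂ) • P ∧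
    FJ q (z₂₂ / |y₂₂| ^ (q - 1)) ((y₁₁ : ℂ) • P) (((y₂₁ ^ q : ℝ) : ℂ) • rp q P)
      (((y₁₂ ^ q : ℝ) : ℂ) • rp q P) ((y₂₂ : ℂ) • P) =
      s + z₂₂ / |y₂₂| ^ (q - 1) * |y₂₂| ^ q := by
  have hq0 : 0 < q := by linarith [D.hq]
  have r12 := k3a_root hq0 h₁₂ P hP
  have r21 := k3a_root hq0 h₂₁ P hP
  refine ⟨r12, r21, ?_⟩
  have hS := pw_tp q hq0 y₁₁ y₁₂ y₂₁ y₂₂ P hP.posSemidef
  unfold tp at hS
  unfold FJ
  rw [r12, r21, hS, D.hY, hP1, mul_one, pw_smul q hq0, hP1, mul_one]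

/-- **minimality of the base point**: `trace_young` for `G = tp z P^(q-1)`,
`S = fromBlocks (y₁₁P) (y₁₂P) (y₂₁P) X`, and for `G = -|y₂₂|^(q-1) P^(q-1)`, `S = X`:
`(1/q) FJ ≥ ∑' y z + (z₂₂ - lam |y₂₂|^(q-1)) Re tr P^(q-1) X - s/p - lam |y₂₂|^q/p`. -/
theorem base_min {p q y₁₁ y₁₂ y₂₁ y₂₂ z₁₁ z₁₂ z₂₁ z₂₂ s : ℝ}
    (D : Sd p q y₁₁ y₁₂ y₂₁ y₂₂ z₁₁ z₁₂ z₂₁ z₂₂ s) (h₁₁ : 0 < y₁₁) (h₁₂ : 0 < y₁₂)
    (h₂₁ : 0 < y₂₁) (h₂₂ : y₂₂ < 0) (P : Matrix n n ℂ) (hP : P.PosDef)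
    (hP1 : LibSch.pw q P = 1) (X : Matrix n n ℂ) :
    s + z₂₂ / |y₂₂| ^ (q - 1) * |y₂₂| ^ q ≤
      FJ q (z₂₂ / |y₂₂| ^ (q - 1)) ((y₁₁ : ℂ) • P) (((y₂₁ ^ q : ℝ) : ℂ) • rp q P)
        (((y₁₂ ^ q : ℝ) : ℂ) • rp q P) X := by
  have hq0 : 0 < q := by linarith [D.hq]
  have hp0 : 0 < p := D.hpq.pos
  have r12 := k3a_root hq0 h₁₂ P hP
  have r21 := k3a_root hq0 h₂₁ P hP
  set b := |y₂₂| with hb
  have hb0 : 0 < b := abs_pos.2 h₂₂.ne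
  have hby : y₂₂ = -b := by rw [hb, abs_of_neg h₂₂, neg_neg]
  set lam := z₂₂ / b ^ (q - 1) with hlam
  have hlam0 : 0 ≤ lam := div_nonneg D.hz₂₂ (Real.rpow_nonneg hb0.le _)
  have hlz : lam * b ^ (q - 1) = z₂₂ := div_mul_cancel₀ _ (Real.rpow_pos_of_pos hb0 _).ne'
  have hlq : lam * b ^ q = z₂₂ * b := by
    rw [← hlz, mul_assoc, ← Real.rpow_add_one hb0.ne', sub_add_cancel]
  set τ := (trace ((rp (q - 1) P)ᴴ * X)).re with hτ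
  have hPr := (pw_rp_conj p q D.hpq P hP).1
  rw [hP1] at hPr
  have hPps : (rp (q - 1) P).PosSemidef := (rp_posDef (q - 1) P hP).posSemidef
  -- first application
  have y1 := trace_young p q D.hpq (tp z₁₁ z₁₂ z₂₁ z₂₂ (rp (q - 1) P))
    (fromBlocks ((y₁₁ : ℂ) • P) ((y₁₂ : ℂ) • P) ((y₂₁ : ℂ) • P) X)
  rw [pw_tp p hp0 _ _ _ _ _ hPps, D.hZ, hPr, mul_one] at y1
  unfold tp at y1
  rw [trace_blocks, k3a_trace D.hpq P hP hP1, k3a_trace D.hpq P hP hP1,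
    k3a_trace D.hpq P hP hP1, k3a_traceX, ← hτ] at y1
  -- second application
  have y2 := trace_young p q D.hpq (((-(b ^ (q - 1)) : ℝ) : ℂ) • rp (q - 1) P) X
  rw [k3a_traceX, ← hτ, pw_smul p hp0, hPr, mul_one, abs_neg,
    abs_of_nonneg (Real.rpow_nonneg hb0.le _), ← Real.rpow_mul hb0.le] at y2
  have hpq1 : (q - 1) * p = q := by
    have := D.hpq.symm.sub_one_mul_conj
    exact this
  rw [hpq1] at y2
  have y3 := mul_le_mul_of_nonneg_left y2 hlam0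
  have e1 : lam * (-(b ^ (q - 1)) * τ) = -(z₂₂ * τ) := by
    rw [← hlz]; ring
  have e2 : lam * (b ^ q / p + LibSch.pw q X / q) = z₂₂ * b / p + lam * LibSch.pw q X / q := by
    rw [← hlq]; ring
  rw [e1, e2] at y3
  unfold FJ
  rw [r12, r21, hlq]
  have hYZ := D.hYZ
  rw [hby] at hYZ
  have hinv : 1 / p + 1 / q = 1 := by
    have := D.hpq.inv_add_inv_eq_one
    rw [one_div, one_div]
    exact this
  have f1 : z₁₁ * y₁₁ + z₁₂ * y₁₂ + z₂₁ * y₂₁ - s / p - z₂₂ * b / p ≤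
      (LibSch.pw q (fromBlocks ((y₁₁ : ℂ) • P) ((y₁₂ : ℂ) • P) ((y₂₁ : ℂ) • P) X) +
        lam * LibSch.pw q X) / q := by
    rw [add_div]
    linarith
  have f2 : z₁₁ * y₁₁ + z₁₂ * y₁₂ + z₂₁ * y₂₁ - s / p - z₂₂ * b / p = (s + z₂₂ * b) / q := by
    have h1 : z₁₁ * y₁₁ + z₁₂ * y₁₂ + z₂₁ * y₂₁ = s + z₂₂ * b := by linarith
    have h2 : 1 / q = 1 - 1 / p := by linarith
    rw [h1, div_eq_mul_one_div (s + z₂₂ * b) q, h2]
    ring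
  rw [f2] at f1
  exact (div_le_div_iff_of_pos_right hq0).1 f1

/-- `y^(q-1) Re tr P^(q-1) α^(1/q) ≤ y^q/p + tr α/q` (`trace_young`, `pw_rp`) -/
theorem young_side (p q : ℝ) (hpq : p.HolderConjugate q) (hq : 2 < q) (y : ℝ) (hy : 0 < y)
    (P : Matrix n n ℂ) (hP : P.PosDef) (hP1 : LibSch.pw q P = 1) (α : Matrix n n ℂ)
    (hα : α.PosDef) (hα1 : (trace α).re = y ^ q) :
    (trace ((rp (q - 1) P)ᴴ * (rp (1 / q) α - (y : ℂ) • P))).re ≤ 0 := by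
  have hq0 : 0 < q := by linarith
  have hp0 : 0 < p := hpq.pos
  have hPr := (pw_rp_conj p q hpq P hP).1
  rw [hP1] at hPr
  have y1 := trace_young p q hpq (((y ^ (q - 1) : ℝ) : ℂ) • rp (q - 1) P) (rp (1 / q) α)
  rw [k3a_traceX, pw_smul p hp0, hPr, mul_one, abs_of_nonneg (Real.rpow_nonneg hy.le _),
    ← Real.rpow_mul hy.le, pw_rp q hq0 α hα, hα1] at y1
  have hpq1 : (q - 1) * p = q := hpq.symm.sub_one_mul_conj
  rw [hpq1] at y1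
  have hinv : p⁻¹ + q⁻¹ = 1 := hpq.inv_add_inv_eq_one
  have e1 : y ^ q / p + y ^ q / q = y ^ (q - 1) * y := by
    rw [← Real.rpow_add_one hy.ne', sub_add_cancel, div_eq_mul_inv, div_eq_mul_inv, ← mul_add,
      hinv, mul_one]
  rw [e1] at y1
  have h1 := le_of_mul_le_mul_left y1 (Real.rpow_pos_of_pos hy _)
  have h2 := k3a_trace hpq P hP hP1 1 y
  rw [k3a_traceX, one_mul, one_mul] at h2
  rw [Matrix.mul_sub, trace_sub, Complex.sub_re, h2]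
  linarith

end Pool.Agent.LibSchQ
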