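import Pool.Agent.LibSchQ.K3a
import Pool.Agent.LibSchQ.J4b

/-! **K3b.**  The first order upper bound at the base point. -/

open Matrix
open scoped ComplexOrder

namespace Pool.Agent.LibSchQ

open Pool.Agent.LibSchP

variable {n : Type} [Fintype n] [DecidableEq n]

theorem k3b_lin {a K η : ℝ} (hη : 0 < η) (hK : 0 ≤ K)
    (h : ∀ t : ℝ, |t| ≤ η → t * a ≤ K * t ^ 2) : a = 0 := by
  have key : ∀ b : ℝ, (∀ t : ℝ, 0 < t → t ≤ η → t * b ≤ K * t ^ 2) → b ≤ 0 := by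
    intro b hb
    by_contra hcon
    push Not at hcon
    set t : ℝ := min η (b / (2 * (K + 1))) with ht
    have htpos : 0 < t := lt_min hη (by positivity)
    have h1 := hb t htpos (min_le_left _ _)
    have h2 : b ≤ K * t := by
      have : t * b ≤ t * (K * t) := by nlinarith
      exact le_of_mul_le_mul_left this htpos
    have h3 : t ≤ b / (2 * (K + 1)) := min_le_right _ _
    have h4 : K * t ≤ (K + 1) * t := by nlinarith
    have h5 : (K + 1) * t ≤ b / 2 := by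
      have : (K + 1) * t ≤ (K + 1) * (b / (2 * (K + 1))) := by gcongr
      have h6 : (K + 1) * (b / (2 * (K + 1))) = b / 2 := by field_simp
      linarith
    linarith
  apply le_antisymm
  · exact key a fun t ht hte => h t (by rw [abs_of_pos ht]; exact hte)
  · have := key (-a) fun t ht hte => by
      have := h (-t) (by rw [abs_neg, abs_of_pos ht]; exact hte)
      nlinarith
    linarith

theorem k3b_trace_smul (c d : ℝ) (X Y : Matrix n n ℂ) :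
    (trace (((c : ℂ) • X)ᴴ * ((d : ℂ) • Y))).re = c * d * (trace (Xᴴ * Y)).re := by
  rw [conjTranspose_smul, smul_mul_smul_comm, trace_smul]
  have : star (c : ℂ) * (d : ℂ) = ((c * d : ℝ) : ℂ) := by
    rw [Complex.star_def, Complex.conj_ofReal, Complex.ofReal_mul]
  rw [this, smul_eq_mul, Complex.re_ofReal_mul]

theorem k3b_trace_smul_left (c : ℝ) (X Y : Matrix n n ℂ) :
    (trace (((c : ℂ) • X)ᴴ * Y)).re = c * (trace (Xᴴ * Y)).re := by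
  have := k3b_trace_smul c 1 X Y
  rw [Complex.ofReal_one, one_smul, mul_one] at this
  exact this

theorem k3b_fr_smul {m : Type} [Fintype m] (t : ℝ) (X : Matrix m m ℂ) :
    fr ((t : ℂ) • X) = t ^ 2 * fr X := by
  rw [← nf_sq, ← nf_sq, nf_smul, mul_pow, Complex.norm_real, Real.norm_eq_abs, sq_abs]

/-- the gradient at the base point: `first_order` at `S⁰ = tp y P` and `trace_young` with
`G⁰ = tp z P^(q-1)` (`pw q (S⁰ + H) ≥ pw q S⁰ + q Re tr G⁰ᴴ H`) for `±tH`, `t → 0`. -/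
theorem base_gm {p q y₁₁ y₁₂ y₂₁ y₂₂ z₁₁ z₁₂ z₂₁ z₂₂ s : ℝ}
    (D : Sd p q y₁₁ y₁₂ y₂₁ y₂₂ z₁₁ z₁₂ z₂₁ z₂₂ s) (P : Matrix n n ℂ) (hP : P.PosDef)
    (hP1 : LibSch.pw q P = 1) (H : Matrix (n ⊕ n) (n ⊕ n) ℂ) :
    (trace ((gm q (tp y₁₁ y₁₂ y₂₁ y₂₂ P))ᴴ * H)).re =
      (trace ((tp z₁₁ z₁₂ z₂₁ z₂₂ (rp (q - 1) P))ᴴ * H)).re := by
  set S := tp y₁₁ y₁₂ y₂₁ y₂₂ P with hS
  set G := tp z₁₁ z₁₂ z₂₁ z₂₂ (rp (q - 1) P) with hG
  have hp : 0 < p := D.hpq.pos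
  have hq : 0 < q := D.hpq.symm.pos
  obtain ⟨hc1, hc2⟩ := pw_rp_conj p q D.hpq P hP
  have hpwS : LibSch.pw q S = s := by
    rw [hS, pw_tp q hq _ _ _ _ P hP.posSemidef, D.hY, hP1, mul_one]
  have hpwG : LibSch.pw p G = s := by
    rw [hG, pw_tp p hp _ _ _ _ _ (rp_posDef _ P hP).posSemidef, D.hZ, hc1, hP1, mul_one]
  have hPh : (rp (q - 1) P)ᴴ = rp (q - 1) P := rp_isHermitian _ _
  have hGS : (trace (Gᴴ * S)).re = s := by
    rw [hG, hS]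
    unfold tp
    rw [trace_blocks, k3b_trace_smul, k3b_trace_smul, k3b_trace_smul, k3b_trace_smul, hPh, hc2,
      hP1, ← D.hYZ]
    ring
  obtain ⟨C, η, hC, hη, hfo⟩ := first_order q D.hq S
  have hN : 0 ≤ nf H := nf_nonneg H
  have h0 : (trace (Gᴴ * H)).re - (trace ((gm q S)ᴴ * H)).re = 0 := by
    refine k3b_lin (η := η / (nf H + 1)) (K := C * fr H / q) (by positivity)
      (by have := fr_nonneg H; positivity) ?_
    intro t ht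
    have hnf : nf ((t : ℂ) • H) ≤ η := by
      rw [nf_smul, Complex.norm_real, Real.norm_eq_abs]
      calc |t| * nf H ≤ η / (nf H + 1) * (nf H + 1) := by
            apply mul_le_mul ht (by linarith) hN (by positivity)
        _ = η := by field_simp
    have h1 := hfo _ hnf
    rw [hpwS, k3b_fr_smul] at h1
    have h2 := trace_young p q D.hpq G (S + (t : ℂ) • H)
    rw [hpwG, Matrix.mul_add, trace_add, Complex.add_re, hGS, Matrix.mul_smul, trace_smul,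
      smul_eq_mul, Complex.re_ofReal_mul] at h2
    rw [Matrix.mul_smul, trace_smul, smul_eq_mul, Complex.re_ofReal_mul] at h1
    have h3 := (abs_le.1 h1).2
    have h4 : s / p + s / q = s := by
      have h5 : p⁻¹ + q⁻¹ = 1 := D.hpq.inv_add_inv_eq_one
      calc s / p + s / q = s * (p⁻¹ + q⁻¹) := by ring
        _ = s := by rw [h5, mul_one]
    have h6 : LibSch.pw q (S + (t : ℂ) • H) / q ≤
        (s + q * (t * (trace ((gm q S)ᴴ * H)).re) + C * (t ^ 2 * fr H)) / q := by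
      gcongr
      linarith
    have h7 : (s + q * (t * (trace ((gm q S)ᴴ * H)).re) + C * (t ^ 2 * fr H)) / q =
        s / q + t * (trace ((gm q S)ᴴ * H)).re + C * fr H / q * t ^ 2 := by
      field_simp
    rw [h7] at h6
    nlinarith
  linarith

theorem k3b_fr_off (B C : Matrix n n ℂ) :
    fr (fromBlocks (0 : Matrix n n ℂ) B C 0) = fr B + fr C := by
  rw [fr_eq_trace, trace_blocks, ← fr_eq_trace, ← fr_eq_trace, ← fr_eq_trace]
  have : fr (0 : Matrix n n ℂ) = 0 := by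
    rw [← nf_sq, nf_zero]; ring
  rw [this]; ring

theorem k3b_alpha {q : ℝ} (hq : 0 < q) (y : ℝ) (hy : 0 < y) (P : Matrix n n ℂ) (hP : P.PosDef)
    (hP1 : LibSch.pw q P = 1) :
    (((y ^ q : ℝ) : ℂ) • rp q P).PosDef ∧ (trace (((y ^ q : ℝ) : ℂ) • rp q P)).re = y ^ q := by
  have h0 : 0 < y ^ q := Real.rpow_pos_of_pos hy q
  constructor
  · have h1 : (0 : ℂ) < ((y ^ q : ℝ) : ℂ) := by exact_mod_cast h0
    exact (rp_posDef q P hP).smul h1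
  · rw [trace_smul, smul_eq_mul, Complex.re_ofReal_mul, ← pw_rp q hq _ (rp_posDef q P hP),
      rp_inv_rp q hq P hP, hP1, mul_one]

/-- one off-diagonal block along the segment -/
theorem k3b_side {p q : ℝ} (hpq : p.HolderConjugate q) (hq : 2 < q) (y : ℝ) (hy : 0 < y)
    (P : Matrix n n ℂ) (hP : P.PosDef) (hP1 : LibSch.pw q P = 1)
    (hr : rp (1 / q) (((y ^ q : ℝ) : ℂ) • rp q P) = (y : ℂ) • P)
    (A : Matrix n n ℂ) (hA : A.PosDef) (ht : (trace A).re = y ^ q) :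
    ∃ L η : ℝ, 0 ≤ L ∧ 0 < η ∧ ∀ t : ℝ, 0 ≤ t → t ≤ η →
      nf (rp (1 / q) (sg (((y ^ q : ℝ) : ℂ) • rp q P) A t) - (y : ℂ) • P) ≤ L * t ∧
      (trace ((rp (q - 1) P)ᴴ *
        (rp (1 / q) (sg (((y ^ q : ℝ) : ℂ) • rp q P) A t) - (y : ℂ) • P))).re ≤ 0 := by
  set α := ((y ^ q : ℝ) : ℂ) • rp q P with hα
  obtain ⟨hαp, hαt⟩ := k3b_alpha (by linarith) y hy P hP hP1
  obtain ⟨L, η, hL, hη, hLip⟩ := rp_lip_near (1 / q) α hαp
  set M : ℝ := nf (A - α) with hM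
  have hM0 : 0 ≤ M := nf_nonneg _
  refine ⟨L * M, min 1 (η / (M + 1)), by positivity, lt_min one_pos (by positivity), ?_⟩
  intro t ht0 htη
  have ht1 : t ≤ 1 := htη.trans (min_le_left _ _)
  have ht2 : t ≤ η / (M + 1) := htη.trans (min_le_right _ _)
  have hsg := sg_posDef α A hαp hA t ht0 ht1
  have hd : nf (sg α A t - α) = t * M := by
    unfold sg
    rw [add_sub_cancel_left, nf_smul, Complex.norm_real, Real.norm_eq_abs, abs_of_nonneg ht0]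
  constructor
  · have h1 := hLip (sg α A t) hsg (by
      rw [hd]
      calc t * M ≤ η / (M + 1) * (M + 1) := by
            apply mul_le_mul ht2 (by linarith) hM0 (by positivity)
        _ = η := by field_simp)
    rw [hr, hd] at h1
    calc _ ≤ L * (t * M) := h1
      _ = L * M * t := by ring
  · refine young_side p q hpq hq y hy P hP hP1 (sg α A t) hsg ?_
    have e : ∀ α' : Matrix n n ℂ, (trace (sg α' A t)).re =
        (trace α').re + t * ((trace A).re - (trace α').re) := by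
      intro α'
      unfold sg
      rw [trace_add, trace_smul, trace_sub, Complex.add_re, smul_eq_mul, Complex.re_ofReal_mul,
        Complex.sub_re]
    rw [e, hαt, ht]
    ring

/-- upper bound along the segment, to first order: `first_order` at `tp y P`, `base_gm`,
`young_side`, `trace_blocks`, `rp_lip_near`. -/
theorem base_upper {p q y₁₁ y₁₂ y₂₁ y₂₂ z₁₁ z₁₂ z₂₁ z₂₂ s : ℝ}
    (D : Sd p q y₁₁ y₁₂ y₂₁ y₂₂ z₁₁ z₁₂ z₂₁ z₂₂ s) (h₁₁ : 0 < y₁₁) (h₁₂ : 0 < y₁₂)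
    (h₂₁ : 0 < y₂₁) (h₂₂ : y₂₂ < 0) (P : Matrix n n ℂ) (hP : P.PosDef)
    (hP1 : LibSch.pw q P = 1) (A₁ A₂ : Matrix n n ℂ) (hA₁ : A₁.PosDef) (hA₂ : A₂.PosDef)
    (ht₁ : (trace A₁).re = y₂₁ ^ q) (ht₂ : (trace A₂).re = y₁₂ ^ q) :
    ∃ C η : ℝ, 0 ≤ C ∧ 0 < η ∧ ∀ t : ℝ, 0 ≤ t → t ≤ η →
      FJ q (z₂₂ / |y₂₂| ^ (q - 1)) ((y₁₁ : ℂ) • P)
        (sg (((y₂₁ ^ q : ℝ) : ℂ) • rp q P) A₁ t) (sg (((y₁₂ ^ q : ℝ) : ℂ) • rp q P) A₂ t)
        ((y₂₂ : ℂ) • P) ≤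
      s + z₂₂ / |y₂₂| ^ (q - 1) * |y₂₂| ^ q + C * t ^ 2 := by
  obtain ⟨hr2, hr1, hbase⟩ := base_value D h₁₂ h₂₁ h₂₂ P hP hP1
  obtain ⟨L₁, η₁, hL₁, hη₁, hs₁⟩ := k3b_side D.hpq D.hq y₂₁ h₂₁ P hP hP1 hr1 A₁ hA₁ ht₁
  obtain ⟨L₂, η₂, hL₂, hη₂, hs₂⟩ := k3b_side D.hpq D.hq y₁₂ h₁₂ P hP hP1 hr2 A₂ hA₂ ht₂
  obtain ⟨C, η₀, hC, hη₀, hfo⟩ := first_order q D.hq (tp y₁₁ y₁₂ y₂₁ y₂₂ P)
  refine ⟨C * (L₂ ^ 2 + L₁ ^ 2), min (min η₁ η₂) (η₀ / (L₂ + L₁ + 1)), by positivity,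
    lt_min (lt_min hη₁ hη₂) (by positivity), ?_⟩
  intro t ht0 ht
  have hta : t ≤ η₁ := ht.trans ((min_le_left _ _).trans (min_le_left _ _))
  have htb : t ≤ η₂ := ht.trans ((min_le_left _ _).trans (min_le_right _ _))
  have htc : t ≤ η₀ / (L₂ + L₁ + 1) := ht.trans (min_le_right _ _)
  obtain ⟨hn1, hg1⟩ := hs₁ t ht0 hta
  obtain ⟨hn2, hg2⟩ := hs₂ t ht0 htb
  set R₁ := rp (1 / q) (sg (((y₂₁ ^ q : ℝ) : ℂ) • rp q P) A₁ t) with hR₁
  set R₂ := rp (1 / q) (sg (((y₁₂ ^ q : ℝ) : ℂ) • rp q P) A₂ t) with hR₂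
  set H : Matrix (n ⊕ n) (n ⊕ n) ℂ :=
    fromBlocks 0 (R₂ - (y₁₂ : ℂ) • P) (R₁ - (y₂₁ : ℂ) • P) 0 with hH
  have hsum : tp y₁₁ y₁₂ y₂₁ y₂₂ P + H =
      fromBlocks ((y₁₁ : ℂ) • P) R₂ R₁ ((y₂₂ : ℂ) • P) := by
    rw [hH]
    unfold tp
    rw [fromBlocks_add]
    simp
  have hfrH : fr H = nf (R₂ - (y₁₂ : ℂ) • P) ^ 2 + nf (R₁ - (y₂₁ : ℂ) • P) ^ 2 := by
    rw [hH, k3b_fr_off, nf_sq, nf_sq]
  have hfrle : fr H ≤ (L₂ ^ 2 + L₁ ^ 2) * t ^ 2 := by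
    rw [hfrH]
    have a1 : nf (R₂ - (y₁₂ : ℂ) • P) ^ 2 ≤ (L₂ * t) ^ 2 := pow_le_pow_left₀ (nf_nonneg _) hn2 2
    have a2 : nf (R₁ - (y₂₁ : ℂ) • P) ^ 2 ≤ (L₁ * t) ^ 2 := pow_le_pow_left₀ (nf_nonneg _) hn1 2
    nlinarith
  have hnfH : nf H ≤ η₀ := by
    have b1 : fr H ≤ ((L₂ + L₁ + 1) * t) ^ 2 := by
      have : (L₂ ^ 2 + L₁ ^ 2) * t ^ 2 ≤ ((L₂ + L₁ + 1) * t) ^ 2 := by
        rw [mul_pow]
        apply mul_le_mul_of_nonneg_right _ (sq_nonneg t)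
        nlinarith [mul_nonneg hL₁ hL₂]
      linarith
    have b2 : nf H ≤ (L₂ + L₁ + 1) * t := by
      rw [← nf_sq] at b1
      exact le_of_sq_le_sq b1 (by positivity)
    calc nf H ≤ (L₂ + L₁ + 1) * t := b2
      _ ≤ (L₂ + L₁ + 1) * (η₀ / (L₂ + L₁ + 1)) := by gcongr
      _ = η₀ := by field_simp
  have h1 := (abs_le.1 (hfo H hnfH)).2
  have hgr : (trace ((gm q (tp y₁₁ y₁₂ y₂₁ y₂₂ P))ᴴ * H)).re ≤ 0 := by
    rw [base_gm D P hP hP1 H, hH]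
    unfold tp
    rw [trace_blocks, k3b_trace_smul_left, k3b_trace_smul_left, k3b_trace_smul_left,
      k3b_trace_smul_left, Matrix.mul_zero, trace_zero, Complex.zero_re, mul_zero, mul_zero]
    have c1 := mul_nonneg D.hz₁₂ (neg_nonneg.2 hg2)
    have c2 := mul_nonneg D.hz₂₁ (neg_nonneg.2 hg1)
    linarith
  have hb : FJ q (z₂₂ / |y₂₂| ^ (q - 1)) ((y₁₁ : ℂ) • P) (((y₂₁ ^ q : ℝ) : ℂ) • rp q P)
      (((y₁₂ ^ q : ℝ) : ℂ) • rp q P) ((y₂₂ : ℂ) • P) =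
      LibSch.pw q (tp y₁₁ y₁₂ y₂₁ y₂₂ P) +
        z₂₂ / |y₂₂| ^ (q - 1) * LibSch.pw q ((y₂₂ : ℂ) • P) := by
    unfold FJ tp
    rw [hr1, hr2]
  rw [hb] at hbase
  unfold FJ
  rw [← hR₁, ← hR₂, ← hsum]
  have hq0 : 0 < q := D.hpq.symm.pos
  have d1 : q * (trace ((gm q (tp y₁₁ y₁₂ y₂₁ y₂₂ P))ᴴ * H)).re ≤ 0 :=
    mul_nonpos_of_nonneg_of_nonpos hq0.le hgr
  have d2 : C * fr H ≤ C * (L₂ ^ 2 + L₁ ^ 2) * t ^ 2 := by
    rw [mul_assoc]; exact mul_le_mul_of_nonneg_left hfrle hC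
  linarith

end Pool.Agent.LibSchQ
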