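import Pool.Agent.LibSchQ.K3b
import Pool.Agent.LibSchQ.J6

/-! **K3c.**  The bound for `JV`. -/

open Matrix
open scoped ComplexOrder

namespace Pool.Agent.LibSchQ

open Pool.Agent.LibSchP

variable {n : Type} [Fintype n] [DecidableEq n]

omit [Fintype n] [DecidableEq n] in
theorem k3c_smul_posDef {A : Matrix n n ℂ} (hA : A.PosDef) {r : ℝ} (hr : 0 < r) :
    ((r : ℂ) • A).PosDef := by
  refine hA.smul ?_
  exact_mod_cast hr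

/-- **bound for `JV`**, `B = y₁₁ P`: `JV_concave` on the segment from the base point,
`le_JV` and `base_min`, `JV_le` and `base_upper`, `t → 0`. -/
theorem JV_bound_pd {p q y₁₁ y₁₂ y₂₁ y₂₂ z₁₁ z₁₂ z₂₁ z₂₂ s : ℝ}
    (D : Sd p q y₁₁ y₁₂ y₂₁ y₂₂ z₁₁ z₁₂ z₂₁ z₂₂ s) (h₁₁ : 0 < y₁₁) (h₁₂ : 0 < y₁₂)
    (h₂₁ : 0 < y₂₁) (h₂₂ : y₂₂ < 0) (P : Matrix n n ℂ) (hP : P.PosDef)
    (hP1 : LibSch.pw q P = 1) (A₁ A₂ : Matrix n n ℂ) (hA₁ : A₁.PosDef) (hA₂ : A₂.PosDef)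
    (ht₁ : (trace A₁).re = y₂₁ ^ q) (ht₂ : (trace A₂).re = y₁₂ ^ q) :
    JV q (z₂₂ / |y₂₂| ^ (q - 1)) ((y₁₁ : ℂ) • P) A₁ A₂ ≤
      s + z₂₂ / |y₂₂| ^ (q - 1) * |y₂₂| ^ q := by
  have hq := D.hq
  set lam : ℝ := z₂₂ / |y₂₂| ^ (q - 1) with hlamdef
  have hlam : 0 ≤ lam := div_nonneg D.hz₂₂ (Real.rpow_nonneg (abs_nonneg _) _)
  set c : ℝ := s + lam * |y₂₂| ^ q with hc
  have hα₁ : (((y₂₁ ^ q : ℝ) : ℂ) • rp q P).PosDef :=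
    k3c_smul_posDef (rp_posDef q P hP) (Real.rpow_pos_of_pos h₂₁ q)
  have hα₂ : (((y₁₂ ^ q : ℝ) : ℂ) • rp q P).PosDef :=
    k3c_smul_posDef (rp_posDef q P hP) (Real.rpow_pos_of_pos h₁₂ q)
  have h0 : c ≤ JV q lam ((y₁₁ : ℂ) • P) (((y₂₁ ^ q : ℝ) : ℂ) • rp q P)
      (((y₁₂ ^ q : ℝ) : ℂ) • rp q P) :=
    le_JV q lam _ _ _ c fun X => base_min D h₁₁ h₁₂ h₂₁ h₂₂ P hP hP1 X
  obtain ⟨C, η, hC, hη, hup⟩ := base_upper D h₁₁ h₁₂ h₂₁ h₂₂ P hP hP1 A₁ A₂ hA₁ hA₂ ht₁ ht₂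
  have key : ∀ t : ℝ, 0 < t → t ≤ min η 1 → JV q lam ((y₁₁ : ℂ) • P) A₁ A₂ ≤ c + C * t := by
    intro t ht htm
    have h1 := JV_concave q lam hq hlam ((y₁₁ : ℂ) • P) _ _ A₁ A₂ hα₁ hα₂ hA₁ hA₂ t ht.le
      (htm.trans (min_le_right _ _))
    have h2 := JV_le q lam hq hlam ((y₁₁ : ℂ) • P)
      (sg (((y₂₁ ^ q : ℝ) : ℂ) • rp q P) A₁ t) (sg (((y₁₂ ^ q : ℝ) : ℂ) • rp q P) A₂ t)
      ((y₂₂ : ℂ) • P)
    have h3 := hup t ht.le (htm.trans (min_le_left _ _))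
    have ht1 : t ≤ 1 := htm.trans (min_le_right _ _)
    have h4 : (1 - t) * c + t * JV q lam ((y₁₁ : ℂ) • P) A₁ A₂ ≤ c + C * t ^ 2 := by
      have := mul_le_mul_of_nonneg_left h0 (by linarith : (0 : ℝ) ≤ 1 - t)
      linarith
    have h5 : t * JV q lam ((y₁₁ : ℂ) • P) A₁ A₂ ≤ t * (c + C * t) := by nlinarith
    exact le_of_mul_le_mul_left h5 ht
  refine le_of_forall_pos_le_add fun ε hε => ?_
  set t : ℝ := min (min η 1) (ε / (C + 1)) with ht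
  have htpos : 0 < t := lt_min (lt_min hη one_pos) (div_pos hε (by linarith))
  have h6 := key t htpos (min_le_left _ _)
  have h7 : C * t ≤ ε := by
    have h8 : t ≤ ε / (C + 1) := min_le_right _ _
    have h9 : (C + 1) * t ≤ ε := by
      rw [le_div_iff₀ (by linarith : (0 : ℝ) < C + 1)] at h8
      linarith
    nlinarith
  linarith

end Pool.Agent.LibSchQ
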