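import Pool.Agent.LibSchQ.BP3

/-! **QS.**  The key inequality. -/

open Matrix
open scoped ComplexOrder

namespace Pool.Agent.LibSchQ

open Pool.Agent.LibSchP

variable {κ ν : Type} [Fintype κ] [Fintype ν] [DecidableEq κ] [DecidableEq ν]

/-- induction on `n` with `1 - μ ≤ (n+1)(q-2)` -/
theorem claim_all {q lam : ℝ} {s : κ → ℝ} {V : Matrix κ ν ℂ} {x : ν → ℝ}
    {O : Matrix ν ν ℂ} {θ : ν → ℝ} (D : Dat q lam s V x O θ) (μ : ℝ) (h0 : 0 ≤ μ)
    (h1 : μ < 1) : Claim q lam μ s V x O θ := by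
  have hδ : 0 < q - 2 := by linarith [D.hq]
  have key : ∀ n : ℕ, ∀ μ : ℝ, 0 ≤ μ → μ < 1 → 1 - μ ≤ (n + 1 : ℝ) * (q - 2) →
      Claim q lam μ s V x O θ := by
    intro n
    induction n with
    | zero =>
      intro μ h0 h1 h2
      have h4 : 1 - μ ≤ q - 2 := by
        simpa using h2
      rcases lt_or_eq_of_le h4 with h5 | h5
      · exact claim_base_lt D μ h0 h1 h5
      · exact claim_base_eq D μ h0 h1 h5
    | succ n ih =>
      intro μ h0 h1 h2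
      by_cases h3 : μ + (q - 2) < 1
      · refine claim_step D μ h0 h3 (ih _ (by linarith) h3 ?_)
        push_cast at h2
        linarith
      · have h4 : 1 - μ ≤ q - 2 := by linarith
        rcases lt_or_eq_of_le h4 with h5 | h5
        · exact claim_base_lt D μ h0 h1 h5
        · exact claim_base_eq D μ h0 h1 h5
  obtain ⟨n, hn⟩ := exists_nat_ge ((1 - μ) / (q - 2))
  refine key n μ h0 h1 ?_
  rw [div_le_iff₀ hδ] at hn
  linarith

/-- `Mm 0` is `V z Vᴴ s + s V wᴴ Vᴴ` -/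
theorem Mm_zero (s : κ → ℝ) (V : Matrix κ ν ℂ) (z w : Matrix ν ν ℂ) :
    Mm 0 s V z w = V * z * Vᴴ * dg s + dg s * (V * wᴴ * Vᴴ) := by
  ext i j
  have h1 : ∀ t : ℝ, |t| ^ ((0 : ℝ) / 2) = 1 := by
    intro t
    rw [zero_div, Real.rpow_zero]
  have h2 : ∀ t : ℝ, sp (1 - 0 / 2) t = t := by
    intro t
    rw [zero_div, sub_zero, sp_one]
  rw [Matrix.add_apply, dg, Matrix.mul_diagonal, Matrix.diagonal_mul]
  simp only [Mm, Matrix.of_apply, h1, h2, one_mul, mul_one]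
  rw [mul_comm ((s j : ℝ) : ℂ)]

/-- the value of the kernels at `μ = 0` -/
theorem qs_kf {q lam : ℝ} {s : κ → ℝ} {V : Matrix κ ν ℂ} {x : ν → ℝ}
    {O : Matrix ν ν ℂ} {θ : ν → ℝ} (D : Dat q lam s V x O θ) (z : Matrix ν ν ℂ) :
    kf (kc q 0) s V z + lam * kf (kc q 0) x O z + KK q 0 θ z =
      kt (fun a b => Ph (q - 1) 1 a b * b ^ 2) θ z := by
  have h1 : kc q 0 = fun _ b => |b| ^ q := by
    funext a b
    rw [kc, Real.rpow_zero, one_mul, sub_zero]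
  rw [h1, exact_right D z, KK, ← kt_add]
  unfold kt
  refine Finset.sum_congr rfl fun i _ => Finset.sum_congr rfl fun j _ => ?_
  congr 1
  have h2 : θ j ^ q = θ j ^ 2 * θ j ^ (q - 2) := by
    rw [← Real.rpow_two, ← Real.rpow_add (D.hθ j)]
    congr 1
    ring
  rw [sub_zero, sub_zero, sub_zero]
  beta_reduce
  rw [Real.rpow_zero, Real.rpow_two, h2]
  ring

/-- **QS**: `claim_all` at `μ = 0` and `exact_right` (`kc q 0 x y = |y|^q`),
`x^0 y^2 (Φ - y^(q-2)) + y^q = y² Φ` -/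
theorem qs {q lam : ℝ} {s : κ → ℝ} {V : Matrix κ ν ℂ} {x : ν → ℝ}
    {O : Matrix ν ν ℂ} {θ : ν → ℝ} (D : Dat q lam s V x O θ) (z w : Matrix ν ν ℂ) :
    ∑ i, ∑ j, Ph (q - 1) 1 |s i| |s j| *
        ‖(V * z * Vᴴ * dg s + dg s * (V * wᴴ * Vᴴ)) i j‖ ^ 2 +
      lam * ∑ i, ∑ j, Ph (q - 1) 1 |x i| |x j| *
        ‖(O * z * Oᴴ * dg x + dg x * (O * wᴴ * Oᴴ)) i j‖ ^ 2 ≤
      kt (fun a b => Ph (q - 1) 1 a b * b ^ 2) θ z +
        kt (fun a b => Ph (q - 1) 1 a b * b ^ 2) θ w := by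
  have h := claim_all D 0 le_rfl zero_lt_one z w
  unfold PF at h
  rw [sub_zero, sub_zero, Mm_zero, Mm_zero] at h
  rw [← qs_kf D z, ← qs_kf D w]
  linarith

end Pool.Agent.LibSchQ
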