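import Pool.Agent.LibSchQ.B2

/-! **Y1.**  Second divided difference of `|x|^q` with a double node, `q > 2`. -/

open MeasureTheory Set

namespace Pool.Agent.LibSchQ

open Pool.Agent.LibSchP

/-- `f[a,a,l]` for `f = |·|^q` -/
noncomputable def G2 (q a l : ℝ) : ℝ :=
  if l = a then q * (q - 1) / 2 * |a| ^ (q - 2) else
    (|l| ^ q - |a| ^ q - q * sp (q - 1) a * (l - a)) / (l - a) ^ 2

theorem y1_sp_eq (a x : ℝ) (ha : 1 < a) : |x| ^ (a - 1) * x = sp a x := by
  rcases lt_trichotomy x 0 with hx | hx | hx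
  · have h1 : ¬ (0 ≤ x) := not_le.mpr hx
    unfold sp
    rw [if_neg h1, abs_of_neg hx]
    have h2 : (0 : ℝ) < -x := by linarith
    have h3 : (-x) ^ a = (-x) ^ (a - 1) * (-x) := by
      have h := Real.rpow_add h2 (a - 1) 1
      rw [Real.rpow_one] at h
      rw [← h]
      congr 1
      ring
    rw [h3]
    ring
  · subst hx
    unfold sp
    rw [if_pos le_rfl, mul_zero, Real.zero_rpow (by linarith)]
  · unfold sp
    rw [if_pos hx.le, abs_of_pos hx]
    have h := Real.rpow_add hx (a - 1) 1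
    rw [Real.rpow_one] at h
    rw [← h]
    congr 1
    ring

theorem hasDerivAt_abs_rpow (q x : ℝ) (hq : 2 < q) :
    HasDerivAt (fun x : ℝ => |x| ^ q) (q * sp (q - 1) x) x := by
  have h := _root_.hasDerivAt_abs_rpow x (p := q) (by linarith)
  refine h.congr_deriv ?_
  rw [← y1_sp_eq (q - 1) x (by linarith)]
  have : q - 1 - 1 = q - 2 := by ring
  rw [this]
  ring

theorem hasDerivAt_sp (q x : ℝ) (hq : 2 < q) :
    HasDerivAt (sp (q - 1)) ((q - 1) * |x| ^ (q - 2)) x := by
  rcases lt_trichotomy x 0 with hx | hx | hx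
  · have h1 : HasDerivAt (fun y : ℝ => -((-y) ^ (q - 1))) ((q - 1) * |x| ^ (q - 2)) x := by
      have h2 : HasDerivAt (fun y : ℝ => -y) (-1) x := hasDerivAt_neg x
      have h3 := h2.rpow_const (p := q - 1) (Or.inl (by linarith : -x ≠ 0))
      refine h3.neg.congr_deriv ?_
      rw [abs_of_neg hx]
      have : q - 1 - 1 = q - 2 := by ring
      rw [this]
      ring
    refine h1.congr_of_eventuallyEq ?_
    filter_upwards [gt_mem_nhds hx] with y hy
    unfold sp
    rw [if_neg (not_le.mpr hy)]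
  · subst hx
    have e0 : (q - 1) * |(0 : ℝ)| ^ (q - 2) = 0 := by
      rw [abs_zero, Real.zero_rpow (by linarith), mul_zero]
    rw [e0]
    have hR : HasDerivWithinAt (sp (q - 1)) 0 (Set.Ici 0) 0 := by
      have h3 : HasDerivAt (fun y : ℝ => y ^ (q - 1)) ((q - 1) * (0 : ℝ) ^ (q - 1 - 1)) 0 :=
        Real.hasDerivAt_rpow_const (Or.inr (by linarith))
      rw [Real.zero_rpow (by linarith), mul_zero] at h3
      refine h3.hasDerivWithinAt.congr (fun y hy => ?_) ?_
      · unfold sp
        rw [if_pos (Set.mem_Ici.mp hy)]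
      · unfold sp
        rw [if_pos le_rfl]
    have hL : HasDerivWithinAt (sp (q - 1)) 0 (Set.Iic 0) 0 := by
      have h2 : HasDerivAt (fun y : ℝ => -y) (-1) (0 : ℝ) := hasDerivAt_neg 0
      have h3 := h2.rpow_const (p := q - 1) (Or.inr (by linarith))
      have h4 := h3.neg
      have e1 : -(-1 * (q - 1) * (-(0 : ℝ)) ^ (q - 1 - 1)) = 0 := by
        rw [neg_zero, Real.zero_rpow (by linarith), mul_zero, neg_zero]
      rw [e1] at h4
      have hz : sp (q - 1) 0 = -((-(0 : ℝ)) ^ (q - 1)) := by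
        unfold sp
        rw [if_pos le_rfl, neg_zero, Real.zero_rpow (by linarith), neg_zero]
      refine h4.hasDerivWithinAt.congr (fun y hy => ?_) hz
      rcases eq_or_lt_of_le (Set.mem_Iic.mp hy) with h | h
      · rw [h]
        exact hz
      · unfold sp
        rw [if_neg (not_le.mpr h)]
        rfl
    have h := hL.union hR
    rw [Set.Iic_union_Ici, hasDerivWithinAt_univ] at h
    exact h
  · have h1 : HasDerivAt (fun y : ℝ => y ^ (q - 1)) ((q - 1) * |x| ^ (q - 2)) x := by
      have h3 : HasDerivAt (fun y : ℝ => y ^ (q - 1)) ((q - 1) * x ^ (q - 1 - 1)) x :=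
        Real.hasDerivAt_rpow_const (Or.inl hx.ne')
      refine h3.congr_deriv ?_
      rw [abs_of_pos hx]
      have : q - 1 - 1 = q - 2 := by ring
      rw [this]
    refine h1.congr_of_eventuallyEq ?_
    filter_upwards [lt_mem_nhds hx] with y hy
    unfold sp
    rw [if_pos hy.le]

theorem G2_expand (q a l : ℝ) :
    |l| ^ q = |a| ^ q + q * sp (q - 1) a * (l - a) + G2 q a l * (l - a) ^ 2 := by
  unfold G2
  split_ifs with h
  · rw [h]
    ring
  · have h1 : (l - a) ^ 2 ≠ 0 := pow_ne_zero 2 (sub_ne_zero.mpr h)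
    rw [div_mul_cancel₀ _ h1]
    ring

theorem G2_symm (q a b : ℝ) (hq : 2 < q) : G2 q a b + G2 q b a = q * dps q a b := by
  unfold G2 dps
  by_cases h : a = b
  · subst h
    simp only [if_true]
    ring
  · have h' : ¬ b = a := fun h1 => h h1.symm
    rw [if_neg h, if_neg h', if_neg h]
    have h1 : b - a ≠ 0 := sub_ne_zero.mpr h'
    have h2 : a - b ≠ 0 := sub_ne_zero.mpr h
    have h3 : (a - b) ^ 2 = (b - a) ^ 2 := by ring
    rw [h3, ← add_div, ← mul_div_assoc, div_eq_div_iff (pow_ne_zero 2 h1) h2]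
    ring

/-- e.g. `G2 q a l = q(q-1) ∫_0^1 (1-t)|a + t(l-a)|^(q-2) dt`, or Taylor-Lagrange -/
theorem G2_continuous (q a : ℝ) (hq : 2 < q) : Continuous (G2 q a) := by
  rw [continuous_iff_continuousAt]
  intro l
  by_cases hl : l = a
  · subst hl
    -- the derivative of the remainder
    set F : ℝ → ℝ := fun x => |x| ^ q - |l| ^ q - q * sp (q - 1) l * (x - l) -
      q * (q - 1) / 2 * |l| ^ (q - 2) * (x - l) ^ 2 with hF
    have hF' : ∀ x, HasDerivAt F (q * (sp (q - 1) x - sp (q - 1) l -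
        (x - l) * ((q - 1) * |l| ^ (q - 2)))) x := by
      intro x
      have h1 := hasDerivAt_abs_rpow q x hq
      have h2 : HasDerivAt (fun x : ℝ => x - l) 1 x := (hasDerivAt_id x).sub_const l
      have h3 := h2.const_mul (q * sp (q - 1) l)
      have h4 := (h2.pow 2).const_mul (q * (q - 1) / 2 * |l| ^ (q - 2))
      have h5 := ((h1.sub_const (|l| ^ q)).sub h3).sub h4
      refine h5.congr_deriv ?_
      simp only [Nat.cast_ofNat, Nat.reduceSub, pow_one, mul_one]
      ring
    have hsm := hasDerivAt_iff_isLittleO.mp (hasDerivAt_sp q l hq)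
    rw [Metric.continuousAt_iff]
    intro e he
    have hqpos : 0 < q := by linarith
    have hc : 0 < e / (2 * q) := by positivity
    have hev := (Asymptotics.isLittleO_iff.mp hsm) hc
    rw [Metric.eventually_nhds_iff] at hev
    obtain ⟨δ, hδ, hball⟩ := hev
    refine ⟨δ, hδ, ?_⟩
    intro x hx
    rw [Real.dist_eq] at hx ⊢
    by_cases hxl : x = l
    · rw [hxl, sub_self, abs_zero]
      exact he
    · -- bound of `F x`
      have hFl : F l = 0 := by simp [hF]
      have hbound : ‖F x - F l‖ ≤ (e / 2 * |x - l|) * ‖x - l‖ := by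
        refine Convex.norm_image_sub_le_of_norm_hasDerivWithin_le (s := segment ℝ l x)
          (f' := fun y => q * (sp (q - 1) y - sp (q - 1) l - (y - l) * ((q - 1) * |l| ^ (q - 2))))
          (fun y _ => (hF' y).hasDerivWithinAt) ?_ (convex_segment l x)
          (left_mem_segment ℝ l x) (right_mem_segment ℝ l x)
        intro y hy
        have hyl : |y - l| ≤ |x - l| := by
          have := norm_sub_le_of_mem_segment hy
          simpa [Real.norm_eq_abs] using this
        have h6 := hball (y := y) (by rw [Real.dist_eq]; exact lt_of_le_of_lt hyl hx)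
        rw [smul_eq_mul, Real.norm_eq_abs, Real.norm_eq_abs] at h6
        rw [Real.norm_eq_abs, abs_mul, abs_of_pos hqpos]
        calc q * |sp (q - 1) y - sp (q - 1) l - (y - l) * ((q - 1) * |l| ^ (q - 2))|
            ≤ q * (e / (2 * q) * |y - l|) := by gcongr
          _ = e / 2 * |y - l| := by field_simp
          _ ≤ e / 2 * |x - l| := by gcongr
      rw [hFl, sub_zero, Real.norm_eq_abs, Real.norm_eq_abs] at hbound
      have hpos : 0 < |x - l| := abs_pos.mpr (sub_ne_zero.mpr hxl)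
      have hG : G2 q l x - G2 q l l = F x / (x - l) ^ 2 := by
        unfold G2
        rw [if_neg hxl, if_pos rfl, hF]
        have h1 : (x - l) ^ 2 ≠ 0 := pow_ne_zero 2 (sub_ne_zero.mpr hxl)
        rw [eq_div_iff h1, sub_mul, div_mul_cancel₀ _ h1]
      rw [hG, abs_div, abs_pow, div_lt_iff₀ (by positivity)]
      calc |F x| ≤ e / 2 * |x - l| * |x - l| := hbound
        _ = e / 2 * |x - l| ^ 2 := by ring
        _ < e * |x - l| ^ 2 := by
          have : 0 < |x - l| ^ 2 := by positivity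
          nlinarith
  · have h1 : ContinuousAt (fun l : ℝ =>
        (|l| ^ q - |a| ^ q - q * sp (q - 1) a * (l - a)) / (l - a) ^ 2) l := by
      have h2 : (l - a) ^ 2 ≠ 0 := pow_ne_zero 2 (sub_ne_zero.mpr hl)
      have h3 : ContinuousAt (fun x : ℝ => |x| ^ q) l := (hasDerivAt_abs_rpow q l hq).continuousAt
      refine ContinuousAt.div ?_ ?_ h2
      · exact (h3.sub continuousAt_const).sub (by fun_prop)
      · fun_prop
    refine h1.congr ?_
    filter_upwards [isOpen_ne.mem_nhds hl] with y hy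
    unfold G2
    rw [if_neg hy]

/-- modulus of continuity -/
theorem modulus (g : ℝ → ℝ) (hg : Continuous g) (R ε : ℝ) (hε : 0 < ε) : ∃ C : ℝ, 0 ≤ C ∧
    ∀ x y : ℝ, |x| ≤ R → |y| ≤ R → (g x - g y) ^ 2 ≤ ε + C * (x - y) ^ 2 := by
  have hK : IsCompact (Set.Icc (-R) R) := isCompact_Icc
  have huc := hK.uniformContinuousOn_of_continuous hg.continuousOn
  rw [Metric.uniformContinuousOn_iff] at huc
  obtain ⟨δ, hδ, hu⟩ := huc (Real.sqrt ε) (Real.sqrt_pos.mpr hε)
  obtain ⟨M, hM⟩ := hK.exists_bound_of_continuousOn hg.continuousOn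
  refine ⟨(2 * |M|) ^ 2 / δ ^ 2, by positivity, ?_⟩
  intro x y hx hy
  have hx' : x ∈ Set.Icc (-R) R := abs_le.mp hx
  have hy' : y ∈ Set.Icc (-R) R := abs_le.mp hy
  by_cases hd : dist x y < δ
  · have h1 := hu x hx' y hy' hd
    rw [Real.dist_eq] at h1
    have h2 : (g x - g y) ^ 2 ≤ ε := by
      rw [← sq_abs, ← Real.sq_sqrt hε.le]
      exact pow_le_pow_left₀ (abs_nonneg _) h1.le 2
    have h3 : 0 ≤ (2 * |M|) ^ 2 / δ ^ 2 * (x - y) ^ 2 := by positivity
    linarith
  · push Not at hd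
    rw [Real.dist_eq] at hd
    have h1 : |g x - g y| ≤ 2 * |M| := by
      have h2 := hM x hx'
      have h3 := hM y hy'
      rw [Real.norm_eq_abs] at h2 h3
      have h4 := abs_sub (g x) (g y)
      have h5 := le_abs_self M
      linarith
    have h6 : (g x - g y) ^ 2 ≤ (2 * |M|) ^ 2 := by
      rw [← sq_abs]
      exact pow_le_pow_left₀ (abs_nonneg _) h1 2
    have h7 : δ ^ 2 ≤ (x - y) ^ 2 := by
      rw [← sq_abs (x - y)]
      exact pow_le_pow_left₀ hδ.le hd 2
    have h8 : (2 * |M|) ^ 2 ≤ (2 * |M|) ^ 2 / δ ^ 2 * (x - y) ^ 2 := by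
      calc (2 * |M|) ^ 2 = (2 * |M|) ^ 2 / δ ^ 2 * δ ^ 2 := by field_simp
        _ ≤ _ := by gcongr
    linarith

end Pool.Agent.LibSchQ
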